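import Pool.Agent.helper40.L9.JCore

/-!
# The joint stage: full solutions in labels

`Core`, `SdR`, `SdV`: all constraints of the labels of `v1 .. v5`, of the links and of `u 0`, with
everything around labelled: `z` the outer link of `v1`, `w` its own neighbour, `b` the own
neighbour of the last link `y`, `c` the second neighbour of `b`, `l` the other neighbour of `z`,
`b0, c0` the same for the first link `x`.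
-/

namespace Pool.Agent.helper40.L9.J

/-- distance at least two -/
def gp (m n : ℕ) : Prop := m + 2 ≤ n ∨ n + 2 ≤ m

instance (m n : ℕ) : Decidable (gp m n) := by unfold gp; infer_instance

/-- the indices of the odd labels which are not `r, s, t` -/
def al3 (r s t : ℕ) : ℕ :=
  un 31 fun i => if 2 * i + 1 = r ∨ 2 * i + 1 = s ∨ 2 * i + 1 = t then 0 else sg i

/-- the indices of the odd labels which are not `r, s` -/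
def al2 (r s : ℕ) : ℕ := un 31 fun i => if 2 * i + 1 = r ∨ 2 * i + 1 = s then 0 else sg i

/-- the indices of the even labels which are not `p, q` -/
def ev2 (p q : ℕ) : ℕ := un 31 fun i => if 2 * i = p ∨ 2 * i = q then 0 else sg i

/-- the path `v1 .. v5` -/
def Core (z3 v1 v2 v3 v4 v5 : ℕ) : Prop :=
  v1 ≤ 9 ∧ v2 ≤ 9 ∧ v3 ≤ 9 ∧ v4 ≤ 9 ∧ v5 ≤ 9 ∧ v3 % 2 = 0 ∧
  gp v1 v2 ∧ gp v2 v3 ∧ gp v3 v4 ∧ gp v4 v5 ∧ v1 ≠ v3 ∧ v2 ≠ v4 ∧ v3 ≠ v5 ∧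
  gp v3 z3 ∧ v2 ≠ z3 ∧ v4 ≠ z3

/-- side `A`, real chord -/
def SdR (z w b c l v1 v2 v3 v4 v5 y : ℕ) : Prop :=
  y ≤ 9 ∧ y % 2 = 1 ∧ y ≠ z ∧ y ≠ b ∧ y ≠ c ∧ gp y v1 ∧ gp y v4 ∧ y ≠ v2 ∧ y ≠ v3 ∧ y ≠ v5 ∧
  gp v1 z ∧ v1 ≠ l ∧ v1 ≠ w ∧ v1 ≠ b ∧ v1 ≠ v4 ∧ v2 ≠ z ∧ v4 ≠ b

/-- side `A`, virtual chord, `v1` odd (then `T` is not needed) -/
def SdV (z w b c l b0 c0 L v1 v2 v3 v4 v5 y x u : ℕ) : Prop :=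
  y ≤ 9 ∧ y % 2 = 1 ∧ y ≠ z ∧ y ≠ b ∧ y ≠ c ∧ gp y v1 ∧ y ≠ v2 ∧
  x ≤ 9 ∧ x % 2 = 1 ∧ x ≠ b0 ∧ x ≠ c0 ∧ gp x v4 ∧ gp x u ∧ x ≠ v3 ∧ x ≠ v5 ∧
  u % 2 = 0 ∧ (kk L (y / 2)).testBit (u / 2) = true ∧
  v1 % 2 = 1 ∧ gp v1 z ∧ v1 ≠ l ∧ v1 ≠ w ∧ v1 ≠ b ∧ v2 ≠ z ∧ v4 ≠ b0 ∧ v4 ≠ u

/-- side `A`, virtual chord, last link `y` even; `d, d'` the neighbours of `b`, `q` the own
neighbour of `T` -/
def SdY (z b d q l b0 c0 v1 v2 v3 v4 v5 y x u T : ℕ) : Prop :=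
  y ≤ 9 ∧ y % 2 = 0 ∧ gp y b ∧ y ≠ d ∧ y ≠ q ∧ y ≠ T ∧ gp y v1 ∧ y ≠ v2 ∧
  x ≤ 9 ∧ x % 2 = 1 ∧ x ≠ b0 ∧ x ≠ c0 ∧ gp x v4 ∧ gp x u ∧ x ≠ v3 ∧ x ≠ v5 ∧
  v1 % 2 = 0 ∧ gp v1 z ∧ v1 ≠ l ∧ v1 ≠ T ∧ v4 % 2 = 0 ∧ v4 ≠ u ∧ v2 % 2 = 0

/-- the dangerous pairs, virtual - virtual: `O`, then `A, L, B` and `A', L', B'` -/
def dVV : List (ℕ × ℕ × ℕ × ℕ × ℕ × ℕ × ℕ) :=
  [(5, 12, 25, 13, 12, 28, 13), (5, 12, 26, 13, 12, 28, 13), (5, 12, 28, 13, 12, 25, 13),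
   (5, 12, 28, 13, 12, 26, 13), (5, 12, 28, 13, 12, 28, 13), (9, 3, 7, 11, 3, 7, 11),
   (9, 3, 7, 11, 3, 14, 11), (9, 3, 7, 11, 3, 22, 11), (9, 3, 14, 11, 3, 7, 11),
   (9, 3, 22, 11, 3, 7, 11), (9, 5, 13, 13, 10, 7, 11), (9, 5, 14, 13, 10, 7, 11),
   (9, 5, 28, 13, 10, 7, 11), (9, 5, 28, 13, 10, 14, 11), (9, 5, 28, 13, 10, 22, 11),
   (9, 10, 7, 11, 5, 13, 13), (9, 10, 7, 11, 5, 14, 13), (9, 10, 7, 11, 5, 28, 13),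
   (9, 10, 14, 11, 5, 28, 13), (9, 10, 22, 11, 5, 28, 13), (9, 12, 13, 13, 12, 28, 13),
   (9, 12, 14, 13, 12, 28, 13), (9, 12, 28, 13, 12, 13, 13), (9, 12, 28, 13, 12, 14, 13),
   (9, 12, 28, 13, 12, 28, 13), (10, 3, 7, 11, 3, 7, 11), (10, 3, 7, 11, 3, 11, 11),
   (10, 3, 7, 11, 3, 19, 11), (10, 3, 11, 11, 3, 7, 11), (10, 3, 19, 11, 3, 7, 11)]

/-- the dangerous virtual chords against a real chord: `O, A, L, B` (and `A' = O`) -/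
def dVR : List (ℕ × ℕ × ℕ × ℕ) :=
  [(5, 3, 7, 7), (5, 6, 14, 7), (5, 12, 28, 13), (9, 3, 7, 11), (9, 12, 28, 13),
   (10, 3, 7, 11), (10, 6, 14, 14), (10, 12, 28, 14)]

end Pool.Agent.helper40.L9.J
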