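import Pool.Agent.helper33.L9.Config

/-!
# The joint stage for `U_5`'s: definitions

`JSt G X L f`: `f` is a valid labelling of `L` with labels at most nine; a labelled vertex `e` of
wrong parity (`Bad`) may be near an unlabelled vertex `v` only if `Tol`: `v - b - e` with own edge
`v b`, `cc v = cc b = 2` (so `v, b` is an own component), `b` labelled, `e` a cross neighbour of
`b`, the other cross neighbour of `b` labelled with the right parity.

`JExt G X`: every `U_5` with `z1 ≠ z5` can be labelled in the joint stage.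
-/

set_option linter.unusedSectionVars false

namespace Pool.Agent.helper40.L9

open Finset Classical Helper33.L9
open Helper42.L9 hiding near

variable {V : Type*} [Fintype V]

/-- wrong parity -/
def Bad (X : V → Prop) (f : V → ℕ) (e : V) : Prop := ¬ (X e ↔ Even (f e))

/-- the unlabelled vertex `v` may be near the bad vertex `e` -/
def Tol (G : SimpleGraph V) (X L : V → Prop) (f : V → ℕ) (e v : V) : Prop :=
  cc G X v = 2 ∧ ∃ b, ownR G X v b ∧ L b ∧ cc G X b = 2 ∧ e ∈ cr G X b ∧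
    ∀ e' ∈ cr G X b, e' ≠ e → L e' ∧ ¬ Bad X f e'

/-- states of the joint stage -/
structure JSt (G : SimpleGraph V) (X L : V → Prop) (f : V → ℕ) : Prop where
  le : ∀ v, L v → f v ≤ 9
  adj : ∀ u v, L u → L v → G.Adj u v → f u + 2 ≤ f v ∨ f v + 2 ≤ f u
  ne : ∀ u v, L u → L v → near G u v → f u ≠ f v
  adjL : ∀ e v, L e → Bad X f e → G.Adj e v → L v
  tol : ∀ e v, L e → Bad X f e → ¬ L v → near G e v → Tol G X L f e v

/-- the vertices of a `U_5` which are removed (and labelled in the joint stage) -/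
def LamU (v1 v2 v3 v4 v5 : V) (kA kB : ℕ) (uA vA yA uB vB yB : ℕ → V) (x : V) : Prop :=
  x = v1 ∨ x = v2 ∨ x = v3 ∨ x = v4 ∨ x = v5 ∨
  (∃ i, i < kA ∧ (x = uA i ∨ x = vA i)) ∨ (∃ i, i ≤ kA ∧ x = yA i) ∨
  (∃ i, i < kB ∧ (x = uB i ∨ x = vB i)) ∨ (∃ i, i ≤ kB ∧ x = yB i)

/-- the extension theorem of the joint stage -/
def JExt (G : SimpleGraph V) (X : V → Prop) : Prop :=
  ∀ (Z S : Finset V), InvZ G X Z → StuckZ G X Z S →
    ∀ (v1 v2 v3 v4 v5 z1 z3 z5 l1 l5 : V) (kA kB : ℕ)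
      (pA uA vA qA yA pB uB vB qB yB : ℕ → V),
      U5 G X Z S v1 v2 v3 v4 v5 z1 z3 z5 l1 l5 kA kB pA uA vA qA yA pB uB vB qB yB →
      z1 ≠ z5 →
      ∀ (L : V → Prop) (f : V → ℕ), JSt G X L f →
        (∀ x, LamU v1 v2 v3 v4 v5 kA kB uA vA yA uB vB yB x → ¬ L x) →
        L z1 → L z3 → L z5 → L l1 → L l5 →
        (∀ w, ownR G X z1 w → ¬ L w → ¬ LamU v1 v2 v3 v4 v5 kA kB uA vA yA uB vB yB w →
          cc G X w = 2) →
        (∀ w, ownR G X z5 w → ¬ L w → ¬ LamU v1 v2 v3 v4 v5 kA kB uA vA yA uB vB yB w →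
          cc G X w = 2) →
        (∀ b, ownR G X (yA kA) b → ¬ L b → ¬ LamU v1 v2 v3 v4 v5 kA kB uA vA yA uB vB yB b →
          cc G X b = 2) →
        (∀ b, ownR G X (yB kB) b → ¬ L b → ¬ LamU v1 v2 v3 v4 v5 kA kB uA vA yA uB vB yB b →
          cc G X b = 2) →
        ∃ f' : V → ℕ, JSt G X (fun x => L x ∨ LamU v1 v2 v3 v4 v5 kA kB uA vA yA uB vB yB x) f'

/-- region theorem (stack form) for the `U_5`'s with `z1 = z5` -/
def K5Region (G : SimpleGraph V) (X : V → Prop) : Prop :=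
  ∀ (Z S : Finset V), InvZ G X Z → StuckZ G X Z S →
    ∀ (v1 v2 v3 v4 v5 z1 z3 z5 l1 l5 : V) (kA kB : ℕ)
      (pA uA vA qA yA pB uB vB qB yB : ℕ → V),
      U5 G X Z S v1 v2 v3 v4 v5 z1 z3 z5 l1 l5 kA kB pA uA vA qA yA pB uB vB qB yB →
      z1 = z5 → ∃ Lam, Region G X Z Lam

end Pool.Agent.helper40.L9
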