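import Mathlib.Combinatorics.SimpleGraph.Basic
import Mathlib.Data.Fintype.Card
import Mathlib.Data.Finset.Lattice.Fold
import Mathlib.Data.Fintype.EquivFin
import Mathlib.Algebra.Ring.Parity
import Mathlib.Tactic.Linarith
import Mathlib.Tactic.Push

/-!
# Parity-last: small sets labelled last with labels in parity

Abstract setting: `A` symmetric (adjacency), `Q` symmetric, only between vertices of one side
(distance at most two, and artificial pairs), `X` the side.

* `ParOK L f`: on `L` the labels are `≤ 9`, of the parity of the side, `Q`-related vertices have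
  different labels, and the labels of adjacent vertices of different sides do not differ by one.
* `ParExt S`: whatever is labelled outside `S`, the labelling extends to `S`.
* `parExt_family`: pairwise disjoint sets with `ParExt` can be labelled one after the other.
* `list_ext`: the list form of `ParExt` for `S = range s`.

Dynamic form: a family `S i` of pairwise disjoint sets, each with its own artificial relation
`R i`, which must be respected as long as `S i` is not labelled.

* `OK T L f`: `T` the indices of the sets not yet labelled.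
* `Ext i`: the set `S i` can be labelled next, whatever the rest is.
* `ext_family`: all sets can be labelled one after the other.
* `ext_list`: the list form of `Ext i`.
-/

set_option autoImplicit false

namespace Pool.Agent.helper40.L9

open Finset
open scoped Classical

variable {V : Type*}

/-- a partial labelling in parity -/
structure ParOK (A Q : V → V → Prop) (X : V → Prop) (L : V → Prop) (f : V → ℕ) : Prop where
  le : ∀ v, L v → f v ≤ 9
  par : ∀ v, L v → (X v ↔ Even (f v))
  q : ∀ u v, L u → L v → Q u v → f u ≠ f v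
  cross : ∀ u v, L u → L v → A u v → ¬ (X u ↔ X v) → f u + 1 ≠ f v

/-- `S` can be labelled last, in parity -/
def ParExt (A Q : V → V → Prop) (X : V → Prop) (S : V → Prop) : Prop :=
  ∀ (L : V → Prop) (f : V → ℕ), (∀ v, S v → ¬ L v) → ParOK A Q X L f →
    ∃ f' : V → ℕ, (∀ v, ¬ S v → f' v = f v) ∧ ParOK A Q X (fun v => L v ∨ S v) f'

variable {A Q : V → V → Prop} {X : V → Prop}

theorem ParOK.congr {L L' : V → Prop} {f : V → ℕ} (h : ParOK A Q X L f) (hL : ∀ v, L v ↔ L' v) :
    ParOK A Q X L' f := by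
  have : L = L' := by
    funext v
    exact propext (hL v)
  rw [← this]
  exact h

theorem ParOK.mono {L L' : V → Prop} {f : V → ℕ} (h : ParOK A Q X L f) (hL : ∀ v, L' v → L v) :
    ParOK A Q X L' f :=
  ⟨fun v hv => h.le v (hL v hv), fun v hv => h.par v (hL v hv),
    fun u v hu hv => h.q u v (hL u hu) (hL v hv),
    fun u v hu hv => h.cross u v (hL u hu) (hL v hv)⟩

/-- **Pairwise disjoint `ParExt` sets are labelled one after the other.** -/
theorem parExt_family {ι : Type*} (S : ι → V → Prop) (t : Finset ι)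
    (hdisj : ∀ i ∈ t, ∀ j ∈ t, i ≠ j → ∀ v, S i v → ¬ S j v)
    (hext : ∀ i ∈ t, ParExt A Q X (S i)) : ∀ (L : V → Prop) (f : V → ℕ),
    (∀ i ∈ t, ∀ v, S i v → ¬ L v) → ParOK A Q X L f →
    ∃ f' : V → ℕ, (∀ v, (∀ i ∈ t, ¬ S i v) → f' v = f v) ∧
      ParOK A Q X (fun v => L v ∨ ∃ i ∈ t, S i v) f' := by
  induction t using Finset.induction_on with
  | empty =>
    intro L f _ h
    refine ⟨f, fun _ _ => rfl, h.congr ?_⟩
    intro v
    simp
  | insert a t ha ih =>
    intro L f hL h
    obtain ⟨f1, h1, h2⟩ := hext a (mem_insert_self a t) L f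
      (fun v hv => hL a (mem_insert_self a t) v hv) h
    obtain ⟨f2, h3, h4⟩ := ih
      (fun i hi j hj => hdisj i (mem_insert_of_mem hi) j (mem_insert_of_mem hj))
      (fun i hi => hext i (mem_insert_of_mem hi)) (fun v => L v ∨ S a v) f1 (by
        intro i hi v hv hv2
        rcases hv2 with hv2 | hv2
        · exact hL i (mem_insert_of_mem hi) v hv hv2
        · exact hdisj i (mem_insert_of_mem hi) a (mem_insert_self a t)
            (fun h => ha (h ▸ hi)) v hv hv2) h2
    refine ⟨f2, ?_, h4.congr ?_⟩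
    · intro v hv
      rw [h3 v (fun i hi => hv i (mem_insert_of_mem hi)), h1 v (hv a (mem_insert_self a t))]
    · intro v
      simp only [mem_insert, exists_eq_or_imp]
      tauto

/-- **List form.**  `s` enumerates the set.  The hypothesis `H` quantifies over all functions `f`
on the outside such that: each outer label is in parity and `≤ 9`, or `≥ 100` (unlabelled);
`Q`-related outer vertices have different labels; adjacent outer vertices of different sides have
labels which do not differ by one. -/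
theorem list_ext [Fintype V] (hAs : ∀ u v, A u v → A v u) (hQs : ∀ u v, Q u v → Q v u)
    (hQne : ∀ v, ¬ Q v v) {m : ℕ} (s : Fin m → V) (hinj : Function.Injective s)
    (H : ∀ f : V → ℕ,
      (∀ u, (∀ j, s j ≠ u) → (f u ≤ 9 ∧ (X u ↔ Even (f u))) ∨ 100 ≤ f u) →
      (∀ u v, (∀ j, s j ≠ u) → (∀ j, s j ≠ v) → Q u v → f u ≠ f v) →
      (∀ u v, (∀ j, s j ≠ u) → (∀ j, s j ≠ v) → A u v → ¬ (X u ↔ X v) → f u + 1 ≠ f v) →
      ∃ g : Fin m → ℕ, (∀ i, g i ≤ 9) ∧ (∀ i, X (s i) ↔ Even (g i)) ∧
        (∀ i u, (∀ j, s j ≠ u) → Q (s i) u → g i ≠ f u) ∧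
        (∀ i w, (∀ j, s j ≠ w) → A (s i) w → ¬ (X (s i) ↔ X w) →
          g i + 1 ≠ f w ∧ f w + 1 ≠ g i) ∧
        (∀ i j, Q (s i) (s j) → g i ≠ g j) ∧
        (∀ i j, A (s i) (s j) → ¬ (X (s i) ↔ X (s j)) → g i + 1 ≠ g j)) :
    ParExt A Q X (fun v => ∃ j, s j = v) := by
  intro L f hSL hL
  have hns : ∀ v, L v → ∀ j, s j ≠ v := by
    rintro v hv j rfl
    exact hSL (s j) ⟨j, rfl⟩ hv
  set e := Fintype.equivFin V
  set f1 : V → ℕ := fun v => if L v then f v else 100 + 2 * (e v : ℕ) with hf1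
  have f1L : ∀ v, L v → f1 v = f v := fun v hv => by simp [hf1, hv]
  have f1N : ∀ v, ¬ L v → f1 v = 100 + 2 * (e v : ℕ) := fun v hv => by simp [hf1, hv]
  have k1 : ∀ u, (∀ j, s j ≠ u) → (f1 u ≤ 9 ∧ (X u ↔ Even (f1 u))) ∨ 100 ≤ f1 u := by
    intro u _
    by_cases hu : L u
    · rw [f1L u hu]
      exact Or.inl ⟨hL.le u hu, hL.par u hu⟩
    · rw [f1N u hu]
      right
      omega
  have k2 : ∀ u v, (∀ j, s j ≠ u) → (∀ j, s j ≠ v) → Q u v → f1 u ≠ f1 v := by
    intro u v _ _ h
    by_cases hu : L u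
    · by_cases hv : L v
      · rw [f1L u hu, f1L v hv]
        exact hL.q u v hu hv h
      · rw [f1L u hu, f1N v hv]
        have := hL.le u hu
        omega
    · by_cases hv : L v
      · rw [f1N u hu, f1L v hv]
        have := hL.le v hv
        omega
      · rw [f1N u hu, f1N v hv]
        intro he
        have h2 : (e u : ℕ) = (e v : ℕ) := by omega
        have h3 : u = v := e.injective (Fin.ext h2)
        rw [h3] at h
        exact hQne v h
  have k3 : ∀ u v, (∀ j, s j ≠ u) → (∀ j, s j ≠ v) → A u v → ¬ (X u ↔ X v) →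
      f1 u + 1 ≠ f1 v := by
    intro u v _ _ h hX
    by_cases hu : L u
    · by_cases hv : L v
      · rw [f1L u hu, f1L v hv]
        exact hL.cross u v hu hv h hX
      · rw [f1L u hu, f1N v hv]
        have := hL.le u hu
        omega
    · by_cases hv : L v
      · rw [f1N u hu, f1L v hv]
        have := hL.le v hv
        omega
      · rw [f1N u hu, f1N v hv]
        omega
  obtain ⟨g, g1, g2, g3, g4, g5, g6⟩ := H f1 k1 k2 k3
  set f' : V → ℕ := fun v => if h : ∃ j, s j = v then g h.choose else f v with hf'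
  have f's : ∀ i, f' (s i) = g i := by
    intro i
    have h : ∃ j, s j = s i := ⟨i, rfl⟩
    simp only [hf', dif_pos h]
    rw [hinj h.choose_spec]
  have f'L : ∀ v, (∀ j, s j ≠ v) → f' v = f v := by
    intro v hv
    have h : ¬ ∃ j, s j = v := by
      rintro ⟨j, hj⟩
      exact hv j hj
    simp only [hf', dif_neg h]
  refine ⟨f', fun v hv => f'L v (fun j hj => hv ⟨j, hj⟩), ⟨?_, ?_, ?_, ?_⟩⟩
  · rintro v (hv | ⟨i, rfl⟩)
    · rw [f'L v (hns v hv)]
      exact hL.le v hv
    · rw [f's]
      exact g1 i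
  · rintro v (hv | ⟨i, rfl⟩)
    · rw [f'L v (hns v hv)]
      exact hL.par v hv
    · rw [f's]
      exact g2 i
  · rintro u v (hu | ⟨i, rfl⟩) (hv | ⟨j, rfl⟩) h
    · rw [f'L u (hns u hu), f'L v (hns v hv)]
      exact hL.q u v hu hv h
    · rw [f'L u (hns u hu), f's, ← f1L u hu]
      exact (g3 j u (hns u hu) (hQs _ _ h)).symm
    · rw [f'L v (hns v hv), f's, ← f1L v hv]
      exact g3 i v (hns v hv) h
    · rw [f's, f's]
      exact g5 i j h
  · rintro u v (hu | ⟨i, rfl⟩) (hv | ⟨j, rfl⟩) h hX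
    · rw [f'L u (hns u hu), f'L v (hns v hv)]
      exact hL.cross u v hu hv h hX
    · rw [f'L u (hns u hu), f's, ← f1L u hu]
      exact (g4 j u (hns u hu) (hAs _ _ h) (fun h => hX h.symm)).2
    · rw [f'L v (hns v hv), f's, ← f1L v hv]
      exact (g4 i v (hns v hv) h hX).1
    · rw [f's, f's]
      exact g6 i j h hX

/-- a blocked label may be assumed to be one of a given nonempty list -/
theorem block_one (P : List ℕ) (a0 : ℕ) (h0 : a0 ∈ P) (a : ℕ) :
    ∃ b ∈ P, ∀ g ∈ P, g ≠ b → g ≠ a := by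
  by_cases h : a ∈ P
  · exact ⟨a, h, fun g _ hg => hg⟩
  · exact ⟨a0, h0, fun g hg _ he => h (he ▸ hg)⟩

/-! ### Dynamic form -/

section Dynamic

variable {ι : Type*} {S : ι → V → Prop} {R : ι → V → V → Prop}

/-- a partial labelling in parity; `T` the indices of the sets which are not yet labelled -/
structure OK (A Q : V → V → Prop) (X : V → Prop) (S : ι → V → Prop) (R : ι → V → V → Prop)
    (T : Finset ι) (L : V → Prop) (f : V → ℕ) : Prop extends ParOK A Q X L f where
  un : ∀ i ∈ T, ∀ v, S i v → ¬ L v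
  r : ∀ i ∈ T, ∀ u v, L u → L v → R i u v → f u ≠ f v

/-- the set `S i` can be labelled next -/
def Ext (A Q : V → V → Prop) (X : V → Prop) (S : ι → V → Prop) (R : ι → V → V → Prop)
    (i : ι) : Prop :=
  ∀ (T : Finset ι) (L : V → Prop) (f : V → ℕ), i ∈ T → OK A Q X S R T L f →
    ∃ f' : V → ℕ, (∀ v, ¬ S i v → f' v = f v) ∧
      OK A Q X S R (T.erase i) (fun v => L v ∨ S i v) f'

theorem ext_family (hext : ∀ i, Ext A Q X S R i) (n : ℕ) : ∀ (T : Finset ι) (L : V → Prop)
    (f : V → ℕ), T.card = n → OK A Q X S R T L f →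
    ∃ f' : V → ℕ, (∀ v, (∀ i ∈ T, ¬ S i v) → f' v = f v) ∧
      ParOK A Q X (fun v => L v ∨ ∃ i ∈ T, S i v) f' := by
  induction n with
  | zero =>
    intro T L f hT h
    rw [card_eq_zero] at hT
    subst hT
    refine ⟨f, fun _ _ => rfl, h.toParOK.congr ?_⟩
    intro v
    simp
  | succ n ih =>
    intro T L f hT h
    have hne : T.Nonempty := by
      rw [← card_pos]
      omega
    obtain ⟨i, hi⟩ := hne
    obtain ⟨f1, h1, h2⟩ := hext i T L f hi h
    obtain ⟨f2, h3, h4⟩ := ih (T.erase i) _ f1 (by rw [card_erase_of_mem hi]; omega) h2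
    refine ⟨f2, ?_, h4.congr ?_⟩
    · intro v hv
      rw [h3 v (fun j hj => hv j (mem_of_mem_erase hj)), h1 v (hv i hi)]
    · intro v
      constructor
      · rintro ((h | h) | ⟨j, hj, h⟩)
        · exact Or.inl h
        · exact Or.inr ⟨i, hi, h⟩
        · exact Or.inr ⟨j, mem_of_mem_erase hj, h⟩
      · rintro (h | ⟨j, hj, h⟩)
        · exact Or.inl (Or.inl h)
        · by_cases hji : j = i
          · subst hji
            exact Or.inl (Or.inr h)
          · exact Or.inr ⟨j, mem_erase.mpr ⟨hji, hj⟩, h⟩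

/-- **List form, dynamic.**  `s` enumerates `S i`; `H` quantifies over the outer labels `f`:
in parity and `≤ 9`, or `≥ 100` (unlabelled); all sets `S j`, `j ∈ T`, `j ≠ i` are unlabelled;
`Q`-related, and `R j`-related for `j ∈ T`, outer vertices have different labels. -/
theorem ext_list [Fintype V] (hAs : ∀ u v, A u v → A v u) (hQs : ∀ u v, Q u v → Q v u)
    (hQne : ∀ v, ¬ Q v v) (hRs : ∀ i u v, R i u v → R i v u) (hRne : ∀ i v, ¬ R i v v)
    (i : ι) (hdisj : ∀ j, j ≠ i → ∀ v, S i v → ¬ S j v)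
    {m : ℕ} (s : Fin m → V) (hinj : Function.Injective s) (hS : ∀ v, S i v ↔ ∃ k, s k = v)
    (H : ∀ (T : Finset ι) (f : V → ℕ), i ∈ T →
      (∀ u, ¬ S i u → (f u ≤ 9 ∧ (X u ↔ Even (f u))) ∨ 100 ≤ f u) →
      (∀ j ∈ T, j ≠ i → ∀ v, S j v → 100 ≤ f v) →
      (∀ u v, ¬ S i u → ¬ S i v → Q u v → f u ≠ f v) →
      (∀ j ∈ T, ∀ u v, ¬ S i u → ¬ S i v → R j u v → f u ≠ f v) →
      (∀ u v, ¬ S i u → ¬ S i v → A u v → ¬ (X u ↔ X v) → f u + 1 ≠ f v) →
      ∃ g : Fin m → ℕ, (∀ k, g k ≤ 9) ∧ (∀ k, X (s k) ↔ Even (g k)) ∧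
        (∀ k u, ¬ S i u → Q (s k) u → g k ≠ f u) ∧
        (∀ j ∈ T, j ≠ i → ∀ k u, ¬ S i u → R j (s k) u → g k ≠ f u) ∧
        (∀ k w, ¬ S i w → A (s k) w → ¬ (X (s k) ↔ X w) → g k + 1 ≠ f w ∧ f w + 1 ≠ g k) ∧
        (∀ k l, Q (s k) (s l) → g k ≠ g l) ∧
        (∀ j ∈ T, j ≠ i → ∀ k l, R j (s k) (s l) → g k ≠ g l) ∧
        (∀ k l, A (s k) (s l) → ¬ (X (s k) ↔ X (s l)) → g k + 1 ≠ g l)) :
    Ext A Q X S R i := by
  intro T L f hiT hL
  have hns : ∀ v, L v → ¬ S i v := fun v hv hs => hL.un i hiT v hs hv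
  set e := Fintype.equivFin V
  set f1 : V → ℕ := fun v => if L v then f v else 100 + 2 * (e v : ℕ) with hf1
  have f1L : ∀ v, L v → f1 v = f v := fun v hv => by simp [hf1, hv]
  have f1N : ∀ v, ¬ L v → f1 v = 100 + 2 * (e v : ℕ) := fun v hv => by simp [hf1, hv]
  have hdiff : ∀ u v, u ≠ v → (L u → L v → f u ≠ f v) → f1 u ≠ f1 v := by
    intro u v huv h
    by_cases hu : L u
    · by_cases hv : L v
      · rw [f1L u hu, f1L v hv]
        exact h hu hv
      · rw [f1L u hu, f1N v hv]
        have := hL.le u hu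
        omega
    · by_cases hv : L v
      · rw [f1N u hu, f1L v hv]
        have := hL.le v hv
        omega
      · rw [f1N u hu, f1N v hv]
        intro he
        have h2 : (e u : ℕ) = (e v : ℕ) := by omega
        exact huv (e.injective (Fin.ext h2))
  have k1 : ∀ u, ¬ S i u → (f1 u ≤ 9 ∧ (X u ↔ Even (f1 u))) ∨ 100 ≤ f1 u := by
    intro u _
    by_cases hu : L u
    · rw [f1L u hu]
      exact Or.inl ⟨hL.le u hu, hL.par u hu⟩
    · rw [f1N u hu]
      right
      omega
  have k1' : ∀ j ∈ T, j ≠ i → ∀ v, S j v → 100 ≤ f1 v := by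
    intro j hj _ v hv
    rw [f1N v (hL.un j hj v hv)]
    omega
  have k2 : ∀ u v, ¬ S i u → ¬ S i v → Q u v → f1 u ≠ f1 v := by
    intro u v _ _ h
    exact hdiff u v (by rintro rfl; exact hQne _ h) (fun hu hv => hL.q u v hu hv h)
  have k2' : ∀ j ∈ T, ∀ u v, ¬ S i u → ¬ S i v → R j u v → f1 u ≠ f1 v := by
    intro j hj u v _ _ h
    exact hdiff u v (by rintro rfl; exact hRne _ _ h) (fun hu hv => hL.r j hj u v hu hv h)
  have k3 : ∀ u v, ¬ S i u → ¬ S i v → A u v → ¬ (X u ↔ X v) → f1 u + 1 ≠ f1 v := by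
    intro u v _ _ h hX
    by_cases hu : L u
    · by_cases hv : L v
      · rw [f1L u hu, f1L v hv]
        exact hL.cross u v hu hv h hX
      · rw [f1L u hu, f1N v hv]
        have := hL.le u hu
        omega
    · by_cases hv : L v
      · rw [f1N u hu, f1L v hv]
        have := hL.le v hv
        omega
      · rw [f1N u hu, f1N v hv]
        omega
  obtain ⟨g, g1, g2, g3, g3', g4, g5, g5', g6⟩ := H T f1 hiT k1 k1' k2 k2' k3
  set f' : V → ℕ := fun v => if h : ∃ k, s k = v then g h.choose else f v with hf'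
  have f's : ∀ k, f' (s k) = g k := by
    intro k
    have h : ∃ j, s j = s k := ⟨k, rfl⟩
    simp only [hf', dif_pos h]
    rw [hinj h.choose_spec]
  have f'L : ∀ v, ¬ S i v → f' v = f v := by
    intro v hv
    have h : ¬ ∃ k, s k = v := fun h => hv ((hS v).mpr h)
    simp only [hf', dif_neg h]
  have hSi : ∀ v, S i v → ∃ k, s k = v := fun v hv => (hS v).mp hv
  refine ⟨f', f'L, ⟨⟨?_, ?_, ?_, ?_⟩, ?_, ?_⟩⟩
  · rintro v (hv | hv)
    · rw [f'L v (hns v hv)]
      exact hL.le v hv
    · obtain ⟨k, rfl⟩ := hSi v hv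
      rw [f's]
      exact g1 k
  · rintro v (hv | hv)
    · rw [f'L v (hns v hv)]
      exact hL.par v hv
    · obtain ⟨k, rfl⟩ := hSi v hv
      rw [f's]
      exact g2 k
  · rintro u v (hu | hu) (hv | hv) h
    · rw [f'L u (hns u hu), f'L v (hns v hv)]
      exact hL.q u v hu hv h
    · obtain ⟨k, rfl⟩ := hSi v hv
      rw [f'L u (hns u hu), f's, ← f1L u hu]
      exact (g3 k u (hns u hu) (hQs _ _ h)).symm
    · obtain ⟨k, rfl⟩ := hSi u hu
      rw [f'L v (hns v hv), f's, ← f1L v hv]
      exact g3 k v (hns v hv) h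
    · obtain ⟨k, rfl⟩ := hSi u hu
      obtain ⟨l, rfl⟩ := hSi v hv
      rw [f's, f's]
      exact g5 k l h
  · rintro u v (hu | hu) (hv | hv) h hX
    · rw [f'L u (hns u hu), f'L v (hns v hv)]
      exact hL.cross u v hu hv h hX
    · obtain ⟨k, rfl⟩ := hSi v hv
      rw [f'L u (hns u hu), f's, ← f1L u hu]
      exact (g4 k u (hns u hu) (hAs _ _ h) (fun h => hX h.symm)).2
    · obtain ⟨k, rfl⟩ := hSi u hu
      rw [f'L v (hns v hv), f's, ← f1L v hv]
      exact (g4 k v (hns v hv) h hX).1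
    · obtain ⟨k, rfl⟩ := hSi u hu
      obtain ⟨l, rfl⟩ := hSi v hv
      rw [f's, f's]
      exact g6 k l h hX
  · intro j hj v hv
    rw [mem_erase] at hj
    rintro (h | h)
    · exact hL.un j hj.2 v hv h
    · exact hdisj j hj.1 v h hv
  · intro j hj u v hu hv h
    rw [mem_erase] at hj
    rcases hu with hu | hu <;> rcases hv with hv | hv
    · rw [f'L u (hns u hu), f'L v (hns v hv)]
      exact hL.r j hj.2 u v hu hv h
    · obtain ⟨k, rfl⟩ := hSi v hv
      rw [f'L u (hns u hu), f's, ← f1L u hu]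
      exact (g3' j hj.2 hj.1 k u (hns u hu) (hRs _ _ _ h)).symm
    · obtain ⟨k, rfl⟩ := hSi u hu
      rw [f'L v (hns v hv), f's, ← f1L v hv]
      exact g3' j hj.2 hj.1 k v (hns v hv) h
    · obtain ⟨k, rfl⟩ := hSi u hu
      obtain ⟨l, rfl⟩ := hSi v hv
      rw [f's, f's]
      exact g5' j hj.2 hj.1 k l h

/-- reflection of a labelling -/
theorem OK.refl (hAs : ∀ u v, A u v → A v u) {T : Finset ι} {L : V → Prop} {f f' : V → ℕ}
    (h : OK A Q X S R T L f) (hf : ∀ v, L v → f' v = 9 - f v) :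
    OK A Q (fun v => ¬ X v) S R T L f' := by
  refine ⟨⟨?_, ?_, ?_, ?_⟩, h.un, ?_⟩
  · intro v hv
    rw [hf v hv]
    omega
  · intro v hv
    rw [hf v hv, Nat.even_sub (h.le v hv)]
    have h9 : ¬ Even 9 := by decide
    have := h.par v hv
    tauto
  · intro u v hu hv hq
    rw [hf u hu, hf v hv]
    have h1 := h.q u v hu hv hq
    have h2 := h.le u hu
    have h3 := h.le v hv
    omega
  · intro u v hu hv ha hX
    rw [hf u hu, hf v hv]
    have h1 := h.cross v u hv hu (hAs _ _ ha) (by tauto)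
    have h2 := h.le u hu
    have h3 := h.le v hv
    omega
  · intro i hi u v hu hv hr
    rw [hf u hu, hf v hv]
    have h1 := h.r i hi u v hu hv hr
    have h2 := h.le u hu
    have h3 := h.le v hv
    omega

/-- it is enough to prove `Ext` for the reflected side -/
theorem Ext.refl (hAs : ∀ u v, A u v → A v u) {i : ι}
    (h : Ext A Q (fun v => ¬ X v) S R i) : Ext A Q X S R i := by
  intro T L f hi hL
  obtain ⟨f1, h1, h2⟩ := h T L (fun v => 9 - f v) hi (hL.refl hAs (fun _ _ => rfl))
  refine ⟨fun v => if S i v then 9 - f1 v else f v, ?_, ?_⟩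
  · intro v hv
    simp [hv]
  · have h3 := h2.refl (f' := fun v => if S i v then 9 - f1 v else f v) hAs (by
      intro v hv
      by_cases hs : S i v
      · simp [hs]
      · rcases hv with hv | hv
        · have := h1 v hs
          have h9 := hL.le v hv
          simp only [hs, if_false, this]
          omega
        · exact absurd hv hs)
    have e : (fun v => ¬ ¬ X v) = X := by
      funext v
      simp
    rw [e] at h3
    exact h3

end Dynamic

end Pool.Agent.helper40.L9
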