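import Pool.Agent.helper40.L9.OwnC5
import Pool.Agent.helper42.L9.World
import Mathlib.Tactic.Linarith

/-!
# Own five-cycles are labelled last

`Cyc G X c`: `c : Fin 5 → V` is a 5-cycle of `G` inside one side of the cut `X`.
`Nice G X c`: moreover the neighbours of `c i` on its own side are `c (i+1)`, `c (i-1)`, and for
every neighbour `u` of `c i` on the other side, the other neighbours of `u` are on the side of `u`.
In a world cut every `Cyc` is `Nice`.

Main theorem: if all vertices outside the cycles of a family `P` of nice cycles are labelled with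
labels of the parity of their side, the labelling extends to all vertices.
-/

set_option autoImplicit false
set_option linter.unusedSimpArgs false

namespace Pool.Agent.helper40.L9

open Finset Classical Helper42.L9

/-- reflection of labels -/
noncomputable def phi (s : Prop) (n : ℕ) : ℕ := if s then n else 9 - n

theorem phi_le {s : Prop} {n : ℕ} (h : n ≤ 9) : phi s n ≤ 9 := by
  unfold phi
  split_ifs <;> omega

theorem phi_phi {s : Prop} {n : ℕ} (h : n ≤ 9) : phi s (phi s n) = n := by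
  unfold phi
  split_ifs <;> omega

theorem phi_inj {s : Prop} {a b : ℕ} (ha : a ≤ 9) (hb : b ≤ 9) (h : phi s a = phi s b) : a = b := by
  unfold phi at h
  split_ifs at h <;> omega

theorem phi_far {s : Prop} {a b : ℕ} (ha : a ≤ 9) (hb : b ≤ 9) (h : a + 2 ≤ b ∨ b + 2 ≤ a) :
    phi s a + 2 ≤ phi s b ∨ phi s b + 2 ≤ phi s a := by
  unfold phi
  split_ifs <;> omega

theorem phi_even {s : Prop} {n : ℕ} (h : n ≤ 9) : Even (phi s n) ↔ (s ↔ Even n) := by
  unfold phi
  split_ifs with hs
  · simp [hs]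
  · rw [Nat.even_sub h]
    have : ¬ Even 9 := by decide
    simp only [this, false_iff, hs]

theorem f5a : ∀ i : Fin 5, i + 4 + 1 = i := by decide
theorem f5b : ∀ i : Fin 5, i + 1 ≠ i + 4 := by decide
theorem f5c : ∀ i : Fin 5, i + 1 + 1 ≠ i := by decide
theorem f5d : ∀ i : Fin 5, i + 4 + 4 ≠ i := by decide
theorem f5e : ∀ i k : Fin 5, i + k + 1 = i + 1 + k := by decide
theorem f5f : ∀ i k : Fin 5, i + k + 4 = i + 4 + k := by decide

variable {V : Type*} {G : SimpleGraph V} {X : V → Prop}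

/-- a five-cycle inside one side -/
structure Cyc (G : SimpleGraph V) (X : V → Prop) (c : Fin 5 → V) : Prop where
  inj : Function.Injective c
  adj : ∀ i, G.Adj (c i) (c (i + 1))
  side : ∀ i, (X (c i) ↔ X (c 0))

/-- a nice five-cycle -/
structure Nice (G : SimpleGraph V) (X : V → Prop) (c : Fin 5 → V) : Prop where
  cyc : Cyc G X c
  own : ∀ i u, G.Adj (c i) u → (X u ↔ X (c i)) → u = c (i + 1) ∨ u = c (i + 4)
  out : ∀ i u x, G.Adj (c i) u → ¬ (X u ↔ X (c i)) → G.Adj u x → x ≠ c i → (X x ↔ X u)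

theorem Cyc.adj' {c : Fin 5 → V} (h : Cyc G X c) (i : Fin 5) : G.Adj (c i) (c (i + 4)) := by
  have := (h.adj (i + 4)).symm
  have e := f5a i
  rwa [e] at this

theorem Cyc.side2 {c : Fin 5 → V} (h : Cyc G X c) (i j : Fin 5) : X (c i) ↔ X (c j) :=
  (h.side i).trans (h.side j).symm

/-- two nice cycles which meet have the same vertices -/
theorem Nice.meet {c d : Fin 5 → V} (hc : Nice G X c) (hd : Cyc G X d) {i j : Fin 5}
    (h : d i = c j) (k : Fin 5) : ∃ m, d k = c m := by
  have step : ∀ i, (∃ m, d i = c m) → ∃ m, d (i + 1) = c m := by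
    rintro i ⟨m, hm⟩
    have h1 := hd.adj i
    rw [hm] at h1
    have h2 : X (d (i + 1)) ↔ X (c m) := by
      rw [← hm]
      exact hd.side2 _ _
    rcases hc.own m _ h1 h2 with h | h
    · exact ⟨_, h⟩
    · exact ⟨_, h⟩
  have h0 : ∃ m, d i = c m := ⟨j, h⟩
  have h1 := step _ h0
  have h2 := step _ h1
  have h3 := step _ h2
  have h4 := step _ h3
  have key : ∀ i k : Fin 5, k = i ∨ k = i + 1 ∨ k = i + 1 + 1 ∨ k = i + 1 + 1 + 1 ∨
      k = i + 1 + 1 + 1 + 1 := by decide
  rcases key i k with rfl | rfl | rfl | rfl | rfl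
  exacts [h0, h1, h2, h3, h4]

/-- the invariant: `P` a family of nice cycles, `L` the labelled vertices -/
structure Inv (G : SimpleGraph V) (X : V → Prop) (P : (Fin 5 → V) → Prop) (L : V → Prop)
    (f : V → ℕ) : Prop where
  low : ∀ v, ¬ L v → ∃ c, P c ∧ c 0 = v
  whole : ∀ c, P c → ∀ i j, L (c i) → L (c j)
  le : ∀ v, L v → f v ≤ 9
  far : ∀ u v, L u → L v → G.Adj u v → f u + 2 ≤ f v ∨ f v + 2 ≤ f u
  near : ∀ u v w, L u → L v → u ≠ v → G.Adj u w → G.Adj w v → f u ≠ f v
  par : ∀ v w, L v → G.Adj v w → ¬ L w → (X v ↔ Even (f v)) ∧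
    ∀ u, L u → G.Adj v u → (X u ↔ X v) → (X u ↔ Even (f u))

variable [Fintype V]

/-- the data of one position -/
theorem data (hdeg : ∀ v, (univ.filter fun b => G.Adj v b).card ≤ 3)
    {P : (Fin 5 → V) → Prop} (hP : ∀ c, P c → Nice G X c) {L : V → Prop} {f : V → ℕ}
    (hI : Inv G X P L f) {c : Fin 5 → V} (hc : P c) (hL : ∀ i, ¬ L (c i)) (i : Fin 5) :
    ∃ l p q : ℕ, Odd l ∧ (l ≤ 9 ∨ l = 21) ∧ Odd p ∧ Odd q ∧
      (∀ u, G.Adj (c i) u → ¬ (X u ↔ X (c i)) → L u → phi (X (c 0)) (f u) = l ∧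
        ∀ x, G.Adj u x → x ≠ c i → L x → phi (X (c 0)) (f x) = p ∨ phi (X (c 0)) (f x) = q) ∧
      (∀ u, G.Adj (c i) u → ¬ (X u ↔ X (c i)) → ¬ L u → l = 21) := by
  have hn := hP c hc
  have h21 : Odd 21 := by decide
  have hi0 := hn.cyc.side i
  -- the outer neighbour is unique
  have huniq : ∀ u u', G.Adj (c i) u → ¬ (X u ↔ X (c i)) → G.Adj (c i) u' →
      ¬ (X u' ↔ X (c i)) → u = u' := by
    intro u u' h1 h2 h3 h4
    by_contra hne
    refine no_four hdeg (hn.cyc.adj i) (hn.cyc.adj' i) h1 h3 ?_ ?_ ?_ ?_ ?_ hne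
    · intro h
      exact f5b i (hn.cyc.inj h)
    · rintro rfl
      exact h2 (hn.cyc.side2 _ _)
    · rintro rfl
      exact h4 (hn.cyc.side2 _ _)
    · rintro rfl
      exact h2 (hn.cyc.side2 _ _)
    · rintro rfl
      exact h4 (hn.cyc.side2 _ _)
  -- parity of labels on the other side
  have hodd : ∀ v, L v → ¬ (X v ↔ X (c i)) → (X v ↔ Even (f v)) →
      Odd (phi (X (c 0)) (f v)) := by
    intro v h1 h2 h3
    rw [← Nat.not_even_iff_odd, phi_even (hI.le v h1)]
    tauto
  by_cases hu : ∃ u, G.Adj (c i) u ∧ ¬ (X u ↔ X (c i)) ∧ L u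
  · obtain ⟨u, u1, u2, u3⟩ := hu
    have hpar := hI.par u (c i) u3 u1.symm (hL i)
    -- labels of the other neighbours
    have hoth : ∀ x, G.Adj u x → x ≠ c i → L x → Odd (phi (X (c 0)) (f x)) := by
      intro x h1 h2 h3
      have h4 := hn.out i u x u1 u2 h1 h2
      refine hodd x h3 ?_ (hpar.2 x h3 h1 h4)
      tauto
    -- at most two other neighbours
    have htwo : ∃ p q : ℕ, Odd p ∧ Odd q ∧ ∀ x, G.Adj u x → x ≠ c i → L x →
        phi (X (c 0)) (f x) = p ∨ phi (X (c 0)) (f x) = q := by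
      by_cases ha : ∃ a, G.Adj u a ∧ a ≠ c i ∧ L a
      · obtain ⟨a, a1, a2, a3⟩ := ha
        by_cases hb : ∃ b, G.Adj u b ∧ b ≠ c i ∧ L b ∧ b ≠ a
        · obtain ⟨b, b1, b2, b3, b4⟩ := hb
          refine ⟨_, _, hoth a a1 a2 a3, hoth b b1 b2 b3, ?_⟩
          intro x x1 x2 x3
          by_cases hxa : x = a
          · left
            rw [hxa]
          · by_cases hxb : x = b
            · right
              rw [hxb]
            · exfalso
              exact no_four hdeg u1.symm a1 b1 x1 a2.symm b2.symm x2.symm b4.symm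
                (Ne.symm hxa) (Ne.symm hxb)
        · push Not at hb
          refine ⟨_, 21, hoth a a1 a2 a3, h21, ?_⟩
          intro x x1 x2 x3
          left
          rw [hb x x1 x2 x3]
      · push Not at ha
        refine ⟨21, 21, h21, h21, ?_⟩
        intro x x1 x2 x3
        exact absurd x3 (ha x x1 x2)
    obtain ⟨p, q, hp, hq, hpq⟩ := htwo
    refine ⟨phi (X (c 0)) (f u), p, q, hodd u u3 u2 hpar.1, Or.inl (phi_le (hI.le u u3)), hp, hq,
      ?_, ?_⟩
    · intro v v1 v2 v3
      have := huniq v u v1 v2 u1 u2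
      subst this
      exact ⟨rfl, hpq⟩
    · intro v v1 v2 v3
      have := huniq v u v1 v2 u1 u2
      subst this
      exact absurd u3 v3
  · refine ⟨21, 21, 21, h21, Or.inr rfl, h21, h21, ?_, ?_⟩
    · intro v v1 v2 v3
      exact absurd ⟨v, v1, v2, v3⟩ hu
    · intro v _ _ _
      rfl

/-- one step -/
theorem step (hdeg : ∀ v, (univ.filter fun b => G.Adj v b).card ≤ 3)
    {P : (Fin 5 → V) → Prop} (hP : ∀ c, P c → Nice G X c) {L : V → Prop} {f : V → ℕ}
    (hI : Inv G X P L f) {v0 : V} (hv0 : ¬ L v0) :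
    ∃ (L' : V → Prop) (f' : V → ℕ), Inv G X P L' f' ∧ (∀ v, L v → L' v) ∧ L' v0 := by
  obtain ⟨c, hc, hc0⟩ := hI.low v0 hv0
  have hn := hP c hc
  have hL : ∀ i, ¬ L (c i) := fun i hi => hv0 (by rw [← hc0]; exact hI.whole c hc i 0 hi)
  choose l p q hl hl9 hp hq hdat hout using fun i => data hdeg hP hI hc hL i
  obtain ⟨g, g1, g2, g3, g4, g5, g6, g7, g8⟩ := c5_last l p q hl hl9 hp hq
  set s : Prop := X (c 0) with hs
  -- the new labels
  have hnr : ∀ v, L v → ∀ i, c i ≠ v := by
    rintro v hv i rfl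
    exact hL i hv
  set f' : V → ℕ := fun v => if h : ∃ i, c i = v then phi s (g h.choose) else f v with hf'
  have f'c : ∀ i, f' (c i) = phi s (g i) := by
    intro i
    have h : ∃ j, c j = c i := ⟨i, rfl⟩
    simp only [hf', dif_pos h]
    rw [hn.cyc.inj h.choose_spec]
  have f'L : ∀ v, L v → f' v = f v := by
    intro v hv
    have h : ¬ ∃ j, c j = v := by
      rintro ⟨j, hj⟩
      exact hnr v hv j hj
    simp only [hf', dif_neg h]
  -- distinct labels on the cycle
  have gne : ∀ i j, i ≠ j → g i ≠ g j := by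
    have key : ∀ i j : Fin 5, i ≠ j → j = i + 1 ∨ i = j + 1 ∨ j = i + 2 ∨ i = j + 2 := by decide
    intro i j hij
    rcases key i j hij with rfl | rfl | rfl | rfl
    · have := g2 i
      omega
    · have := g2 j
      omega
    · exact g3 i
    · exact (g3 j).symm
  -- new against old, adjacent
  have hadj : ∀ i v, L v → G.Adj (c i) v → f' (c i) + 2 ≤ f v ∨ f v + 2 ≤ f' (c i) := by
    intro i v hv h
    have hX : ¬ (X v ↔ X (c i)) := by
      intro hX
      rcases hn.own i v h hX with h | h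
      · exact hnr v hv _ h.symm
      · exact hnr v hv _ h.symm
    have h1 := (hdat i v h hX hv).1
    have h2 := g4 i
    rw [← h1] at h2
    have h3 := phi_far (s := s) (g1 i) (phi_le (hI.le v hv)) h2
    rw [phi_phi (hI.le v hv)] at h3
    rw [f'c]
    exact h3
  -- new against old, distance two
  have hnear : ∀ i v w, L v → G.Adj (c i) w → G.Adj w v → f' (c i) ≠ f v := by
    intro i v w hv h1 h2
    rw [f'c]
    intro he
    have he' : g i = phi s (f v) := by
      rw [← he, phi_phi (g1 i)]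
    by_cases hX : X w ↔ X (c i)
    · have hXv : ∀ j, G.Adj (c j) v → ¬ (X v ↔ X (c j)) := by
        intro j h hX
        rcases hn.own j v h hX with h | h
        · exact hnr v hv _ h.symm
        · exact hnr v hv _ h.symm
      rcases hn.own i w h1 hX with rfl | rfl
      · have h3 := (hdat _ v h2 (hXv _ h2) hv).1
        exact g6 i (by rw [he', h3])
      · have h3 := (hdat _ v h2 (hXv _ h2) hv).1
        have h4 := g5 (i + 4)
        have e := f5a i
        rw [e] at h4
        exact h4 (by rw [he', h3])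
    · have hvne : v ≠ c i := fun h => hnr v hv i h.symm
      have hXv := hn.out i w v h1 hX h2 hvne
      by_cases hw : L w
      · have h3 := (hdat i w h1 hX hw).2 v h2 hvne hv
        have h4 := g7 i
        rcases h3 with h3 | h3
        · exact h4.1 (by rw [he', h3])
        · exact h4.2 (by rw [he', h3])
      · obtain ⟨d, hd, hd0⟩ := hI.low w hw
        rw [← hd0] at h2 hXv
        rcases (hP d hd).own 0 v h2 hXv with h | h
        · refine hw ?_
          rw [← hd0]
          exact hI.whole d hd _ 0 (by rw [← h]; exact hv)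
        · refine hw ?_
          rw [← hd0]
          exact hI.whole d hd _ 0 (by rw [← h]; exact hv)
  refine ⟨fun v => L v ∨ ∃ i, c i = v, f', ⟨?_, ?_, ?_, ?_, ?_, ?_⟩, fun v hv => Or.inl hv,
    Or.inr ⟨0, hc0⟩⟩
  · intro v hv
    exact hI.low v (fun h => hv (Or.inl h))
  · rintro d hd i j (h | ⟨m, h⟩)
    · exact Or.inl (hI.whole d hd i j h)
    · obtain ⟨k, hk⟩ := hn.meet (hP d hd).cyc h.symm j
      exact Or.inr ⟨k, hk.symm⟩
  · rintro v (hv | ⟨i, rfl⟩)
    · rw [f'L v hv]
      exact hI.le v hv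
    · rw [f'c]
      exact phi_le (g1 i)
  · rintro u v (hu | ⟨i, rfl⟩) (hv | ⟨j, rfl⟩) h
    · rw [f'L u hu, f'L v hv]
      exact hI.far u v hu hv h
    · rw [f'L u hu]
      exact (hadj j u hu h.symm).symm
    · rw [f'L v hv]
      exact hadj i v hv h
    · rw [f'c, f'c]
      rcases hn.own i (c j) h (hn.cyc.side2 _ _) with h | h
      · have := hn.cyc.inj h
        subst this
        exact phi_far (g1 _) (g1 _) (g2 i)
      · have := hn.cyc.inj h
        subst this
        have h4 := g2 (i + 4)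
        have e := f5a i
        rw [e] at h4
        exact phi_far (g1 _) (g1 _) h4.symm
  · rintro u v w (hu | ⟨i, rfl⟩) (hv | ⟨j, rfl⟩) huv h1 h2
    · rw [f'L u hu, f'L v hv]
      exact hI.near u v w hu hv huv h1 h2
    · rw [f'L u hu]
      exact (hnear j u w hu h2.symm h1.symm).symm
    · rw [f'L v hv]
      exact hnear i v w hv h1 h2
    · rw [f'c, f'c]
      intro h
      exact gne i j (fun h' => huv (by rw [h'])) (phi_inj (g1 _) (g1 _) h)
  · rintro v w (hv | ⟨i, rfl⟩) h hw
    · rw [not_or] at hw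
      obtain ⟨h1, h2⟩ := hI.par v w hv h hw.1
      rw [f'L v hv]
      refine ⟨h1, ?_⟩
      rintro u (hu | ⟨j, rfl⟩) h3 h4
      · rw [f'L u hu]
        exact h2 u hu h3 h4
      · exfalso
        rcases hn.own j v h3.symm h4.symm with h | h
        · exact hnr v hv _ h.symm
        · exact hnr v hv _ h.symm
    · rw [not_or] at hw
      obtain ⟨hw1, hw2⟩ := hw
      have hX : ¬ (X w ↔ X (c i)) := by
        intro hX
        rcases hn.own i w h hX with h | h
        · exact hw2 ⟨_, h.symm⟩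
        · exact hw2 ⟨_, h.symm⟩
      have hl21 := hout i w h hX hw1
      obtain ⟨e1, e2, e3⟩ := g8 i hl21
      have hpar : ∀ j, Even (g j) → (X (c j) ↔ Even (f' (c j))) := by
        intro j hj
        rw [f'c, phi_even (g1 j), hn.cyc.side j]
        tauto
      refine ⟨hpar i e1, ?_⟩
      rintro u (hu | ⟨j, rfl⟩) h3 h4
      · exfalso
        rcases hn.own i u h3 h4 with h | h
        · exact hnr u hu _ h.symm
        · exact hnr u hu _ h.symm
      · rcases hn.own i (c j) h3 h4 with h | h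
        · rw [h]
          exact hpar _ e2
        · rw [h]
          exact hpar _ e3

theorem finish (hdeg : ∀ v, (univ.filter fun b => G.Adj v b).card ≤ 3)
    {P : (Fin 5 → V) → Prop} (hP : ∀ c, P c → Nice G X c) (n : ℕ) : ∀ (L : V → Prop)
    (f : V → ℕ), (univ.filter fun v => ¬ L v).card = n → Inv G X P L f →
      ∃ f', Inv G X P (fun _ => True) f' := by
  induction n using Nat.strong_induction_on with
  | _ n ih =>
    intro L f hn hI
    by_cases hall : ∀ v, L v
    · refine ⟨f, ?_⟩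
      have : L = fun _ => True := by
        funext v
        simp [hall v]
      rw [← this]
      exact hI
    · push Not at hall
      obtain ⟨v0, hv0⟩ := hall
      obtain ⟨L', f', hI', h1, h2⟩ := step hdeg hP hI hv0
      refine ih _ ?_ L' f' rfl hI'
      rw [← hn]
      apply Finset.card_lt_card
      rw [Finset.ssubset_iff_of_subset]
      · exact ⟨v0, by simp [hv0], by simp [h2]⟩
      · intro v hv
        simp only [Finset.mem_filter, Finset.mem_univ, true_and] at hv ⊢
        exact fun h => hv (h1 v h)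

theorem abs_iff {a b : ℕ} : 2 ≤ |(a : ℤ) - (b : ℤ)| ↔ a + 2 ≤ b ∨ b + 2 ≤ a := by
  rw [le_abs]
  constructor
  · rintro (h | h)
    · right; omega
    · left; omega
  · rintro (h | h)
    · right; omega
    · left; omega

/-- **Extension theorem**, general form: `P` a family of nice five-cycles, closed under rotation;
the vertices outside are labelled with labels of the parity of their side. -/
theorem extend_family (hdeg : ∀ v, (univ.filter fun b => G.Adj v b).card ≤ 3)
    (P : (Fin 5 → V) → Prop) (hP : ∀ c, P c → Nice G X c) (f : V → ℕ)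
    (hle : ∀ v, (∀ c, P c → ∀ i, c i ≠ v) → f v ≤ 9)
    (hpar : ∀ v, (∀ c, P c → ∀ i, c i ≠ v) → (X v ↔ Even (f v)))
    (hfar : ∀ u v, (∀ c, P c → ∀ i, c i ≠ u) → (∀ c, P c → ∀ i, c i ≠ v) → G.Adj u v →
      2 ≤ |(f u : ℤ) - (f v : ℤ)|)
    (hnear : ∀ u v w, (∀ c, P c → ∀ i, c i ≠ u) → (∀ c, P c → ∀ i, c i ≠ v) → u ≠ v →
      G.Adj u w → G.Adj w v → f u ≠ f v) :
    ∃ f' : V → ℕ, (∀ v, f' v ≤ 9) ∧ (∀ u v, G.Adj u v → 2 ≤ |(f' u : ℤ) - (f' v : ℤ)|) ∧
      (∀ u v w, u ≠ v → G.Adj u w → G.Adj w v → f' u ≠ f' v) := by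
  -- close `P` under rotation
  set P' : (Fin 5 → V) → Prop := fun c => ∃ d, P d ∧ ∃ k : Fin 5, c = fun i => d (i + k) with hP'
  have hP'n : ∀ c, P' c → Nice G X c := by
    rintro c ⟨d, hd, k, rfl⟩
    have hn := hP d hd
    refine ⟨⟨?_, ?_, ?_⟩, ?_, ?_⟩
    · intro i j h
      have := hn.cyc.inj h
      exact add_right_cancel this
    · intro i
      have := hn.cyc.adj (i + k)
      have e := f5e i k
      rwa [e] at this
    · intro i
      exact hn.cyc.side2 _ _
    · intro i u h1 h2
      have := hn.own (i + k) u h1 h2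
      have e := f5e i k
      have e' := f5f i k
      rwa [e, e'] at this
    · intro i u x
      exact hn.out (i + k) u x
  have hI : Inv G X P' (fun v => ∀ c, P c → ∀ i, c i ≠ v) f := by
    refine ⟨?_, ?_, hle, ?_, hnear, ?_⟩
    · intro v hv
      push Not at hv
      obtain ⟨c, hc, i, rfl⟩ := hv
      exact ⟨fun j => c (j + i), ⟨c, hc, i, rfl⟩, by simp⟩
    · rintro c ⟨d, hd, k, rfl⟩ i j h
      exact absurd rfl (h d hd (i + k))
    · intro u v hu hv h
      exact abs_iff.mp (hfar u v hu hv h)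
    · intro v w hv _ _
      exact ⟨hpar v hv, fun u hu _ _ => hpar u hu⟩
  obtain ⟨f', hf'⟩ := finish hdeg hP'n _ _ f rfl hI
  exact ⟨f', fun v => hf'.le v trivial, fun u v h => abs_iff.mpr (hf'.far u v trivial trivial h),
    fun u v w h1 h2 h3 => hf'.near u v w trivial trivial h1 h2 h3⟩

/-- in a world cut every five-cycle inside one side is nice -/
theorem nice_of_world (hdeg : ∀ v, (univ.filter fun b => G.Adj v b).card ≤ 3) (hW : World G X)
    {c : Fin 5 → V} (hc : Cyc G X c) : Nice G X c := by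
  have hne : ∀ i : Fin 5, c (i + 1) ≠ c (i + 4) := by
    intro i h
    exact f5b i (hc.inj h)
  have hown : ∀ i u, G.Adj (c i) u → (X u ↔ X (c i)) → u = c (i + 1) ∨ u = c (i + 4) := by
    intro i u h1 h2
    by_contra hcon
    rw [not_or] at hcon
    refine hW.noMono (c i) (c (i + 1)) (c (i + 4)) u (hc.adj i) (hc.adj' i) h1 (hne i)
      (Ne.symm hcon.1) (Ne.symm hcon.2) ⟨hc.side2 _ _, ?_⟩
    have := hc.side2 (i + 1) i
    tauto
  refine ⟨hc, hown, ?_⟩
  intro i u x h1 h2 h3 h4
  by_contra hx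
  have hx' : X x ↔ X (c i) := by tauto
  have hcr : (cr G X (c i)).card ≤ 1 := by
    rw [Finset.card_le_one]
    intro a ha b hb
    rw [mem_cr] at ha hb
    by_contra hab
    refine no_four hdeg (hc.adj i) (hc.adj' i) ha.1 hb.1 (hne i) ?_ ?_ ?_ ?_ hab
    · rintro rfl
      exact ha.2 (hc.side2 _ _)
    · rintro rfl
      exact hb.2 (hc.side2 _ _)
    · rintro rfl
      exact ha.2 (hc.side2 _ _)
    · rintro rfl
      exact hb.2 (hc.side2 _ _)
  have how : 2 ≤ (ow G X (c i)).card := by
    have hsub : ({c (i + 1), c (i + 4)} : Finset V) ⊆ ow G X (c i) := by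
      intro y hy
      simp only [Finset.mem_insert, Finset.mem_singleton] at hy
      rw [mem_ow]
      rcases hy with rfl | rfl
      · exact ⟨hc.adj i, hc.side2 _ _⟩
      · exact ⟨hc.adj' i, hc.side2 _ _⟩
    have := Finset.card_le_card hsub
    rwa [Finset.card_pair (hne i)] at this
  have hstar := hW.star (c i) (by
    intro w hw
    rw [mem_pt]
    refine ⟨hw, ?_⟩
    by_cases hXw : X w ↔ X (c i)
    · rcases hown i w hw hXw with rfl | rfl
      · refine ⟨c (i + 1 + 1), ?_, hc.adj _, hc.side2 _ _⟩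
        intro h
        exact f5c i (hc.inj h)
      · refine ⟨c (i + 4 + 4), ?_, hc.adj' _, hc.side2 _ _⟩
        intro h
        exact f5d i (hc.inj h)
    · -- `w = u`
      have hwu : w = u := by
        have := Finset.card_le_one.mp hcr w (mem_cr.mpr ⟨hw, hXw⟩) u (mem_cr.mpr ⟨h1, h2⟩)
        exact this
      subst hwu
      exact ⟨x, h4, h3, hx'⟩)
  omega

/-- **Extension theorem** for a world cut: all vertices outside the five-cycles lying inside one
side are labelled with labels of the parity of their side. -/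
theorem extend_world (hdeg : ∀ v, (univ.filter fun b => G.Adj v b).card ≤ 3) (hW : World G X)
    (W : V → Prop) (hWC : ∀ v, W v ↔ ∀ c, Cyc G X c → ∀ i, c i ≠ v) (f : V → ℕ)
    (hle : ∀ v, W v → f v ≤ 9) (hpar : ∀ v, W v → (X v ↔ Even (f v)))
    (hfar : ∀ u v, W u → W v → G.Adj u v → 2 ≤ |(f u : ℤ) - (f v : ℤ)|)
    (hnear : ∀ u v w, W u → W v → u ≠ v → G.Adj u w → G.Adj w v → f u ≠ f v) :
    ∃ f' : V → ℕ, (∀ v, f' v ≤ 9) ∧ (∀ u v, G.Adj u v → 2 ≤ |(f' u : ℤ) - (f' v : ℤ)|) ∧
      (∀ u v w, u ≠ v → G.Adj u w → G.Adj w v → f' u ≠ f' v) :=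
  extend_family hdeg (Cyc G X) (fun _ h => nice_of_world hdeg hW h) f
    (fun v h => hle v ((hWC v).mpr h)) (fun v h => hpar v ((hWC v).mpr h))
    (fun u v h1 h2 => hfar u v ((hWC u).mpr h1) ((hWC v).mpr h2))
    (fun u v w h1 h2 => hnear u v w ((hWC u).mpr h1) ((hWC v).mpr h2))

end Pool.Agent.helper40.L9
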