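import Pool.Agent.helper40.L9.JEx
import Pool.Agent.helper17.L9.JOmode5
import Pool.Agent.helper97.L9.FMode3
import Pool.Agent.helper38.L9.J2FR
import Pool.Agent.helper38.L9.J2Full

/-!
# The joint stage: assembly, everything except two virtual chords in danger
-/

set_option autoImplicit false
set_option linter.unusedSectionVars false
set_option linter.unusedVariables false

namespace Pool.Agent.helper40.L9

open Finset Classical Helper33.L9 Helper17.L9 Pool.Agent.helper45.L9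
open Helper42.L9 hiding near gp
open Pool.Agent.helper58.L9 hiding Fr
open Pool.Agent.helper40.L9.J

variable {V : Type*} [Fintype V] {G : SimpleGraph V} {X L : V → Prop} {f : V → ℕ}
  {Z S : Finset V}

/-- all hypotheses of the extension theorem -/
structure AC (G : SimpleGraph V) (X : V → Prop) (Z S : Finset V) (L : V → Prop) (f : V → ℕ)
    (v1 v2 v3 v4 v5 z1 z3 z5 l1 l5 : V) (kA kB : ℕ) (pA uA vA qA yA pB uB vB qB yB : ℕ → V)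
    (w1 w3 w3' w5 ba0 bak bb0 bbk : V) : Prop where
  j : JC G X Z S L f v1 v2 v3 v4 v5 z1 z3 z5 l1 l5 kA kB pA uA vA qA yA pB uB vB qB yB
    w1 w3 w3' w5 ba0 bak bb0 bbk
  lz1 : L z1
  lz3 : L z3
  lz5 : L z5
  ll1 : L l1
  ll5 : L l5
  hw1 : ∀ w, ownR G X z1 w → ¬ L w → ¬ LamU v1 v2 v3 v4 v5 kA kB uA vA yA uB vB yB w →
    cc G X w = 2
  hw5 : ∀ w, ownR G X z5 w → ¬ L w → ¬ LamU v1 v2 v3 v4 v5 kA kB uA vA yA uB vB yB w →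
    cc G X w = 2
  hbA : ∀ b, ownR G X (yA kA) b → ¬ L b →
    ¬ LamU v1 v2 v3 v4 v5 kA kB uA vA yA uB vB yB b → cc G X b = 2
  hbB : ∀ b, ownR G X (yB kB) b → ¬ L b →
    ¬ LamU v1 v2 v3 v4 v5 kA kB uA vA yA uB vB yB b → cc G X b = 2
  rA : ∀ b, ownR G X (yA kA) b → L b → cc G X b = 3 → ∀ d ∈ cr G X b, ¬ L d → cc G X d = 3
  rB : ∀ b, ownR G X (yB kB) b → L b → cc G X b = 3 → ∀ d ∈ cr G X b, ¬ L d → cc G X d = 3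
  nA : ∀ i, i ≤ kA → ∀ b, ownR G X (yA i) b → NMAt G X b
  nB : ∀ i, i ≤ kB → ∀ b, ownR G X (yB i) b → NMAt G X b
  dA : ∀ b, ownR G X (yA kA) b → ∀ d ∈ cr G X b, NMAt G X d
  dB : ∀ b, ownR G X (yB kB) b → ∀ d ∈ cr G X b, NMAt G X d

section

variable {v1 v2 v3 v4 v5 z1 z3 z5 l1 l5 : V} {kA kB : ℕ}
  {pA uA vA qA yA pB uB vB qB yB : ℕ → V} {w1 w3 w3' w5 ba0 bak bb0 bbk : V}
  (hcub : ∀ v, (univ.filter fun b => G.Adj v b).card = 3)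
  (H : AC G X Z S L f v1 v2 v3 v4 v5 z1 z3 z5 l1 l5 kA kB pA uA vA qA yA pB uB vB qB yB
    w1 w3 w3' w5 ba0 bak bb0 bbk)

include H

theorem AC.rev : AC G X Z S L f v5 v4 v3 v2 v1 z5 z3 z1 l5 l1 kB kA pB uB vB qB yB
    pA uA vA qA yA w5 w3 w3' w1 bb0 bbk ba0 bak where
  j := H.j.rev
  lz1 := H.lz5
  lz3 := H.lz3
  lz5 := H.lz1
  ll1 := H.ll5
  ll5 := H.ll1
  hw1 := fun w a b c => H.hw5 w a b fun hh => c ((lamU_rev w).mp hh)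
  hw5 := fun w a b c => H.hw1 w a b fun hh => c ((lamU_rev w).mp hh)
  hbA := fun w a b c => H.hbB w a b fun hh => c ((lamU_rev w).mp hh)
  hbB := fun w a b c => H.hbA w a b fun hh => c ((lamU_rev w).mp hh)
  rA := H.rB
  rB := H.rA
  nA := H.nB
  nB := H.nA
  dA := H.dB
  dB := H.dA

theorem AC.obak : ownR G X (yA kA) bak := ⟨H.j.n.ak.hc, iff_of_false H.j.n.Ak H.j.n.Cak⟩
theorem AC.oba0 : ownR G X (yA 0) ba0 := ⟨H.j.n.a0.hc, iff_of_false H.j.n.A0 H.j.n.Ca0⟩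

theorem AC.nbak : NMAt G X bak := H.nA kA le_rfl bak H.obak
theorem AC.nba0 : NMAt G X ba0 := H.nA 0 (Nat.zero_le _) ba0 H.oba0

include hcub

/-- solutions of the numeric problem extend the state -/
theorem AC.om {a e nA0 nAk nB0 nBk cA cB n2 n4 LA LB : ℕ}
    (h : OH G L f v1 v5 kA kB pA qA yA pB qB yB a e nA0 nAk nB0 nBk cA cB n2 n4 LA LB) :
    ∃ f' : V → ℕ, JSt G X (fun x => L x ∨ LamU v1 v2 v3 v4 v5 kA kB uA vA yA uB vB yB x) f' :=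
  omode hcub H.j.h H.j.n.X1 (fun i _ hi => H.nA i hi.le) (fun i _ hi => H.nB i hi.le) H.j.st
    H.j.hL ⟨H.lz1, H.lz3, H.lz5, H.ll1, H.ll5⟩ H.hw1 H.hw5 H.hbA H.hbB h

theorem AC.omVV (hA : kA ≠ 0) (hB : kB ≠ 0)
    (hs : ESolVV (Lst G L f v1) (Lst G L f v5) (Lst G L f (yA kA)) (Lst G L f (yA 0))
      (Lst G L f (yB kB)) (Lst G L f (yB 0)) (EvL f (pA 0) (qA 0)) (EvL f (pB 0) (qB 0))
      (flVV G v1 v5 (yA kA) (yA 0) (yB kB) (yB 0))) :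
    ∃ f' : V → ℕ, JSt G X (fun x => L x ∨ LamU v1 v2 v3 v4 v5 kA kB uA vA yA uB vB yB x) f' := by
  obtain ⟨LA, mLA, LB, mLB, kLA, kLB, a, e, y, x, y', x', c, c', n2, n4,
    ⟨h1, h2, h3, h4, h5, h6⟩, ⟨h7, h8, h9, h10⟩, ⟨k1, k2, k3, k4, k5, k6⟩, ⟨k7, k8, k9, k10⟩,
    ⟨c1, c2, c3, c4⟩, ⟨c1', c2', c3', c4'⟩, ⟨q1, q2, q3, q4, q5, q6⟩,
    ⟨q1', q2', q3', q4', q5', q6'⟩, h15⟩ := hs
  exact H.om hcub (oh_idx (LA := LA) (LB := LB) h1 h2 h3 h4 h5 h6 (fun hh => absurd hh hA)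
    (fun hh => absurd hh hB) ⟨h7, h8, h9, h10⟩ k1 k2 k3 k4 k5 k6 k7 k8 k9 k10
    (fun _ => ⟨mLA, fun j hj hb => ⟨(kLA j hb).2.1.symm, (kLA j hb).2.2.symm⟩, c1, Or.inl c2,
      c3, c4⟩)
    (fun _ => ⟨mLB, fun j hj hb => ⟨(kLB j hb).2.1.symm, (kLB j hb).2.2.symm⟩, c1', Or.inl c2',
      c3', c4'⟩)
    ⟨q1, q2, q3, q4, q5, fun _ => q6⟩ ⟨q1', q2', q3', q4', q5', fun _ => q6'⟩ h15)

theorem AC.omVR (hA : kA ≠ 0) (hB : kB = 0)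
    (hs : ESolVR (Lst G L f v1) (Lst G L f v5) (Lst G L f (yA kA)) (Lst G L f (yA 0))
      (Lst G L f (yB 0)) (EvL f (pA 0) (qA 0)) (flVR G v1 v5 (yA kA) (yA 0) (yB 0))) :
    ∃ f' : V → ℕ, JSt G X (fun x => L x ∨ LamU v1 v2 v3 v4 v5 kA kB uA vA yA uB vB yB x) f' := by
  obtain ⟨LA, mLA, kLA, a, e, y, x, y', c, n2, n4,
    ⟨h1, h2, h3, h4, h5⟩, ⟨h7, h8, h9, h10⟩, ⟨k1, k2, k3⟩, ⟨k4, k5⟩,
    ⟨c1, c2, c3, c4⟩, ⟨q1, q2, q3, q4, q5, q6⟩, ⟨q1', q2', q3', q4', q5'⟩, h15⟩ := hs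
  have nrf : ∀ v : V, ¬ Helper33.L9.near G v v := fun v hv => hv.1 rfl
  refine H.om hcub (oh_idx (LA := LA) (LB := 0) (c' := 0) h1 h2 h3 h4
    (by rw [hB]; exact h5) h5 (fun hh => absurd hh hA)
    (fun _ => rfl) ⟨h7, h10, h9, h8⟩ k1 (fun hh => ?_) (fun hh => ?_) k2 (fun hh => ?_) k3 k4
    (fun _ => h10) k5 (fun _ => h9)
    (fun _ => ⟨mLA, fun j hj hb => ⟨(kLA j hb).2.1.symm, (kLA j hb).2.2.symm⟩, c1, Or.inl c2,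
      c3, c4⟩)
    (fun hh => absurd hB hh)
    ⟨q1, q2, q3, q4, q5, fun _ => q6⟩ ⟨q1', q2', q3', q4', q5', fun hh => absurd hB hh⟩ h15)
  · rw [hB] at hh
    exact absurd hh (nrf _)
  · rw [hB] at hh
    exact k2 hh
  · rw [hB] at hh
    exact k3 hh

theorem AC.omRR (hA : kA = 0) (hB : kB = 0)
    (hs : SolRR (Lst G L f v1) (Lst G L f v5) (Lst G L f (yA 0)) (Lst G L f (yB 0))
      (Helper33.L9.near G (yA 0) (yB 0))) :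
    ∃ f' : V → ℕ, JSt G X (fun x => L x ∨ LamU v1 v2 v3 v4 v5 kA kB uA vA yA uB vB yB x) f' := by
  obtain ⟨a, e, y, y', n2, n4, ⟨h1, h2, h3, h4⟩, ⟨h5, h6, h7, h8⟩, k1,
    ⟨q1, q2, q3, q4, q5⟩, ⟨q1', q2', q3', q4', q5'⟩, h15⟩ := hs
  have nrf : ∀ v : V, ¬ Helper33.L9.near G v v := fun v hv => hv.1 rfl
  refine H.om hcub (oh_idx (LA := 0) (LB := 0) (c := 0) (c' := 0) h1 h2
    (by rw [hA]; exact h3) h3 (by rw [hB]; exact h4) h4 (fun _ => rfl)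
    (fun _ => rfl) ⟨h5, h8, h7, h6⟩ (fun hh => ?_) (fun hh => ?_) (fun hh => ?_) (fun hh => ?_)
    (fun hh => ?_) k1 (fun _ => h5)
    (fun _ => h8) (fun _ => h6) (fun _ => h7) (fun hh => absurd hA hh) (fun hh => absurd hB hh)
    ⟨q1, q2, q3, q4, q5, fun hh => absurd hA hh⟩
    ⟨q1', q2', q3', q4', q5', fun hh => absurd hB hh⟩ h15)
  · rw [hA] at hh
    exact absurd hh (nrf _)
  · rw [hB] at hh
    exact absurd hh (nrf _)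
  · rw [hA, hB] at hh
    exact k1 hh
  · rw [hA] at hh
    exact k1 hh
  · rw [hB] at hh
    exact k1 hh

/-- the slots of `v1` -/
theorem AC.s1 {t : V} (h1 : Helper33.L9.near G v1 t) (h2 : L t) (h3 : ¬ Even (f t)) :
    t = z1 ∨ t = w1 ∨ t = bak := H.j.slot_v1 hcub h1 (Or.inl ⟨h2, h3⟩)

/-- the slots of the last link -/
theorem AC.sk : ∃ c d, Nb G bak (yA kA) c d ∧ X d ∧ (cc G X bak = 3 → ¬ X c) ∧
    (L d → Even (f d)) ∧ (¬ L d → cc G X bak = 3 ∨ ¬ (L c ∧ ¬ Even (f c))) ∧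
    ∀ t, Helper33.L9.near G (yA kA) t → L t → ¬ Even (f t) → t = z1 ∨ t = bak ∨ t = c := by
  obtain ⟨c, d, nb, h3, h2, hs, h4, h5⟩ := H.j.slot_yAk hcub H.nbak
  refine ⟨c, d, nb, ?_, fun hh => (h3 hh).1, h4, h5, fun t h6 h7 h8 => hs t h6 (Or.inl ⟨h7, h8⟩)⟩
  rcases cc_23 hcub nb H.j.n.Cak H.j.n.Ak H.nbak with h | h
  · exact (h2 h.1).2
  · exact (h3 h.1).2

/-- the slots of the first link -/
theorem AC.s0 (hA : kA ≠ 0) : ∃ c d, Nb G ba0 (yA 0) c d ∧ X d ∧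
    (L d → Even (f d)) ∧ (¬ L d → cc G X ba0 = 3 ∨ ¬ (L c ∧ ¬ Even (f c))) ∧
    ∀ t, Helper33.L9.near G (yA 0) t → L t → ¬ Even (f t) → t = ba0 ∨ t = c := by
  obtain ⟨c, d, nb, h3, h2, hs, h4, h5⟩ := H.j.slot_yA0 hcub hA H.nba0
  refine ⟨c, d, nb, ?_, h4, h5, fun t h6 h7 h8 => hs t h6 (Or.inl ⟨h7, h8⟩)⟩
  rcases cc_23 hcub nb H.j.n.Ca0 H.j.n.A0 H.nba0 with h | h
  · exact (h2 h.1).2
  · exact (h3 h.1).2

omit hcub in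
theorem AC.od {t : V} (h1 : L t) (h2 : ¬ Even (f t)) : f t ≤ 9 ∧ f t % 2 = 1 := by
  rw [Nat.even_iff] at h2
  exact ⟨H.j.st.le t h1, by omega⟩

theorem AC.ol1 : f l1 ≤ 9 ∧ f l1 % 2 = 0 := by
  have := H.j.par_l1 hcub H.ll1
  rw [Nat.even_iff] at this
  exact ⟨H.j.st.le l1 H.ll1, this⟩

omit hcub in
theorem AC.g1 : gp (f z1) (f l1) := H.j.st.adj z1 l1 H.lz1 H.ll1 H.j.n.m1.hb

omit hcub in
theorem AC.oz3 : f z3 ≤ 9 ∧ f z3 % 2 = 1 := H.od H.lz3 (H.j.par_z3 H.lz3)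

/-- **Two real chords.** -/
theorem AC.real (hA : kA = 0) (hB : kB = 0) :
    ∃ f' : V → ℕ, JSt G X (fun x => L x ∨ LamU v1 v2 v3 v4 v5 kA kB uA vA yA uB vB yB x) f' := by
  obtain ⟨i1, i2⟩ := inRR hcub H.j H.nbak hB hA H.rev.nbak
  rcases masterRR (has_v1_RR hcub H.j) (has_v1_RR hcub H.rev.j) i1 i2 with hs | ⟨_, O, ht, e1,
    e5, eA, eB⟩
  · exact H.omRR hcub hA hB hs
  have mO := trio_M2 O ht
  obtain ⟨c, d, nb, Xd, _, hd, _, sk⟩ := H.sk hcub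
  obtain ⟨c', d', nb', Xd', _, hd', _, sk'⟩ := H.rev.sk hcub
  have E1 := exact3 mO e1 fun t h1 h2 h3 => H.s1 hcub h1 h2 h3
  have E5 := exact3 mO e5 fun t h1 h2 h3 => H.rev.s1 hcub h1 h2 h3
  have EA := exact3 mO (by rw [hA]; exact eA) sk
  have EB := exact3 mO (by rw [hB]; exact eB) sk'
  refine Helper97.L9.F.fmode_RR hcub H.j hA hB H.lz1 H.lz3 H.lz5 H.ll1 H.ll5 E1.lb E5.lb E1.lc
    E5.lc nb Xd EA.lc hd nb' Xd' EB.lc hd' ?_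
  exact Helper38.J.FRR ht _ _ _ _ _ _ _ _ _ _ _ (H.od E1.la E1.oa) (H.od E1.lb E1.ob)
    (H.od E1.lc E1.oc) (H.od EA.lc EA.oc) (H.ol1 hcub) (H.od E5.la E5.oa) (H.od E5.lb E5.ob)
    (H.od E5.lc E5.oc) (H.od EB.lc EB.oc) (H.rev.ol1 hcub) H.oz3 E1.al EA.al E5.al EB.al H.g1
    H.rev.g1

end

theorem dVR_ok : ∀ q ∈ dVR, q.1 ∈ trio ∧ q.2.1 ∈ M2 ∧ q.2.2.1 ∈ M3 ∧ q.2.2.2 ∈ M3 := by
  decide +kernel

theorem dVV_ok : ∀ q ∈ dVV, q.1 ∈ trio ∧ q.2.1 ∈ M2 ∧ q.2.2.1 ∈ M3 ∧ q.2.2.2.1 ∈ M3 ∧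
    q.2.2.2.2.1 ∈ M2 ∧ q.2.2.2.2.2.1 ∈ M3 ∧ q.2.2.2.2.2.2 ∈ M3 ∧ q.1 ≠ q.2.1 := by
  decide +kernel

theorem hDVV : DVVs := fun h1 h2 h3 h4 h5 h6 h7 h8 => Helper38.J.DVV h1 h2 h3 h4 h5 h6 h7 h8
theorem hDVR : DVRs := fun h1 h2 h3 h4 h5 h6 => Helper38.J.DVR h1 h2 h3 h4 h5 h6

section

variable {v1 v2 v3 v4 v5 z1 z3 z5 l1 l5 : V} {kA kB : ℕ}
  {pA uA vA qA yA pB uB vB qB yB : ℕ → V} {w1 w3 w3' w5 ba0 bak bb0 bbk : V}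
  (hcub : ∀ v, (univ.filter fun b => G.Adj v b).card = 3)
  (H : AC G X Z S L f v1 v2 v3 v4 v5 z1 z3 z5 l1 l5 kA kB pA uA vA qA yA pB uB vB qB yB
    w1 w3 w3' w5 ba0 bak bb0 bbk)

include H hcub

/-- **A virtual and a real chord.** -/
theorem AC.virt (hA : kA ≠ 0) (hB : kB = 0) :
    ∃ f' : V → ℕ, JSt G X (fun x => L x ∨ LamU v1 v2 v3 v4 v5 kA kB uA vA yA uB vB yB x) f' := by
  rcases masterVR hDVR (inVR hcub H.j hA hB H.nbak H.nba0 H.rev.nbak)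
    (has_ev (f := f) (pA 0) (qA 0)) with hs | ⟨_, O, a, l, b, hq, e1, e5, ea, el, eb, ea'⟩
  · exact H.omVR hcub hA hB hs
  obtain ⟨ht, ma, ml, mb⟩ := dVR_ok _ hq
  have mO := trio_M2 O ht
  obtain ⟨c, d, nb, Xd, _, hd, _, sk⟩ := H.sk hcub
  obtain ⟨c0, d0, nb0, Xd0, hd0, _, s0⟩ := H.s0 hcub hA
  obtain ⟨c', d', nb', Xd', _, hd', _, sk'⟩ := H.rev.sk hcub
  have E1 := exact3 mO e1 fun t h1 h2 h3 => H.s1 hcub h1 h2 h3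
  have E5 := exact3 mO e5 fun t h1 h2 h3 => H.rev.s1 hcub h1 h2 h3
  have EA := exact3 ma ea sk
  have E0 := exact2 mb eb s0
  have EB := exact3 mO (by rw [hB]; exact ea') sk'
  refine Helper97.L9.F.fmode_VR hcub H.j hA hB (fun i _ hi => H.nA i hi.le) H.lz1 H.lz3 H.lz5
    H.ll1 H.ll5 E1.lb E5.lb E1.lc E0.la
    E5.lc nb Xd EA.lc hd nb0 Xd0 E0.lb hd0 nb' Xd' EB.lc hd' ml ?_ ?_
  · intro j hj hb
    have := (el j hj).mpr hb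
    exact ⟨this.2.1.symm, this.2.2.symm⟩
  exact Helper38.J.FVR hq _ _ _ _ _ _ _ _ _ _ _ _ _ (H.od E1.la E1.oa) (H.od E1.lb E1.ob)
    (H.od E1.lc E1.oc) (H.od EA.lc EA.oc) (H.ol1 hcub) (H.od E0.la E0.oa) (H.od E0.lb E0.ob)
    (H.od E5.la E5.oa) (H.od E5.lb E5.ob)
    (H.od E5.lc E5.oc) (H.od EB.lc EB.oc) (H.rev.ol1 hcub) H.oz3 E1.al EA.al E0.al E5.al EB.al
    H.g1 H.rev.g1

end

end Pool.Agent.helper40.L9
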