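import Mathlib

/-!
# The joint stage: index masks

Odd labels `2 i + 1` and even labels `2 j` (`i, j < 5`) are given by their indices, sets of
indices are bit masks `< 32`.  The even label `2 j` is at distance one of the odd label `2 i + 1`
iff `j = i` or `j = i + 1`.

`kk L y`: the possible labels of `u 0` of a virtual chord whose last link has the label `y`.
`u4 e B C`: the possible labels of `v4` if `v5` has the label `e`, the first link has a label in
`B \ {e}` and `u 0` a label in `C`.  `uR a e A`: the same for a real chord whose link has a label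
in `A \ {a, e}`.  `sdr m n`: two different elements.
-/

namespace Pool.Agent.helper40.L9.J

/-- the indices of the even labels next to the odd label with index `i` -/
def nbm (i : ℕ) : ℕ := (3 <<< i) % 32

/-- one-element mask -/
def sg (i : ℕ) : ℕ := 1 <<< i

/-- delete an element -/
def del (m i : ℕ) : ℕ := m &&& (31 ^^^ sg i)

def kk (L y : ℕ) : ℕ := if y < 4 ∧ L &&& nbm y = nbm y then nbm y else L

/-- the complement -/
def co (m : ℕ) : ℕ := 31 ^^^ (m &&& 31)

/-- union of `f i` over the elements `i` of the mask `m` -/
def un (m : ℕ) (f : ℕ → ℕ) : ℕ :=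
  (if m.testBit 0 then f 0 else 0) ||| (if m.testBit 1 then f 1 else 0) |||
  (if m.testBit 2 then f 2 else 0) ||| (if m.testBit 3 then f 3 else 0) |||
  (if m.testBit 4 then f 4 else 0)

def u4 (e B C : ℕ) : ℕ :=
  un (del B e) fun x => un (C &&& co (nbm x)) fun c => co (nbm x ||| nbm e ||| sg c)

def uR (a e A : ℕ) : ℕ := un (del (del A a) e) fun x => co (nbm x ||| nbm e)

/-- different elements of `m` and `n` exist -/
def sdr (m n : ℕ) : Bool :=
  m != 0 && n != 0 && !(m == n && (m == 1 || m == 2 || m == 4 || m == 8 || m == 16))

/-- the masks with two, three, four elements -/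
def M2 : List ℕ := [3, 5, 6, 9, 10, 12, 17, 18, 20, 24]
def M3 : List ℕ := [7, 11, 13, 14, 19, 21, 22, 25, 26, 28]
def M4 : List ℕ := [15, 23, 27, 29, 30]

/-- `{1,5}`, `{1,7}`, `{3,7}` -/
def trio : List ℕ := [5, 9, 10]

end Pool.Agent.helper40.L9.J
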