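import Pool.Agent.helper40.L9.JGrp4

/-!
# The joint stage: no conflict, two virtual chords
-/

namespace Pool.Agent.helper40.L9.J

variable {O1 O5 A B A' B' EA EB : ℕ → Prop} {F : Fl} {LA LB : ℕ}

/-- the finite statement for exact lists, virtual - virtual -/
def DVVs : Prop := ∀ {O A L B A' L' B' : ℕ}, O ∈ trio → A ∈ M2 → L ∈ M3 → B ∈ M3 →
    A' ∈ M2 → L' ∈ M3 → B' ∈ M3 → (O, A, L, B, A', L', B') ∉ dVV →
    ∃ a e y y', O.testBit a = true ∧ O.testBit e = true ∧ A.testBit y = true ∧ y ≠ a ∧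
      A'.testBit y' = true ∧ y' ≠ e ∧
      sdr (u4 e B (kk L y)) (u4 a B' (kk L' y')) = true

/-- the finite statement for exact lists, virtual - real -/
def DVRs : Prop := ∀ {O A L B A' : ℕ}, O ∈ trio → A ∈ M2 → L ∈ M3 → B ∈ M3 →
    A' ∈ M2 → ¬ ((O, A, L, B) ∈ dVR ∧ A' = O) →
    ∃ a e y, O.testBit a = true ∧ O.testBit e = true ∧ A.testBit y = true ∧ y ≠ a ∧
      sdr (u4 e B (kk L y)) (uR e a A') = true

/-- the list `P` is exactly the mask `m` -/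
def Ex (P : ℕ → Prop) (m : ℕ) : Prop := ∀ i, i < 5 → (P i ↔ m.testBit i = true)

theorem ex_or {P : ℕ → Prop} {m : ℕ} (hm : ∀ i, m.testBit i = true → P i) :
    Ex P m ∨ ∃ i, i < 5 ∧ P i ∧ m.testBit i = false := by
  by_cases h : ∃ i, i < 5 ∧ P i ∧ m.testBit i = false
  · exact Or.inr h
  · left
    intro i hi
    refine ⟨fun hP => ?_, hm i⟩
    by_contra hc
    exact h ⟨i, hi, hP, by simpa using hc⟩

theorem or_bit {m n i : ℕ} {P : ℕ → Prop} (hm : ∀ i, m.testBit i = true → P i) (hi : P i)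
    (hn : sb n (m ||| sg i) = true) : ∀ j, n.testBit j = true → P j := by
  intro j hj
  have h := sb_bit hn hj
  rw [tb_or, Bool.or_eq_true, tb_sg, decide_eq_true_eq] at h
  rcases h with h | h
  · exact hm j h
  · subst h
    exact hi

theorem grow2 : ∀ m ∈ M2, ∀ i < 5, m.testBit i = false → m ||| sg i ∈ M3 := by decide +kernel

theorem differ : ∀ m ∈ M3, ∀ o ∈ M2, ∃ n ∈ M2, sb n m = true ∧ n ≠ o := by decide +kernel

theorem v_a : ∀ q ∈ dVV, ∀ i < 5, q.2.1.testBit i = false → ∃ n ∈ M2,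
    sb n (q.2.1 ||| sg i) = true ∧ (q.1, n, q.2.2) ∉ dVV := by decide +kernel
theorem v_l : ∀ q ∈ dVV, ∀ i < 5, q.2.2.1.testBit i = false → ∃ n ∈ M3,
    sb n (q.2.2.1 ||| sg i) = true ∧ (q.1, q.2.1, n, q.2.2.2) ∉ dVV := by decide +kernel
theorem v_b : ∀ q ∈ dVV, ∀ i < 5, q.2.2.2.1.testBit i = false → ∃ n ∈ M3,
    sb n (q.2.2.2.1 ||| sg i) = true ∧ (q.1, q.2.1, q.2.2.1, n, q.2.2.2.2) ∉ dVV := by
  decide +kernel
theorem v_a' : ∀ q ∈ dVV, ∀ i < 5, q.2.2.2.2.1.testBit i = false → ∃ n ∈ M2,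
    sb n (q.2.2.2.2.1 ||| sg i) = true ∧
      (q.1, q.2.1, q.2.2.1, q.2.2.2.1, n, q.2.2.2.2.2) ∉ dVV := by decide +kernel
theorem v_l' : ∀ q ∈ dVV, ∀ i < 5, q.2.2.2.2.2.1.testBit i = false → ∃ n ∈ M3,
    sb n (q.2.2.2.2.2.1 ||| sg i) = true ∧
      (q.1, q.2.1, q.2.2.1, q.2.2.2.1, q.2.2.2.2.1, n, q.2.2.2.2.2.2) ∉ dVV := by
  decide +kernel
theorem v_b' : ∀ q ∈ dVV, ∀ i < 5, q.2.2.2.2.2.2.testBit i = false → ∃ n ∈ M3,
    sb n (q.2.2.2.2.2.2 ||| sg i) = true ∧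
      (q.1, q.2.1, q.2.2.1, q.2.2.2.1, q.2.2.2.2.1, q.2.2.2.2.2.1, n) ∉ dVV := by
  decide +kernel

/-- the dangerous lists, virtual - virtual -/
def DangVV (O1 O5 A B A' B' EA EB : ℕ → Prop) : Prop :=
  ∃ O a l b a' l' b', (O, a, l, b, a', l', b') ∈ dVV ∧ Ex O1 O ∧ Ex O5 O ∧ Ex A a ∧ Ex EA l ∧
    Ex B b ∧ Ex A' a' ∧ Ex EB l' ∧ Ex B' b'

/-- solution for some choice of the lists of `u 0` -/
def ESolVV (O1 O5 A B A' B' EA EB : ℕ → Prop) (F : Fl) : Prop :=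
  ∃ LA ∈ M3, ∃ LB ∈ M3, (∀ i, LA.testBit i = true → EA i) ∧ (∀ i, LB.testBit i = true → EB i) ∧
    SolVV O1 O5 A B A' B' LA LB F

theorem trio_M2 : ∀ o ∈ trio, o ∈ M2 := by decide +kernel

theorem empVV (hD : DVVs) (h : InVV O1 O5 A B A' B' F) (hF : ¬ F.any) (hEA : Has EA 3)
    (hEB : Has EB 3) : ESolVV O1 O5 A B A' B' EA EB F ∨ DangVV O1 O5 A B A' B' EA EB := by
  have hF' := hF
  unfold Fl.any at hF'
  push Not at hF'
  obtain ⟨r1, r2, r3, r4, r5, r6, s1, s2, s3, s4⟩ := hF'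
  have ho1 := h.o1
  rw [bn_f s1, bn_f s2] at ho1
  have ho5 := h.o5
  rw [bn_f s3, bn_f s4] at ho5
  have ha := h.a
  rw [bn_f r1, bn_f r3, bn_f r4, bn_f s3] at ha
  have hb := h.b
  rw [bn_f r1, bn_f r5, bn_f r6, bn_f s1] at hb
  have ha' := h.a'
  rw [bn_f r2, bn_f r3, bn_f r5, bn_f s2] at ha'
  have hb' := h.b'
  rw [bn_f r2, bn_f r4, bn_f r6, bn_f s4] at hb'
  obtain ⟨LA, mLA, kLA⟩ := hEA
  obtain ⟨LB, mLB, kLB⟩ := hEB
  have good : ∀ o1 o5, o1 ∈ M2 → o5 ∈ M2 → (∀ i, o1.testBit i = true → O1 i) →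
      (∀ i, o5.testBit i = true → O5 i) → ¬ (o1 = o5 ∧ o1 ∈ trio) →
      ESolVV O1 O5 A B A' B' EA EB F := by
    intro o1 o5 m1 m5 k1 k5 hnd
    obtain ⟨Y, Y', S⟩ := sel00 h s2 s3 m1 m5 k1 k5
    exact ⟨LA, mLA, LB, mLB, kLA, kLB, grp1 h mLA mLB r6 s1 s4 S hnd⟩
  obtain ⟨o1, m1, k1⟩ := ho1
  obtain ⟨o5, m5, k5⟩ := ho5
  by_cases hnd : o1 = o5 ∧ o1 ∈ trio
  swap
  · exact Or.inl (good o1 o5 m1 m5 k1 k5 hnd)
  obtain ⟨rfl, ht⟩ := hnd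
  -- exactness of `O1`, `O5`
  rcases ex_or k1 with e1 | ⟨i, hi, hi1, hi2⟩
  swap
  · obtain ⟨n, q1, q2, q3⟩ := differ _ (grow2 o1 m1 i hi hi2) o1 m1
    exact Or.inl (good n o1 q1 m1 (or_bit k1 hi1 q2) k5 (fun hh => q3 hh.1))
  rcases ex_or k5 with e5 | ⟨i, hi, hi1, hi2⟩
  swap
  · obtain ⟨n, q1, q2, q3⟩ := differ _ (grow2 o1 m1 i hi hi2) o1 m1
    exact Or.inl (good o1 n m1 q1 k1 (or_bit k5 hi1 q2) (fun hh => q3 hh.1.symm))
  have sol : ∀ a l b a' l' b', a ∈ M2 → l ∈ M3 → b ∈ M3 → a' ∈ M2 → l' ∈ M3 → b' ∈ M3 →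
      (∀ i, a.testBit i = true → A i) → (∀ i, l.testBit i = true → EA i) →
      (∀ i, b.testBit i = true → B i) → (∀ i, a'.testBit i = true → A' i) →
      (∀ i, l'.testBit i = true → EB i) → (∀ i, b'.testBit i = true → B' i) →
      (o1, a, l, b, a', l', b') ∉ dVV → ESolVV O1 O5 A B A' B' EA EB F := by
    intro a l b a' l' b' ma ml mb ma' ml' mb' ka kl kb ka' kl' kb' hn
    obtain ⟨p, e, y, y', hp, he, hy, hya, hy', hye, hs⟩ := hD ht ma ml mb ma' ml' mb' hn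
    refine ⟨l, ml, l', ml', kl, kl', ?_⟩
    exact fin_VV (k1 p hp) (k5 e he) (ka y hy) (ka' y' hy') hya hye
      (fun hh => absurd hh r3) (fun hh => absurd hh s2) (fun hh => absurd hh s3)
      (fun x _ hx1 => ⟨kb x hx1, fun hh => absurd hh r1, fun hh => absurd hh r5,
        fun hh => absurd hh s1⟩)
      (fun x _ hx1 => ⟨kb' x hx1, fun hh => absurd hh r2, fun hh => absurd hh r4,
        fun hh => absurd hh s4⟩)
      (fun hh => absurd hh r6) (C := kk l y) (C' := kk l' y') (by unfold sb; simp)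
      (by unfold sb; simp) hs
  obtain ⟨a, ma, ka⟩ := ha
  obtain ⟨b, mb, kb⟩ := hb
  obtain ⟨a', ma', ka'⟩ := ha'
  obtain ⟨b', mb', kb'⟩ := hb'
  by_cases hq : (o1, a, LA, b, a', LB, b') ∈ dVV
  swap
  · exact Or.inl (sol a LA b a' LB b' ma mLA mb ma' mLB mb' ka kLA kb ka' kLB kb' hq)
  rcases ex_or ka with ea | ⟨i, hi, hi1, hi2⟩
  swap
  · obtain ⟨n, q1, q2, q3⟩ := v_a _ hq i hi hi2
    exact Or.inl (sol n LA b a' LB b' q1 mLA mb ma' mLB mb' (or_bit ka hi1 q2) kLA kb ka' kLB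
      kb' q3)
  rcases ex_or kLA with el | ⟨i, hi, hi1, hi2⟩
  swap
  · obtain ⟨n, q1, q2, q3⟩ := v_l _ hq i hi hi2
    exact Or.inl (sol a n b a' LB b' ma q1 mb ma' mLB mb' ka (or_bit kLA hi1 q2) kb ka' kLB
      kb' q3)
  rcases ex_or kb with eb | ⟨i, hi, hi1, hi2⟩
  swap
  · obtain ⟨n, q1, q2, q3⟩ := v_b _ hq i hi hi2
    exact Or.inl (sol a LA n a' LB b' ma mLA q1 ma' mLB mb' ka kLA (or_bit kb hi1 q2) ka' kLB
      kb' q3)
  rcases ex_or ka' with ea' | ⟨i, hi, hi1, hi2⟩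
  swap
  · obtain ⟨n, q1, q2, q3⟩ := v_a' _ hq i hi hi2
    exact Or.inl (sol a LA b n LB b' ma mLA mb q1 mLB mb' ka kLA kb (or_bit ka' hi1 q2) kLB
      kb' q3)
  rcases ex_or kLB with el' | ⟨i, hi, hi1, hi2⟩
  swap
  · obtain ⟨n, q1, q2, q3⟩ := v_l' _ hq i hi hi2
    exact Or.inl (sol a LA b a' n b' ma mLA mb ma' q1 mb' ka kLA kb ka' (or_bit kLB hi1 q2)
      kb' q3)
  rcases ex_or kb' with eb' | ⟨i, hi, hi1, hi2⟩
  swap
  · obtain ⟨n, q1, q2, q3⟩ := v_b' _ hq i hi hi2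
    exact Or.inl (sol a LA b a' LB n ma mLA mb ma' mLB q1 ka kLA kb ka' kLB
      (or_bit kb' hi1 q2) q3)
  exact Or.inr ⟨o1, a, LA, b, a', LB, b', hq, e1, e5, ea, el, eb, ea', el', eb'⟩

/-- two virtual chords -/
theorem masterVV (hD : DVVs) (h : InVV O1 O5 A B A' B' F) (hEA : Has EA 3)
    (hEB : Has EB 3) : ESolVV O1 O5 A B A' B' EA EB F ∨
      (¬ F.any ∧ DangVV O1 O5 A B A' B' EA EB) := by
  by_cases hF : F.any
  · obtain ⟨LA, mLA, kLA⟩ := hEA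
    obtain ⟨LB, mLB, kLB⟩ := hEB
    exact Or.inl ⟨LA, mLA, LB, mLB, kLA, kLB, grpAny h mLA mLB hF⟩
  · rcases empVV hD h hF hEA hEB with h1 | h1
    · exact Or.inl h1
    · exact Or.inr ⟨hF, h1⟩

end Pool.Agent.helper40.L9.J
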