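import Pool.Agent.helper40.L9.JGraph

/-!
# The joint stage: exact lists
-/

set_option autoImplicit false
set_option linter.unusedSectionVars false
set_option linter.unusedVariables false

namespace Pool.Agent.helper40.L9

open Finset Classical Helper33.L9 Helper17.L9 Pool.Agent.helper45.L9
open Helper42.L9 hiding near gp
open Pool.Agent.helper58.L9 hiding Fr
open Pool.Agent.helper40.L9.J

namespace J

theorem tb_al3 {r s t i : ℕ} : (al3 r s t).testBit i = true ↔
    i < 5 ∧ 2 * i + 1 ≠ r ∧ 2 * i + 1 ≠ s ∧ 2 * i + 1 ≠ t := by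
  unfold al3
  rw [tb_un]
  constructor
  · rintro ⟨j, hj, _, h⟩
    split_ifs at h with hc
    · simp at h
    · rw [tb_sg, decide_eq_true_eq] at h
      subst h
      push Not at hc
      exact ⟨hj, hc⟩
  · rintro ⟨hi, h⟩
    refine ⟨i, hi, ?_, ?_⟩
    · rw [tb31]; simpa using hi
    · rw [if_neg (by push Not; exact h), tb_sg]
      simp

theorem tb_al2 {r s i : ℕ} : (al2 r s).testBit i = true ↔
    i < 5 ∧ 2 * i + 1 ≠ r ∧ 2 * i + 1 ≠ s := by
  unfold al2
  rw [tb_un]
  constructor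
  · rintro ⟨j, hj, _, h⟩
    split_ifs at h with hc
    · simp at h
    · rw [tb_sg, decide_eq_true_eq] at h
      subst h
      push Not at hc
      exact ⟨hj, hc⟩
  · rintro ⟨hi, h⟩
    refine ⟨i, hi, ?_, ?_⟩
    · rw [tb31]; simpa using hi
    · rw [if_neg (by push Not; exact h), tb_sg]
      simp

theorem tb_ev2 {p q i : ℕ} : (ev2 p q).testBit i = true ↔ i < 5 ∧ 2 * i ≠ p ∧ 2 * i ≠ q := by
  unfold ev2
  rw [tb_un]
  constructor
  · rintro ⟨j, hj, _, h⟩
    split_ifs at h with hc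
    · simp at h
    · rw [tb_sg, decide_eq_true_eq] at h
      subst h
      push Not at hc
      exact ⟨hj, hc⟩
  · rintro ⟨hi, h⟩
    refine ⟨i, hi, ?_, ?_⟩
    · rw [tb31]; simpa using hi
    · rw [if_neg (by push Not; exact h), tb_sg]
      simp

theorem mask_ext {m n : ℕ} (hm : m < 32) (hn : ∀ i, n.testBit i = true → i < 5)
    (h : ∀ i, i < 5 → (n.testBit i = true ↔ m.testBit i = true)) : n = m := by
  apply Nat.eq_of_testBit_eq
  intro i
  by_cases hi : i < 5
  · have := h i hi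
    cases h1 : n.testBit i <;> cases h2 : m.testBit i <;> simp_all
  · have h1 : n.testBit i = false := by
      rw [Bool.eq_false_iff]
      exact fun hh => hi (hn i hh)
    have h2 : m.testBit i = false := by
      rw [Bool.eq_false_iff]
      exact fun hh => hi (tb_lt hm hh)
    rw [h1, h2]

theorem cmp2 : ∀ m ∈ M2, ((range 5).filter fun i => m.testBit i = false).card = 3 := by
  decide +kernel

theorem cmp3 : ∀ m ∈ M3, ((range 5).filter fun i => m.testBit i = false).card = 2 := by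
  decide +kernel

end J

variable {V : Type*} [Fintype V] {G : SimpleGraph V} {X L : V → Prop} {f : V → ℕ}
  {Z S : Finset V}

/-- **Exact lists.**  All slots are used by labelled vertices with different odd labels. -/
theorem exact_slots {s : V} {T : Finset V} {m n : ℕ}
    (hI : ((range 5).filter fun i => m.testBit i = false).card = n) (hT : T.card ≤ n)
    (hE : Ex (Lst G L f s) m)
    (hs : ∀ t, Helper33.L9.near G s t → L t → ¬ Even (f t) → t ∈ T) :
    (∀ t ∈ T, L t ∧ Helper33.L9.near G s t ∧ ¬ Even (f t)) ∧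
      (∀ t ∈ T, ∀ t' ∈ T, f t = f t' → t = t') ∧ T.card = n := by
  obtain ⟨I, hI'⟩ : ∃ I, I = (range 5).filter fun i => m.testBit i = false := ⟨_, rfl⟩
  rw [← hI'] at hI
  obtain ⟨J, hJ⟩ : ∃ J, J = T.filter fun t => L t ∧ Helper33.L9.near G s t ∧ ¬ Even (f t) :=
    ⟨_, rfl⟩
  have hsub : I ⊆ J.image fun t => f t / 2 := by
    intro i hi
    rw [hI', mem_filter, mem_range] at hi
    obtain ⟨hi5, hi⟩ := hi
    have h1 : ¬ Lst G L f s i := fun hh => by
      have := (hE i hi5).mp hh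
      rw [hi] at this
      exact absurd this (by decide)
    unfold Lst at h1
    push Not at h1
    obtain ⟨t, h2, h3, h4⟩ := h1 hi5
    have hodd : ¬ Even (f t) := by
      rw [h4, Nat.even_iff]
      omega
    rw [mem_image]
    refine ⟨t, ?_, by omega⟩
    rw [hJ, mem_filter]
    exact ⟨hs t h3 h2 hodd, h2, h3, hodd⟩
  have c1 := card_le_card hsub
  have c2 : (J.image fun t => f t / 2).card ≤ J.card := card_image_le
  have hJT : J ⊆ T := by rw [hJ]; exact filter_subset _ _
  have c3 := card_le_card hJT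
  have hJe : J = T := eq_of_subset_of_card_le hJT (by omega)
  have hinj : Set.InjOn (fun t => f t / 2) (J : Set V) := by
    rw [← Finset.card_image_iff]
    omega
  refine ⟨fun t ht => ?_, fun t ht t' ht' he => ?_, by omega⟩
  · rw [← hJe, hJ, mem_filter] at ht
    exact ht.2
  · rw [← hJe] at ht ht'
    exact hinj (mem_coe.mpr ht) (mem_coe.mpr ht') (by
      show f t / 2 = f t' / 2
      rw [he])

theorem lst_iff {s : V} {T : Finset V} (hs : ∀ t, Helper33.L9.near G s t → L t →
    ¬ Even (f t) → t ∈ T) (hT : ∀ t ∈ T, L t ∧ Helper33.L9.near G s t) {i : ℕ} (hi : i < 5) :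
    Lst G L f s i ↔ ∀ t ∈ T, f t ≠ 2 * i + 1 := by
  constructor
  · intro h t ht
    exact h.2 t (hT t ht).1 (hT t ht).2
  · intro h
    refine ⟨hi, fun t h1 h2 h3 => h t (hs t h2 h1 ?_) h3⟩
    rw [h3, Nat.even_iff]
    omega

theorem card_three {a b c : V} (h : ({a, b, c} : Finset V).card = 3) :
    a ≠ b ∧ a ≠ c ∧ b ≠ c := by
  refine ⟨?_, ?_, ?_⟩
  · rintro rfl
    rw [show ({a, a, c} : Finset V) = {a, c} by simp] at h
    have := card_le_two (a := a) (b := c)
    omega
  · rintro rfl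
    rw [show ({a, b, a} : Finset V) = {b, a} by ext x; simp] at h
    have := card_le_two (a := b) (b := a)
    omega
  · rintro rfl
    rw [show ({a, b, b} : Finset V) = {a, b} by simp] at h
    have := card_le_two (a := a) (b := b)
    omega

/-- three slots -/
structure Ex3 (G : SimpleGraph V) (L : V → Prop) (f : V → ℕ) (s a b c : V) (m : ℕ) : Prop where
  la : L a
  lb : L b
  lc : L c
  na : Helper33.L9.near G s a
  nb : Helper33.L9.near G s b
  nc : Helper33.L9.near G s c
  oa : ¬ Even (f a)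
  ob : ¬ Even (f b)
  oc : ¬ Even (f c)
  ab : f a ≠ f b
  ac : f a ≠ f c
  bc : f b ≠ f c
  al : al3 (f a) (f b) (f c) = m

theorem exact3 {s a b c : V} {m : ℕ} (hm : m ∈ M2) (hE : Ex (Lst G L f s) m)
    (hs : ∀ t, Helper33.L9.near G s t → L t → ¬ Even (f t) → t = a ∨ t = b ∨ t = c) :
    Ex3 G L f s a b c m := by
  have hs' : ∀ t, Helper33.L9.near G s t → L t → ¬ Even (f t) → t ∈ ({a, b, c} : Finset V) := by
    intro t h1 h2 h3
    simpa using hs t h1 h2 h3
  obtain ⟨h1, h2, h3⟩ := exact_slots (cmp2 m hm) (card3' a b c) hE hs'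
  obtain ⟨n1, n2, n3⟩ := card_three h3
  have ma : a ∈ ({a, b, c} : Finset V) := by simp
  have mb : b ∈ ({a, b, c} : Finset V) := by simp
  have mc : c ∈ ({a, b, c} : Finset V) := by simp
  refine ⟨(h1 a ma).1, (h1 b mb).1, (h1 c mc).1, (h1 a ma).2.1, (h1 b mb).2.1, (h1 c mc).2.1,
    (h1 a ma).2.2, (h1 b mb).2.2, (h1 c mc).2.2, fun he => n1 (h2 a ma b mb he),
    fun he => n2 (h2 a ma c mc he), fun he => n3 (h2 b mb c mc he), ?_⟩
  refine mask_ext (M2_lt hm) (fun i hi => (tb_al3.mp hi).1) fun i hi => ?_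
  rw [tb_al3, ← hE i hi, lst_iff hs' (fun t ht => ⟨(h1 t ht).1, (h1 t ht).2.1⟩) hi]
  constructor
  · rintro ⟨_, k1, k2, k3⟩ t ht
    simp only [mem_insert, mem_singleton] at ht
    rcases ht with rfl | rfl | rfl
    · exact k1.symm
    · exact k2.symm
    · exact k3.symm
  · intro h
    exact ⟨hi, (h a ma).symm, (h b mb).symm, (h c mc).symm⟩

/-- two slots -/
structure Ex2 (G : SimpleGraph V) (L : V → Prop) (f : V → ℕ) (s a b : V) (m : ℕ) : Prop where
  la : L a
  lb : L b
  na : Helper33.L9.near G s a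
  nb : Helper33.L9.near G s b
  oa : ¬ Even (f a)
  ob : ¬ Even (f b)
  ab : f a ≠ f b
  al : al2 (f a) (f b) = m

theorem exact2 {s a b : V} {m : ℕ} (hm : m ∈ M3) (hE : Ex (Lst G L f s) m)
    (hs : ∀ t, Helper33.L9.near G s t → L t → ¬ Even (f t) → t = a ∨ t = b) :
    Ex2 G L f s a b m := by
  have hs' : ∀ t, Helper33.L9.near G s t → L t → ¬ Even (f t) → t ∈ ({a, b} : Finset V) := by
    intro t h1 h2 h3
    simpa using hs t h1 h2 h3
  obtain ⟨h1, h2, h3⟩ := exact_slots (cmp3 m hm) (card2' a b) hE hs'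
  have n1 : a ≠ b := by
    rintro rfl
    simp at h3
  have ma : a ∈ ({a, b} : Finset V) := by simp
  have mb : b ∈ ({a, b} : Finset V) := by simp
  refine ⟨(h1 a ma).1, (h1 b mb).1, (h1 a ma).2.1, (h1 b mb).2.1,
    (h1 a ma).2.2, (h1 b mb).2.2, fun he => n1 (h2 a ma b mb he), ?_⟩
  refine mask_ext (M3_lt hm) (fun i hi => (tb_al2.mp hi).1) fun i hi => ?_
  rw [tb_al2, ← hE i hi, lst_iff hs' (fun t ht => ⟨(h1 t ht).1, (h1 t ht).2.1⟩) hi]
  constructor
  · rintro ⟨_, k1, k2⟩ t ht
    simp only [mem_insert, mem_singleton] at ht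
    rcases ht with rfl | rfl
    · exact k1.symm
    · exact k2.symm
  · intro h
    exact ⟨hi, (h a ma).symm, (h b mb).symm⟩

/-- the list of `u 0` -/
theorem exactEv {p q : V} {m : ℕ} (hm : m ∈ M3) (hE : Ex (EvL f p q) m) :
    ev2 (f p) (f q) = m ∧ f p % 2 = 0 ∧ f p ≤ 9 ∧ f q % 2 = 0 ∧ f q ≤ 9 := by
  have e : ev2 (f p) (f q) = m := by
    refine mask_ext (M3_lt hm) (fun i hi => (tb_ev2.mp hi).1) fun i hi => ?_
    rw [tb_ev2, ← hE i hi]
    unfold EvL
    exact ⟨fun h => ⟨hi, h.2.1.symm, h.2.2.symm⟩, fun h => ⟨hi, h.2.1.symm, h.2.2.symm⟩⟩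
  refine ⟨e, ?_⟩
  -- the complement has two elements
  have hI := cmp3 m hm
  have key : ∀ i, i < 5 → m.testBit i = false → f p = 2 * i ∨ f q = 2 * i := by
    intro i hi h
    by_contra hc
    push Not at hc
    have h1 := (hE i hi).mp ⟨hi, hc.1, hc.2⟩
    rw [h] at h1
    exact absurd h1 (by decide)
  obtain ⟨i, j, hij, he⟩ := Finset.card_eq_two.mp hI
  have mi : i ∈ (range 5).filter fun i => m.testBit i = false := by rw [he]; simp
  have mj : j ∈ (range 5).filter fun i => m.testBit i = false := by rw [he]; simp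
  rw [mem_filter, mem_range] at mi mj
  have k1 := key i mi.1 mi.2
  have k2 := key j mj.1 mj.2
  omega

end Pool.Agent.helper40.L9
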