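import Pool.Agent.helper40.L9.JVV

/-!
# The joint stage: the extension theorem
-/

set_option autoImplicit false
set_option linter.unusedSectionVars false
set_option linter.unusedVariables false

namespace Pool.Agent.helper40.L9

open Finset Classical Helper33.L9 Helper17.L9 Pool.Agent.helper45.L9
open Helper42.L9 hiding near gp
open Pool.Agent.helper58.L9 hiding Fr
open Pool.Agent.helper40.L9.J

variable {V : Type*} [Fintype V] {G : SimpleGraph V} {X L : V → Prop} {f : V → ℕ}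
  {Z S : Finset V}

/-- the `Y`-mode: the dangerous states with `d` and the last end labelled -/
def YMode (G : SimpleGraph V) (X : V → Prop) : Prop :=
  ∀ {Z S : Finset V} {L : V → Prop} {f : V → ℕ} {v1 v2 v3 v4 v5 z1 z3 z5 l1 l5 : V} {kA kB : ℕ}
    {pA uA vA qA yA pB uB vB qB yB : ℕ → V} {w1 w3 w3' w5 ba0 bak bb0 bbk : V},
    AC G X Z S L f v1 v2 v3 v4 v5 z1 z3 z5 l1 l5 kA kB pA uA vA qA yA pB uB vB qB yB
      w1 w3 w3' w5 ba0 bak bb0 bbk → kA ≠ 0 → kB ≠ 0 →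
    ∀ {c d c' d' c0 d0 c0' d0' : V} {O a l b a' l' b' : ℕ},
      YDat G X L f v1 v5 z1 z5 kA kB pA qA yA pB qB yB w1 w5 ba0 bak bb0 bbk c d c' d' c0 d0
        c0' d0' O a l b a' l' b' → L d → L (qA (kA - 1)) →
      ∃ f' : V → ℕ, JSt G X (fun x => L x ∨ LamU v1 v2 v3 v4 v5 kA kB uA vA yA uB vB yB x) f'

theorem jst_cong {g : V → ℕ} (h : JSt G X L f) (hg : ∀ x, L x → g x = f x) : JSt G X L g where
  le := fun v hv => by rw [hg v hv]; exact h.le v hv
  adj := fun u v hu hv ha => by rw [hg u hu, hg v hv]; exact h.adj u v hu hv ha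
  ne := fun u v hu hv hn => by rw [hg u hu, hg v hv]; exact h.ne u v hu hv hn
  adjL := fun e v he hb ha => h.adjL e v he ((bad_congr (hg e he)).mp hb) ha
  tol := fun e v he hb hv hn => tol_mono (fun x hx => hx) hg
    (h.tol e v he ((bad_congr (hg e he)).mp hb) hv hn)

section

variable {v1 v2 v3 v4 v5 z1 z3 z5 l1 l5 : V} {kA kB : ℕ}
  {pA uA vA qA yA pB uB vB qB yB : ℕ → V}
  (hcub : ∀ v, (univ.filter fun b => G.Adj v b).card = 3)

include hcub

theorem jext_X (hY : YMode G X)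
    (h : U5 G X Z S v1 v2 v3 v4 v5 z1 z3 z5 l1 l5 kA kB pA uA vA qA yA pB uB vB qB yB)
    (X1 : X v1)
    (nA : ∀ i, i ≤ kA → ∀ b, ownR G X (yA i) b → NMAt G X b)
    (nB : ∀ i, i ≤ kB → ∀ b, ownR G X (yB i) b → NMAt G X b)
    (dA : ∀ b, ownR G X (yA kA) b → ∀ d ∈ cr G X b, NMAt G X d)
    (dB : ∀ b, ownR G X (yB kB) b → ∀ d ∈ cr G X b, NMAt G X d) :
    JExtAt G X v1 v2 v3 v4 v5 z1 z3 z5 l1 l5 kA kB uA vA yA uB vB yB := by
  intro L f hf h1 h2 h3 h4 h5 h6 h7 h8 h9 h10 h11 h12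
  obtain ⟨w1, w3, w3', w5, ba0, bak, bb0, bbk, hU, _, _⟩ := U5_nb hcub h X1
  obtain ⟨g, hg⟩ : ∃ g : V → ℕ, ∀ x, g x = if L x then f x else 11 := ⟨_, fun _ => rfl⟩
  have hgL : ∀ x, L x → g x = f x := fun x hx => by rw [hg, if_pos hx]
  have hgn : ∀ x, g x ≤ 9 → L x := by
    intro x hx
    by_contra hc
    rw [hg, if_neg hc] at hx
    omega
  have H : AC G X Z S L g v1 v2 v3 v4 v5 z1 z3 z5 l1 l5 kA kB pA uA vA qA yA pB uB vB qB yB
      w1 w3 w3' w5 ba0 bak bb0 bbk :=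
    { j := ⟨h, hU, jst_cong hf hgL, h1⟩
      lz1 := h2, lz3 := h3, lz5 := h4, ll1 := h5, ll5 := h6, hw1 := h7, hw5 := h8
      hbA := h9, hbB := h10, rA := h11, rB := h12, nA := nA, nB := nB, dA := dA, dB := dB }
  by_cases hA : kA = 0
  · by_cases hB : kB = 0
    · exact H.real hcub hA hB
    · obtain ⟨f', hf'⟩ := H.rev.virt hcub hB hA
      refine ⟨f', ?_⟩
      have e : (fun x => L x ∨ LamU v1 v2 v3 v4 v5 kA kB uA vA yA uB vB yB x) =
          (fun x => L x ∨ LamU v5 v4 v3 v2 v1 kB kA uB vB yB uA vA yA x) := by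
        funext x
        rw [lamU_rev]
      rw [e]
      exact hf'
  · by_cases hB : kB = 0
    · exact H.virt hcub hA hB
    · exact H.vv hcub hA hB hgn fun D Ld Lq => hY H hA hB D Ld Lq

omit hcub in
theorem nmAt_refl {b : V} (h : NMAt G X b) : NMAt G (fun v => ¬ X v) b := by
  intro x y z h1 h2 h3 h4 h5 h6 h7
  apply h x y z h1 h2 h3 h4 h5 h6
  constructor
  · exact ⟨fun hh => by_contra fun hc => h7.1.mpr hc hh,
      fun hh => by_contra fun hc => h7.1.mp hc hh⟩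
  · exact ⟨fun hh => by_contra fun hc => h7.2.mpr hc hh,
      fun hh => by_contra fun hc => h7.2.mp hc hh⟩

/-- **The extension theorem of the joint stage, local form.** -/
theorem jext_local (hY : YMode G X) (hY' : YMode G fun v => ¬ X v)
    (h : U5 G X Z S v1 v2 v3 v4 v5 z1 z3 z5 l1 l5 kA kB pA uA vA qA yA pB uB vB qB yB)
    (nA : ∀ i, i ≤ kA → ∀ b, ownR G X (yA i) b → NMAt G X b)
    (nB : ∀ i, i ≤ kB → ∀ b, ownR G X (yB i) b → NMAt G X b)
    (dA : ∀ b, ownR G X (yA kA) b → ∀ d ∈ cr G X b, NMAt G X d)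
    (dB : ∀ b, ownR G X (yB kB) b → ∀ d ∈ cr G X b, NMAt G X d) :
    JExtAt G X v1 v2 v3 v4 v5 z1 z3 z5 l1 l5 kA kB uA vA yA uB vB yB := by
  by_cases X1 : X v1
  · exact jext_X hcub hY h X1 nA nB dA dB
  · refine jextAt_refl (jext_X hcub hY' (u5_refl h) X1 ?_ ?_ ?_ ?_)
    · intro i hi b hb
      rw [ownR_refl] at hb
      exact nmAt_refl (nA i hi b hb)
    · intro i hi b hb
      rw [ownR_refl] at hb
      exact nmAt_refl (nB i hi b hb)
    · intro b hb d hd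
      rw [ownR_refl] at hb
      rw [cr_refl] at hd
      exact nmAt_refl (dA b hb d hd)
    · intro b hb d hd
      rw [ownR_refl] at hb
      rw [cr_refl] at hd
      exact nmAt_refl (dB b hb d hd)

end

end Pool.Agent.helper40.L9
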