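import Pool.Agent.helper40.L9.JReal
import Pool.Agent.helper45.L9.JRelabel
import Pool.Agent.helper38.L9.J2VV

/-!
# The joint stage: lists of a `U_5`

`Lst s`: the odd labels which are allowed at `s`.  The lists of a `U_5` fulfil `InVV`, `InVR`.
-/

set_option autoImplicit false
set_option linter.unusedSectionVars false
set_option linter.unusedVariables false

namespace Pool.Agent.helper40.L9

open Finset Classical Helper33.L9 Helper17.L9 Pool.Agent.helper45.L9
open Helper42.L9 hiding near gp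
open Pool.Agent.helper58.L9 hiding Fr
open Pool.Agent.helper40.L9.J

variable {V : Type*} [Fintype V] {G : SimpleGraph V} {X L : V → Prop} {f : V → ℕ}
  {Z S : Finset V}

/-- the indices of the odd labels which are allowed at `s` -/
def Lst (G : SimpleGraph V) (L : V → Prop) (f : V → ℕ) (s : V) (i : ℕ) : Prop :=
  i < 5 ∧ ∀ t, L t → Helper33.L9.near G s t → f t ≠ 2 * i + 1

/-- the indices of the even labels different from those of `p`, `q` -/
def EvL (f : V → ℕ) (p q : V) (i : ℕ) : Prop := i < 5 ∧ f p ≠ 2 * i ∧ f q ≠ 2 * i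

omit [Fintype V] in
theorem has_ev (p q : V) : Has (EvL f p q) 3 := by
  have h := has_of_card (S := ((range 5).erase (f p / 2)).erase (f q / 2))
    ((erase_subset _ _).trans (erase_subset _ _)) (k := 3) (by norm_num) (by
      have h1 := Finset.pred_card_le_card_erase (s := range 5) (a := f p / 2)
      have h2 := Finset.pred_card_le_card_erase (s := (range 5).erase (f p / 2)) (a := f q / 2)
      rw [card_range] at h1
      omega)
  refine h.mono fun i hi => ?_
  rw [mem_erase, mem_erase, mem_range] at hi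
  refine ⟨hi.2.2, ?_, ?_⟩
  · intro he
    apply hi.2.1
    omega
  · intro he
    apply hi.1
    omega

theorem has_lst {s : V} {T U : Finset V} {n m k : ℕ}
    (hT : ∀ t, Helper33.L9.near G s t → L t → ¬ Even (f t) → t ∈ T) (hn : T.card ≤ n)
    (hU : U ⊆ T) (hUL : ∀ t ∈ U, ¬ L t) (hm : m ≤ U.card) (hk2 : 2 ≤ k) (hk : k + n ≤ 5 + m) :
    Has (Lst G L f s) k := by
  have h := has_of_card (S := (range 5).filter fun i =>
    ∀ t, L t → Helper33.L9.near G s t → f t ≠ 2 * i + 1) (filter_subset _ _) (k := k) hk2 (by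
      have h1 : (range 5).filter (fun i =>
          ¬ ∀ t, L t → Helper33.L9.near G s t → f t ≠ 2 * i + 1) ⊆
          (T \ U).image fun t => f t / 2 := by
        intro i hi
        rw [mem_filter] at hi
        obtain ⟨_, hi⟩ := hi
        push Not at hi
        obtain ⟨t, h1, h2, h3⟩ := hi
        rw [mem_image]
        refine ⟨t, mem_sdiff.mpr ⟨hT t h2 h1 ?_, fun hh => hUL t hh h1⟩, by omega⟩
        rw [h3, Nat.even_iff]
        omega
      have h2 := (card_le_card h1).trans card_image_le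
      have h3 := Finset.card_filter_add_card_filter_not (s := range 5)
        (fun i => ∀ t, L t → Helper33.L9.near G s t → f t ≠ 2 * i + 1)
      rw [card_sdiff_of_subset hU] at h2
      rw [card_range] at h3
      have h4 := card_le_card hU
      omega)
  refine h.mono fun i hi => ?_
  rw [mem_filter, mem_range] at hi
  exact hi

/-- lists with special unlabelled vertices -/
theorem has_sp {s : V} {T : Finset V} {n k : ℕ} (sp : List (V × Prop))
    (hT : ∀ t, Helper33.L9.near G s t → L t → ¬ Even (f t) → t ∈ T) (hn : T.card ≤ n)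
    (hnd : (sp.map Prod.fst).Nodup) (hsp : ∀ x ∈ sp, x.2 → x.1 ∈ T ∧ ¬ L x.1)
    (hk2 : 2 ≤ k) (hk : k + n ≤ 5 + (sp.map fun x => bn x.2).sum) : Has (Lst G L f s) k := by
  have key : ∀ sp : List (V × Prop), (sp.map Prod.fst).Nodup →
      (∀ x ∈ sp, x.2 → x.1 ∈ T ∧ ¬ L x.1) → ∃ U : Finset V, U ⊆ T ∧ (∀ t ∈ U, ¬ L t) ∧
        (∀ t ∈ U, t ∈ sp.map Prod.fst) ∧ (sp.map fun x => bn x.2).sum ≤ U.card := by
    intro sp
    induction sp with
    | nil => exact fun _ _ => ⟨∅, empty_subset _, fun t ht => absurd ht (notMem_empty t),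
        fun t ht => absurd ht (notMem_empty t), by simp⟩
    | cons x sp ih =>
      intro h1 h2
      rw [List.map_cons, List.nodup_cons] at h1
      obtain ⟨U, u1, u2, u3, u4⟩ := ih h1.2 fun y hy => h2 y (List.mem_cons_of_mem _ hy)
      by_cases hx : x.2
      · obtain ⟨h3, h4⟩ := h2 x List.mem_cons_self hx
        refine ⟨insert x.1 U, insert_subset h3 u1, ?_, ?_, ?_⟩
        · intro t ht
          rcases mem_insert.mp ht with rfl | ht
          · exact h4
          · exact u2 t ht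
        · intro t ht
          rw [List.map_cons, List.mem_cons]
          rcases mem_insert.mp ht with rfl | ht
          · exact Or.inl rfl
          · exact Or.inr (u3 t ht)
        · rw [card_insert_of_notMem fun hh => h1.1 (u3 _ hh), List.map_cons, List.sum_cons,
            bn_t hx]
          omega
      · refine ⟨U, u1, u2, fun t ht => by
          rw [List.map_cons]
          exact List.mem_cons_of_mem _ (u3 t ht), ?_⟩
        rw [List.map_cons, List.sum_cons, bn_f hx]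
        omega
  obtain ⟨U, u1, u2, _, u4⟩ := key sp hnd hsp
  exact has_lst hT hn u1 u2 u4 hk2 hk

theorem card3' (a b c : V) : ({a, b, c} : Finset V).card ≤ 3 := card_le_three
theorem card2' (a b : V) : ({a, b} : Finset V).card ≤ 2 := card_le_two

/-- the conflicts of two virtual chords -/
def flVV (G : SimpleGraph V) (v1 v5 yk y0 yk' y0' : V) : Fl :=
  ⟨Helper33.L9.near G yk y0, Helper33.L9.near G yk' y0', Helper33.L9.near G yk yk',
    Helper33.L9.near G yk y0', Helper33.L9.near G y0 yk', Helper33.L9.near G y0 y0',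
    Helper33.L9.near G v1 y0, Helper33.L9.near G v1 yk', Helper33.L9.near G v5 yk,
    Helper33.L9.near G v5 y0'⟩

/-- the conflicts of a virtual and a real chord -/
def flVR (G : SimpleGraph V) (v1 v5 yk y0 y' : V) : Gl :=
  ⟨Helper33.L9.near G yk y0, Helper33.L9.near G yk y', Helper33.L9.near G y0 y',
    Helper33.L9.near G v1 y0, Helper33.L9.near G v5 yk⟩

section

variable {v1 v2 v3 v4 v5 z1 z3 z5 l1 l5 : V} {kA kB : ℕ}
  {pA uA vA qA yA pB uB vB qB yB : ℕ → V} {w1 w3 w3' w5 ba0 bak bb0 bbk : V}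
  (hcub : ∀ v, (univ.filter fun b => G.Adj v b).card = 3)
  (H : JC G X Z S L f v1 v2 v3 v4 v5 z1 z3 z5 l1 l5 kA kB pA uA vA qA yA pB uB vB qB yB
    w1 w3 w3' w5 ba0 bak bb0 bbk)

include hcub H

/-- the list of `v1`, both chords virtual -/
theorem has_v1_V (hA : kA ≠ 0) (hB : kB ≠ 0) : Has (Lst G L f v1)
    (2 + bn (Helper33.L9.near G v1 (yA 0)) + bn (Helper33.L9.near G v1 (yB kB))) := by
  have hyA : yA 0 ≠ yA kA := fun he => hA (H.h.A.nyy 0 (Nat.zero_le _) kA le_rfl he).symm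
  have hyB : yB kB ≠ yB 0 := fun he => hB (H.h.B.nyy kB le_rfl 0 (Nat.zero_le _) he)
  refine has_sp (T := {z1, w1, bak}) (n := 3)
    [(yA 0, Helper33.L9.near G v1 (yA 0)), (yB kB, Helper33.L9.near G v1 (yB kB))]
    ?_ (card3' _ _ _) ?_ ?_ (by omega) (by
      simp only [List.map_cons, List.map_nil, List.sum_cons, List.sum_nil]; omega)
  · intro t h1 h2 h3
    have := H.slot_v1 hcub h1 (Or.inl ⟨h2, h3⟩)
    simpa using this
  · simp only [List.map_cons, List.map_nil, List.nodup_cons, List.mem_cons, List.not_mem_nil,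
      or_false, not_false_eq_true, List.nodup_nil, and_true]
    exact H.n.dAB.2.1
  · intro x hx h
    simp only [List.mem_cons, List.not_mem_nil, or_false] at hx
    rcases hx with rfl | rfl
    · have := H.slot_v1 hcub h (Or.inr ⟨H.n.A0, hyA, H.n.dAB.1⟩)
      exact ⟨by simpa using this, H.uyA (Nat.zero_le _)⟩
    · have := H.slot_v1 hcub h (Or.inr ⟨H.n.Bk, H.n.dAB.2.2.2.symm, hyB⟩)
      exact ⟨by simpa using this, H.rev.uyA le_rfl⟩

/-- the list of `v1`, chord `A` virtual -/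
theorem has_v1_VR (hA : kA ≠ 0) : Has (Lst G L f v1)
    (2 + bn (Helper33.L9.near G v1 (yA 0))) := by
  have hyA : yA 0 ≠ yA kA := fun he => hA (H.h.A.nyy 0 (Nat.zero_le _) kA le_rfl he).symm
  refine has_sp (T := {z1, w1, bak}) (n := 3) [(yA 0, Helper33.L9.near G v1 (yA 0))]
    ?_ (card3' _ _ _) ?_ ?_ (by omega) (by
      simp only [List.map_cons, List.map_nil, List.sum_cons, List.sum_nil]; omega)
  · intro t h1 h2 h3
    have := H.slot_v1 hcub h1 (Or.inl ⟨h2, h3⟩)
    simpa using this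
  · simp
  · intro x hx h
    simp only [List.mem_cons, List.not_mem_nil, or_false] at hx
    subst hx
    have := H.slot_v1 hcub h (Or.inr ⟨H.n.A0, hyA, H.n.dAB.1⟩)
    exact ⟨by simpa using this, H.uyA (Nat.zero_le _)⟩

/-- the list of `v1`, chord `B` virtual, any chord `A` -/
theorem has_v1_RV (hB : kB ≠ 0) : Has (Lst G L f v1)
    (2 + bn (Helper33.L9.near G v1 (yB kB))) := by
  have hyB : yB kB ≠ yB 0 := fun he => hB (H.h.B.nyy kB le_rfl 0 (Nat.zero_le _) he)
  refine has_sp (T := {z1, w1, bak}) (n := 3) [(yB kB, Helper33.L9.near G v1 (yB kB))]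
    ?_ (card3' _ _ _) ?_ ?_ (by omega) (by
      simp only [List.map_cons, List.map_nil, List.sum_cons, List.sum_nil]; omega)
  · intro t h1 h2 h3
    have := H.slot_v1 hcub h1 (Or.inl ⟨h2, h3⟩)
    simpa using this
  · simp
  · intro x hx h
    simp only [List.mem_cons, List.not_mem_nil, or_false] at hx
    subst hx
    have := H.slot_v1 hcub h (Or.inr ⟨H.n.Bk, H.n.dAB.2.2.2.symm, hyB⟩)
    exact ⟨by simpa using this, H.rev.uyA le_rfl⟩

theorem has_v1_RR : Has (Lst G L f v1) 2 := by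
  refine has_sp (T := {z1, w1, bak}) (n := 3) [] ?_ (card3' _ _ _) ?_ ?_ (by omega) (by simp)
  · intro t h1 h2 h3
    have := H.slot_v1 hcub h1 (Or.inl ⟨h2, h3⟩)
    simpa using this
  · simp
  · intro x hx
    simp at hx

/-- the list of the last link, both chords virtual -/
theorem has_yk_V (hA : kA ≠ 0) (hB : kB ≠ 0) (hNM : NMAt G X bak) : Has (Lst G L f (yA kA))
    (2 + bn (Helper33.L9.near G (yA kA) (yA 0)) + bn (Helper33.L9.near G (yA kA) (yB kB)) +
      bn (Helper33.L9.near G (yA kA) (yB 0)) + bn (Helper33.L9.near G v5 (yA kA))) := by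
  have hyB : yB kB ≠ yB 0 := fun he => hB (H.h.B.nyy kB le_rfl 0 (Nat.zero_le _) he)
  obtain ⟨c, d, nb, _, _, hs, _, _⟩ := H.slot_yAk hcub hNM
  refine has_sp (T := {z1, bak, c}) (n := 3)
    [(yA 0, Helper33.L9.near G (yA kA) (yA 0)), (yB kB, Helper33.L9.near G (yA kA) (yB kB)),
      (yB 0, Helper33.L9.near G (yA kA) (yB 0)), (v5, Helper33.L9.near G v5 (yA kA))]
    ?_ (card3' _ _ _) ?_ ?_ (by omega) (by
      simp only [List.map_cons, List.map_nil, List.sum_cons, List.sum_nil]; omega)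
  · intro t h1 h2 h3
    have := hs t h1 (Or.inl ⟨h2, h3⟩)
    simpa using this
  · simp only [List.map_cons, List.map_nil, List.nodup_cons, List.mem_cons, List.not_mem_nil,
      or_false, not_false_eq_true, List.nodup_nil, and_true, not_or]
    exact ⟨⟨H.n.dAB.2.1, H.n.dAB.1, fun he => H.n.A0 (he ▸ H.n.X5)⟩,
      ⟨hyB, fun he => H.n.Bk (he ▸ H.n.X5)⟩, fun he => H.n.B0 (he ▸ H.n.X5)⟩
  · intro x hx h
    simp only [List.mem_cons, List.not_mem_nil, or_false] at hx
    rcases hx with rfl | rfl | rfl | rfl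
    · exact ⟨by simpa using hs _ h (Or.inr (Or.inl H.n.A0)), H.uyA (Nat.zero_le _)⟩
    · exact ⟨by simpa using hs _ h (Or.inr (Or.inl H.n.Bk)), H.rev.uyA le_rfl⟩
    · exact ⟨by simpa using hs _ h (Or.inr (Or.inl H.n.B0)), H.rev.uyA (Nat.zero_le _)⟩
    · exact ⟨by simpa using hs _ (Helper33.L9.near_symm h) (Or.inr (Or.inr ⟨rfl, hA⟩)), H.u5⟩

/-- the list of the last link, chord `A` virtual, chord `B` real -/
theorem has_yk_VR (hA : kA ≠ 0) (hNM : NMAt G X bak) : Has (Lst G L f (yA kA))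
    (2 + bn (Helper33.L9.near G (yA kA) (yA 0)) + bn (Helper33.L9.near G (yA kA) (yB 0)) +
      bn (Helper33.L9.near G v5 (yA kA))) := by
  obtain ⟨c, d, nb, _, _, hs, _, _⟩ := H.slot_yAk hcub hNM
  refine has_sp (T := {z1, bak, c}) (n := 3)
    [(yA 0, Helper33.L9.near G (yA kA) (yA 0)),
      (yB 0, Helper33.L9.near G (yA kA) (yB 0)), (v5, Helper33.L9.near G v5 (yA kA))]
    ?_ (card3' _ _ _) ?_ ?_ (by omega) (by
      simp only [List.map_cons, List.map_nil, List.sum_cons, List.sum_nil]; omega)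
  · intro t h1 h2 h3
    have := hs t h1 (Or.inl ⟨h2, h3⟩)
    simpa using this
  · simp only [List.map_cons, List.map_nil, List.nodup_cons, List.mem_cons, List.not_mem_nil,
      or_false, not_false_eq_true, List.nodup_nil, and_true, not_or]
    exact ⟨⟨H.n.dAB.1, fun he => H.n.A0 (he ▸ H.n.X5)⟩, fun he => H.n.B0 (he ▸ H.n.X5)⟩
  · intro x hx h
    simp only [List.mem_cons, List.not_mem_nil, or_false] at hx
    rcases hx with rfl | rfl | rfl
    · exact ⟨by simpa using hs _ h (Or.inr (Or.inl H.n.A0)), H.uyA (Nat.zero_le _)⟩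
    · exact ⟨by simpa using hs _ h (Or.inr (Or.inl H.n.B0)), H.rev.uyA (Nat.zero_le _)⟩
    · exact ⟨by simpa using hs _ (Helper33.L9.near_symm h) (Or.inr (Or.inr ⟨rfl, hA⟩)), H.u5⟩

/-- the list of the link of a real chord `A`, chord `B` virtual -/
theorem has_yk_RV (hB : kB ≠ 0) (hNM : NMAt G X bak) : Has (Lst G L f (yA kA))
    (2 + bn (Helper33.L9.near G (yA kA) (yB kB)) + bn (Helper33.L9.near G (yA kA) (yB 0))) := by
  have hyB : yB kB ≠ yB 0 := fun he => hB (H.h.B.nyy kB le_rfl 0 (Nat.zero_le _) he)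
  obtain ⟨c, d, nb, _, _, hs, _, _⟩ := H.slot_yAk hcub hNM
  refine has_sp (T := {z1, bak, c}) (n := 3)
    [(yB kB, Helper33.L9.near G (yA kA) (yB kB)), (yB 0, Helper33.L9.near G (yA kA) (yB 0))]
    ?_ (card3' _ _ _) ?_ ?_ (by omega) (by
      simp only [List.map_cons, List.map_nil, List.sum_cons, List.sum_nil]; omega)
  · intro t h1 h2 h3
    have := hs t h1 (Or.inl ⟨h2, h3⟩)
    simpa using this
  · simp only [List.map_cons, List.map_nil, List.nodup_cons, List.mem_cons, List.not_mem_nil,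
      or_false, not_false_eq_true, List.nodup_nil, and_true, not_or]
    exact hyB
  · intro x hx h
    simp only [List.mem_cons, List.not_mem_nil, or_false] at hx
    rcases hx with rfl | rfl
    · exact ⟨by simpa using hs _ h (Or.inr (Or.inl H.n.Bk)), H.rev.uyA le_rfl⟩
    · exact ⟨by simpa using hs _ h (Or.inr (Or.inl H.n.B0)), H.rev.uyA (Nat.zero_le _)⟩

/-- the list of the link of a real chord `A`, chord `B` real -/
theorem has_yk_RR (hNM : NMAt G X bak) : Has (Lst G L f (yA kA))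
    (2 + bn (Helper33.L9.near G (yA kA) (yB 0))) := by
  obtain ⟨c, d, nb, _, _, hs, _, _⟩ := H.slot_yAk hcub hNM
  refine has_sp (T := {z1, bak, c}) (n := 3) [(yB 0, Helper33.L9.near G (yA kA) (yB 0))]
    ?_ (card3' _ _ _) ?_ ?_ (by omega) (by
      simp only [List.map_cons, List.map_nil, List.sum_cons, List.sum_nil]; omega)
  · intro t h1 h2 h3
    have := hs t h1 (Or.inl ⟨h2, h3⟩)
    simpa using this
  · simp
  · intro x hx h
    simp only [List.mem_cons, List.not_mem_nil, or_false] at hx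
    subst hx
    exact ⟨by simpa using hs _ h (Or.inr (Or.inl H.n.B0)), H.rev.uyA (Nat.zero_le _)⟩

/-- the list of the first link, both chords virtual -/
theorem has_y0_V (hA : kA ≠ 0) (hB : kB ≠ 0) (hNM : NMAt G X ba0) : Has (Lst G L f (yA 0))
    (3 + bn (Helper33.L9.near G (yA kA) (yA 0)) + bn (Helper33.L9.near G (yA 0) (yB kB)) +
      bn (Helper33.L9.near G (yA 0) (yB 0)) + bn (Helper33.L9.near G v1 (yA 0))) := by
  have hyB : yB kB ≠ yB 0 := fun he => hB (H.h.B.nyy kB le_rfl 0 (Nat.zero_le _) he)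
  obtain ⟨c, d, nb, _, _, hs, _, _⟩ := H.slot_yA0 hcub hA hNM
  refine has_sp (T := {ba0, c}) (n := 2)
    [(yA kA, Helper33.L9.near G (yA kA) (yA 0)), (yB kB, Helper33.L9.near G (yA 0) (yB kB)),
      (yB 0, Helper33.L9.near G (yA 0) (yB 0)), (v1, Helper33.L9.near G v1 (yA 0))]
    ?_ (card2' _ _) ?_ ?_ (by omega) (by
      simp only [List.map_cons, List.map_nil, List.sum_cons, List.sum_nil]; omega)
  · intro t h1 h2 h3
    have := hs t h1 (Or.inl ⟨h2, h3⟩)
    simpa using this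
  · simp only [List.map_cons, List.map_nil, List.nodup_cons, List.mem_cons, List.not_mem_nil,
      or_false, not_false_eq_true, List.nodup_nil, and_true, not_or]
    exact ⟨⟨H.n.dAB.2.2.2, H.n.dAB.2.2.1, fun he => H.n.Ak (he ▸ H.n.X1)⟩,
      ⟨hyB, fun he => H.n.Bk (he ▸ H.n.X1)⟩, fun he => H.n.B0 (he ▸ H.n.X1)⟩
  · intro x hx h
    simp only [List.mem_cons, List.not_mem_nil, or_false] at hx
    rcases hx with rfl | rfl | rfl | rfl
    · exact ⟨by simpa using hs _ (Helper33.L9.near_symm h) (Or.inr (Or.inl H.n.Ak)),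
        H.uyA le_rfl⟩
    · exact ⟨by simpa using hs _ h (Or.inr (Or.inl H.n.Bk)), H.rev.uyA le_rfl⟩
    · exact ⟨by simpa using hs _ h (Or.inr (Or.inl H.n.B0)), H.rev.uyA (Nat.zero_le _)⟩
    · exact ⟨by simpa using hs _ (Helper33.L9.near_symm h) (Or.inr (Or.inr rfl)), H.u1⟩

/-- the list of the first link, chord `B` real -/
theorem has_y0_VR (hA : kA ≠ 0) (hNM : NMAt G X ba0) : Has (Lst G L f (yA 0))
    (3 + bn (Helper33.L9.near G (yA kA) (yA 0)) +
      bn (Helper33.L9.near G (yA 0) (yB 0)) + bn (Helper33.L9.near G v1 (yA 0))) := by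
  obtain ⟨c, d, nb, _, _, hs, _, _⟩ := H.slot_yA0 hcub hA hNM
  refine has_sp (T := {ba0, c}) (n := 2)
    [(yA kA, Helper33.L9.near G (yA kA) (yA 0)),
      (yB 0, Helper33.L9.near G (yA 0) (yB 0)), (v1, Helper33.L9.near G v1 (yA 0))]
    ?_ (card2' _ _) ?_ ?_ (by omega) (by
      simp only [List.map_cons, List.map_nil, List.sum_cons, List.sum_nil]; omega)
  · intro t h1 h2 h3
    have := hs t h1 (Or.inl ⟨h2, h3⟩)
    simpa using this
  · simp only [List.map_cons, List.map_nil, List.nodup_cons, List.mem_cons, List.not_mem_nil,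
      or_false, not_false_eq_true, List.nodup_nil, and_true, not_or]
    exact ⟨⟨H.n.dAB.2.2.1, fun he => H.n.Ak (he ▸ H.n.X1)⟩, fun he => H.n.B0 (he ▸ H.n.X1)⟩
  · intro x hx h
    simp only [List.mem_cons, List.not_mem_nil, or_false] at hx
    rcases hx with rfl | rfl | rfl
    · exact ⟨by simpa using hs _ (Helper33.L9.near_symm h) (Or.inr (Or.inl H.n.Ak)),
        H.uyA le_rfl⟩
    · exact ⟨by simpa using hs _ h (Or.inr (Or.inl H.n.B0)), H.rev.uyA (Nat.zero_le _)⟩
    · exact ⟨by simpa using hs _ (Helper33.L9.near_symm h) (Or.inr (Or.inr rfl)), H.u1⟩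

end

theorem bn_near (a b : V) : bn (Helper33.L9.near G a b) = bn (Helper33.L9.near G b a) := by
  by_cases h : Helper33.L9.near G a b
  · rw [bn_t h, bn_t (Helper33.L9.near_symm h)]
  · rw [bn_f h, bn_f fun hh => h (Helper33.L9.near_symm hh)]

section

variable {v1 v2 v3 v4 v5 z1 z3 z5 l1 l5 : V} {kA kB : ℕ}
  {pA uA vA qA yA pB uB vB qB yB : ℕ → V} {w1 w3 w3' w5 ba0 bak bb0 bbk : V}
  (hcub : ∀ v, (univ.filter fun b => G.Adj v b).card = 3)
  (H : JC G X Z S L f v1 v2 v3 v4 v5 z1 z3 z5 l1 l5 kA kB pA uA vA qA yA pB uB vB qB yB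
    w1 w3 w3' w5 ba0 bak bb0 bbk)

include hcub H

theorem inVV (hA : kA ≠ 0) (hB : kB ≠ 0) (n1 : NMAt G X bak) (n2 : NMAt G X ba0)
    (n3 : NMAt G X bbk) (n4 : NMAt G X bb0) :
    InVV (Lst G L f v1) (Lst G L f v5) (Lst G L f (yA kA)) (Lst G L f (yA 0))
      (Lst G L f (yB kB)) (Lst G L f (yB 0)) (flVV G v1 v5 (yA kA) (yA 0) (yB kB) (yB 0)) := by
  have hyA : yA 0 ≠ yA kA := fun he => hA (H.h.A.nyy 0 (Nat.zero_le _) kA le_rfl he).symm
  have hyB : yB 0 ≠ yB kB := fun he => hB (H.h.B.nyy 0 (Nat.zero_le _) kB le_rfl he).symm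
  obtain ⟨d1, d2, d3, d4⟩ := H.n.dAB
  have cA := H.ccs
  have cB := H.rev.ccs
  refine { o1 := ?_, o5 := ?_, a := ?_, b := ?_, a' := ?_, b' := ?_, y := ?_, y' := ?_,
           x := ?_, x' := ?_, rs := ?_, yy := ?_ }
  · exact has_v1_V hcub H hA hB
  · have h := has_v1_V hcub H.rev hB hA
    show Has _ (2 + bn (Helper33.L9.near G v5 (yA kA)) + bn (Helper33.L9.near G v5 (yB 0)))
    rw [show 2 + bn (Helper33.L9.near G v5 (yA kA)) + bn (Helper33.L9.near G v5 (yB 0)) =
      2 + bn (Helper33.L9.near G v5 (yB 0)) + bn (Helper33.L9.near G v5 (yA kA)) by omega]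
    exact h
  · exact has_yk_V hcub H hA hB n1
  · exact has_y0_V hcub H hA hB n2
  · have h := has_yk_V hcub H.rev hB hA n3
    rw [bn_near (yB kB) (yA kA), bn_near (yB kB) (yA 0)] at h
    exact h
  · have h := has_y0_V hcub H.rev hB hA n4
    rw [bn_near (yB 0) (yA kA), bn_near (yB 0) (yA 0)] at h
    exact h
  · refine ⟨?_, ?_, ?_⟩
    · rintro ⟨h1, h2⟩
      exact d2 (H.excl_yAk hcub n1 h1 h2 H.n.A0 H.n.Bk cA.1 cB.2.1 H.n.z1y.1.symm
        H.n.z1y.2.2.2.symm)
    · rintro ⟨h1, h2⟩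
      exact d1 (H.excl_yAk hcub n1 h1 h2 H.n.A0 H.n.B0 cA.1 cB.1 H.n.z1y.1.symm
        H.n.z1y.2.2.1.symm)
    · rintro ⟨h1, h2⟩
      exact hyB (H.excl_yAk hcub n1 h1 h2 H.n.Bk H.n.B0 cB.2.1 cB.1 H.n.z1y.2.2.2.symm
        H.n.z1y.2.2.1.symm).symm
  · refine ⟨?_, ?_, ?_⟩
    · rintro ⟨h1, h2⟩
      exact d3 (H.rev.excl_yAk hcub n3 h1 (Helper33.L9.near_symm h2) H.n.B0 H.n.Ak cB.1 cA.2.1
        H.n.z5y.2.2.1.symm H.n.z5y.2.1.symm).symm
    · rintro ⟨h1, h2⟩
      exact d1 (H.rev.excl_yAk hcub n3 h1 (Helper33.L9.near_symm h2) H.n.B0 H.n.A0 cB.1 cA.1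
        H.n.z5y.2.2.1.symm H.n.z5y.1.symm).symm
    · rintro ⟨h1, h2⟩
      exact hyA (H.rev.excl_yAk hcub n3 (Helper33.L9.near_symm h1) (Helper33.L9.near_symm h2)
        H.n.Ak H.n.A0 cA.2.1 cA.1 H.n.z5y.2.1.symm H.n.z5y.1.symm).symm
  · refine ⟨?_, ?_, ?_⟩
    · rintro ⟨h1, h2⟩
      exact d4 (H.excl_yA0 hcub hA n2 (Helper33.L9.near_symm h1) h2 H.n.Ak H.n.Bk cA.2.1 cB.2.1)
    · rintro ⟨h1, h2⟩
      exact d3 (H.excl_yA0 hcub hA n2 (Helper33.L9.near_symm h1) h2 H.n.Ak H.n.B0 cA.2.1 cB.1)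
    · rintro ⟨h1, h2⟩
      exact hyB (H.excl_yA0 hcub hA n2 h1 h2 H.n.Bk H.n.B0 cB.2.1 cB.1).symm
  · refine ⟨?_, ?_, ?_⟩
    · rintro ⟨h1, h2⟩
      exact d4 (H.rev.excl_yA0 hcub hB n4 (Helper33.L9.near_symm h1)
        (Helper33.L9.near_symm h2) H.n.Bk H.n.Ak cB.2.1 cA.2.1).symm
    · rintro ⟨h1, h2⟩
      exact d2 (H.rev.excl_yA0 hcub hB n4 (Helper33.L9.near_symm h1)
        (Helper33.L9.near_symm h2) H.n.Bk H.n.A0 cB.2.1 cA.1).symm
    · rintro ⟨h1, h2⟩
      exact hyA (H.rev.excl_yA0 hcub hB n4 (Helper33.L9.near_symm h1)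
        (Helper33.L9.near_symm h2) H.n.Ak H.n.A0 cA.2.1 cA.1).symm
  · intro h6
    exact ⟨H.no_v1_yA0 hcub hA h6, H.rev.no_v1_yA0 hcub hB (Helper33.L9.near_symm h6)⟩
  · intro h3
    exact H.v1_iff_v5 hcub hA hB h3

theorem inVR (hA : kA ≠ 0) (hB : kB = 0) (n1 : NMAt G X bak) (n2 : NMAt G X ba0)
    (n3 : NMAt G X bbk) :
    InVR (Lst G L f v1) (Lst G L f v5) (Lst G L f (yA kA)) (Lst G L f (yA 0))
      (Lst G L f (yB 0)) (flVR G v1 v5 (yA kA) (yA 0) (yB 0)) := by
  have hyA : yA 0 ≠ yA kA := fun he => hA (H.h.A.nyy 0 (Nat.zero_le _) kA le_rfl he).symm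
  obtain ⟨d1, d2, d3, d4⟩ := H.n.dAB
  have cA := H.ccs
  have cB := H.rev.ccs
  have n3' : ∀ {t}, Helper33.L9.near G t (yB 0) → Helper33.L9.near G (yB kB) t := by
    intro t ht
    rw [hB]
    exact Helper33.L9.near_symm ht
  refine { o1 := ?_, o5 := ?_, a := ?_, b := ?_, a' := ?_, y := ?_, y' := ?_,
           x := ?_, rs := ?_ }
  · exact has_v1_VR hcub H hA
  · exact has_v1_RV hcub H.rev hA
  · exact has_yk_VR hcub H hA n1
  · exact has_y0_VR hcub H hA n2
  · have h := has_yk_RV hcub H.rev hA n3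
    rw [hB] at h
    rw [bn_near (yB 0) (yA kA), bn_near (yB 0) (yA 0)] at h
    exact h
  · rintro ⟨h1, h2⟩
    exact d1 (H.excl_yAk hcub n1 h1 h2 H.n.A0 H.n.B0 cA.1 cB.1 H.n.z1y.1.symm
      H.n.z1y.2.2.1.symm)
  · rintro ⟨h1, h2⟩
    exact d3 (H.excl_yA0 hcub hA n2 (Helper33.L9.near_symm h1) h2 H.n.Ak H.n.B0 cA.2.1 cB.1)
  · rintro ⟨h1, h2⟩
    exact hyA (H.rev.excl_yAk hcub n3 (n3' h1) (n3' h2)
      H.n.Ak H.n.A0 cA.2.1 cA.1 H.n.z5y.2.1.symm H.n.z5y.1.symm).symm
  · intro h5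
    exact H.no_v1_yA0 hcub hA h5

theorem inRR (n1 : NMAt G X bak) (hB : kB = 0) (hA : kA = 0) (n3 : NMAt G X bbk) :
    Has (Lst G L f (yA 0)) (2 + bn (Helper33.L9.near G (yA 0) (yB 0))) ∧
    Has (Lst G L f (yB 0)) (2 + bn (Helper33.L9.near G (yA 0) (yB 0))) := by
  have h1 := has_yk_RR hcub H n1
  have h2 := has_yk_RR hcub H.rev n3
  rw [hA] at h1
  rw [hB, bn_near] at h2
  exact ⟨h1, h2⟩

end

end Pool.Agent.helper40.L9
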