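import Pool.Agent.helper40.L9.JSel
import Pool.Agent.helper97.L9.JN
import Pool.Agent.helper19.L9.JK
import Pool.Agent.helper2.L9.JLem

/-!
# The joint stage: solutions from the finite lemmas, two virtual chords
-/

namespace Pool.Agent.helper40.L9.J

variable {O1 O5 A B A' B' : ℕ → Prop} {F : Fl} {LA LB : ℕ}

theorem lstB {o1 o5 : ℕ} {Y Y' : ℕ → ℕ} (h : InVV O1 O5 A B A' B' F)
    (S : Sel O1 O5 A A' F o1 o5 Y Y') :
    Has (fun x => B x ∧ (F.r1 → ∀ a, Y a ≠ x) ∧ (F.r5 → ∀ e, x ≠ Y' e))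
      (3 + bn F.r6 + bn F.s1) := by
  have hb := h.b
  rw [show 3 + bn F.r1 + bn F.r5 + bn F.r6 + bn F.s1 =
    3 + bn F.r6 + bn F.s1 + bn F.r1 + bn F.r5 by omega] at hb
  refine Has.two (by omega) hb ?_ ?_
  · intro h1
    obtain ⟨s, hs⟩ := S.k (Or.inl h1)
    exact ⟨s, fun i hi a => by rw [hs a]; exact hi.symm⟩
  · intro h5
    obtain ⟨s, hs⟩ := S.k' (Or.inr h5)
    exact ⟨s, fun i hi e => by rw [hs e]; exact hi⟩

theorem lstB' {o1 o5 : ℕ} {Y Y' : ℕ → ℕ} (h : InVV O1 O5 A B A' B' F)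
    (S : Sel O1 O5 A A' F o1 o5 Y Y') :
    Has (fun x => B' x ∧ (F.r2 → ∀ e, Y' e ≠ x) ∧ (F.r4 → ∀ a, x ≠ Y a))
      (3 + bn F.r6 + bn F.s4) :=
  lstB h.rev S.rev

theorem cfun {L : ℕ} (hL : L ∈ M3) (Y : ℕ → ℕ) :
    ∃ C : ℕ → ℕ, (∀ a, C a ∈ M2) ∧ ∀ a, sb (C a) (kk L (Y a)) = true := by
  choose C h1 h2 using fun a => kk_has hL (Y a)
  exact ⟨C, h1, h2⟩

theorem del_m3 : ∀ B ∈ M4, ∀ a < 5, ∀ x < 5, (del B a).testBit x = true →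
    B.testBit x = true ∧ x ≠ a := by decide +kernel

/-- the general finishing step -/
theorem finS {o1 o5 : ℕ} {Y Y' : ℕ → ℕ} (S : Sel O1 O5 A A' F o1 o5 Y Y')
    {C C' : ℕ → ℕ} (hC : ∀ a, sb (C a) (kk LA (Y a)) = true)
    (hC' : ∀ e, sb (C' e) (kk LB (Y' e)) = true)
    {a e Bx Bx' : ℕ} (ha : o1.testBit a = true) (he : o5.testBit e = true)
    (hB : ∀ x, x < 5 → Bx.testBit x = true → (B x ∧ (F.r1 → ∀ a, Y a ≠ x) ∧
      (F.r5 → ∀ e, x ≠ Y' e)) ∧ (F.s1 → a ≠ x))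
    (hB' : ∀ x, x < 5 → Bx'.testBit x = true → (B' x ∧ (F.r2 → ∀ e, Y' e ≠ x) ∧
      (F.r4 → ∀ a, x ≠ Y a)) ∧ (F.s4 → e ≠ x))
    (h6 : F.r6 → ∀ x x', Bx.testBit x = true → Bx'.testBit x' = true → x ≠ x')
    (h : sdr (u4 e Bx (C a)) (u4 a Bx' (C' e)) = true) :
    SolVV O1 O5 A B A' B' LA LB F := by
  refine fin_VV (S.s1 a ha) (S.s5 e he) (S.y a ha).1 (S.y' e he).1 (S.y a ha).2 (S.y' e he).2
    (fun hh => S.r3 hh a e ha he) (fun hh => S.c2 hh a e ha he) (fun hh => S.c3 hh a e ha he)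
    ?_ ?_ h6 (hC a) (hC' e) h
  · intro x hx hx1
    obtain ⟨⟨q1, q2, q3⟩, q4⟩ := hB x hx hx1
    exact ⟨q1, fun hh => q2 hh a, fun hh => q3 hh e, q4⟩
  · intro x hx hx1
    obtain ⟨⟨q1, q2, q3⟩, q4⟩ := hB' x hx hx1
    exact ⟨q1, fun hh => q2 hh e, fun hh => (q3 hh a).symm, q4⟩

/-- the case `x x'` -/
theorem grp6 (h : InVV O1 O5 A B A' B' F) (hLA : LA ∈ M3) (hLB : LB ∈ M3) (h6 : F.r6) :
    SolVV O1 O5 A B A' B' LA LB F := by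
  obtain ⟨o1, o5, Y, Y', S⟩ := selAny h
  obtain ⟨C, hC, hC2⟩ := cfun hLA Y
  obtain ⟨C', hC', hC2'⟩ := cfun hLB Y'
  have hb := lstB h S
  have hb' := lstB' h S
  obtain ⟨n1, n4⟩ := h.rs h6
  rw [bn_t h6, bn_f n1] at hb
  rw [bn_t h6, bn_f n4] at hb'
  obtain ⟨b, hbm, hbP⟩ := hb
  obtain ⟨b', hbm', hbP'⟩ := hb'
  obtain ⟨a, e, x, x', ha, he, hx, hx', hxx, hs⟩ :=
    Helper97.L9.J.N4 (C := C) (C' := C') S.m1 S.m5 hbm hbm' hC hC'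
  refine finS S hC2 hC2' (Bx := sg x) (Bx' := sg x') ha he ?_ ?_ ?_ hs
  · intro i _ hi
    rw [tb_sg, decide_eq_true_eq] at hi
    subst hi
    exact ⟨hbP x hx, fun hh => absurd hh n1⟩
  · intro i _ hi
    rw [tb_sg, decide_eq_true_eq] at hi
    subst hi
    exact ⟨hbP' x' hx', fun hh => absurd hh n4⟩
  · intro _ i j hi hj
    rw [tb_sg, decide_eq_true_eq] at hi hj
    subst hi hj
    exact hxx

/-- the cases with `a x` -/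
theorem grpx (h : InVV O1 O5 A B A' B' F) (hLA : LA ∈ M3) (hLB : LB ∈ M3) (h6 : ¬ F.r6)
    (h1 : F.s1) : SolVV O1 O5 A B A' B' LA LB F := by
  obtain ⟨o1, o5, Y, Y', S⟩ := selAny h
  obtain ⟨C, hC, hC2⟩ := cfun hLA Y
  obtain ⟨C', hC', hC2'⟩ := cfun hLB Y'
  have hb := lstB h S
  have hb' := lstB' h S
  rw [bn_f h6, bn_t h1] at hb
  rw [bn_f h6] at hb'
  obtain ⟨b, hbm, hbP⟩ := hb
  by_cases h4 : F.s4
  · rw [bn_t h4] at hb'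
    obtain ⟨b', hbm', hbP'⟩ := hb'
    obtain ⟨a, e, ha, he, hs⟩ :=
      Helper97.L9.J.N1xx (C := C) (C' := C') S.m1 S.m5 hbm hbm' hC hC'
    have ha5 := tb_lt (M2_lt S.m1) ha
    have he5 := tb_lt (M2_lt S.m5) he
    refine finS S hC2 hC2' ha he ?_ ?_ (fun hh => absurd hh h6) hs
    · intro i hi5 hi
      obtain ⟨q1, q2⟩ := del_m3 b hbm a ha5 i hi5 hi
      exact ⟨hbP i q1, fun _ => q2.symm⟩
    · intro i hi5 hi
      obtain ⟨q1, q2⟩ := del_m3 b' hbm' e he5 i hi5 hi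
      exact ⟨hbP' i q1, fun _ => q2.symm⟩
  · rw [bn_f h4] at hb'
    obtain ⟨b', hbm', hbP'⟩ := hb'
    obtain ⟨a, e, ha, he, hs⟩ :=
      Helper97.L9.J.N1x (C := C) (C' := C') S.m1 S.m5 hbm hbm' hC hC'
    have ha5 := tb_lt (M2_lt S.m1) ha
    refine finS S hC2 hC2' ha he ?_ ?_ (fun hh => absurd hh h6) hs
    · intro i hi5 hi
      obtain ⟨q1, q2⟩ := del_m3 b hbm a ha5 i hi5 hi
      exact ⟨hbP i q1, fun _ => q2.symm⟩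
    · intro i hi5 hi
      exact ⟨hbP' i hi, fun hh => absurd hh h4⟩

/-- not dangerous -/
theorem grp1 (h : InVV O1 O5 A B A' B' F) (hLA : LA ∈ M3) (hLB : LB ∈ M3) (h6 : ¬ F.r6)
    (h1 : ¬ F.s1) (h4 : ¬ F.s4) {o1 o5 : ℕ} {Y Y' : ℕ → ℕ} (S : Sel O1 O5 A A' F o1 o5 Y Y')
    (hnd : ¬ (o1 = o5 ∧ o1 ∈ trio)) : SolVV O1 O5 A B A' B' LA LB F := by
  obtain ⟨C, hC, hC2⟩ := cfun hLA Y
  obtain ⟨C', hC', hC2'⟩ := cfun hLB Y'
  have hb := lstB h S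
  have hb' := lstB' h S
  rw [bn_f h6, bn_f h1] at hb
  rw [bn_f h6, bn_f h4] at hb'
  obtain ⟨b, hbm, hbP⟩ := hb
  obtain ⟨b', hbm', hbP'⟩ := hb'
  obtain ⟨a, e, ha, he, hs⟩ :=
    Helper97.L9.J.N1 (C := C) (C' := C') S.m1 S.m5 hnd hbm hbm' hC hC'
  refine finS S hC2 hC2' ha he ?_ ?_ (fun hh => absurd hh h6) hs
  · intro i _ hi
    exact ⟨hbP i hi, fun hh => absurd hh h1⟩
  · intro i _ hi
    exact ⟨hbP' i hi, fun hh => absurd hh h4⟩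

end Pool.Agent.helper40.L9.J
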