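import Pool.Agent.helper40.L9.JGrp

/-!
# The joint stage: the special cases, two virtual chords
-/

namespace Pool.Agent.helper40.L9.J

variable {O1 O5 A B A' B' : ℕ → Prop} {F : Fl} {LA LB : ℕ}

/-- edge `y x`, dangerous -/
theorem dng1 (h : InVV O1 O5 A B A' B' F) (hLA : LA ∈ M3) (hLB : LB ∈ M3) (h6 : ¬ F.r6)
    (h1 : ¬ F.s1) (h2 : ¬ F.s2) (h3 : ¬ F.s3) (h4 : ¬ F.s4) (hr : F.r1) {O : ℕ} (hO : O ∈ trio)
    (m1 : O ∈ M2) (hO1 : ∀ a, O.testBit a = true → O1 a)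
    (hO5 : ∀ a, O.testBit a = true → O5 a) : SolVV O1 O5 A B A' B' LA LB F := by
  have n3 : ¬ F.r3 := fun hh => h.y.1 ⟨hr, hh⟩
  have n4 : ¬ F.r4 := fun hh => h.y.2.1 ⟨hr, hh⟩
  have n5 : ¬ F.r5 := fun hh => h.x.1 ⟨hr, hh⟩
  have ha := h.a
  rw [bn_t hr, bn_f n3, bn_f n4, bn_f h3] at ha
  have hb := h.b
  rw [bn_t hr, bn_f n5, bn_f h6, bn_f h1] at hb
  have ha' := h.a'
  rw [bn_f n3, bn_f n5, bn_f h2] at ha'
  have hb' := h.b'
  rw [bn_f n4, bn_f h6, bn_f h4] at hb'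
  obtain ⟨Y', y1, y2⟩ := choose_Y m1 ha'
  obtain ⟨C', hC', hC2'⟩ := cfun hLB Y'
  have hb2 : Has (fun x => B' x ∧ (F.r2 → ∀ e, Y' e ≠ x) ∧ (False → True)) 3 := by
    refine Has.two (by omega) (by rw [bn_f (p := False) id]; exact hb') ?_ ?_
    · intro h1
      obtain ⟨s, hs⟩ := y2 h1
      exact ⟨s, fun i hi a => by rw [hs a]; exact hi.symm⟩
    · exact fun hh => hh.elim
  obtain ⟨ma, hma, hmaP⟩ := ha
  obtain ⟨mb, hmb, hmbP⟩ := hb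
  obtain ⟨mb', hmb', hmbP'⟩ := hb2
  obtain ⟨a, e, y, hoa, hoe, hy, hya, hs⟩ :=
    Pool.Agent.helper2.L9.J.K1 (C' := C') hO hma hmb hLA hmb' hC'
  have hy5 := tb_lt (M3_lt hma) hy
  refine fin_VV (hO1 a hoa) (hO5 e hoe) (hmaP y hy) (y1 e hoe).1 hya (y1 e hoe).2
    (fun hh => absurd hh n3) (fun hh => absurd hh h2) (fun hh => absurd hh h3) ?_ ?_
    (fun hh => absurd hh h6) (C := kk LA y) (C' := C' e) (by unfold sb; simp) (hC2' e) hs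
  · intro x hx hx1
    obtain ⟨q1, q2⟩ := del_m3 mb hmb y hy5 x hx hx1
    exact ⟨hmbP x q1, fun _ => q2.symm, fun hh => absurd hh n5, fun hh => absurd hh h1⟩
  · intro x hx hx1
    obtain ⟨q1, q2, _⟩ := hmbP' x hx1
    exact ⟨q1, fun hh => q2 hh e, fun hh => absurd hh n4, fun hh => absurd hh h4⟩

/-- edge `y y'`, dangerous -/
theorem dng3 (h : InVV O1 O5 A B A' B' F) (hLA : LA ∈ M3) (hLB : LB ∈ M3) (h6 : ¬ F.r6)
    (h1 : ¬ F.s1) (h2 : ¬ F.s2) (h3 : ¬ F.s3) (h4 : ¬ F.s4) (hr : F.r3) {O : ℕ} (hO : O ∈ trio)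
    (hO1 : ∀ a, O.testBit a = true → O1 a)
    (hO5 : ∀ a, O.testBit a = true → O5 a) : SolVV O1 O5 A B A' B' LA LB F := by
  have n1 : ¬ F.r1 := fun hh => h.y.1 ⟨hh, hr⟩
  have n2 : ¬ F.r2 := fun hh => h.y'.1 ⟨hh, hr⟩
  have n4 : ¬ F.r4 := fun hh => h.y.2.2 ⟨hr, hh⟩
  have n5 : ¬ F.r5 := fun hh => h.y'.2.2 ⟨hr, hh⟩
  have ha := h.a
  rw [bn_f n1, bn_t hr, bn_f n4, bn_f h3] at ha
  have hb := h.b
  rw [bn_f n1, bn_f n5, bn_f h6, bn_f h1] at hb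
  have ha' := h.a'
  rw [bn_f n2, bn_t hr, bn_f n5, bn_f h2] at ha'
  have hb' := h.b'
  rw [bn_f n2, bn_f n4, bn_f h6, bn_f h4] at hb'
  obtain ⟨ma, hma, hmaP⟩ := ha
  obtain ⟨mb, hmb, hmbP⟩ := hb
  obtain ⟨ma', hma', hmaP'⟩ := ha'
  obtain ⟨mb', hmb', hmbP'⟩ := hb'
  obtain ⟨a, e, y, y', hoa, hoe, hy, hya, hy', hye, hyy, hs⟩ :=
    Helper19.J.K3 hO hma hmb hLA hma' hmb' hLB
  exact fin_VV (hO1 a hoa) (hO5 e hoe) (hmaP y hy) (hmaP' y' hy') hya hye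
    (fun _ => hyy) (fun hh => absurd hh h2) (fun hh => absurd hh h3)
    (fun x hx hx1 => ⟨hmbP x hx1, fun hh => absurd hh n1, fun hh => absurd hh n5,
      fun hh => absurd hh h1⟩)
    (fun x hx hx1 => ⟨hmbP' x hx1, fun hh => absurd hh n2, fun hh => absurd hh n4,
      fun hh => absurd hh h4⟩)
    (fun hh => absurd hh h6) (C := kk LA y) (C' := kk LB y') (by unfold sb; simp)
    (by unfold sb; simp) hs

/-- edge `y x'`, dangerous -/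
theorem dng4 (h : InVV O1 O5 A B A' B' F) (hLA : LA ∈ M3) (hLB : LB ∈ M3) (h6 : ¬ F.r6)
    (h1 : ¬ F.s1) (h2 : ¬ F.s2) (h3 : ¬ F.s3) (h4 : ¬ F.s4) (hr : F.r4) {O : ℕ} (hO : O ∈ trio)
    (m1 : O ∈ M2) (hO1 : ∀ a, O.testBit a = true → O1 a)
    (hO5 : ∀ a, O.testBit a = true → O5 a) : SolVV O1 O5 A B A' B' LA LB F := by
  have n1 : ¬ F.r1 := fun hh => h.y.2.1 ⟨hh, hr⟩
  have n3 : ¬ F.r3 := fun hh => h.y.2.2 ⟨hh, hr⟩
  have n2 : ¬ F.r2 := fun hh => h.x'.1 ⟨hh, hr⟩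
  have ha := h.a
  rw [bn_f n1, bn_f n3, bn_t hr, bn_f h3] at ha
  have hb := h.b
  rw [bn_f n1, bn_f h6, bn_f h1] at hb
  have ha' := h.a'
  rw [bn_f n2, bn_f n3, bn_f h2] at ha'
  have hb' := h.b'
  rw [bn_f n2, bn_t hr, bn_f h6, bn_f h4] at hb'
  obtain ⟨Y', y1, y2⟩ := choose_Y (fix := F.r5) m1 ha'
  obtain ⟨C', hC', hC2'⟩ := cfun hLB Y'
  have hb2 : Has (fun x => B x ∧ (F.r5 → ∀ e, x ≠ Y' e) ∧ (False → True)) 3 := by
    refine Has.two (by omega) (by rw [bn_f (p := False) id]; exact hb) ?_ ?_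
    · intro h1
      obtain ⟨s, hs⟩ := y2 h1
      exact ⟨s, fun i hi a => by rw [hs a]; exact hi⟩
    · exact fun hh => hh.elim
  obtain ⟨ma, hma, hmaP⟩ := ha
  obtain ⟨mb, hmb, hmbP⟩ := hb2
  obtain ⟨mb', hmb', hmbP'⟩ := hb'
  obtain ⟨a, e, y, hoa, hoe, hy, hya, hs⟩ :=
    Pool.Agent.helper2.L9.J.K2 (C' := C') hO hma hmb hLA hmb' hC'
  have hy5 := tb_lt (M3_lt hma) hy
  refine fin_VV (hO1 a hoa) (hO5 e hoe) (hmaP y hy) (y1 e hoe).1 hya (y1 e hoe).2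
    (fun hh => absurd hh n3) (fun hh => absurd hh h2) (fun hh => absurd hh h3) ?_ ?_
    (fun hh => absurd hh h6) (C := kk LA y) (C' := C' e) (by unfold sb; simp) (hC2' e) hs
  · intro x hx hx1
    obtain ⟨q1, q2, _⟩ := hmbP x hx1
    exact ⟨q1, fun hh => absurd hh n1, fun hh => q2 hh e, fun hh => absurd hh h1⟩
  · intro x hx hx1
    obtain ⟨q1, q2⟩ := del_m3 mb' hmb' y hy5 x hx hx1
    exact ⟨hmbP' x q1, fun hh => absurd hh n2, fun _ => q2.symm, fun hh => absurd hh h4⟩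

/-- no `a y'`, `e y`, but some conflict between links -/
theorem grp00 (h : InVV O1 O5 A B A' B' F) (hLA : LA ∈ M3) (hLB : LB ∈ M3) (h6 : ¬ F.r6)
    (h1 : ¬ F.s1) (h2 : ¬ F.s2) (h3 : ¬ F.s3) (h4 : ¬ F.s4)
    (hr : F.r1 ∨ F.r2 ∨ F.r3 ∨ F.r4 ∨ F.r5) : SolVV O1 O5 A B A' B' LA LB F := by
  obtain ⟨o1, m1, k1⟩ := Has.le (k := 2) le_rfl (by omega) h.o1
  obtain ⟨o5, m5, k5⟩ := Has.le (k := 2) le_rfl (by omega) h.o5
  by_cases hd : o1 = o5 ∧ o1 ∈ trio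
  · obtain ⟨rfl, ho⟩ := hd
    rcases hr with hr | hr | hr | hr | hr
    · exact dng1 h hLA hLB h6 h1 h2 h3 h4 hr ho m1 k1 k5
    · exact (dng1 h.rev hLB hLA h6 h4 h3 h2 h1 hr ho m1 k5 k1).rev
    · exact dng3 h hLA hLB h6 h1 h2 h3 h4 hr ho k1 k5
    · exact dng4 h hLA hLB h6 h1 h2 h3 h4 hr ho m1 k1 k5
    · exact (dng4 h.rev hLB hLA h6 h4 h3 h2 h1 hr ho m1 k5 k1).rev
  · obtain ⟨Y, Y', S⟩ := sel00 h h2 h3 m1 m5 k1 k5
    exact grp1 h hLA hLB h6 h1 h4 S hd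

/-! ### `e y` -/

theorem tab3 : ∀ O1 ∈ M2, ∀ O5 ∈ M3, ∀ A ∈ M3,
    (∃ s < 5, A.testBit s = true ∧ O1.testBit s = false ∧ ∃ o5 ∈ M2, sb o5 (del O5 s) = true ∧
      ¬ (O1 = o5 ∧ O1 ∈ trio)) ∨
    (O1 ∈ trio ∧ ∃ s < 5, O1.testBit s = false ∧ O5 = O1 ||| sg s ∧ A = O5) := by
  decide +kernel

theorem tab4 : ∀ O1 ∈ M2, ∀ O5 ∈ M3, ∀ A ∈ M4,
    ∃ s < 5, A.testBit s = true ∧ O1.testBit s = false ∧ ∃ o5 ∈ M2, sb o5 (del O5 s) = true ∧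
      ¬ (O1 = o5 ∧ O1 ∈ trio) := by
  decide +kernel

theorem tab_sub3 : ∀ A ∈ M3, ∀ O ∈ M3, A = O ∨ ∃ t < 5, A.testBit t = true ∧
    O.testBit t = false := by decide +kernel

theorem grp01 (h : InVV O1 O5 A B A' B' F) (hLA : LA ∈ M3) (hLB : LB ∈ M3) (h6 : ¬ F.r6)
    (h1 : ¬ F.s1) (h2 : ¬ F.s2) (h3 : F.s3) (h4 : ¬ F.s4) :
    SolVV O1 O5 A B A' B' LA LB F := by
  have n3 : ¬ F.r3 := fun hh => h2 ((h.yy hh).mpr h3)
  obtain ⟨o1, m1, k1⟩ := Has.le (k := 2) le_rfl (by omega) h.o1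
  have ho5 := h.o5
  rw [bn_t h3, bn_f h4] at ho5
  obtain ⟨n5, m5, k5⟩ := ho5
  -- a good choice
  have good : ∀ s o5, A s → o1.testBit s = false → o5 ∈ M2 → sb o5 (del n5 s) = true →
      ¬ (o1 = o5 ∧ o1 ∈ trio) → SolVV O1 O5 A B A' B' LA LB F := by
    intro s o5 hs hs1 ho hsb hnd
    have hrev : ∀ e, o5.testBit e = true → O5 e ∧ e ≠ s := by
      intro e he
      obtain ⟨q1, q2⟩ := del_bit (M3_lt m5) (sb_bit hsb he)
      exact ⟨k5 e q1, q2⟩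
    obtain ⟨Y', Y, S⟩ := sel10 h.rev h3 h2 (o5 := o1) m1 k1 (o1 := o5) (t := s) ho hrev hs hs1
    exact grp1 h hLA hLB h6 h1 h4 S.rev hnd
  by_cases h14 : F.r1 ∨ F.r4
  · have ha : Has A 4 := by
      refine Has.le (by norm_num) ?_ h.a
      rw [bn_t h3]
      rcases h14 with hh | hh
      · rw [bn_t hh]; omega
      · rw [bn_t hh]; omega
    obtain ⟨na, ma, ka⟩ := ha
    obtain ⟨s, _, q1, q2, o5, q3, q4, q5⟩ := tab4 o1 m1 n5 m5 na ma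
    exact good s o5 (ka s q1) q2 q3 q4 q5
  push Not at h14
  obtain ⟨n1, n4⟩ := h14
  have ha := h.a
  rw [bn_f n1, bn_f n3, bn_f n4, bn_t h3] at ha
  obtain ⟨na, ma, ka⟩ := ha
  rcases tab3 o1 m1 n5 m5 na ma with ⟨s, _, q1, q2, o5, q3, q4, q5⟩ | ⟨ht, s, hs, hs1, e1, e2⟩
  · exact good s o5 (ka s q1) q2 q3 q4 q5
  subst e2
  subst e1
  have hb := h.b
  rw [bn_f n1, bn_f h6, bn_f h1] at hb
  have hb' := h.b'
  rw [bn_f n4, bn_f h6, bn_f h4] at hb'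
  have ha' := h.a'
  rw [bn_f n3, bn_f h2] at ha'
  -- `y'` constant outside of `O5`
  have outc : ∀ t, A' t → (o1 ||| sg s).testBit t = false → (F.r2 ∨ F.r5) →
      SolVV O1 O5 A B A' B' LA LB F := by
    intro t ht1 ht2 hr
    obtain ⟨C', hC', hC2'⟩ := cfun hLB (fun _ => t)
    have hb2 : Has (fun x => B x ∧ (F.r5 → x ≠ t) ∧ (False → True)) 3 := by
      refine Has.two (by omega) (by rw [bn_f (p := False) id]; exact hb) ?_ ?_
      · exact fun _ => ⟨t, fun i hi => hi⟩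
      · exact fun hh => hh.elim
    have hb2' : Has (fun x => B' x ∧ (F.r2 → t ≠ x) ∧ (False → True)) 3 := by
      refine Has.two (by omega) (by rw [bn_f (p := False) id]; exact hb') ?_ ?_
      · exact fun _ => ⟨t, fun i hi => hi.symm⟩
      · exact fun hh => hh.elim
    obtain ⟨mb, hmb, hmbP⟩ := hb2
    obtain ⟨mb', hmb', hmbP'⟩ := hb2'
    obtain ⟨a, e, y, hoa, hoe, hy, hya, hye, hs⟩ :=
      Helper19.J.K4 (C' := C') ht hs hs1 hmb hLA hmb' hC'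
    exact fin_VV (k1 a hoa) (k5 e hoe) (ka y hy) ht1 hya (ne_of_tb hoe ht2)
      (fun hh => absurd hh n3) (fun hh => absurd hh h2) (fun _ => hye.symm)
      (fun x _ hx1 => ⟨(hmbP x hx1).1, fun hh => absurd hh n1, (hmbP x hx1).2.1,
        fun hh => absurd hh h1⟩)
      (fun x _ hx1 => ⟨(hmbP' x hx1).1, (hmbP' x hx1).2.1, fun hh => absurd hh n4,
        fun hh => absurd hh h4⟩)
      (fun hh => absurd hh h6) (C := kk LA y) (C' := C' e) (by unfold sb; simp) (hC2' e) hs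
  by_cases h5 : F.r5
  · have n2 : ¬ F.r2 := fun hh => h.y'.2.1 ⟨hh, h5⟩
    rw [bn_f n2, bn_t h5] at ha'
    rw [bn_t h5] at hb
    rw [bn_f n2] at hb'
    obtain ⟨na', ma', ka'⟩ := ha'
    rcases tab_sub3 na' ma' _ m5 with he | ⟨t, _, ht1, ht2⟩
    · subst he
      obtain ⟨mb, hmb, hmbP⟩ := hb
      obtain ⟨mb', hmb', hmbP'⟩ := hb'
      obtain ⟨a, e, y, y', hoa, hoe, hy, hya, hye, hy', hye', hs⟩ :=
        Helper19.J.K4p ht hs hs1 hmb hLA hmb' hLB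
      have hy5 := tb_lt (M3_lt ma') hy'
      exact fin_VV (k1 a hoa) (k5 e hoe) (ka y hy) (ka' y' hy') hya hye'
        (fun hh => absurd hh n3) (fun hh => absurd hh h2) (fun _ => hye.symm)
        (fun x hx hx1 => by
          obtain ⟨q1, q2⟩ := del_m3 mb hmb y' hy5 x hx hx1
          exact ⟨hmbP x q1, fun hh => absurd hh n1, fun _ => q2, fun hh => absurd hh h1⟩)
        (fun x _ hx1 => ⟨hmbP' x hx1, fun hh => absurd hh n2, fun hh => absurd hh n4,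
          fun hh => absurd hh h4⟩)
        (fun hh => absurd hh h6) (C := kk LA y) (C' := kk LB y') (by unfold sb; simp)
        (by unfold sb; simp) hs
    · exact outc t (ka' t ht1) ht2 (Or.inr h5)
  by_cases h2' : F.r2
  · rw [bn_t h2', bn_f h5] at ha'
    rw [bn_f h5] at hb
    rw [bn_t h2'] at hb'
    obtain ⟨na', ma', ka'⟩ := ha'
    rcases tab_sub3 na' ma' _ m5 with he | ⟨t, _, ht1, ht2⟩
    · subst he
      obtain ⟨mb, hmb, hmbP⟩ := hb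
      obtain ⟨mb', hmb', hmbP'⟩ := hb'
      obtain ⟨a, e, y, y', hoa, hoe, hy, hya, hye, hy', hye', hs⟩ :=
        Helper19.J.K4q ht hs hs1 hmb hLA hmb' hLB
      have hy5 := tb_lt (M3_lt ma') hy'
      exact fin_VV (k1 a hoa) (k5 e hoe) (ka y hy) (ka' y' hy') hya hye'
        (fun hh => absurd hh n3) (fun hh => absurd hh h2) (fun _ => hye.symm)
        (fun x _ hx1 => ⟨hmbP x hx1, fun hh => absurd hh n1, fun hh => absurd hh h5,
          fun hh => absurd hh h1⟩)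
        (fun x hx hx1 => by
          obtain ⟨q1, q2⟩ := del_m3 mb' hmb' y' hy5 x hx hx1
          exact ⟨hmbP' x q1, fun _ => q2.symm, fun hh => absurd hh n4, fun hh => absurd hh h4⟩)
        (fun hh => absurd hh h6) (C := kk LA y) (C' := kk LB y') (by unfold sb; simp)
        (by unfold sb; simp) hs
    · exact outc t (ka' t ht1) ht2 (Or.inl h2')
  rw [bn_f h2', bn_f h5] at ha'
  rw [bn_f h5] at hb
  rw [bn_f h2'] at hb'
  choose Y' y1 y2 using fun e => ha'.ne e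
  obtain ⟨C', hC', hC2'⟩ := cfun hLB Y'
  obtain ⟨mb, hmb, hmbP⟩ := hb
  obtain ⟨mb', hmb', hmbP'⟩ := hb'
  obtain ⟨a, e, y, hoa, hoe, hy, hya, hye, hs⟩ :=
    Helper19.J.K4 (C' := C') ht hs hs1 hmb hLA hmb' hC'
  exact fin_VV (k1 a hoa) (k5 e hoe) (ka y hy) (y1 e) hya (y2 e)
    (fun hh => absurd hh n3) (fun hh => absurd hh h2) (fun _ => hye.symm)
    (fun x _ hx1 => ⟨hmbP x hx1, fun hh => absurd hh n1, fun hh => absurd hh h5,
      fun hh => absurd hh h1⟩)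
    (fun x _ hx1 => ⟨hmbP' x hx1, fun hh => absurd hh h2', fun hh => absurd hh n4,
      fun hh => absurd hh h4⟩)
    (fun hh => absurd hh h6) (C := kk LA y) (C' := C' e) (by unfold sb; simp) (hC2' e) hs

end Pool.Agent.helper40.L9.J
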