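import Pool.Agent.helper40.L9.JGrp3

/-!
# The joint stage: the conflicts `a y'` and `e y` together, all cases with a conflict
-/

namespace Pool.Agent.helper40.L9.J

variable {O1 O5 A B A' B' : ℕ → Prop} {F : Fl} {LA LB : ℕ}

def any2 (p q : ℕ) : Bool := M2.any fun o1 => sb o1 p && M2.any fun o5 => sb o5 q &&
  !(o1 == o5 && (o1 == 5 || o1 == 9 || o1 == 10))

/-- one block of `tabD0` -/
def tD (O1 : ℕ) : Bool := M3.all fun O5 => M3.all fun A => M3.all fun A' =>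
    (List.range 5).any fun s => A.testBit s && (List.range 5).any fun t => A'.testBit t &&
      any2 (del (del O1 s) t) (del (del O5 s) t)

theorem tD_7 : tD 7 = true := by decide +kernel
theorem tD_11 : tD 11 = true := by decide +kernel
theorem tD_13 : tD 13 = true := by decide +kernel
theorem tD_14 : tD 14 = true := by decide +kernel
theorem tD_19 : tD 19 = true := by decide +kernel
theorem tD_21 : tD 21 = true := by decide +kernel
theorem tD_22 : tD 22 = true := by decide +kernel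
theorem tD_25 : tD 25 = true := by decide +kernel
theorem tD_26 : tD 26 = true := by decide +kernel
theorem tD_28 : tD 28 = true := by decide +kernel

theorem tD_all : ∀ O1 ∈ M3, tD O1 = true :=
  List.forall_mem_cons.2 ⟨tD_7,
  List.forall_mem_cons.2 ⟨tD_11,
  List.forall_mem_cons.2 ⟨tD_13,
  List.forall_mem_cons.2 ⟨tD_14,
  List.forall_mem_cons.2 ⟨tD_19,
  List.forall_mem_cons.2 ⟨tD_21,
  List.forall_mem_cons.2 ⟨tD_22,
  List.forall_mem_cons.2 ⟨tD_25,
  List.forall_mem_cons.2 ⟨tD_26,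
  List.forall_mem_cons.2 ⟨tD_28,
  List.forall_mem_nil _⟩⟩⟩⟩⟩⟩⟩⟩⟩⟩

theorem tabD0 : (M3.all fun O1 => M3.all fun O5 => M3.all fun A => M3.all fun A' =>
    (List.range 5).any fun s => A.testBit s && (List.range 5).any fun t => A'.testBit t &&
      any2 (del (del O1 s) t) (del (del O5 s) t)) = true := by
  rw [List.all_eq_true]
  intro O1 h
  exact tD_all O1 h

/-- one block of `tabE0` -/
def tE (O1 : ℕ) : Bool := M3.all fun O5 => M4.all fun A => M4.all fun A' =>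
    Helper19.J.y5l.contains (O1, O5, A, A') ||
    (List.range 5).any fun s => A.testBit s && (List.range 5).any fun t => A'.testBit t &&
      s != t && any2 (del (del O1 s) t) (del (del O5 s) t)

theorem tE_7 : tE 7 = true := by decide +kernel
theorem tE_11 : tE 11 = true := by decide +kernel
theorem tE_13 : tE 13 = true := by decide +kernel
theorem tE_14 : tE 14 = true := by decide +kernel
theorem tE_19 : tE 19 = true := by decide +kernel
theorem tE_21 : tE 21 = true := by decide +kernel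
theorem tE_22 : tE 22 = true := by decide +kernel
theorem tE_25 : tE 25 = true := by decide +kernel
theorem tE_26 : tE 26 = true := by decide +kernel
theorem tE_28 : tE 28 = true := by decide +kernel

theorem tE_all : ∀ O1 ∈ M3, tE O1 = true :=
  List.forall_mem_cons.2 ⟨tE_7,
  List.forall_mem_cons.2 ⟨tE_11,
  List.forall_mem_cons.2 ⟨tE_13,
  List.forall_mem_cons.2 ⟨tE_14,
  List.forall_mem_cons.2 ⟨tE_19,
  List.forall_mem_cons.2 ⟨tE_21,
  List.forall_mem_cons.2 ⟨tE_22,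
  List.forall_mem_cons.2 ⟨tE_25,
  List.forall_mem_cons.2 ⟨tE_26,
  List.forall_mem_cons.2 ⟨tE_28,
  List.forall_mem_nil _⟩⟩⟩⟩⟩⟩⟩⟩⟩⟩

theorem tabE0 : (M3.all fun O1 => M3.all fun O5 => M4.all fun A => M4.all fun A' =>
    Helper19.J.y5l.contains (O1, O5, A, A') ||
    (List.range 5).any fun s => A.testBit s && (List.range 5).any fun t => A'.testBit t &&
      s != t && any2 (del (del O1 s) t) (del (del O5 s) t)) = true := by
  rw [List.all_eq_true]
  intro O1 h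
  exact tE_all O1 h

theorem any2_spec {p q : ℕ} (h : any2 p q = true) : ∃ o1 ∈ M2, sb o1 p = true ∧
    ∃ o5 ∈ M2, sb o5 q = true ∧ ¬ (o1 = o5 ∧ o1 ∈ trio) := by
  unfold any2 at h
  rw [List.any_eq_true] at h
  obtain ⟨o1, h1, h2⟩ := h
  rw [Bool.and_eq_true, List.any_eq_true] at h2
  obtain ⟨h2, o5, h3, h4⟩ := h2
  rw [Bool.and_eq_true] at h4
  refine ⟨o1, h1, h2, o5, h3, h4.1, ?_⟩
  rintro ⟨rfl, ht⟩
  have h5 := h4.2
  unfold trio at ht
  simp only [List.mem_cons, List.not_mem_nil, or_false] at ht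
  rcases ht with rfl | rfl | rfl <;> exact absurd h5 (by decide)

theorem tabD {O1 O5 A A' : ℕ} (h1 : O1 ∈ M3) (h2 : O5 ∈ M3) (h3 : A ∈ M3) (h4 : A' ∈ M3) :
    ∃ s t, A.testBit s = true ∧ A'.testBit t = true ∧
      ∃ o1 ∈ M2, sb o1 (del (del O1 s) t) = true ∧
      ∃ o5 ∈ M2, sb o5 (del (del O5 s) t) = true ∧ ¬ (o1 = o5 ∧ o1 ∈ trio) := by
  have h := tabD0
  rw [List.all_eq_true] at h
  have h := h O1 h1
  rw [List.all_eq_true] at h
  have h := h O5 h2
  rw [List.all_eq_true] at h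
  have h := h A h3
  rw [List.all_eq_true] at h
  have h := h A' h4
  rw [List.any_eq_true] at h
  obtain ⟨s, _, h⟩ := h
  rw [Bool.and_eq_true, List.any_eq_true] at h
  obtain ⟨hs, t, _, h⟩ := h
  rw [Bool.and_eq_true] at h
  exact ⟨s, t, hs, h.1, any2_spec h.2⟩

theorem tabE {O1 O5 A A' : ℕ} (h1 : O1 ∈ M3) (h2 : O5 ∈ M3) (h3 : A ∈ M4) (h4 : A' ∈ M4) :
    (O1, O5, A, A') ∈ Helper19.J.y5 ∨ ∃ s t, s ≠ t ∧ A.testBit s = true ∧ A'.testBit t = true ∧
      ∃ o1 ∈ M2, sb o1 (del (del O1 s) t) = true ∧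
      ∃ o5 ∈ M2, sb o5 (del (del O5 s) t) = true ∧ ¬ (o1 = o5 ∧ o1 ∈ trio) := by
  have h := tabE0
  rw [List.all_eq_true] at h
  have h := h O1 h1
  rw [List.all_eq_true] at h
  have h := h O5 h2
  rw [List.all_eq_true] at h
  have h := h A h3
  rw [List.all_eq_true] at h
  have h := h A' h4
  rw [Bool.or_eq_true] at h
  rcases h with h | h
  · left
    rw [Helper19.J.y5_eq]
    exact List.contains_iff_mem.mp h
  · right
    rw [List.any_eq_true] at h
    obtain ⟨s, _, h⟩ := h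
    rw [Bool.and_eq_true, List.any_eq_true] at h
    obtain ⟨hs, t, _, h⟩ := h
    rw [Bool.and_eq_true, Bool.and_eq_true, bne_iff_ne] at h
    exact ⟨s, t, h.1.2, hs, h.1.1, any2_spec h.2⟩

theorem grp11 (h : InVV O1 O5 A B A' B' F) (hLA : LA ∈ M3) (hLB : LB ∈ M3) (h6 : ¬ F.r6)
    (h1 : ¬ F.s1) (h2 : F.s2) (h3 : F.s3) (h4 : ¬ F.s4) :
    SolVV O1 O5 A B A' B' LA LB F := by
  have ho1 := h.o1
  rw [bn_f h1, bn_t h2] at ho1
  obtain ⟨n1, m1, k1⟩ := ho1
  have ho5 := h.o5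
  rw [bn_t h3, bn_f h4] at ho5
  obtain ⟨n5, m5, k5⟩ := ho5
  have good : ∀ s t o1 o5, (F.r3 → s ≠ t) → A s → A' t → o1 ∈ M2 →
      sb o1 (del (del n1 s) t) = true → o5 ∈ M2 → sb o5 (del (del n5 s) t) = true →
      ¬ (o1 = o5 ∧ o1 ∈ trio) → SolVV O1 O5 A B A' B' LA LB F := by
    intro s t o1 o5 hst hs ht ho1 hb1 ho5 hb5 hnd
    have S : Sel O1 O5 A A' F o1 o5 (fun _ => s) (fun _ => t) := by
      refine sel11 hst ho1 ho5 ?_ ?_ hs ht
      · intro a ha
        obtain ⟨q1, q2, q3⟩ := del2_bit (M3_lt m1) (sb_bit hb1 ha)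
        exact ⟨k1 a q1, q2, q3⟩
      · intro a ha
        obtain ⟨q1, q2, q3⟩ := del2_bit (M3_lt m5) (sb_bit hb5 ha)
        exact ⟨k5 a q1, q2, q3⟩
    exact grp1 h hLA hLB h6 h1 h4 S hnd
  by_cases hr : F.r3
  · have n1' : ¬ F.r1 := fun hh => h.y.1 ⟨hh, hr⟩
    have n2 : ¬ F.r2 := fun hh => h.y'.1 ⟨hh, hr⟩
    have n4 : ¬ F.r4 := fun hh => h.y.2.2 ⟨hr, hh⟩
    have n5' : ¬ F.r5 := fun hh => h.y'.2.2 ⟨hr, hh⟩
    have ha := h.a
    rw [bn_f n1', bn_t hr, bn_f n4, bn_t h3] at ha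
    have hb := h.b
    rw [bn_f n1', bn_f n5', bn_f h6, bn_f h1] at hb
    have ha' := h.a'
    rw [bn_f n2, bn_t hr, bn_f n5', bn_t h2] at ha'
    have hb' := h.b'
    rw [bn_f n2, bn_f n4, bn_f h6, bn_f h4] at hb'
    obtain ⟨ma, hma, hmaP⟩ := ha
    obtain ⟨mb, hmb, hmbP⟩ := hb
    obtain ⟨ma', hma', hmaP'⟩ := ha'
    obtain ⟨mb', hmb', hmbP'⟩ := hb'
    rcases tabE m1 m5 hma hma' with he | ⟨s, t, hst, hs, ht, o1, ho1, hb1, o5, ho5, hb5, hnd⟩
    · obtain ⟨a, e, y, y', hoa, hoe, hy, hya, hye, hy', hye', hya', hyy, hs⟩ :=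
        Helper19.J.K5 he hmb hLA hmb' hLB
      exact fin_VV (k1 a hoa) (k5 e hoe) (hmaP y hy) (hmaP' y' hy') hya hye'
        (fun _ => hyy) (fun _ => hya'.symm) (fun _ => hye.symm)
        (fun x hx hx1 => ⟨hmbP x hx1, fun hh => absurd hh n1', fun hh => absurd hh n5',
          fun hh => absurd hh h1⟩)
        (fun x hx hx1 => ⟨hmbP' x hx1, fun hh => absurd hh n2, fun hh => absurd hh n4,
          fun hh => absurd hh h4⟩)
        (fun hh => absurd hh h6) (C := kk LA y) (C' := kk LB y') (by unfold sb; simp)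
        (by unfold sb; simp) hs
    · exact good s t o1 o5 (fun _ => hst) (hmaP s hs) (hmaP' t ht) ho1 hb1 ho5 hb5 hnd
  · have ha : Has A 3 := by
      refine Has.le (by norm_num) ?_ h.a
      rw [bn_t h3]
      omega
    have ha' : Has A' 3 := by
      refine Has.le (by norm_num) ?_ h.a'
      rw [bn_t h2]
      omega
    obtain ⟨ma, hma, hmaP⟩ := ha
    obtain ⟨ma', hma', hmaP'⟩ := ha'
    obtain ⟨s, t, hs, ht, o1, ho1, hb1, o5, ho5, hb5, hnd⟩ := tabD m1 m5 hma hma'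
    exact good s t o1 o5 (fun hh => absurd hh hr) (hmaP s hs) (hmaP' t ht) ho1 hb1 ho5 hb5 hnd

/-- some conflict -/
def Fl.any (F : Fl) : Prop :=
  F.r1 ∨ F.r2 ∨ F.r3 ∨ F.r4 ∨ F.r5 ∨ F.r6 ∨ F.s1 ∨ F.s2 ∨ F.s3 ∨ F.s4

theorem grpAny (h : InVV O1 O5 A B A' B' F) (hLA : LA ∈ M3) (hLB : LB ∈ M3) (hF : F.any) :
    SolVV O1 O5 A B A' B' LA LB F := by
  by_cases h6 : F.r6
  · exact grp6 h hLA hLB h6
  by_cases h1 : F.s1
  · exact grpx h hLA hLB h6 h1
  by_cases h4 : F.s4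
  · exact (grpx h.rev hLB hLA h6 h4).rev
  by_cases h2 : F.s2
  · by_cases h3 : F.s3
    · exact grp11 h hLA hLB h6 h1 h2 h3 h4
    · exact (grp01 h.rev hLB hLA h6 h4 h3 h2 h1).rev
  · by_cases h3 : F.s3
    · exact grp01 h hLA hLB h6 h1 h2 h3 h4
    · refine grp00 h hLA hLB h6 h1 h2 h3 h4 ?_
      unfold Fl.any at hF
      tauto

end Pool.Agent.helper40.L9.J
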