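import Pool.Agent.helper40.L9.JSpecs

/-!
# The joint stage: lists

`Has P k`: at least `k` indices below five have the property `P`.
-/

namespace Pool.Agent.helper40.L9.J

def Mk : ℕ → List ℕ
  | 2 => M2
  | 3 => M3
  | 4 => M4
  | 5 => [31]
  | _ => []

def Has (P : ℕ → Prop) (k : ℕ) : Prop := ∃ m ∈ Mk k, ∀ i, m.testBit i = true → P i

def M5' : List ℕ := M2 ++ M3 ++ M4 ++ [31]

theorem m5_lt : ∀ m ∈ M5', m < 32 := by decide +kernel

theorem mk_mem {k m : ℕ} (h : m ∈ Mk k) : m ∈ M5' := by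
  unfold M5'
  match k, h with
  | 2, h => exact List.mem_append_left _ (List.mem_append_left _ (List.mem_append_left _ h))
  | 3, h => exact List.mem_append_left _ (List.mem_append_left _ (List.mem_append_right _ h))
  | 4, h => exact List.mem_append_left _ (List.mem_append_right _ h)
  | 5, h => exact List.mem_append_right _ h
  | 0, h => exact absurd h List.not_mem_nil
  | 1, h => exact absurd h List.not_mem_nil
  | (n + 6), h => exact absurd h List.not_mem_nil

theorem mk_lt {k m : ℕ} (h : m ∈ Mk k) : m < 32 := m5_lt m (mk_mem h)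

theorem M2_lt {m : ℕ} (h : m ∈ M2) : m < 32 := mk_lt (k := 2) h
theorem M3_lt {m : ℕ} (h : m ∈ M3) : m < 32 := mk_lt (k := 3) h
theorem M4_lt {m : ℕ} (h : m ∈ M4) : m < 32 := mk_lt (k := 4) h

/-- `m ⊆ n` -/
def sb (m n : ℕ) : Bool := m &&& n == m

theorem sb_bit {m n i : ℕ} (h : sb m n = true) (hi : m.testBit i = true) :
    n.testBit i = true := by
  unfold sb at h
  rw [beq_iff_eq] at h
  rw [← h, tb_and, Bool.and_eq_true] at hi
  exact hi.2

theorem shrink2 : ∀ m ∈ M3, ∃ n ∈ M2, sb n m = true := by decide +kernel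
theorem shrink3 : ∀ m ∈ M4, ∃ n ∈ M3, sb n m = true := by decide +kernel
theorem shrink4 : ∀ m ∈ [31], ∃ n ∈ M4, sb n m = true := by decide +kernel

theorem Has.down {P : ℕ → Prop} {k : ℕ} (hk : 2 ≤ k) (h : Has P (k + 1)) : Has P k := by
  obtain ⟨m, hm, hP⟩ := h
  have key : ∃ n ∈ Mk k, sb n m = true := by
    match k, hk, hm with
    | 2, _, hm => exact shrink2 m hm
    | 3, _, hm => exact shrink3 m hm
    | 4, _, hm => exact shrink4 m hm
    | (n + 5), _, hm => exact absurd hm List.not_mem_nil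
  obtain ⟨n, hn, hs⟩ := key
  exact ⟨n, hn, fun i hi => hP i (sb_bit hs hi)⟩

theorem Has.le {P : ℕ → Prop} {k l : ℕ} (hk : 2 ≤ k) (hkl : k ≤ l) (h : Has P l) : Has P k := by
  obtain ⟨d, rfl⟩ : ∃ d, l = k + d := ⟨l - k, by omega⟩
  clear hkl
  induction d with
  | zero => exact h
  | succ d ih => exact ih (Has.down (by omega) h)

theorem del3 : ∀ m ∈ M3, ∀ s < 5, ∃ n ∈ M2, sb n (del m s) = true := by decide +kernel
theorem del4 : ∀ m ∈ M4, ∀ s < 5, ∃ n ∈ M3, sb n (del m s) = true := by decide +kernel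
theorem del5 : ∀ m ∈ [31], ∀ s < 5, ∃ n ∈ M4, sb n (del m s) = true := by decide +kernel

theorem Has.del {P : ℕ → Prop} {k : ℕ} (hk : 2 ≤ k) (h : Has P (k + 1)) (s : ℕ) :
    Has (fun i => P i ∧ i ≠ s) k := by
  by_cases hs : s < 5
  · obtain ⟨m, hm, hP⟩ := h
    have key : ∃ n ∈ Mk k, sb n (J.del m s) = true := by
      match k, hk, hm with
      | 2, _, hm => exact del3 m hm s hs
      | 3, _, hm => exact del4 m hm s hs
      | 4, _, hm => exact del5 m hm s hs
      | (n + 5), _, hm => exact absurd hm List.not_mem_nil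
    obtain ⟨n, hn, hb⟩ := key
    refine ⟨n, hn, fun i hi => ?_⟩
    have h1 := del_bit (mk_lt hm) (sb_bit hb hi)
    exact ⟨hP i h1.1, h1.2⟩
  · obtain ⟨m, hm, hP⟩ := Has.down hk h
    refine ⟨m, hm, fun i hi => ⟨hP i hi, ?_⟩⟩
    rintro rfl
    exact hs (tb_lt (mk_lt hm) hi)

theorem Has.mono {P Q : ℕ → Prop} {k : ℕ} (h : Has P k) (hPQ : ∀ i, P i → Q i) : Has Q k := by
  obtain ⟨m, hm, hP⟩ := h
  exact ⟨m, hm, fun i hi => hPQ i (hP i hi)⟩

/-- the set of a mask -/
def setm (m : ℕ) : Finset ℕ := (Finset.range 5).filter fun i => m.testBit i = true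

theorem pick2 : ∀ s ∈ (Finset.range 5).powersetCard 2, ∃ m ∈ M2, setm m = s := by
  decide +kernel
theorem pick3 : ∀ s ∈ (Finset.range 5).powersetCard 3, ∃ m ∈ M3, setm m = s := by
  decide +kernel
theorem pick4 : ∀ s ∈ (Finset.range 5).powersetCard 4, ∃ m ∈ M4, setm m = s := by
  decide +kernel
theorem pick5 : ∀ s ∈ (Finset.range 5).powersetCard 5, ∃ m ∈ [31], setm m = s := by
  decide +kernel

theorem pick_tab {s : Finset ℕ} (hs : s ⊆ Finset.range 5) {k : ℕ} (hk : 2 ≤ k)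
    (hc : s.card = k) : ∃ m ∈ Mk k, ∀ i, m.testBit i = true → i ∈ s := by
  have h5 := Finset.card_le_card hs
  rw [Finset.card_range] at h5
  have hm := Finset.mem_powersetCard.mpr ⟨hs, hc⟩
  have key : ∃ m ∈ Mk k, setm m = s := by
    rcases (by omega : k = 2 ∨ k = 3 ∨ k = 4 ∨ k = 5) with h | h | h | h
    · subst h; exact pick2 s hm
    · subst h; exact pick3 s hm
    · subst h; exact pick4 s hm
    · subst h; exact pick5 s hm
  obtain ⟨m, h1, h2⟩ := key
  refine ⟨m, h1, fun i hi => ?_⟩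
  rw [← h2]
  exact Finset.mem_filter.mpr ⟨Finset.mem_range.mpr (tb_lt (mk_lt h1) hi), hi⟩

theorem has_of_card {S : Finset ℕ} (hS : S ⊆ Finset.range 5) {k : ℕ} (hk : 2 ≤ k)
    (h : k ≤ S.card) : Has (fun i => i ∈ S) k := by
  obtain ⟨T, hT, hc⟩ := Finset.exists_subset_card_eq h
  have h5 := Finset.card_le_card hS
  rw [Finset.card_range] at h5
  obtain ⟨m, hm, hi⟩ := pick_tab (hT.trans hS) hk hc
  exact ⟨m, hm, fun i h => hT (hi i h)⟩

/-- two-element submasks of `kk` -/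
theorem kk_tab : ∀ L ∈ M3, ∀ y < 5, ∃ m ∈ M2, sb m (kk L y) = true := by decide +kernel

theorem kk_has {L : ℕ} (hL : L ∈ M3) (y : ℕ) : ∃ m ∈ M2, sb m (kk L y) = true := by
  by_cases hy : y < 5
  · exact kk_tab L hL y hy
  · have e : kk L y = L := by
      unfold kk
      rw [if_neg]
      rintro ⟨h, _⟩
      omega
    rw [e]
    exact shrink2 L hL

/-! ### selection facts -/

theorem s_out2 : ∀ O ∈ M2, ∀ A ∈ M3, ∃ s < 5, A.testBit s = true ∧ O.testBit s = false := by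
  decide +kernel
theorem s_ne : ∀ A ∈ M2, ∀ a < 5, ∃ y < 5, A.testBit y = true ∧ y ≠ a := by decide +kernel
theorem s_ne2 : ∀ A ∈ M3, ∀ a < 5, ∀ b < 5, ∃ y < 5, A.testBit y = true ∧ y ≠ a ∧ y ≠ b := by
  decide +kernel
theorem s_meet : ∀ A ∈ M3, ∀ B ∈ M3, ∃ s < 5, A.testBit s = true ∧ B.testBit s = true := by
  decide +kernel
theorem s_eq : ∀ o ∈ M2, ∀ O ∈ M2, sb o O = true → o = O := by decide +kernel
theorem s_eq3 : ∀ o ∈ M3, ∀ O ∈ M3, sb o O = true → o = O := by decide +kernel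

end Pool.Agent.helper40.L9.J
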