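import Pool.Agent.helper40.L9.JEmp

/-!
# The joint stage: one or two real chords
-/

namespace Pool.Agent.helper40.L9.J

/-! ### two real chords -/

/-- a solution, two real chords; `r3`: conflict `y y'` -/
def SolRR (O1 O5 A A' : ℕ → Prop) (r3 : Prop) : Prop :=
  ∃ a e y y' n2 n4 : ℕ, (O1 a ∧ O5 e ∧ A y ∧ A' y') ∧
    (a ≠ y ∧ e ≠ y ∧ e ≠ y' ∧ a ≠ y') ∧ (r3 → y ≠ y') ∧
    (n4 < 5 ∧ n4 ≠ y ∧ n4 ≠ y + 1 ∧ n4 ≠ e ∧ n4 ≠ e + 1) ∧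
    (n2 < 5 ∧ n2 ≠ y' ∧ n2 ≠ y' + 1 ∧ n2 ≠ a ∧ n2 ≠ a + 1) ∧ n2 ≠ n4

theorem fin_RR {O1 O5 A A' : ℕ → Prop} {r3 : Prop} {a e Ax Ax' : ℕ}
    (ha : O1 a) (he : O5 e) (hA : ∀ y, Ax.testBit y = true → A y)
    (hA' : ∀ y, Ax'.testBit y = true → A' y)
    (h3 : r3 → ∀ y y', Ax.testBit y = true → Ax'.testBit y' = true → y ≠ y')
    (h : sdr (uR a e Ax) (uR e a Ax') = true) : SolRR O1 O5 A A' r3 := by
  obtain ⟨n4, n2, hn, h4, h5⟩ := sdr_spec (uR_lt _ _ _) (uR_lt _ _ _) h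
  obtain ⟨y, hy, y1, y2, y3, q1, q2, q3, q4, q5⟩ := tb_uR.mp h4
  obtain ⟨y', hy', y1', y2', y3', q1', q2', q3', q4', q5'⟩ := tb_uR.mp h5
  exact ⟨a, e, y, y', n2, n4, ⟨ha, he, hA y y1, hA' y' y1'⟩,
    ⟨y2.symm, y3.symm, y2'.symm, y3'.symm⟩, fun hh => h3 hh y y' y1 y1',
    ⟨q1, q2, q3, q4, q5⟩, ⟨q1', q2', q3', q4', q5'⟩, hn.symm⟩

/-- the dangerous lists, real - real -/
def DangRR (O1 O5 A A' : ℕ → Prop) : Prop :=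
  ∃ O ∈ trio, Ex O1 O ∧ Ex O5 O ∧ Ex A O ∧ Ex A' O

theorem masterRR {O1 O5 A A' : ℕ → Prop} {r3 : Prop} (h1 : Has O1 2) (h5 : Has O5 2)
    (hA : Has A (2 + bn r3)) (hA' : Has A' (2 + bn r3)) :
    SolRR O1 O5 A A' r3 ∨ (¬ r3 ∧ DangRR O1 O5 A A') := by
  obtain ⟨o1, m1, k1⟩ := h1
  obtain ⟨o5, m5, k5⟩ := h5
  by_cases hr : r3
  · rw [bn_t hr] at hA hA'
    obtain ⟨a, ma, ka⟩ := hA
    obtain ⟨a', ma', ka'⟩ := hA'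
    obtain ⟨p, e, y, y', hp, he, hy, hy', hyy, hs⟩ :=
      Pool.Agent.helper2.L9.J.N2y m1 m5 ma ma'
    left
    refine fin_RR (k1 p hp) (k5 e he) (Ax := sg y) (Ax' := sg y') ?_ ?_ ?_ hs
    · intro i hi
      rw [tb_sg, decide_eq_true_eq] at hi
      subst hi
      exact ka y hy
    · intro i hi
      rw [tb_sg, decide_eq_true_eq] at hi
      subst hi
      exact ka' y' hy'
    · intro _ i j hi hj
      rw [tb_sg, decide_eq_true_eq] at hi hj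
      subst hi hj
      exact hyy
  rw [bn_f hr] at hA hA'
  obtain ⟨a, ma, ka⟩ := hA
  obtain ⟨a', ma', ka'⟩ := hA'
  have good : ∀ o1 o5 a a', o1 ∈ M2 → o5 ∈ M2 → a ∈ M2 → a' ∈ M2 →
      (∀ i, o1.testBit i = true → O1 i) → (∀ i, o5.testBit i = true → O5 i) →
      (∀ i, a.testBit i = true → A i) → (∀ i, a'.testBit i = true → A' i) →
      ¬ (o1 = o5 ∧ o1 ∈ trio ∧ a = o1 ∧ a' = o1) → SolRR O1 O5 A A' r3 := by
    intro o1 o5 a a' m1 m5 ma ma' k1 k5 ka ka' hnd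
    obtain ⟨p, e, hp, he, hs⟩ := Pool.Agent.helper2.L9.J.N2 m1 m5 hnd ma ma'
    exact fin_RR (k1 p hp) (k5 e he) ka ka' (fun hh => absurd hh hr) hs
  by_cases hd : o1 = o5 ∧ o1 ∈ trio ∧ a = o1 ∧ a' = o1
  swap
  · exact Or.inl (good o1 o5 a a' m1 m5 ma ma' k1 k5 ka ka' hd)
  obtain ⟨rfl, ht, rfl, rfl⟩ := hd
  rcases ex_or k1 with e1 | ⟨i, hi, hi1, hi2⟩
  swap
  · obtain ⟨n, q1, q2, q3⟩ := differ _ (grow2 a' m1 i hi hi2) a' m1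
    exact Or.inl (good n a' a' a' q1 m5 ma ma' (or_bit k1 hi1 q2) k5 ka ka'
      (fun hh => q3 hh.1))
  rcases ex_or k5 with e5 | ⟨i, hi, hi1, hi2⟩
  swap
  · obtain ⟨n, q1, q2, q3⟩ := differ _ (grow2 a' m1 i hi hi2) a' m1
    exact Or.inl (good a' n a' a' m1 q1 ma ma' k1 (or_bit k5 hi1 q2) ka ka'
      (fun hh => q3 hh.1.symm))
  rcases ex_or ka with ea | ⟨i, hi, hi1, hi2⟩
  swap
  · obtain ⟨n, q1, q2, q3⟩ := differ _ (grow2 a' m1 i hi hi2) a' m1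
    exact Or.inl (good a' a' n a' m1 m5 q1 ma' k1 k5 (or_bit ka hi1 q2) ka'
      (fun hh => q3 hh.2.2.1))
  rcases ex_or ka' with ea' | ⟨i, hi, hi1, hi2⟩
  swap
  · obtain ⟨n, q1, q2, q3⟩ := differ _ (grow2 a' m1 i hi hi2) a' m1
    exact Or.inl (good a' a' a' n m1 m5 ma q1 k1 k5 ka (or_bit ka' hi1 q2)
      (fun hh => q3 hh.2.2.2))
  exact Or.inr ⟨hr, a', ht, e1, e5, ea, ea'⟩

/-! ### side `A` virtual, side `B` real -/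

/-- the extra conflicts: `r1`: `y x`, `r3`: `y y'`, `r5`: `x y'`, `s1`: `a x`, `s3`: `e y` -/
structure Gl where
  r1 : Prop
  r3 : Prop
  r5 : Prop
  s1 : Prop
  s3 : Prop

def SolVR (O1 O5 A B A' : ℕ → Prop) (LA : ℕ) (F : Gl) : Prop :=
  ∃ a e y x y' c n2 n4 : ℕ, (O1 a ∧ O5 e ∧ A y ∧ B x ∧ A' y') ∧
    (a ≠ y ∧ e ≠ x ∧ e ≠ y' ∧ a ≠ y') ∧
    ((F.r1 → y ≠ x) ∧ (F.r3 → y ≠ y') ∧ (F.r5 → x ≠ y')) ∧
    ((F.s1 → a ≠ x) ∧ (F.s3 → e ≠ y)) ∧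
    (c < 5 ∧ (kk LA y).testBit c = true ∧ c ≠ x ∧ c ≠ x + 1) ∧
    (n4 < 5 ∧ n4 ≠ x ∧ n4 ≠ x + 1 ∧ n4 ≠ e ∧ n4 ≠ e + 1 ∧ n4 ≠ c) ∧
    (n2 < 5 ∧ n2 ≠ y' ∧ n2 ≠ y' + 1 ∧ n2 ≠ a ∧ n2 ≠ a + 1) ∧ n2 ≠ n4

theorem fin_VR {O1 O5 A B A' : ℕ → Prop} {LA : ℕ} {F : Gl} {a e y Bx Ax' C : ℕ}
    (ha : O1 a) (he : O5 e) (hy : A y) (h1 : y ≠ a) (hs3 : F.s3 → e ≠ y)
    (hB : ∀ x, x < 5 → Bx.testBit x = true → B x ∧ (F.r1 → y ≠ x) ∧ (F.s1 → a ≠ x))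
    (hA' : ∀ y', y' < 5 → Ax'.testBit y' = true → A' y' ∧ (F.r3 → y ≠ y'))
    (h5 : F.r5 → ∀ x y', Bx.testBit x = true → Ax'.testBit y' = true → x ≠ y')
    (hC : sb C (kk LA y) = true)
    (h : sdr (u4 e Bx C) (uR e a Ax') = true) :
    SolVR O1 O5 A B A' LA F := by
  obtain ⟨n4, n2, hn, h4, h2⟩ := sdr_spec (u4_lt _ _ _) (uR_lt _ _ _) h
  obtain ⟨x, c, hx, hx1, hx2, hc, hc1, hc2, hc3, q1, q2, q3, q4, q5, q6⟩ := tb_u4.mp h4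
  obtain ⟨y', hy', y1', y2', y3', q1', q2', q3', q4', q5'⟩ := tb_uR.mp h2
  obtain ⟨b1, b2, b3⟩ := hB x hx hx1
  obtain ⟨c1, c2⟩ := hA' y' hy' y1'
  exact ⟨a, e, y, x, y', c, n2, n4, ⟨ha, he, hy, b1, c1⟩,
    ⟨h1.symm, hx2.symm, y2'.symm, y3'.symm⟩, ⟨b2, c2, fun hh => h5 hh x y' hx1 y1'⟩,
    ⟨b3, hs3⟩, ⟨hc, sb_bit hC hc1, hc2, hc3⟩, ⟨q1, q2, q3, q4, q5, q6⟩,
    ⟨q1', q2', q3', q4', q5'⟩, hn.symm⟩

structure InVR (O1 O5 A B A' : ℕ → Prop) (F : Gl) : Prop where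
  o1 : Has O1 (2 + bn F.s1)
  o5 : Has O5 (2 + bn F.s3)
  a : Has A (2 + bn F.r1 + bn F.r3 + bn F.s3)
  b : Has B (3 + bn F.r1 + bn F.r5 + bn F.s1)
  a' : Has A' (2 + bn F.r3 + bn F.r5)
  y : ¬ (F.r1 ∧ F.r3)
  x : ¬ (F.r1 ∧ F.r5)
  y' : ¬ (F.r3 ∧ F.r5)
  rs : F.r5 → ¬ F.s1

/-- the choice of `a`, `e`, `y` -/
structure SelR (O1 O5 A : ℕ → Prop) (F : Gl) (o1 o5 : ℕ) (Y : ℕ → ℕ) : Prop where
  m1 : o1 ∈ M2
  m5 : o5 ∈ M2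
  s1 : ∀ a, o1.testBit a = true → O1 a
  s5 : ∀ e, o5.testBit e = true → O5 e
  y : ∀ a, o1.testBit a = true → A (Y a) ∧ Y a ≠ a
  c3 : F.s3 → ∀ a e, o1.testBit a = true → o5.testBit e = true → e ≠ Y a
  k : F.r1 ∨ F.r3 → ∃ s, ∀ a, Y a = s

variable {O1 O5 A B A' EA : ℕ → Prop} {F : Gl} {LA : ℕ}

/-- not `e y` -/
theorem selR0 (h : InVR O1 O5 A B A' F) (h3 : ¬ F.s3) {o1 o5 : ℕ} (m1 : o1 ∈ M2) (m5 : o5 ∈ M2)
    (h1 : ∀ a, o1.testBit a = true → O1 a) (h5 : ∀ e, o5.testBit e = true → O5 e) :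
    ∃ Y, SelR O1 O5 A F o1 o5 Y := by
  have ha := h.a
  rw [bn_f h3] at ha
  have e1 : 2 + bn F.r1 + bn F.r3 + 0 = 2 + bn (F.r1 ∨ F.r3) := by
    rw [bn_or h.y]; omega
  rw [e1] at ha
  obtain ⟨Y, y1, y2⟩ := choose_Y m1 ha
  exact ⟨Y, m1, m5, h1, h5, y1, fun hh => absurd hh h3, y2⟩

/-- `e y` -/
theorem selR1 {o1 o5 t : ℕ} (m1 : o1 ∈ M2) (m5 : o5 ∈ M2)
    (h1 : ∀ a, o1.testBit a = true → O1 a) (h5 : ∀ e, o5.testBit e = true → O5 e ∧ e ≠ t)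
    (ht : A t) (ht1 : o1.testBit t = false) : SelR O1 O5 A F o1 o5 (fun _ => t) where
  m1 := m1
  m5 := m5
  s1 := h1
  s5 := fun e he => (h5 e he).1
  y := fun a ha => ⟨ht, ne_of_tb ha ht1⟩
  c3 := fun _ _ _ _ he => (h5 _ he).2
  k := fun _ => ⟨t, fun _ => rfl⟩

theorem selRany (h : InVR O1 O5 A B A' F) : ∃ o1 o5 Y, SelR O1 O5 A F o1 o5 Y := by
  obtain ⟨o1, m1, k1⟩ := Has.le (k := 2) le_rfl (by omega) h.o1
  by_cases h3 : F.s3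
  · have ha : Has A 3 := by
      refine Has.le (by norm_num) ?_ h.a
      rw [bn_t h3]
      omega
    obtain ⟨t, ht, ht1⟩ := ha.out m1
    have ho5 := h.o5
    rw [bn_t h3] at ho5
    obtain ⟨o5, m5, k5⟩ := ho5.del le_rfl t
    exact ⟨o1, o5, _, selR1 m1 m5 k1 k5 ht ht1⟩
  · obtain ⟨o5, m5, k5⟩ := Has.le (k := 2) le_rfl (by omega) h.o5
    obtain ⟨Y, S⟩ := selR0 h h3 m1 m5 k1 k5
    exact ⟨o1, o5, Y, S⟩

theorem lstRB {o1 o5 : ℕ} {Y : ℕ → ℕ} (h : InVR O1 O5 A B A' F)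
    (S : SelR O1 O5 A F o1 o5 Y) :
    Has (fun x => B x ∧ (F.r1 → ∀ a, Y a ≠ x)) (3 + bn F.r5 + bn F.s1) := by
  have hb := h.b
  rw [show 3 + bn F.r1 + bn F.r5 + bn F.s1 =
    3 + bn F.r5 + bn F.s1 + bn F.r1 + bn False by rw [bn_f (p := False) id]; omega] at hb
  refine (Has.two (R := fun _ => True) (by omega) hb ?_ (fun hh => hh.elim)).mono
    fun i hi => ⟨hi.1, hi.2.1⟩
  intro h1
  obtain ⟨s, hs⟩ := S.k (Or.inl h1)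
  exact ⟨s, fun i hi a => by rw [hs a]; exact hi.symm⟩

theorem lstRA {o1 o5 : ℕ} {Y : ℕ → ℕ} (h : InVR O1 O5 A B A' F)
    (S : SelR O1 O5 A F o1 o5 Y) :
    Has (fun x => A' x ∧ (F.r3 → ∀ a, Y a ≠ x)) (2 + bn F.r5) := by
  have ha := h.a'
  rw [show 2 + bn F.r3 + bn F.r5 = 2 + bn F.r5 + bn F.r3 + bn False by
    rw [bn_f (p := False) id]; omega] at ha
  refine (Has.two (R := fun _ => True) (by omega) ha ?_ (fun hh => hh.elim)).mono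
    fun i hi => ⟨hi.1, hi.2.1⟩
  intro h1
  obtain ⟨s, hs⟩ := S.k (Or.inr h1)
  exact ⟨s, fun i hi a => by rw [hs a]; exact hi.symm⟩

/-- the case `a x` -/
theorem grpRx (h : InVR O1 O5 A B A' F) (hLA : LA ∈ M3) (h1 : F.s1) :
    SolVR O1 O5 A B A' LA F := by
  have n5 : ¬ F.r5 := fun hh => h.rs hh h1
  obtain ⟨o1, o5, Y, S⟩ := selRany h
  obtain ⟨C, hC, hC2⟩ := cfun hLA Y
  have hb := lstRB h S
  have ha' := lstRA h S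
  rw [bn_f n5, bn_t h1] at hb
  rw [bn_f n5] at ha'
  obtain ⟨b, mb, kb⟩ := hb
  obtain ⟨a', ma', ka'⟩ := ha'
  obtain ⟨e, a, he, ha, hs⟩ := Pool.Agent.helper2.L9.J.N3x (C' := C) S.m5 S.m1 ma' mb hC
  rw [sdr_comm] at hs
  have ha5 := tb_lt (M2_lt S.m1) ha
  refine fin_VR (S.s1 a ha) (S.s5 e he) (S.y a ha).1 (S.y a ha).2
    (fun hh => S.c3 hh a e ha he) ?_ ?_ (fun hh => absurd hh n5) (hC2 a) hs
  · intro x hx hx1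
    obtain ⟨q1, q2⟩ := del_m3 b mb a ha5 x hx hx1
    exact ⟨(kb x q1).1, fun hh => (kb x q1).2 hh a, fun _ => q2.symm⟩
  · intro x _ hx1
    exact ⟨(ka' x hx1).1, fun hh => (ka' x hx1).2 hh a⟩

/-- the case `x y'` -/
theorem grpRr5 (h : InVR O1 O5 A B A' F) (hLA : LA ∈ M3) (h5 : F.r5) :
    SolVR O1 O5 A B A' LA F := by
  have n1 : ¬ F.s1 := h.rs h5
  obtain ⟨o1, o5, Y, S⟩ := selRany h
  obtain ⟨C, hC, hC2⟩ := cfun hLA Y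
  have hb := lstRB h S
  have ha' := lstRA h S
  rw [bn_t h5, bn_f n1] at hb
  rw [bn_t h5] at ha'
  obtain ⟨b, mb, kb⟩ := hb
  obtain ⟨a', ma', ka'⟩ := ha'
  obtain ⟨e, a, y', he, ha, hy', hs⟩ :=
    Pool.Agent.helper2.L9.J.N3y (C' := C) S.m5 S.m1 ma' mb hC
  rw [sdr_comm] at hs
  have hy5 := tb_lt (M3_lt ma') hy'
  refine fin_VR (S.s1 a ha) (S.s5 e he) (S.y a ha).1 (S.y a ha).2
    (fun hh => S.c3 hh a e ha he) ?_ ?_ ?_ (hC2 a) hs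
  · intro x hx hx1
    obtain ⟨q1, q2⟩ := del_m3 b mb y' hy5 x hx hx1
    exact ⟨(kb x q1).1, fun hh => (kb x q1).2 hh a, fun hh => absurd hh n1⟩
  · intro x _ hx1
    rw [tb_sg, decide_eq_true_eq] at hx1
    subst hx1
    exact ⟨(ka' _ hy').1, fun hh => (ka' _ hy').2 hh a⟩
  · intro _ x z hx hz
    rw [tb_sg, decide_eq_true_eq] at hz
    subst hz
    have hx5 : x < 5 := by
      have hlt : del b y' < 32 := by
        unfold del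
        exact Nat.lt_of_le_of_lt Nat.and_le_left (M4_lt mb)
      exact tb_lt hlt hx
    exact (del_m3 b mb y' hy5 x hx5 hx).2

/-- not dangerous -/
theorem grpR1 (h : InVR O1 O5 A B A' F) (hLA : LA ∈ M3) (n5 : ¬ F.r5) (n1 : ¬ F.s1) {o1 o5 : ℕ}
    {Y : ℕ → ℕ} (S : SelR O1 O5 A F o1 o5 Y) (hnd : ¬ (o1 = o5 ∧ o1 ∈ trio)) :
    SolVR O1 O5 A B A' LA F := by
  obtain ⟨C, hC, hC2⟩ := cfun hLA Y
  have hb := lstRB h S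
  have ha' := lstRA h S
  rw [bn_f n5, bn_f n1] at hb
  rw [bn_f n5] at ha'
  obtain ⟨b, mb, kb⟩ := hb
  obtain ⟨a', ma', ka'⟩ := ha'
  obtain ⟨e, a, he, ha, hs⟩ := Pool.Agent.helper2.L9.J.N3 (C' := C) S.m5 S.m1
    (by rintro ⟨rfl, hh⟩; exact hnd ⟨rfl, hh⟩) ma' mb hC
  rw [sdr_comm] at hs
  refine fin_VR (S.s1 a ha) (S.s5 e he) (S.y a ha).1 (S.y a ha).2
    (fun hh => S.c3 hh a e ha he) ?_ ?_ (fun hh => absurd hh n5) (hC2 a) hs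
  · intro x _ hx1
    exact ⟨(kb x hx1).1, fun hh => (kb x hx1).2 hh a, fun hh => absurd hh n1⟩
  · intro x _ hx1
    exact ⟨(ka' x hx1).1, fun hh => (ka' x hx1).2 hh a⟩

/-- the case `e y` -/
theorem grpRs3 (h : InVR O1 O5 A B A' F) (hLA : LA ∈ M3) (n5 : ¬ F.r5) (n1 : ¬ F.s1)
    (h3 : F.s3) : SolVR O1 O5 A B A' LA F := by
  have ho1 := h.o1
  rw [bn_f n1] at ho1
  obtain ⟨o1, m1, k1⟩ := ho1
  have ho5 := h.o5
  rw [bn_t h3] at ho5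
  obtain ⟨o5, m5, k5⟩ := ho5
  have good : ∀ s o, A s → o1.testBit s = false → o ∈ M2 → sb o (del o5 s) = true →
      ¬ (o1 = o ∧ o1 ∈ trio) → SolVR O1 O5 A B A' LA F := by
    intro s o hs hs1 ho hsb hnd
    have hrev : ∀ e, o.testBit e = true → O5 e ∧ e ≠ s := by
      intro e he
      obtain ⟨q1, q2⟩ := del_bit (M3_lt m5) (sb_bit hsb he)
      exact ⟨k5 e q1, q2⟩
    exact grpR1 h hLA n5 n1 (selR1 m1 ho k1 hrev hs hs1) hnd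
  by_cases h13 : F.r1 ∨ F.r3
  · have ha : Has A 4 := by
      refine Has.le (by norm_num) ?_ h.a
      rw [bn_t h3]
      rcases h13 with hh | hh
      · rw [bn_t hh]; omega
      · rw [bn_t hh]; omega
    obtain ⟨na, ma, ka⟩ := ha
    obtain ⟨s, _, q1, q2, o5, q3, q4, q5⟩ := tab4 o1 m1 o5 m5 na ma
    exact good s o5 (ka s q1) q2 q3 q4 q5
  push Not at h13
  obtain ⟨nr1, nr3⟩ := h13
  have ha := h.a
  rw [bn_f nr1, bn_f nr3, bn_t h3] at ha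
  obtain ⟨na, ma, ka⟩ := ha
  rcases tab3 o1 m1 o5 m5 na ma with ⟨s, _, q1, q2, o, q3, q4, q5⟩ | ⟨ht, s, hs, hs1, e1, e2⟩
  · exact good s o (ka s q1) q2 q3 q4 q5
  subst e2
  subst e1
  have hb := h.b
  rw [bn_f nr1, bn_f n5, bn_f n1] at hb
  have ha' := h.a'
  rw [bn_f nr3, bn_f n5] at ha'
  obtain ⟨b, mb, kb⟩ := hb
  obtain ⟨a', ma', ka'⟩ := ha'
  obtain ⟨e, a, y, he, ha, hy, hya, hye, hs⟩ := Helper19.J.K4R ht hs hs1 ma' mb hLA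
  rw [sdr_comm] at hs
  exact fin_VR (k1 a ha) (k5 e he) (ka y hy) hya (fun _ => hye.symm)
    (fun x _ hx1 => ⟨kb x hx1, fun hh => absurd hh nr1, fun hh => absurd hh n1⟩)
    (fun x _ hx1 => ⟨ka' x hx1, fun hh => absurd hh nr3⟩)
    (fun hh => absurd hh n5) (C := kk LA y) (by unfold sb; simp) hs

/-- the cases `y x`, `y y'` -/
theorem grpRr (h : InVR O1 O5 A B A' F) (hLA : LA ∈ M3) (n5 : ¬ F.r5) (n1 : ¬ F.s1)
    (n3 : ¬ F.s3) (hr : F.r1 ∨ F.r3) : SolVR O1 O5 A B A' LA F := by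
  obtain ⟨o1, m1, k1⟩ := Has.le (k := 2) le_rfl (by omega) h.o1
  obtain ⟨o5, m5, k5⟩ := Has.le (k := 2) le_rfl (by omega) h.o5
  by_cases hd : o1 = o5 ∧ o1 ∈ trio
  swap
  · obtain ⟨Y, S⟩ := selR0 h n3 m1 m5 k1 k5
    exact grpR1 h hLA n5 n1 S hd
  obtain ⟨rfl, ht⟩ := hd
  have ha := h.a
  have hb := h.b
  have ha' := h.a'
  rcases hr with hr | hr
  · have nr : ¬ F.r3 := fun hh => h.y ⟨hr, hh⟩
    rw [bn_t hr, bn_f nr, bn_f n3] at ha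
    rw [bn_t hr, bn_f n5, bn_f n1] at hb
    rw [bn_f nr, bn_f n5] at ha'
    obtain ⟨a, ma, ka⟩ := ha
    obtain ⟨b, mb, kb⟩ := hb
    obtain ⟨a', ma', ka'⟩ := ha'
    obtain ⟨p, e, y, hp, he, hy, hya, hs⟩ := Pool.Agent.helper2.L9.J.K1R ht ma mb hLA ma'
    have hy5 := tb_lt (M3_lt ma) hy
    refine fin_VR (k1 p hp) (k5 e he) (ka y hy) hya (fun hh => absurd hh n3) ?_
      (fun x _ hx1 => ⟨ka' x hx1, fun hh => absurd hh nr⟩)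
      (fun hh => absurd hh n5) (C := kk LA y) (by unfold sb; simp) hs
    intro x hx hx1
    obtain ⟨q1, q2⟩ := del_m3 b mb y hy5 x hx hx1
    exact ⟨kb x q1, fun _ => q2.symm, fun hh => absurd hh n1⟩
  · have nr : ¬ F.r1 := fun hh => h.y ⟨hh, hr⟩
    rw [bn_f nr, bn_t hr, bn_f n3] at ha
    rw [bn_f nr, bn_f n5, bn_f n1] at hb
    rw [bn_t hr, bn_f n5] at ha'
    obtain ⟨a, ma, ka⟩ := ha
    obtain ⟨b, mb, kb⟩ := hb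
    obtain ⟨a', ma', ka'⟩ := ha'
    obtain ⟨e, p, y', y, he, hp, hy', hy, hya, hyy, hs⟩ := Helper19.J.K3R ht ma' ma mb hLA
    rw [sdr_comm] at hs
    refine fin_VR (k1 p hp) (k5 e he) (ka y hy) hya (fun hh => absurd hh n3)
      (fun x _ hx1 => ⟨kb x hx1, fun hh => absurd hh nr, fun hh => absurd hh n1⟩) ?_
      (fun hh => absurd hh n5) (C := kk LA y) (by unfold sb; simp) hs
    intro x _ hx1
    rw [tb_sg, decide_eq_true_eq] at hx1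
    subst hx1
    exact ⟨ka' _ hy', fun _ => hyy.symm⟩

/-- the dangerous lists, virtual - real -/
def DangVR (O1 O5 A B A' EA : ℕ → Prop) : Prop :=
  ∃ O a l b, (O, a, l, b) ∈ dVR ∧ Ex O1 O ∧ Ex O5 O ∧ Ex A a ∧ Ex EA l ∧ Ex B b ∧ Ex A' O

def ESolVR (O1 O5 A B A' EA : ℕ → Prop) (F : Gl) : Prop :=
  ∃ LA ∈ M3, (∀ i, LA.testBit i = true → EA i) ∧ SolVR O1 O5 A B A' LA F

def Gl.any (F : Gl) : Prop := F.r1 ∨ F.r3 ∨ F.r5 ∨ F.s1 ∨ F.s3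

theorem w_a : ∀ q ∈ dVR, ∀ i < 5, q.2.1.testBit i = false → ∃ n ∈ M2,
    sb n (q.2.1 ||| sg i) = true ∧ (q.1, n, q.2.2) ∉ dVR := by decide +kernel
theorem w_l : ∀ q ∈ dVR, ∀ i < 5, q.2.2.1.testBit i = false → ∃ n ∈ M3,
    sb n (q.2.2.1 ||| sg i) = true ∧ (q.1, q.2.1, n, q.2.2.2) ∉ dVR := by decide +kernel
theorem w_b : ∀ q ∈ dVR, ∀ i < 5, q.2.2.2.testBit i = false → ∃ n ∈ M3,
    sb n (q.2.2.2 ||| sg i) = true ∧ (q.1, q.2.1, q.2.2.1, n) ∉ dVR := by decide +kernel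

theorem empVR (hD : DVRs) (h : InVR O1 O5 A B A' F) (hF : ¬ F.any) (hEA : Has EA 3) :
    ESolVR O1 O5 A B A' EA F ∨ DangVR O1 O5 A B A' EA := by
  have hF' := hF
  unfold Gl.any at hF'
  push Not at hF'
  obtain ⟨r1, r3, r5, s1, s3⟩ := hF'
  have ho1 := h.o1
  rw [bn_f s1] at ho1
  have ho5 := h.o5
  rw [bn_f s3] at ho5
  have ha := h.a
  rw [bn_f r1, bn_f r3, bn_f s3] at ha
  have hb := h.b
  rw [bn_f r1, bn_f r5, bn_f s1] at hb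
  have ha' := h.a'
  rw [bn_f r3, bn_f r5] at ha'
  obtain ⟨LA, mLA, kLA⟩ := hEA
  have good : ∀ o1 o5, o1 ∈ M2 → o5 ∈ M2 → (∀ i, o1.testBit i = true → O1 i) →
      (∀ i, o5.testBit i = true → O5 i) → ¬ (o1 = o5 ∧ o1 ∈ trio) →
      ESolVR O1 O5 A B A' EA F := by
    intro o1 o5 m1 m5 k1 k5 hnd
    obtain ⟨Y, S⟩ := selR0 h s3 m1 m5 k1 k5
    exact ⟨LA, mLA, kLA, grpR1 h mLA r5 s1 S hnd⟩
  obtain ⟨o1, m1, k1⟩ := ho1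
  obtain ⟨o5, m5, k5⟩ := ho5
  by_cases hnd : o1 = o5 ∧ o1 ∈ trio
  swap
  · exact Or.inl (good o1 o5 m1 m5 k1 k5 hnd)
  obtain ⟨rfl, ht⟩ := hnd
  rcases ex_or k1 with e1 | ⟨i, hi, hi1, hi2⟩
  swap
  · obtain ⟨n, q1, q2, q3⟩ := differ _ (grow2 o1 m1 i hi hi2) o1 m1
    exact Or.inl (good n o1 q1 m1 (or_bit k1 hi1 q2) k5 (fun hh => q3 hh.1))
  rcases ex_or k5 with e5 | ⟨i, hi, hi1, hi2⟩
  swap
  · obtain ⟨n, q1, q2, q3⟩ := differ _ (grow2 o1 m1 i hi hi2) o1 m1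
    exact Or.inl (good o1 n m1 q1 k1 (or_bit k5 hi1 q2) (fun hh => q3 hh.1.symm))
  have sol : ∀ a l b a', a ∈ M2 → l ∈ M3 → b ∈ M3 → a' ∈ M2 →
      (∀ i, a.testBit i = true → A i) → (∀ i, l.testBit i = true → EA i) →
      (∀ i, b.testBit i = true → B i) → (∀ i, a'.testBit i = true → A' i) →
      ¬ ((o1, a, l, b) ∈ dVR ∧ a' = o1) → ESolVR O1 O5 A B A' EA F := by
    intro a l b a' ma ml mb ma' ka kl kb ka' hn
    obtain ⟨p, e, y, hp, he, hy, hya, hs⟩ := hD ht ma ml mb ma' hn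
    refine ⟨l, ml, kl, ?_⟩
    exact fin_VR (k1 p hp) (k5 e he) (ka y hy) hya (fun hh => absurd hh s3)
      (fun x _ hx1 => ⟨kb x hx1, fun hh => absurd hh r1, fun hh => absurd hh s1⟩)
      (fun x _ hx1 => ⟨ka' x hx1, fun hh => absurd hh r3⟩)
      (fun hh => absurd hh r5) (C := kk l y) (by unfold sb; simp) hs
  obtain ⟨a, ma, ka⟩ := ha
  obtain ⟨b, mb, kb⟩ := hb
  obtain ⟨a', ma', ka'⟩ := ha'
  by_cases hq : (o1, a, LA, b) ∈ dVR ∧ a' = o1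
  swap
  · exact Or.inl (sol a LA b a' ma mLA mb ma' ka kLA kb ka' hq)
  obtain ⟨hq, rfl⟩ := hq
  rcases ex_or ka with ea | ⟨i, hi, hi1, hi2⟩
  swap
  · obtain ⟨n, q1, q2, q3⟩ := w_a _ hq i hi hi2
    exact Or.inl (sol n LA b a' q1 mLA mb ma' (or_bit ka hi1 q2) kLA kb ka'
      (fun hh => q3 hh.1))
  rcases ex_or kLA with el | ⟨i, hi, hi1, hi2⟩
  swap
  · obtain ⟨n, q1, q2, q3⟩ := w_l _ hq i hi hi2
    exact Or.inl (sol a n b a' ma q1 mb ma' ka (or_bit kLA hi1 q2) kb ka'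
      (fun hh => q3 hh.1))
  rcases ex_or kb with eb | ⟨i, hi, hi1, hi2⟩
  swap
  · obtain ⟨n, q1, q2, q3⟩ := w_b _ hq i hi hi2
    exact Or.inl (sol a LA n a' ma mLA q1 ma' ka kLA (or_bit kb hi1 q2) ka'
      (fun hh => q3 hh.1))
  rcases ex_or ka' with ea' | ⟨i, hi, hi1, hi2⟩
  swap
  · obtain ⟨n, q1, q2, q3⟩ := differ _ (grow2 a' m1 i hi hi2) a' m1
    exact Or.inl (sol a LA b n ma mLA mb q1 ka kLA kb (or_bit ka' hi1 q2)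
      (fun hh => q3 hh.2))
  exact Or.inr ⟨a', a, LA, b, hq, e1, e5, ea, el, eb, ea'⟩

/-- side `A` virtual, side `B` real -/
theorem masterVR (hD : DVRs) (h : InVR O1 O5 A B A' F) (hEA : Has EA 3) :
    ESolVR O1 O5 A B A' EA F ∨ (¬ F.any ∧ DangVR O1 O5 A B A' EA) := by
  by_cases hF : F.any
  · obtain ⟨LA, mLA, kLA⟩ := hEA
    refine Or.inl ⟨LA, mLA, kLA, ?_⟩
    by_cases h5 : F.r5
    · exact grpRr5 h mLA h5
    by_cases h1 : F.s1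
    · exact grpRx h mLA h1
    by_cases h3 : F.s3
    · exact grpRs3 h mLA h5 h1 h3
    refine grpRr h mLA h5 h1 h3 ?_
    unfold Gl.any at hF
    tauto
  · rcases empVR hD h hF hEA with h1 | h1
    · exact Or.inl h1
    · exact Or.inr ⟨hF, h1⟩

end Pool.Agent.helper40.L9.J
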