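import Pool.Agent.helper40.L9.JSol

/-!
# The joint stage: choice of `a`, `e` and of the last links
-/

namespace Pool.Agent.helper40.L9.J

theorem Has.ne {P : ℕ → Prop} (h : Has P 2) (a : ℕ) : ∃ y, P y ∧ y ≠ a := by
  obtain ⟨m, hm, hP⟩ := h
  by_cases ha : a < 5
  · obtain ⟨y, _, h1, h2⟩ := s_ne m hm a ha
    exact ⟨y, hP y h1, h2⟩
  · obtain ⟨y, _, h1, h2⟩ := s_ne m hm 0 (by norm_num)
    refine ⟨y, hP y h1, ?_⟩
    have := tb_lt (M2_lt hm) h1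
    omega

theorem Has.ne2 {P : ℕ → Prop} (h : Has P 3) (a b : ℕ) : ∃ y, P y ∧ y ≠ a ∧ y ≠ b := by
  obtain ⟨y, hy, hy2⟩ := (h.del le_rfl a).ne b
  exact ⟨y, hy.1, hy.2, hy2⟩

theorem Has.out {P : ℕ → Prop} (h : Has P 3) {o : ℕ} (ho : o ∈ M2) :
    ∃ y, P y ∧ o.testBit y = false := by
  obtain ⟨m, hm, hP⟩ := h
  obtain ⟨y, _, h1, h2⟩ := s_out2 o ho m hm
  exact ⟨y, hP y h1, h2⟩

theorem ne_of_tb {o a s : ℕ} (h : o.testBit a = true) (hs : o.testBit s = false) : s ≠ a := by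
  rintro rfl
  rw [h] at hs
  exact absurd hs (by decide)

/-- the last link of one side: a constant outside of `o`, or different from `a` -/
theorem choose_Y {P : ℕ → Prop} {o : ℕ} (ho : o ∈ M2) {fix : Prop} (h : Has P (2 + bn fix)) :
    ∃ Y : ℕ → ℕ, (∀ a, o.testBit a = true → P (Y a) ∧ Y a ≠ a) ∧ (fix → ∃ s, ∀ a, Y a = s) := by
  by_cases hf : fix
  · rw [bn_t hf] at h
    obtain ⟨s, h1, h2⟩ := h.out ho
    exact ⟨fun _ => s, fun a ha => ⟨h1, ne_of_tb ha h2⟩, fun _ => ⟨s, fun _ => rfl⟩⟩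
  · rw [bn_f hf] at h
    choose Y h1 h2 using fun a => h.ne a
    exact ⟨Y, fun a _ => ⟨h1 a, h2 a⟩, fun hh => absurd hh hf⟩

theorem bn_or {p q : Prop} (h : ¬ (p ∧ q)) : bn (p ∨ q) = bn p + bn q := by
  by_cases hp : p
  · have hq : ¬ q := fun hq => h ⟨hp, hq⟩
    rw [bn_t hp, bn_f hq, bn_t (Or.inl hp)]
  · by_cases hq : q
    · rw [bn_f hp, bn_t hq, bn_t (Or.inr hq)]
    · rw [bn_f hp, bn_f hq, bn_f (by tauto)]

variable {O1 O5 A B A' B' : ℕ → Prop} {F : Fl}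

/-- neither `a y'` nor `e y` -/
theorem sel00 (h : InVV O1 O5 A B A' B' F) (hs2 : ¬ F.s2) (hs3 : ¬ F.s3) {o1 o5 : ℕ}
    (m1 : o1 ∈ M2) (m5 : o5 ∈ M2) (h1 : ∀ a, o1.testBit a = true → O1 a)
    (h5 : ∀ e, o5.testBit e = true → O5 e) : ∃ Y Y', Sel O1 O5 A A' F o1 o5 Y Y' := by
  have ha := h.a
  have ha' := h.a'
  by_cases h3 : F.r3
  · have n1 : ¬ F.r1 := fun hh => h.y.1 ⟨hh, h3⟩
    have n4 : ¬ F.r4 := fun hh => h.y.2.2 ⟨h3, hh⟩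
    have n2 : ¬ F.r2 := fun hh => h.y'.1 ⟨hh, h3⟩
    have n5 : ¬ F.r5 := fun hh => h.y'.2.2 ⟨h3, hh⟩
    rw [bn_f n1, bn_t h3, bn_f n4, bn_f hs3] at ha
    rw [bn_f n2, bn_t h3, bn_f n5, bn_f hs2] at ha'
    obtain ⟨s, hs, hs'⟩ := ha.out m1
    choose Y' y1 y2 y3 using fun e => ha'.ne2 e s
    exact ⟨fun _ => s, Y', m1, m5, h1, h5, fun a ha => ⟨hs, ne_of_tb ha hs'⟩,
      fun e _ => ⟨y1 e, y2 e⟩, fun hh => absurd hh hs2, fun hh => absurd hh hs3,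
      fun _ a e _ _ => (y3 e).symm, fun hh => by tauto, fun hh => by tauto⟩
  · rw [bn_f h3, bn_f hs3] at ha
    rw [bn_f h3, bn_f hs2] at ha'
    have e1 : 2 + bn F.r1 + 0 + bn F.r4 + 0 = 2 + bn (F.r1 ∨ F.r4) := by
      rw [bn_or h.y.2.1]; omega
    have e2 : 2 + bn F.r2 + 0 + bn F.r5 + 0 = 2 + bn (F.r2 ∨ F.r5) := by
      rw [bn_or h.y'.2.1]; omega
    rw [e1] at ha
    rw [e2] at ha'
    obtain ⟨Y, y1, y2⟩ := choose_Y m1 ha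
    obtain ⟨Y', y1', y2'⟩ := choose_Y m5 ha'
    exact ⟨Y, Y', m1, m5, h1, h5, y1, y1', fun hh => absurd hh hs2, fun hh => absurd hh hs3,
      fun hh => absurd hh h3, y2, y2'⟩

/-- `a y'`, not `e y` -/
theorem sel10 (h : InVV O1 O5 A B A' B' F) (hs2 : F.s2) (hs3 : ¬ F.s3) {o5 : ℕ}
    (m5 : o5 ∈ M2) (h5 : ∀ e, o5.testBit e = true → O5 e) {o1 t : ℕ} (m1 : o1 ∈ M2)
    (h1 : ∀ a, o1.testBit a = true → O1 a ∧ a ≠ t) (ht : A' t) (ht5 : o5.testBit t = false) :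
    ∃ Y Y', Sel O1 O5 A A' F o1 o5 Y Y' := by
  have h3 : ¬ F.r3 := fun hh => hs3 ((h.yy hh).mp hs2)
  have ha := h.a
  rw [bn_f h3, bn_f hs3] at ha
  have e1 : 2 + bn F.r1 + 0 + bn F.r4 + 0 = 2 + bn (F.r1 ∨ F.r4) := by
    rw [bn_or h.y.2.1]; omega
  rw [e1] at ha
  obtain ⟨Y, y1, y2⟩ := choose_Y m1 ha
  exact ⟨Y, fun _ => t, m1, m5, fun a ha => (h1 a ha).1, h5, y1,
    fun e he => ⟨ht, ne_of_tb he ht5⟩, fun _ a e ha _ => (h1 a ha).2,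
    fun hh => absurd hh hs3, fun hh => absurd hh h3, y2, fun _ => ⟨t, fun _ => rfl⟩⟩

/-- `a y'` and `e y` -/
theorem sel11 {Y Y' : ℕ} (hs : F.r3 → Y ≠ Y') {o1 o5 : ℕ}
    (m1 : o1 ∈ M2) (m5 : o5 ∈ M2) (h1 : ∀ a, o1.testBit a = true → O1 a ∧ a ≠ Y ∧ a ≠ Y')
    (h5 : ∀ e, o5.testBit e = true → O5 e ∧ e ≠ Y ∧ e ≠ Y') (hY : A Y) (hY' : A' Y') :
    Sel O1 O5 A A' F o1 o5 (fun _ => Y) (fun _ => Y') where
  m1 := m1
  m5 := m5
  s1 := fun a ha => (h1 a ha).1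
  s5 := fun e he => (h5 e he).1
  y := fun a ha => ⟨hY, (h1 a ha).2.1.symm⟩
  y' := fun e he => ⟨hY', (h5 e he).2.2.symm⟩
  c2 := fun _ a _ ha _ => (h1 a ha).2.2
  c3 := fun _ _ e _ he => (h5 e he).2.1
  r3 := fun hh _ _ _ _ => hs hh
  k := fun _ => ⟨Y, fun _ => rfl⟩
  k' := fun _ => ⟨Y', fun _ => rfl⟩

theorem sel_t7 : ∀ O5 ∈ M3, ∀ A ∈ M4, ∀ A' ∈ M4, ∃ s < 5, A.testBit s = true ∧
    ∃ t < 5, A'.testBit t = true ∧ s ≠ t ∧ (∃ o ∈ M2, sb o (del (del 7 s) t) = true) ∧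
      ∃ o ∈ M2, sb o (del (del O5 s) t) = true := by decide +kernel
theorem sel_t11 : ∀ O5 ∈ M3, ∀ A ∈ M4, ∀ A' ∈ M4, ∃ s < 5, A.testBit s = true ∧
    ∃ t < 5, A'.testBit t = true ∧ s ≠ t ∧ (∃ o ∈ M2, sb o (del (del 11 s) t) = true) ∧
      ∃ o ∈ M2, sb o (del (del O5 s) t) = true := by decide +kernel
theorem sel_t13 : ∀ O5 ∈ M3, ∀ A ∈ M4, ∀ A' ∈ M4, ∃ s < 5, A.testBit s = true ∧
    ∃ t < 5, A'.testBit t = true ∧ s ≠ t ∧ (∃ o ∈ M2, sb o (del (del 13 s) t) = true) ∧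
      ∃ o ∈ M2, sb o (del (del O5 s) t) = true := by decide +kernel
theorem sel_t14 : ∀ O5 ∈ M3, ∀ A ∈ M4, ∀ A' ∈ M4, ∃ s < 5, A.testBit s = true ∧
    ∃ t < 5, A'.testBit t = true ∧ s ≠ t ∧ (∃ o ∈ M2, sb o (del (del 14 s) t) = true) ∧
      ∃ o ∈ M2, sb o (del (del O5 s) t) = true := by decide +kernel
theorem sel_t19 : ∀ O5 ∈ M3, ∀ A ∈ M4, ∀ A' ∈ M4, ∃ s < 5, A.testBit s = true ∧
    ∃ t < 5, A'.testBit t = true ∧ s ≠ t ∧ (∃ o ∈ M2, sb o (del (del 19 s) t) = true) ∧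
      ∃ o ∈ M2, sb o (del (del O5 s) t) = true := by decide +kernel
theorem sel_t21 : ∀ O5 ∈ M3, ∀ A ∈ M4, ∀ A' ∈ M4, ∃ s < 5, A.testBit s = true ∧
    ∃ t < 5, A'.testBit t = true ∧ s ≠ t ∧ (∃ o ∈ M2, sb o (del (del 21 s) t) = true) ∧
      ∃ o ∈ M2, sb o (del (del O5 s) t) = true := by decide +kernel
theorem sel_t22 : ∀ O5 ∈ M3, ∀ A ∈ M4, ∀ A' ∈ M4, ∃ s < 5, A.testBit s = true ∧
    ∃ t < 5, A'.testBit t = true ∧ s ≠ t ∧ (∃ o ∈ M2, sb o (del (del 22 s) t) = true) ∧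
      ∃ o ∈ M2, sb o (del (del O5 s) t) = true := by decide +kernel
theorem sel_t25 : ∀ O5 ∈ M3, ∀ A ∈ M4, ∀ A' ∈ M4, ∃ s < 5, A.testBit s = true ∧
    ∃ t < 5, A'.testBit t = true ∧ s ≠ t ∧ (∃ o ∈ M2, sb o (del (del 25 s) t) = true) ∧
      ∃ o ∈ M2, sb o (del (del O5 s) t) = true := by decide +kernel
theorem sel_t26 : ∀ O5 ∈ M3, ∀ A ∈ M4, ∀ A' ∈ M4, ∃ s < 5, A.testBit s = true ∧
    ∃ t < 5, A'.testBit t = true ∧ s ≠ t ∧ (∃ o ∈ M2, sb o (del (del 26 s) t) = true) ∧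
      ∃ o ∈ M2, sb o (del (del O5 s) t) = true := by decide +kernel
theorem sel_t28 : ∀ O5 ∈ M3, ∀ A ∈ M4, ∀ A' ∈ M4, ∃ s < 5, A.testBit s = true ∧
    ∃ t < 5, A'.testBit t = true ∧ s ≠ t ∧ (∃ o ∈ M2, sb o (del (del 28 s) t) = true) ∧
      ∃ o ∈ M2, sb o (del (del O5 s) t) = true := by decide +kernel

theorem sel_tab5 : ∀ O1 ∈ M3, ∀ O5 ∈ M3, ∀ A ∈ M4, ∀ A' ∈ M4, ∃ s < 5, A.testBit s = true ∧
    ∃ t < 5, A'.testBit t = true ∧ s ≠ t ∧ (∃ o ∈ M2, sb o (del (del O1 s) t) = true) ∧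
      ∃ o ∈ M2, sb o (del (del O5 s) t) = true :=
  List.forall_mem_cons.2 ⟨sel_t7,
  List.forall_mem_cons.2 ⟨sel_t11,
  List.forall_mem_cons.2 ⟨sel_t13,
  List.forall_mem_cons.2 ⟨sel_t14,
  List.forall_mem_cons.2 ⟨sel_t19,
  List.forall_mem_cons.2 ⟨sel_t21,
  List.forall_mem_cons.2 ⟨sel_t22,
  List.forall_mem_cons.2 ⟨sel_t25,
  List.forall_mem_cons.2 ⟨sel_t26,
  List.forall_mem_cons.2 ⟨sel_t28,
  List.forall_mem_nil _⟩⟩⟩⟩⟩⟩⟩⟩⟩⟩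

theorem del2_bit {m s t j : ℕ} (hm : m < 32) (h : (del (del m s) t).testBit j = true) :
    m.testBit j = true ∧ j ≠ s ∧ j ≠ t := by
  have h0 : del m s < 32 := by
    unfold del
    exact Nat.lt_of_le_of_lt Nat.and_le_left hm
  obtain ⟨h1, h2⟩ := del_bit h0 h
  obtain ⟨h3, h4⟩ := del_bit hm h1
  exact ⟨h3, h4, h2⟩

/-- a choice exists -/
theorem selAny (h : InVV O1 O5 A B A' B' F) : ∃ o1 o5 Y Y', Sel O1 O5 A A' F o1 o5 Y Y' := by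
  have key : ∀ {O1 O5 A B A' B' : ℕ → Prop} {F : Fl}, InVV O1 O5 A B A' B' F → F.s2 → ¬ F.s3 →
      ∃ o1 o5 Y Y', Sel O1 O5 A A' F o1 o5 Y Y' := by
    intro O1 O5 A B A' B' F h hs2 hs3
    obtain ⟨o5, m5, h5⟩ := Has.le (k := 2) le_rfl (by omega) h.o5
    have ha' : Has A' 3 := by
      refine Has.le (by norm_num) ?_ h.a'
      rw [bn_t hs2]
      omega
    obtain ⟨t, ht, ht5⟩ := ha'.out m5
    have ho1 : Has O1 3 := by
      refine Has.le (by norm_num) ?_ h.o1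
      rw [bn_t hs2]
      omega
    obtain ⟨o1, m1, h1⟩ := ho1.del le_rfl t
    obtain ⟨Y, Y', hS⟩ := sel10 h hs2 hs3 m5 h5 m1 h1 ht ht5
    exact ⟨o1, o5, Y, Y', hS⟩
  by_cases hs2 : F.s2
  · by_cases hs3 : F.s3
    · have ho1 : Has O1 3 := by
        refine Has.le (by norm_num) ?_ h.o1
        rw [bn_t hs2]
        omega
      have ho5 : Has O5 3 := by
        refine Has.le (by norm_num) ?_ h.o5
        rw [bn_t hs3]
        omega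
      by_cases h3 : F.r3
      · have ha : Has A 4 := by
          refine Has.le (by norm_num) ?_ h.a
          rw [bn_t hs3, bn_t h3]
          omega
        have ha' : Has A' 4 := by
          refine Has.le (by norm_num) ?_ h.a'
          rw [bn_t hs2, bn_t h3]
          omega
        obtain ⟨n1, n1m, n1h⟩ := ho1
        obtain ⟨n5, n5m, n5h⟩ := ho5
        obtain ⟨na, nam, nah⟩ := ha
        obtain ⟨na', nam', nah'⟩ := ha'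
        obtain ⟨s, hs, hsA, t, ht, htA, hst, ⟨o1, m1, k1⟩, o5, m5, k5⟩ :=
          sel_tab5 n1 n1m n5 n5m na nam na' nam'
        exact ⟨o1, o5, fun _ => s, fun _ => t, sel11 (fun _ => hst) m1 m5
          (fun a ha => by
            obtain ⟨q1, q2, q3⟩ := del2_bit (M3_lt n1m) (sb_bit k1 ha)
            exact ⟨n1h a q1, q2, q3⟩)
          (fun e he => by
            obtain ⟨q1, q2, q3⟩ := del2_bit (M3_lt n5m) (sb_bit k5 he)
            exact ⟨n5h e q1, q2, q3⟩) (nah s hsA) (nah' t htA)⟩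
      · have ha : Has A 3 := by
          refine Has.le (by norm_num) ?_ h.a
          rw [bn_t hs3]
          omega
        have ha' : Has A' 3 := by
          refine Has.le (by norm_num) ?_ h.a'
          rw [bn_t hs2]
          omega
        obtain ⟨na, nam, nah⟩ := ha
        obtain ⟨na', nam', nah'⟩ := ha'
        obtain ⟨s, _, h1, h2⟩ := s_meet na nam na' nam'
        obtain ⟨o1, m1, k1⟩ := ho1.del le_rfl s
        obtain ⟨o5, m5, k5⟩ := ho5.del le_rfl s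
        exact ⟨o1, o5, fun _ => s, fun _ => s, sel11 (fun hh => absurd hh h3) m1 m5
          (fun a ha => ⟨(k1 a ha).1, (k1 a ha).2, (k1 a ha).2⟩)
          (fun e he => ⟨(k5 e he).1, (k5 e he).2, (k5 e he).2⟩) (nah s h1) (nah' s h2)⟩
    · exact key h hs2 hs3
  · by_cases hs3 : F.s3
    · obtain ⟨o5, o1, Y', Y, hS⟩ := key h.rev hs3 hs2
      exact ⟨o1, o5, Y, Y', hS.rev⟩
    · obtain ⟨o1, m1, h1⟩ := Has.le (k := 2) le_rfl (by omega) h.o1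
      obtain ⟨o5, m5, h5⟩ := Has.le (k := 2) le_rfl (by omega) h.o5
      obtain ⟨Y, Y', hS⟩ := sel00 h hs2 hs3 m1 m5 h1 h5
      exact ⟨o1, o5, Y, Y', hS⟩

end Pool.Agent.helper40.L9.J
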