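import Pool.Agent.helper40.L9.JHas

/-!
# The joint stage: solutions of the odd mode for two virtual chords

`Fl`: the extra conflicts (`r1` : `y x`, `r2` : `y' x'`, `r3` : `y y'`, `r4` : `y x'`,
`r5` : `x y'`, `r6` : `x x'`, `s1` : `a x`, `s2` : `a y'`, `s3` : `e y`, `s4` : `e x'`).
-/

namespace Pool.Agent.helper40.L9.J

structure Fl where
  r1 : Prop
  r2 : Prop
  r3 : Prop
  r4 : Prop
  r5 : Prop
  r6 : Prop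
  s1 : Prop
  s2 : Prop
  s3 : Prop
  s4 : Prop

/-- a solution -/
def SolVV (O1 O5 A B A' B' : ℕ → Prop) (LA LB : ℕ) (F : Fl) : Prop :=
  ∃ a e y x y' x' c c' n2 n4 : ℕ, (O1 a ∧ O5 e ∧ A y ∧ B x ∧ A' y' ∧ B' x') ∧
    (a ≠ y ∧ a ≠ x' ∧ e ≠ y' ∧ e ≠ x) ∧
    ((F.r1 → y ≠ x) ∧ (F.r2 → y' ≠ x') ∧ (F.r3 → y ≠ y') ∧ (F.r4 → y ≠ x') ∧
      (F.r5 → x ≠ y') ∧ (F.r6 → x ≠ x')) ∧
    ((F.s1 → a ≠ x) ∧ (F.s2 → a ≠ y') ∧ (F.s3 → e ≠ y) ∧ (F.s4 → e ≠ x')) ∧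
    (c < 5 ∧ (kk LA y).testBit c = true ∧ c ≠ x ∧ c ≠ x + 1) ∧
    (c' < 5 ∧ (kk LB y').testBit c' = true ∧ c' ≠ x' ∧ c' ≠ x' + 1) ∧
    (n4 < 5 ∧ n4 ≠ x ∧ n4 ≠ x + 1 ∧ n4 ≠ e ∧ n4 ≠ e + 1 ∧ n4 ≠ c) ∧
    (n2 < 5 ∧ n2 ≠ x' ∧ n2 ≠ x' + 1 ∧ n2 ≠ a ∧ n2 ≠ a + 1 ∧ n2 ≠ c') ∧ n2 ≠ n4

def Fl.rev (F : Fl) : Fl := ⟨F.r2, F.r1, F.r3, F.r5, F.r4, F.r6, F.s4, F.s3, F.s2, F.s1⟩

theorem SolVV.rev {O1 O5 A B A' B' : ℕ → Prop} {LA LB : ℕ} {F : Fl}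
    (h : SolVV O5 O1 A' B' A B LB LA F.rev) : SolVV O1 O5 A B A' B' LA LB F := by
  obtain ⟨e, a, y', x', y, x, c', c, n4, n2, ⟨h1, h2, h3, h4, h5, h6⟩, ⟨h7, h8, h9, h10⟩,
    ⟨k1, k2, k3, k4, k5, k6⟩, ⟨k7, k8, k9, k10⟩, h11, h12, h13, h14, h15⟩ := h
  exact ⟨a, e, y, x, y', x', c, c', n2, n4, ⟨h2, h1, h5, h6, h3, h4⟩, ⟨h9, h10, h7, h8⟩,
    ⟨k2, k1, fun h => (k3 h).symm, fun h => (k5 h).symm, fun h => (k4 h).symm,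
      fun h => (k6 h).symm⟩, ⟨k10, k9, k8, k7⟩, h12, h11, h14, h13, h15.symm⟩

/-- a solution from a cell -/
theorem fin_VV {O1 O5 A B A' B' : ℕ → Prop} {LA LB : ℕ} {F : Fl} {a e y y' Bx Bx' C C' : ℕ}
    (ha : O1 a) (he : O5 e) (hy : A y) (hy' : A' y') (h1 : y ≠ a) (h2 : y' ≠ e)
    (h3 : F.r3 → y ≠ y') (hs2 : F.s2 → a ≠ y') (hs3 : F.s3 → e ≠ y)
    (hB : ∀ x, x < 5 → Bx.testBit x = true → B x ∧ (F.r1 → y ≠ x) ∧ (F.r5 → x ≠ y') ∧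
      (F.s1 → a ≠ x))
    (hB' : ∀ x, x < 5 → Bx'.testBit x = true → B' x ∧ (F.r2 → y' ≠ x) ∧ (F.r4 → y ≠ x) ∧
      (F.s4 → e ≠ x))
    (h6 : F.r6 → ∀ x x', Bx.testBit x = true → Bx'.testBit x' = true → x ≠ x')
    (hC : sb C (kk LA y) = true) (hC' : sb C' (kk LB y') = true)
    (h : sdr (u4 e Bx C) (u4 a Bx' C') = true) :
    SolVV O1 O5 A B A' B' LA LB F := by
  obtain ⟨n4, n2, hn, h4, h5⟩ := sdr_spec (u4_lt _ _ _) (u4_lt _ _ _) h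
  obtain ⟨x, c, hx, hx1, hx2, hc, hc1, hc2, hc3, q1, q2, q3, q4, q5, q6⟩ := tb_u4.mp h4
  obtain ⟨x', c', hx', hx1', hx2', hc', hc1', hc2', hc3', q1', q2', q3', q4', q5', q6'⟩ :=
    tb_u4.mp h5
  obtain ⟨b1, b2, b3, b4⟩ := hB x hx hx1
  obtain ⟨b1', b2', b3', b4'⟩ := hB' x' hx' hx1'
  exact ⟨a, e, y, x, y', x', c, c', n2, n4, ⟨ha, he, hy, b1, hy', b1'⟩,
    ⟨h1.symm, hx2'.symm, h2.symm, hx2.symm⟩,
    ⟨b2, b2', h3, b3', b3, fun hh => h6 hh x x' hx1 hx1'⟩, ⟨b4, hs2, hs3, b4'⟩,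
    ⟨hc, sb_bit hC hc1, hc2, hc3⟩, ⟨hc', sb_bit hC' hc1', hc2', hc3'⟩,
    ⟨q1, q2, q3, q4, q5, q6⟩, ⟨q1', q2', q3', q4', q5', q6'⟩, hn.symm⟩

open Classical in
/-- one or zero -/
noncomputable def bn (p : Prop) : ℕ := if p then 1 else 0

theorem bn_t {p : Prop} (h : p) : bn p = 1 := if_pos h
theorem bn_f {p : Prop} (h : ¬ p) : bn p = 0 := if_neg h

/-- the sizes of the lists and the exclusivity of the conflicts -/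
structure InVV (O1 O5 A B A' B' : ℕ → Prop) (F : Fl) : Prop where
  o1 : Has O1 (2 + bn F.s1 + bn F.s2)
  o5 : Has O5 (2 + bn F.s3 + bn F.s4)
  a : Has A (2 + bn F.r1 + bn F.r3 + bn F.r4 + bn F.s3)
  b : Has B (3 + bn F.r1 + bn F.r5 + bn F.r6 + bn F.s1)
  a' : Has A' (2 + bn F.r2 + bn F.r3 + bn F.r5 + bn F.s2)
  b' : Has B' (3 + bn F.r2 + bn F.r4 + bn F.r6 + bn F.s4)
  y : ¬ (F.r1 ∧ F.r3) ∧ ¬ (F.r1 ∧ F.r4) ∧ ¬ (F.r3 ∧ F.r4)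
  y' : ¬ (F.r2 ∧ F.r3) ∧ ¬ (F.r2 ∧ F.r5) ∧ ¬ (F.r3 ∧ F.r5)
  x : ¬ (F.r1 ∧ F.r5) ∧ ¬ (F.r1 ∧ F.r6) ∧ ¬ (F.r5 ∧ F.r6)
  x' : ¬ (F.r2 ∧ F.r4) ∧ ¬ (F.r2 ∧ F.r6) ∧ ¬ (F.r4 ∧ F.r6)
  rs : F.r6 → ¬ F.s1 ∧ ¬ F.s4
  yy : F.r3 → (F.s2 ↔ F.s3)

theorem InVV.rev {O1 O5 A B A' B' : ℕ → Prop} {F : Fl} (h : InVV O1 O5 A B A' B' F) :
    InVV O5 O1 A' B' A B F.rev := by
  refine ⟨?_, ?_, ?_, ?_, ?_, ?_, ?_, ?_, ?_, ?_, ?_, ?_⟩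
  · have := h.o5
    rw [show 2 + bn F.s3 + bn F.s4 = 2 + bn F.rev.s1 + bn F.rev.s2 by
      show 2 + bn F.s3 + bn F.s4 = 2 + bn F.s4 + bn F.s3; omega] at this
    exact this
  · have := h.o1
    rw [show 2 + bn F.s1 + bn F.s2 = 2 + bn F.rev.s3 + bn F.rev.s4 by
      show 2 + bn F.s1 + bn F.s2 = 2 + bn F.s2 + bn F.s1; omega] at this
    exact this
  · have := h.a'
    exact this
  · have := h.b'
    exact this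
  · have := h.a
    exact this
  · have := h.b
    exact this
  · exact ⟨h.y'.1, h.y'.2.1, h.y'.2.2⟩
  · exact ⟨h.y.1, h.y.2.1, h.y.2.2⟩
  · exact ⟨h.x'.1, h.x'.2.1, h.x'.2.2⟩
  · exact ⟨h.x.1, h.x.2.1, h.x.2.2⟩
  · intro h6
    have := h.rs h6
    exact ⟨this.2, this.1⟩
  · intro h3
    exact (h.yy h3).symm

/-- the choice of `a`, `e`, `y`, `y'` -/
structure Sel (O1 O5 A A' : ℕ → Prop) (F : Fl) (o1 o5 : ℕ) (Y Y' : ℕ → ℕ) : Prop where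
  m1 : o1 ∈ M2
  m5 : o5 ∈ M2
  s1 : ∀ a, o1.testBit a = true → O1 a
  s5 : ∀ e, o5.testBit e = true → O5 e
  y : ∀ a, o1.testBit a = true → A (Y a) ∧ Y a ≠ a
  y' : ∀ e, o5.testBit e = true → A' (Y' e) ∧ Y' e ≠ e
  c2 : F.s2 → ∀ a e, o1.testBit a = true → o5.testBit e = true → a ≠ Y' e
  c3 : F.s3 → ∀ a e, o1.testBit a = true → o5.testBit e = true → e ≠ Y a
  r3 : F.r3 → ∀ a e, o1.testBit a = true → o5.testBit e = true → Y a ≠ Y' e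
  k : F.r1 ∨ F.r4 → ∃ s, ∀ a, Y a = s
  k' : F.r2 ∨ F.r5 → ∃ s, ∀ e, Y' e = s

theorem Sel.rev {O1 O5 A A' : ℕ → Prop} {F : Fl} {o1 o5 : ℕ} {Y Y' : ℕ → ℕ}
    (h : Sel O1 O5 A A' F o1 o5 Y Y') : Sel O5 O1 A' A F.rev o5 o1 Y' Y where
  m1 := h.m5
  m5 := h.m1
  s1 := h.s5
  s5 := h.s1
  y := h.y'
  y' := h.y
  c2 := fun hh a e ha he => h.c3 hh e a he ha
  c3 := fun hh a e ha he => h.c2 hh e a he ha
  r3 := fun hh a e ha he => (h.r3 hh e a he ha).symm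
  k := fun hh => h.k' (by
    rcases hh with hh | hh
    · exact Or.inl hh
    · exact Or.inr hh)
  k' := fun hh => h.k (by
    rcases hh with hh | hh
    · exact Or.inl hh
    · exact Or.inr hh)

/-- the list of `x` after the choice of the links -/
theorem Has.two {P : ℕ → Prop} {p q : Prop} {k : ℕ} (hk : 2 ≤ k) {Q R : ℕ → Prop}
    (h : Has P (k + bn p + bn q)) (hp : p → ∃ s, ∀ i, i ≠ s → Q i)
    (hq : q → ∃ s, ∀ i, i ≠ s → R i) :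
    Has (fun i => P i ∧ (p → Q i) ∧ (q → R i)) k := by
  by_cases h1 : p
  · obtain ⟨s, hs⟩ := hp h1
    by_cases h2 : q
    · obtain ⟨t, ht⟩ := hq h2
      rw [bn_t h1, bn_t h2] at h
      exact ((h.del (by omega) s).del hk t).mono fun i hi => ⟨hi.1.1, fun _ => hs i hi.1.2,
        fun _ => ht i hi.2⟩
    · rw [bn_t h1, bn_f h2] at h
      exact (h.del hk s).mono fun i hi => ⟨hi.1, fun _ => hs i hi.2, fun h => absurd h h2⟩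
  · by_cases h2 : q
    · obtain ⟨t, ht⟩ := hq h2
      rw [bn_f h1, bn_t h2] at h
      exact (h.del hk t).mono fun i hi => ⟨hi.1, fun h => absurd h h1, fun _ => ht i hi.2⟩
    · rw [bn_f h1, bn_f h2] at h
      exact h.mono fun i hi => ⟨hi, fun h => absurd h h1, fun h => absurd h h2⟩

end Pool.Agent.helper40.L9.J
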