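import Pool.Agent.helper40.L9.JFull

/-!
# The joint stage: what the masks mean
-/

namespace Pool.Agent.helper40.L9.J

theorem tb_or (a b i : ℕ) : (a ||| b).testBit i = (a.testBit i || b.testBit i) :=
  Nat.testBit_or a b i

theorem tb_and (a b i : ℕ) : (a &&& b).testBit i = (a.testBit i && b.testBit i) :=
  Nat.testBit_and a b i

theorem tb_xor (a b i : ℕ) : (a ^^^ b).testBit i = (a.testBit i ^^ b.testBit i) :=
  Nat.testBit_xor a b i

theorem tb31 (i : ℕ) : (31 : ℕ).testBit i = decide (i < 5) := by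
  have : (31 : ℕ) = 2 ^ 5 - 1 := rfl
  rw [this, Nat.testBit_two_pow_sub_one]

theorem tb_sg (x i : ℕ) : (sg x).testBit i = decide (x = i) := by
  unfold sg
  rw [Nat.one_shiftLeft, Nat.testBit_two_pow]

theorem tb_lt {m i : ℕ} (hm : m < 32) (h : m.testBit i = true) : i < 5 := by
  by_contra hi
  have h2 : m < 2 ^ i := lt_of_lt_of_le hm (by
    calc 32 = 2 ^ 5 := rfl
      _ ≤ 2 ^ i := Nat.pow_le_pow_right (by norm_num) (by omega))
  rw [Nat.testBit_lt_two_pow h2] at h
  exact Bool.false_ne_true h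

theorem tb_del {m i j : ℕ} (hj : j < 5) :
    (del m i).testBit j = true ↔ m.testBit j = true ∧ j ≠ i := by
  unfold del
  rw [tb_and, tb_xor, tb31, tb_sg]
  by_cases h2 : i = j
  · subst h2; simp [hj]
  · have h3 : j ≠ i := fun h => h2 h.symm
    simp [hj, h2, h3]

theorem del_bit {m i j : ℕ} (hm : m < 32) (h : (del m i).testBit j = true) :
    m.testBit j = true ∧ j ≠ i := by
  have h1 : m.testBit j = true := by
    unfold del at h
    rw [tb_and, Bool.and_eq_true] at h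
    exact h.1
  exact (tb_del (tb_lt hm h1)).mp h

theorem nbm_lt (i : ℕ) : nbm i < 32 := Nat.mod_lt _ (by norm_num)

theorem tb_nbm {i j : ℕ} : (nbm i).testBit j = true ↔ j < 5 ∧ (j = i ∨ j = i + 1) := by
  unfold nbm
  have e : (3 <<< i) % 32 = (3 <<< i) % 2 ^ 5 := rfl
  rw [e, Nat.testBit_mod_two_pow, Nat.testBit_shiftLeft]
  simp only [Bool.and_eq_true, decide_eq_true_eq, ge_iff_le]
  constructor
  · rintro ⟨h1, h2, h3⟩
    refine ⟨h1, ?_⟩
    have h4 : j - i < 2 := by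
      by_contra hc
      have h5 : (3 : ℕ) < 2 ^ (j - i) := by
        calc (3 : ℕ) < 2 ^ 2 := by norm_num
          _ ≤ 2 ^ (j - i) := Nat.pow_le_pow_right (by norm_num) (by omega)
      rw [Nat.testBit_lt_two_pow h5] at h3
      exact Bool.false_ne_true h3
    omega
  · rintro ⟨h1, h2 | h2⟩
    · subst h2
      refine ⟨h1, le_rfl, ?_⟩
      rw [Nat.sub_self]
      rfl
    · subst h2
      refine ⟨h1, by omega, ?_⟩
      rw [Nat.add_sub_cancel_left]
      rfl

theorem tb_co {m j : ℕ} : (co m).testBit j = true ↔ j < 5 ∧ m.testBit j = false := by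
  unfold co
  rw [tb_xor, tb_and, tb31]
  by_cases h1 : j < 5 <;> cases h2 : m.testBit j <;> simp [h1]

theorem tb_if {p : Prop} [Decidable p] {a j : ℕ} :
    (if p then a else 0).testBit j = true ↔ p ∧ a.testBit j = true := by
  split_ifs with h
  · simp [h]
  · simp [h]

theorem tb_un {m : ℕ} {f : ℕ → ℕ} {j : ℕ} : (un m f).testBit j = true ↔
    ∃ i, i < 5 ∧ m.testBit i = true ∧ (f i).testBit j = true := by
  unfold un
  simp only [tb_or, Bool.or_eq_true, tb_if]
  constructor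
  · rintro ((((h | h) | h) | h) | h)
    exacts [⟨0, by norm_num, h⟩, ⟨1, by norm_num, h⟩, ⟨2, by norm_num, h⟩, ⟨3, by norm_num, h⟩,
      ⟨4, by norm_num, h⟩]
  · rintro ⟨i, hi, h⟩
    rcases (by omega : i = 0 ∨ i = 1 ∨ i = 2 ∨ i = 3 ∨ i = 4) with rfl | rfl | rfl | rfl | rfl <;>
      tauto

/-- what `u4` means -/
theorem tb_u4 {e B C v : ℕ} : (u4 e B C).testBit v = true ↔
    ∃ x c, x < 5 ∧ B.testBit x = true ∧ x ≠ e ∧ c < 5 ∧ C.testBit c = true ∧ c ≠ x ∧ c ≠ x + 1 ∧
      v < 5 ∧ v ≠ x ∧ v ≠ x + 1 ∧ v ≠ e ∧ v ≠ e + 1 ∧ v ≠ c := by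
  unfold u4
  rw [tb_un]
  constructor
  · rintro ⟨x, hx, h1, h2⟩
    rw [tb_un] at h2
    obtain ⟨c, hc, h3, h4⟩ := h2
    rw [tb_del hx] at h1
    rw [tb_and, Bool.and_eq_true, tb_co] at h3
    rw [tb_co, tb_or, tb_or, Bool.or_eq_false_iff, Bool.or_eq_false_iff] at h4
    obtain ⟨h3a, h3b, h3c⟩ := h3
    obtain ⟨h4a, ⟨h4b, h4c⟩, h4d⟩ := h4
    have k1 : ¬ (c = x ∨ c = x + 1) := fun hh => by
      have := (tb_nbm (i := x) (j := c)).mpr ⟨hc, hh⟩
      rw [this] at h3c
      exact absurd h3c (by decide)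
    have k2 : ¬ (v = x ∨ v = x + 1) := fun hh => by
      have := (tb_nbm (i := x) (j := v)).mpr ⟨h4a, hh⟩
      rw [this] at h4b
      exact absurd h4b (by decide)
    have k3 : ¬ (v = e ∨ v = e + 1) := fun hh => by
      have := (tb_nbm (i := e) (j := v)).mpr ⟨h4a, hh⟩
      rw [this] at h4c
      exact absurd h4c (by decide)
    have k4 : ¬ c = v := fun hh => by
      rw [tb_sg, decide_eq_false_iff_not] at h4d
      exact h4d hh
    push Not at k1 k2 k3
    exact ⟨x, c, hx, h1.1, h1.2, hc, h3a, k1.1, k1.2, h4a, k2.1, k2.2, k3.1, k3.2,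
      fun hh => k4 hh.symm⟩
  · rintro ⟨x, c, hx, h1, h2, hc, h3, h4, h5, hv, h6, h7, h8, h9, h10⟩
    refine ⟨x, hx, (tb_del hx).mpr ⟨h1, h2⟩, ?_⟩
    rw [tb_un]
    have f1 : (nbm x).testBit c = false := by
      rw [Bool.eq_false_iff]
      intro hh
      rcases (tb_nbm.mp hh).2 with h | h <;> omega
    have f2 : (nbm x).testBit v = false := by
      rw [Bool.eq_false_iff]
      intro hh
      rcases (tb_nbm.mp hh).2 with h | h <;> omega
    have f3 : (nbm e).testBit v = false := by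
      rw [Bool.eq_false_iff]
      intro hh
      rcases (tb_nbm.mp hh).2 with h | h <;> omega
    refine ⟨c, hc, ?_, ?_⟩
    · rw [tb_and, Bool.and_eq_true, tb_co]
      exact ⟨h3, hc, f1⟩
    · rw [tb_co, tb_or, tb_or, Bool.or_eq_false_iff, Bool.or_eq_false_iff]
      refine ⟨hv, ⟨f2, f3⟩, ?_⟩
      rw [tb_sg, decide_eq_false_iff_not]
      exact fun hh => h10 hh.symm

/-- what `uR` means -/
theorem tb_uR {a e A v : ℕ} : (uR a e A).testBit v = true ↔
    ∃ x, x < 5 ∧ A.testBit x = true ∧ x ≠ a ∧ x ≠ e ∧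
      v < 5 ∧ v ≠ x ∧ v ≠ x + 1 ∧ v ≠ e ∧ v ≠ e + 1 := by
  unfold uR
  rw [tb_un]
  constructor
  · rintro ⟨x, hx, h1, h2⟩
    rw [tb_del hx, tb_del hx] at h1
    rw [tb_co, tb_or, Bool.or_eq_false_iff] at h2
    obtain ⟨h4a, h4b, h4c⟩ := h2
    have k2 : ¬ (v = x ∨ v = x + 1) := fun hh => by
      have := (tb_nbm (i := x) (j := v)).mpr ⟨h4a, hh⟩
      rw [this] at h4b
      exact absurd h4b (by decide)
    have k3 : ¬ (v = e ∨ v = e + 1) := fun hh => by
      have := (tb_nbm (i := e) (j := v)).mpr ⟨h4a, hh⟩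
      rw [this] at h4c
      exact absurd h4c (by decide)
    push Not at k2 k3
    exact ⟨x, hx, h1.1.1, h1.1.2, h1.2, h4a, k2.1, k2.2, k3.1, k3.2⟩
  · rintro ⟨x, hx, h1, h2, h3, hv, h6, h7, h8, h9⟩
    refine ⟨x, hx, (tb_del hx).mpr ⟨(tb_del hx).mpr ⟨h1, h2⟩, h3⟩, ?_⟩
    have f2 : (nbm x).testBit v = false := by
      rw [Bool.eq_false_iff]
      intro hh
      rcases (tb_nbm.mp hh).2 with h | h <;> omega
    have f3 : (nbm e).testBit v = false := by
      rw [Bool.eq_false_iff]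
      intro hh
      rcases (tb_nbm.mp hh).2 with h | h <;> omega
    rw [tb_co, tb_or, Bool.or_eq_false_iff]
    exact ⟨hv, f2, f3⟩

theorem co_lt (m : ℕ) : co m < 32 := by
  unfold co
  apply Nat.xor_lt_two_pow (n := 5) (by norm_num)
  exact Nat.lt_of_le_of_lt Nat.and_le_right (by norm_num)

theorem un_lt {m : ℕ} {f : ℕ → ℕ} (h : ∀ i, f i < 32) : un m f < 32 := by
  unfold un
  have h0 : ∀ (b : Bool) i, (if b = true then f i else 0) < 2 ^ 5 := by
    intro b i
    split_ifs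
    · exact h i
    · norm_num
  exact Nat.or_lt_two_pow (Nat.or_lt_two_pow (Nat.or_lt_two_pow (Nat.or_lt_two_pow (h0 _ _)
    (h0 _ _)) (h0 _ _)) (h0 _ _)) (h0 _ _)

theorem u4_lt (e B C : ℕ) : u4 e B C < 32 := un_lt fun _ => un_lt fun _ => co_lt _

theorem uR_lt (a e A : ℕ) : uR a e A < 32 := un_lt fun _ => co_lt _

theorem sdr_tab : ((List.range 32).all fun m => (List.range 32).all fun n =>
    !(sdr m n) || (List.range 5).any fun i => m.testBit i && (List.range 5).any fun j =>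
      n.testBit j && i != j) = true := by decide +kernel

theorem sdr_spec {m n : ℕ} (hm : m < 32) (hn : n < 32) (h : sdr m n = true) :
    ∃ i j, i ≠ j ∧ m.testBit i = true ∧ n.testBit j = true := by
  have h1 := sdr_tab
  rw [List.all_eq_true] at h1
  have h2 := h1 m (List.mem_range.mpr hm)
  rw [List.all_eq_true] at h2
  have h3 := h2 n (List.mem_range.mpr hn)
  rw [h, Bool.not_true, Bool.false_or, List.any_eq_true] at h3
  obtain ⟨i, _, h4⟩ := h3
  rw [Bool.and_eq_true, List.any_eq_true] at h4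
  obtain ⟨h5, j, _, h6⟩ := h4
  rw [Bool.and_eq_true, bne_iff_ne] at h6
  exact ⟨i, j, h6.2, h5, h6.1⟩

theorem sdr_comm (m n : ℕ) : sdr m n = sdr n m := by
  unfold sdr
  by_cases h : m = n
  · subst h; rfl
  · have h' : ¬ n = m := fun hh => h hh.symm
    have e1 : (m == n) = false := by simpa using h
    have e2 : (n == m) = false := by simpa using h'
    rw [e1, e2, Bool.false_and, Bool.false_and, Bool.not_false, Bool.and_true, Bool.and_true,
      Bool.and_comm]

end Pool.Agent.helper40.L9.J
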