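import Pool.Agent.helper40.L9.JAsm

/-!
# The joint stage: assembly, two virtual chords
-/

set_option autoImplicit false
set_option linter.unusedSectionVars false
set_option linter.unusedVariables false

namespace Pool.Agent.helper40.L9

open Finset Classical Helper33.L9 Helper17.L9 Pool.Agent.helper45.L9
open Helper42.L9 hiding near gp
open Pool.Agent.helper58.L9 hiding Fr
open Pool.Agent.helper40.L9.J

variable {V : Type*} [Fintype V] {G : SimpleGraph V} {X L : V → Prop} {f : V → ℕ}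
  {Z S : Finset V}

/-- the data of a dangerous state with two virtual chords -/
structure YDat (G : SimpleGraph V) (X : V → Prop) (L : V → Prop) (f : V → ℕ)
    (v1 v5 z1 z5 : V) (kA kB : ℕ) (pA qA yA pB qB yB : ℕ → V)
    (w1 w5 ba0 bak bb0 bbk c d c' d' c0 d0 c0' d0' : V) (O a l b a' l' b' : ℕ) : Prop where
  mem : (O, a, l, b, a', l', b') ∈ dVV
  nb : Nb G bak (yA kA) c d
  nb' : Nb G bbk (yB kB) c' d'
  nb0 : Nb G ba0 (yA 0) c0 d0
  nb0' : Nb G bb0 (yB 0) c0' d0'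
  Xd : X d
  Xd' : X d'
  Xd0 : X d0
  Xd0' : X d0'
  ed : L d → Even (f d)
  ed' : L d' → Even (f d')
  ed0 : L d0 → Even (f d0)
  ed0' : L d0' → Even (f d0')
  E1 : Ex3 G L f v1 z1 w1 bak O
  E5 : Ex3 G L f v5 z5 w5 bbk O
  EA : Ex3 G L f (yA kA) z1 bak c a
  EB : Ex3 G L f (yB kB) z5 bbk c' a'
  E0 : Ex2 G L f (yA 0) ba0 c0 b
  E0' : Ex2 G L f (yB 0) bb0 c0' b'
  ev : ev2 (f (pA 0)) (f (qA 0)) = l
  ev' : ev2 (f (pB 0)) (f (qB 0)) = l'
  fp : f (pA 0) % 2 = 0 ∧ f (pA 0) ≤ 9 ∧ f (qA 0) % 2 = 0 ∧ f (qA 0) ≤ 9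
  fp' : f (pB 0) % 2 = 0 ∧ f (pB 0) ≤ 9 ∧ f (qB 0) % 2 = 0 ∧ f (qB 0) ≤ 9
  Lp : L (pA 0) ∧ L (qA 0)
  Lp' : L (pB 0) ∧ L (qB 0)
  fl : ¬ (flVV G v1 v5 (yA kA) (yA 0) (yB kB) (yB 0)).any

theorem al3_swap (r s t : ℕ) : al3 r s t = al3 r t s := by
  apply Nat.eq_of_testBit_eq
  intro i
  rw [Bool.eq_iff_iff, tb_al3, tb_al3]
  tauto

section

variable {v1 v2 v3 v4 v5 z1 z3 z5 l1 l5 : V} {kA kB : ℕ}
  {pA uA vA qA yA pB uB vB qB yB : ℕ → V} {w1 w3 w3' w5 ba0 bak bb0 bbk : V}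
  (hcub : ∀ v, (univ.filter fun b => G.Adj v b).card = 3)
  (H : AC G X Z S L f v1 v2 v3 v4 v5 z1 z3 z5 l1 l5 kA kB pA uA vA qA yA pB uB vB qB yB
    w1 w3 w3' w5 ba0 bak bb0 bbk)

include H hcub

/-- the full relation on side `A` -/
theorem AC.full (hA : kA ≠ 0) (hB : kB ≠ 0) {c d c' d' c0 d0 c0' d0' : V}
    {O a l b a' l' b' : ℕ}
    (D : YDat G X L f v1 v5 z1 z5 kA kB pA qA yA pB qB yB w1 w5 ba0 bak bb0 bbk c d c' d' c0 d0
      c0' d0' O a l b a' l' b')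
    (e1 : Ex (Lst G L f v1) O) (e5 : Ex (Lst G L f v5) O) (ea : Ex (Lst G L f (yA kA)) a)
    (eb : Ex (Lst G L f (yA 0)) b) (ea' : Ex (Lst G L f (yB kB)) a')
    (eb' : Ex (Lst G L f (yB 0)) b') (hk : 2 ≤ kA) (hq : ¬ L (qA (kA - 1))) :
    ∃ f' : V → ℕ, JSt G X (fun x => L x ∨ LamU v1 v2 v3 v4 v5 kA kB uA vA yA uB vB yB x) f' := by
  obtain ⟨ht, ma, ml, mb, ma', ml', mb', -⟩ := dVV_ok _ D.mem
  dsimp only at ht ma ml mb ma' ml' mb'
  have mO := trio_M2 O ht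
  have hF := D.fl
  unfold Fl.any flVV at hF
  dsimp only at hF
  push Not at hF
  obtain ⟨r1, r2, r3, r4, r5, r6, s1, s2, s3, s4⟩ := hF
  obtain ⟨p, e, y, y', hp, he, hy, hyp, hy', hye, hs⟩ :=
    Helper38.J.DVVL ht ma ml mb ma' ml' mb'
  obtain ⟨n4, n2, hn, h4, h2⟩ := sdr_spec (u4_lt _ _ _) (u4_lt _ _ _) hs
  obtain ⟨x, g, hx, hx1, hx2, hg, hg1, hg2, hg3, q1, q2, q3, q4, q5, q6⟩ := tb_u4.mp h4
  obtain ⟨x', g', hx', hx1', hx2', hg', hg1', hg2', hg3', q1', q2', q3', q4', q5', q6'⟩ :=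
    tb_u4.mp h2
  have b5 : ∀ {m : ℕ} {P : ℕ → Prop} {i : ℕ}, m < 32 → Ex P m → m.testBit i = true → P i :=
    fun hm hE hi => (hE _ (tb_lt hm hi)).mpr hi
  have avl : ∀ j, j < 5 → l.testBit j = true → 2 * j ≠ f (pA 0) ∧ 2 * j ≠ f (qA 0) := by
    intro j _ hj
    rw [← D.ev, tb_ev2] at hj
    exact hj.2
  have avl' : ∀ j, j < 5 → l'.testBit j = true → 2 * j ≠ f (pB 0) ∧ 2 * j ≠ f (qB 0) := by
    intro j _ hj
    rw [← D.ev', tb_ev2] at hj
    exact hj.2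
  exact H.om hcub (oh_idx (LA := l) (LB := l') (b5 (M2_lt mO) e1 hp) (b5 (M2_lt mO) e5 he)
    (b5 (M2_lt ma) ea hy) (b5 (M3_lt mb) eb hx1) (b5 (M2_lt ma') ea' hy')
    (b5 (M3_lt mb') eb' hx1') (fun hh => absurd hh hA)
    (fun hh => absurd hh hB) ⟨hyp.symm, hx2'.symm, hye.symm, hx2.symm⟩
    (fun hh => absurd hh r1) (fun hh => absurd hh r2) (fun hh => absurd hh r3)
    (fun hh => absurd hh r4) (fun hh => absurd hh r5) (fun hh => absurd hh r6)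
    (fun hh => absurd hh s1) (fun hh => absurd hh s2) (fun hh => absurd hh s3)
    (fun hh => absurd hh s4)
    (fun _ => ⟨ml, avl, hg, Or.inr ⟨hg1, hk, hq⟩, hg2, hg3⟩)
    (fun _ => ⟨ml', avl', hg', Or.inl hg1', hg2', hg3'⟩)
    ⟨q1, q2, q3, q4, q5, fun _ => q6⟩ ⟨q1', q2', q3', q4', q5', fun _ => q6'⟩ hn.symm)

/-- the own neighbour of the last link of `A` is not near `v5` -/
theorem AC.bak5 {c d c' d' c0 d0 c0' d0' : V} {O a l b a' l' b' : ℕ}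
    (D : YDat G X L f v1 v5 z1 z5 kA kB pA qA yA pB qB yB w1 w5 ba0 bak bb0 bbk c d c' d' c0 d0
      c0' d0' O a l b a' l' b') (c3 : cc G X bak = 3) : ¬ Helper33.L9.near G v5 bak := by
  intro hn
  obtain ⟨ht, ma, ml, mb, ma', ml', mb', hne⟩ := dVV_ok _ D.mem
  dsimp only at ht ma ml mb ma' ml' mb' hne
  rcases H.rev.s1 hcub hn D.E1.lc D.E1.oc with h | h | h
  · have := H.rev.j.ccs.2.2
    rw [← h] at this
    omega
  · have had : G.Adj bak z5 := by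
      rw [h]
      exact H.j.n.m5.hc.symm
    rcases D.nb.all z5 had with h1 | h1 | h1
    · exact H.j.n.z5y.2.1 h1
    · apply hne
      have e1 := D.E1.al
      have e5 := D.E5.al
      have ea := D.EA.al
      -- the label of `z5`
      have hz5 : f z5 = f w1 := by
        have hb : (al3 (f z5) (f w5) (f bbk)).testBit (f z5 / 2) = false := by
          rw [Bool.eq_false_iff]
          intro hh
          have h2 := (tb_al3.mp hh).2.1
          have h3 := (H.od D.E5.la D.E5.oa).2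
          omega
        rw [e5, ← e1, Bool.eq_false_iff] at hb
        by_contra hc
        apply hb
        rw [tb_al3]
        have h3 := H.od D.E5.la D.E5.oa
        have h4 : f z5 ≠ f z1 := by
          rw [h1]
          exact D.EA.ac.symm
        have h5 : f z5 ≠ f bak := by
          rw [h1]
          exact D.EA.bc.symm
        refine ⟨by omega, ?_, ?_, ?_⟩ <;> omega
      rw [← e1, ← ea, ← h1, hz5]
      exact al3_swap _ _ _
    · exact H.j.n.Z5 (h1 ▸ D.Xd)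
  · have had : G.Adj bak (yB kB) := by
      rw [h]
      exact H.j.n.bk.hc.symm
    rcases D.nb.all (yB kB) had with h1 | h1 | h1
    · exact H.j.n.dAB.2.2.2 h1.symm
    · exact H.rev.j.uyA le_rfl (h1 ▸ D.EA.lc)
    · exact H.j.n.Bk (h1 ▸ D.Xd)

/-- the relabelled state is not dangerous -/
theorem AC.rel {c d c' d' c0 d0 c0' d0' : V} {O a l b a' l' b' : ℕ}
    (hA : kA ≠ 0) (hB : kB ≠ 0)
    (D : YDat G X L f v1 v5 z1 z5 kA kB pA qA yA pB qB yB w1 w5 ba0 bak bb0 bbk c d c' d' c0 d0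
      c0' d0' O a l b a' l' b') (e1 : Ex (Lst G L f v1) O) (e5 : Ex (Lst G L f v5) O)
    (Ld : ¬ L d) (c3 : cc G X bak = 3) (Yc : ¬ X c) :
    ∃ f' : V → ℕ, JSt G X (fun x => L x ∨ LamU v1 v2 v3 v4 v5 kA kB uA vA yA uB vB yB x) f' := by
  have hdc : d ∈ cr G X bak := mem_cr.mpr ⟨D.nb.hc, fun hh => H.j.n.Cak (hh.mp D.Xd)⟩
  have cd := H.rA bak H.obak D.E1.lc c3 d hdc Ld
  obtain ⟨g, hj, hg, hg1, hg2⟩ := H.j.relabel hcub D.nb c3 Yc D.Xd D.E1.lc Ld cd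
    (H.dA bak H.obak d hdc)
  have H' : AC G X Z S L g v1 v2 v3 v4 v5 z1 z3 z5 l1 l5 kA kB pA uA vA qA yA pB uB vB qB yB
      w1 w3 w3' w5 ba0 bak bb0 bbk := { H with j := hj }
  rcases masterVV hDVV (inVV hcub H'.j hA hB H'.nbak H'.nba0 H'.rev.nbak H'.rev.nba0)
    (has_ev (f := g) (pA 0) (qA 0)) (has_ev (f := g) (pB 0) (qB 0)) with hs | ⟨_, O', a1, l1, b1,
      a2, l2, b2, hq, k1, k5, _⟩
  · exact H'.omVV hcub hA hB hs
  exfalso
  have mO := trio_M2 O (dVV_ok _ D.mem).1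
  have mO' := trio_M2 O' (dVV_ok _ hq).1
  have hn5 := H.bak5 hcub D c3
  -- the list of `v5` is unchanged
  have heq : O' = O := by
    refine mask_ext (M2_lt mO) (fun i hi => tb_lt (M2_lt mO') hi) fun i hi => ?_
    rw [← k5 i hi, ← e5 i hi]
    unfold Lst
    constructor
    · rintro ⟨q1, q2⟩
      refine ⟨q1, fun t h1 h2 => ?_⟩
      rw [← hg t (fun he => hn5 (he ▸ h2))]
      exact q2 t h1 h2
    · rintro ⟨q1, q2⟩
      refine ⟨q1, fun t h1 h2 => ?_⟩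
      rw [hg t (fun he => hn5 (he ▸ h2))]
      exact q2 t h1 h2
  subst heq
  have E1' := exact3 mO' k1 fun t h1 h2 h3 => H'.s1 hcub h1 h2 h3
  have z1b : z1 ≠ bak := fun he => D.E1.ac (by rw [he])
  have w1b : w1 ≠ bak := fun he => D.E1.bc (by rw [he])
  have ea := E1'.al
  rw [hg z1 z1b, hg w1 w1b] at ea
  have hod := H.od D.E1.lc D.E1.oc
  have hb : (al3 (f z1) (f w1) (f bak)).testBit (f bak / 2) = false := by
    rw [Bool.eq_false_iff]
    intro hh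
    have h2 := (tb_al3.mp hh).2.2.2
    omega
  rw [D.E1.al, ← ea, Bool.eq_false_iff] at hb
  apply hb
  rw [tb_al3]
  have h1 := D.E1.ac
  have h2 := D.E1.bc
  refine ⟨by omega, ?_, ?_, ?_⟩ <;> omega

/-- **Two virtual chords.** -/
theorem AC.vv (hA : kA ≠ 0) (hB : kB ≠ 0) (hf : ∀ x, f x ≤ 9 → L x)
    (hY : ∀ {c d c' d' c0 d0 c0' d0' : V} {O a l b a' l' b' : ℕ},
      YDat G X L f v1 v5 z1 z5 kA kB pA qA yA pB qB yB w1 w5 ba0 bak bb0 bbk c d c' d' c0 d0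
        c0' d0' O a l b a' l' b' → L d → L (qA (kA - 1)) →
      ∃ f' : V → ℕ, JSt G X (fun x => L x ∨ LamU v1 v2 v3 v4 v5 kA kB uA vA yA uB vB yB x) f') :
    ∃ f' : V → ℕ, JSt G X (fun x => L x ∨ LamU v1 v2 v3 v4 v5 kA kB uA vA yA uB vB yB x) f' := by
  rcases masterVV hDVV (inVV hcub H.j hA hB H.nbak H.nba0 H.rev.nbak H.rev.nba0)
    (has_ev (f := f) (pA 0) (qA 0)) (has_ev (f := f) (pB 0) (qB 0)) with hs | ⟨hF, O, a, l, b,
      a', l', b', hq, e1, e5, ea, el, eb, ea', el', eb'⟩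
  · exact H.omVV hcub hA hB hs
  obtain ⟨ht, ma, ml, mb, ma', ml', mb', hne⟩ := dVV_ok _ hq
  dsimp only at ht ma ml mb ma' ml' mb' hne
  have mO := trio_M2 O ht
  obtain ⟨c, d, nb, Xd, hYc, hd, hcd, sk⟩ := H.sk hcub
  obtain ⟨c0, d0, nb0, Xd0, hd0, _, s0⟩ := H.s0 hcub hA
  obtain ⟨c', d', nb', Xd', _, hd', _, sk'⟩ := H.rev.sk hcub
  obtain ⟨c0', d0', nb0', Xd0', hd0', _, s0'⟩ := H.rev.s0 hcub hB
  have E1 := exact3 mO e1 fun t h1 h2 h3 => H.s1 hcub h1 h2 h3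
  have E5 := exact3 mO e5 fun t h1 h2 h3 => H.rev.s1 hcub h1 h2 h3
  have EA := exact3 ma ea sk
  have E0 := exact2 mb eb s0
  have EB := exact3 ma' ea' sk'
  have E0' := exact2 mb' eb' s0'
  obtain ⟨v, vp⟩ := exactEv ml el
  obtain ⟨v', vp'⟩ := exactEv ml' el'
  have D : YDat G X L f v1 v5 z1 z5 kA kB pA qA yA pB qB yB w1 w5 ba0 bak bb0 bbk c d c' d' c0 d0
      c0' d0' O a l b a' l' b' :=
    { mem := hq, nb := nb, nb' := nb', nb0 := nb0, nb0' := nb0', Xd := Xd, Xd' := Xd'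
      Xd0 := Xd0, Xd0' := Xd0', ed := hd, ed' := hd', ed0 := hd0, ed0' := hd0'
      E1 := E1, E5 := E5, EA := EA, EB := EB, E0 := E0, E0' := E0', ev := v, ev' := v'
      fp := vp, fp' := vp', Lp := ⟨hf _ vp.2.1, hf _ vp.2.2.2⟩
      Lp' := ⟨hf _ vp'.2.1, hf _ vp'.2.2.2⟩, fl := hF }
  by_cases hqk : L (qA (kA - 1))
  · by_cases Ld : L d
    · exact hY D Ld hqk
    · have c3 : cc G X bak = 3 := by
        rcases hcd Ld with h | h
        · exact h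
        · exact absurd ⟨EA.lc, EA.oc⟩ h
      exact H.rel hcub hA hB D e1 e5 Ld c3 (hYc c3)
  · have hk : 2 ≤ kA := by
      by_contra hk
      have : kA - 1 = 0 := by omega
      rw [this] at hqk
      exact hqk D.Lp.2
    exact H.full hcub hA hB D e1 e5 ea eb ea' eb' hk hqk

end

end Pool.Agent.helper40.L9
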