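import Pool.Agent.helper40.L9.ParTools
import Mathlib.Data.Fin.VecNotation
import Mathlib.Tactic.FinCases

/-!
# Parity-last: the path of five vertices with three chords (`K5`)

`v1 v2 v3 v4 v5` a path inside one side, `y14` adjacent to `v1, v4`, `y15` to `v1, v5`, `y25` to
`v2, v5` (on the other side).  The eight vertices can always be labelled last, in parity.
-/

set_option autoImplicit false

namespace Pool.Agent.helper40.L9

open Finset
open scoped Classical
open Pool.Agent.helper58.L9 (Q)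

namespace K5P5

/-- solutions `(v1, v2, v3, v4, v5, y14, y15, y25)` -/
def sols : List (List ℕ) :=
  [[0, 8, 4, 2, 6, 5, 9, 1], [0, 4, 6, 8, 2, 3, 5, 7], [4, 0, 8, 6, 2, 9, 7, 5],
   [8, 2, 0, 4, 6, 1, 3, 9], [4, 6, 2, 0, 8, 7, 1, 3], [0, 6, 4, 2, 8, 9, 5, 3],
   [0, 4, 8, 2, 6, 7, 3, 1], [4, 8, 2, 6, 0, 1, 9, 5], [0, 2, 6, 8, 4, 5, 7, 9],
   [6, 2, 0, 8, 4, 3, 1, 7], [4, 0, 6, 2, 8, 9, 1, 5], [2, 8, 0, 4, 6, 7, 9, 3],
   [0, 6, 2, 8, 4, 3, 7, 1], [6, 2, 4, 8, 0, 1, 3, 7], [0, 6, 8, 4, 2, 7, 5, 9],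
   [2, 4, 0, 6, 8, 9, 5, 1], [6, 2, 8, 0, 4, 3, 1, 9], [0, 8, 4, 6, 2, 3, 7, 5],
   [0, 4, 6, 2, 8, 5, 3, 1], [4, 0, 8, 6, 2, 1, 9, 7], [6, 0, 2, 4, 8, 9, 3, 5],
   [4, 8, 0, 6, 2, 1, 7, 5], [0, 2, 4, 8, 6, 5, 3, 9], [0, 4, 6, 2, 8, 7, 5, 1],
   [0, 6, 2, 8, 4, 5, 7, 9], [0, 8, 6, 2, 4, 9, 7, 1], [8, 6, 2, 4, 0, 1, 5, 3],
   [6, 0, 2, 8, 4, 3, 9, 7], [6, 2, 8, 4, 0, 1, 3, 5], [8, 0, 4, 2, 6, 5, 1, 3],
   [0, 6, 8, 2, 4, 5, 7, 1], [6, 2, 0, 8, 4, 1, 9, 7], [0, 2, 8, 4, 6, 9, 3, 9],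
   [4, 0, 2, 6, 8, 9, 1, 5], [2, 6, 0, 4, 8, 7, 5, 3], [4, 0, 2, 8, 6, 1, 9, 3],
   [4, 0, 6, 8, 2, 1, 9, 5]]

/-- solutions with `y14 ≠ y25` -/
def solsB : List (List ℕ) :=
  [[0, 4, 6, 2, 8, 5, 3, 1], [6, 2, 4, 0, 8, 3, 1, 5], [0, 6, 2, 4, 8, 7, 5, 3],
   [4, 0, 8, 6, 2, 1, 7, 9], [6, 2, 0, 8, 4, 3, 9, 7], [4, 6, 0, 2, 8, 9, 1, 3],
   [0, 8, 4, 2, 6, 7, 9, 1], [6, 0, 2, 4, 8, 9, 3, 5], [8, 0, 6, 4, 2, 1, 5, 7],
   [0, 2, 6, 8, 4, 5, 7, 9], [0, 6, 4, 2, 8, 9, 5, 1], [6, 0, 2, 8, 4, 3, 1, 7],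
   [4, 0, 8, 6, 2, 1, 9, 5], [8, 0, 4, 6, 2, 3, 5, 7]]

/-- validity of a solution -/
def Valid (v1 v2 v3 v4 v5 y14 y15 y25 : ℕ) : Prop :=
  (v1 ∈ evs ∧ v2 ∈ evs ∧ v3 ∈ evs ∧ v4 ∈ evs ∧ v5 ∈ evs) ∧
  (y14 ∈ ods ∧ y15 ∈ ods ∧ y25 ∈ ods) ∧
  (v1 ≠ v2 ∧ v1 ≠ v3 ∧ v1 ≠ v4 ∧ v1 ≠ v5 ∧ v2 ≠ v3 ∧ v2 ≠ v4 ∧ v2 ≠ v5 ∧ v3 ≠ v4 ∧ v3 ≠ v5 ∧
    v4 ≠ v5) ∧
  (y14 ≠ y15 ∧ y15 ≠ y25) ∧
  ((v1 + 1 ≠ y14 ∧ y14 + 1 ≠ v1) ∧ (v4 + 1 ≠ y14 ∧ y14 + 1 ≠ v4) ∧
   (v1 + 1 ≠ y15 ∧ y15 + 1 ≠ v1) ∧ (v5 + 1 ≠ y15 ∧ y15 + 1 ≠ v5) ∧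
   (v2 + 1 ≠ y25 ∧ y25 + 1 ≠ v2) ∧ (v5 + 1 ≠ y25 ∧ y25 + 1 ≠ v5))

instance (v1 v2 v3 v4 v5 y14 y15 y25 : ℕ) : Decidable (Valid v1 v2 v3 v4 v5 y14 y15 y25) := by
  unfold Valid
  infer_instance

/-- `s` is a valid solution avoiding the blocked pairs -/
def hit (p3 p14 p15 p25 : ℕ × ℕ) (s : List ℕ) : Bool :=
  match s with
  | [_, _, v3, _, _, y14, y15, y25] =>
    !(Nat.beq v3 p3.1) && !(Nat.beq v3 p3.2) && !(Nat.beq y14 p14.1) && !(Nat.beq y14 p14.2) &&
    !(Nat.beq y15 p15.1) && !(Nat.beq y15 p15.2) && !(Nat.beq y25 p25.1) && !(Nat.beq y25 p25.2)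
  | _ => false

def val (s : List ℕ) : Bool :=
  match s with
  | [v1, v2, v3, v4, v5, y14, y15, y25] => decide (Valid v1 v2 v3 v4 v5 y14 y15 y25)
  | _ => false

/-- one block of `cover` -/
def cvr (p3 p14 : ℕ × ℕ) : Bool := odp.all fun p15 => odp.all fun p25 =>
    sols.any fun s => hit p3 p14 p15 p25 s

theorem cvr_0_0 : cvr (0, 2) (1, 3) = true := by decide +kernel
theorem cvr_0_1 : cvr (0, 2) (1, 5) = true := by decide +kernel
theorem cvr_0_2 : cvr (0, 2) (1, 7) = true := by decide +kernel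
theorem cvr_0_3 : cvr (0, 2) (1, 9) = true := by decide +kernel
theorem cvr_0_4 : cvr (0, 2) (3, 5) = true := by decide +kernel
theorem cvr_0_5 : cvr (0, 2) (3, 7) = true := by decide +kernel
theorem cvr_0_6 : cvr (0, 2) (3, 9) = true := by decide +kernel
theorem cvr_0_7 : cvr (0, 2) (5, 7) = true := by decide +kernel
theorem cvr_0_8 : cvr (0, 2) (5, 9) = true := by decide +kernel
theorem cvr_0_9 : cvr (0, 2) (7, 9) = true := by decide +kernel
theorem cvr_1_0 : cvr (0, 4) (1, 3) = true := by decide +kernel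
theorem cvr_1_1 : cvr (0, 4) (1, 5) = true := by decide +kernel
theorem cvr_1_2 : cvr (0, 4) (1, 7) = true := by decide +kernel
theorem cvr_1_3 : cvr (0, 4) (1, 9) = true := by decide +kernel
theorem cvr_1_4 : cvr (0, 4) (3, 5) = true := by decide +kernel
theorem cvr_1_5 : cvr (0, 4) (3, 7) = true := by decide +kernel
theorem cvr_1_6 : cvr (0, 4) (3, 9) = true := by decide +kernel
theorem cvr_1_7 : cvr (0, 4) (5, 7) = true := by decide +kernel
theorem cvr_1_8 : cvr (0, 4) (5, 9) = true := by decide +kernel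
theorem cvr_1_9 : cvr (0, 4) (7, 9) = true := by decide +kernel
theorem cvr_2_0 : cvr (0, 6) (1, 3) = true := by decide +kernel
theorem cvr_2_1 : cvr (0, 6) (1, 5) = true := by decide +kernel
theorem cvr_2_2 : cvr (0, 6) (1, 7) = true := by decide +kernel
theorem cvr_2_3 : cvr (0, 6) (1, 9) = true := by decide +kernel
theorem cvr_2_4 : cvr (0, 6) (3, 5) = true := by decide +kernel
theorem cvr_2_5 : cvr (0, 6) (3, 7) = true := by decide +kernel
theorem cvr_2_6 : cvr (0, 6) (3, 9) = true := by decide +kernel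
theorem cvr_2_7 : cvr (0, 6) (5, 7) = true := by decide +kernel
theorem cvr_2_8 : cvr (0, 6) (5, 9) = true := by decide +kernel
theorem cvr_2_9 : cvr (0, 6) (7, 9) = true := by decide +kernel
theorem cvr_3_0 : cvr (0, 8) (1, 3) = true := by decide +kernel
theorem cvr_3_1 : cvr (0, 8) (1, 5) = true := by decide +kernel
theorem cvr_3_2 : cvr (0, 8) (1, 7) = true := by decide +kernel
theorem cvr_3_3 : cvr (0, 8) (1, 9) = true := by decide +kernel
theorem cvr_3_4 : cvr (0, 8) (3, 5) = true := by decide +kernel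
theorem cvr_3_5 : cvr (0, 8) (3, 7) = true := by decide +kernel
theorem cvr_3_6 : cvr (0, 8) (3, 9) = true := by decide +kernel
theorem cvr_3_7 : cvr (0, 8) (5, 7) = true := by decide +kernel
theorem cvr_3_8 : cvr (0, 8) (5, 9) = true := by decide +kernel
theorem cvr_3_9 : cvr (0, 8) (7, 9) = true := by decide +kernel
theorem cvr_4_0 : cvr (2, 4) (1, 3) = true := by decide +kernel
theorem cvr_4_1 : cvr (2, 4) (1, 5) = true := by decide +kernel
theorem cvr_4_2 : cvr (2, 4) (1, 7) = true := by decide +kernel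
theorem cvr_4_3 : cvr (2, 4) (1, 9) = true := by decide +kernel
theorem cvr_4_4 : cvr (2, 4) (3, 5) = true := by decide +kernel
theorem cvr_4_5 : cvr (2, 4) (3, 7) = true := by decide +kernel
theorem cvr_4_6 : cvr (2, 4) (3, 9) = true := by decide +kernel
theorem cvr_4_7 : cvr (2, 4) (5, 7) = true := by decide +kernel
theorem cvr_4_8 : cvr (2, 4) (5, 9) = true := by decide +kernel
theorem cvr_4_9 : cvr (2, 4) (7, 9) = true := by decide +kernel
theorem cvr_5_0 : cvr (2, 6) (1, 3) = true := by decide +kernel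
theorem cvr_5_1 : cvr (2, 6) (1, 5) = true := by decide +kernel
theorem cvr_5_2 : cvr (2, 6) (1, 7) = true := by decide +kernel
theorem cvr_5_3 : cvr (2, 6) (1, 9) = true := by decide +kernel
theorem cvr_5_4 : cvr (2, 6) (3, 5) = true := by decide +kernel
theorem cvr_5_5 : cvr (2, 6) (3, 7) = true := by decide +kernel
theorem cvr_5_6 : cvr (2, 6) (3, 9) = true := by decide +kernel
theorem cvr_5_7 : cvr (2, 6) (5, 7) = true := by decide +kernel
theorem cvr_5_8 : cvr (2, 6) (5, 9) = true := by decide +kernel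
theorem cvr_5_9 : cvr (2, 6) (7, 9) = true := by decide +kernel
theorem cvr_6_0 : cvr (2, 8) (1, 3) = true := by decide +kernel
theorem cvr_6_1 : cvr (2, 8) (1, 5) = true := by decide +kernel
theorem cvr_6_2 : cvr (2, 8) (1, 7) = true := by decide +kernel
theorem cvr_6_3 : cvr (2, 8) (1, 9) = true := by decide +kernel
theorem cvr_6_4 : cvr (2, 8) (3, 5) = true := by decide +kernel
theorem cvr_6_5 : cvr (2, 8) (3, 7) = true := by decide +kernel
theorem cvr_6_6 : cvr (2, 8) (3, 9) = true := by decide +kernel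
theorem cvr_6_7 : cvr (2, 8) (5, 7) = true := by decide +kernel
theorem cvr_6_8 : cvr (2, 8) (5, 9) = true := by decide +kernel
theorem cvr_6_9 : cvr (2, 8) (7, 9) = true := by decide +kernel
theorem cvr_7_0 : cvr (4, 6) (1, 3) = true := by decide +kernel
theorem cvr_7_1 : cvr (4, 6) (1, 5) = true := by decide +kernel
theorem cvr_7_2 : cvr (4, 6) (1, 7) = true := by decide +kernel
theorem cvr_7_3 : cvr (4, 6) (1, 9) = true := by decide +kernel
theorem cvr_7_4 : cvr (4, 6) (3, 5) = true := by decide +kernel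
theorem cvr_7_5 : cvr (4, 6) (3, 7) = true := by decide +kernel
theorem cvr_7_6 : cvr (4, 6) (3, 9) = true := by decide +kernel
theorem cvr_7_7 : cvr (4, 6) (5, 7) = true := by decide +kernel
theorem cvr_7_8 : cvr (4, 6) (5, 9) = true := by decide +kernel
theorem cvr_7_9 : cvr (4, 6) (7, 9) = true := by decide +kernel
theorem cvr_8_0 : cvr (4, 8) (1, 3) = true := by decide +kernel
theorem cvr_8_1 : cvr (4, 8) (1, 5) = true := by decide +kernel
theorem cvr_8_2 : cvr (4, 8) (1, 7) = true := by decide +kernel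
theorem cvr_8_3 : cvr (4, 8) (1, 9) = true := by decide +kernel
theorem cvr_8_4 : cvr (4, 8) (3, 5) = true := by decide +kernel
theorem cvr_8_5 : cvr (4, 8) (3, 7) = true := by decide +kernel
theorem cvr_8_6 : cvr (4, 8) (3, 9) = true := by decide +kernel
theorem cvr_8_7 : cvr (4, 8) (5, 7) = true := by decide +kernel
theorem cvr_8_8 : cvr (4, 8) (5, 9) = true := by decide +kernel
theorem cvr_8_9 : cvr (4, 8) (7, 9) = true := by decide +kernel
theorem cvr_9_0 : cvr (6, 8) (1, 3) = true := by decide +kernel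
theorem cvr_9_1 : cvr (6, 8) (1, 5) = true := by decide +kernel
theorem cvr_9_2 : cvr (6, 8) (1, 7) = true := by decide +kernel
theorem cvr_9_3 : cvr (6, 8) (1, 9) = true := by decide +kernel
theorem cvr_9_4 : cvr (6, 8) (3, 5) = true := by decide +kernel
theorem cvr_9_5 : cvr (6, 8) (3, 7) = true := by decide +kernel
theorem cvr_9_6 : cvr (6, 8) (3, 9) = true := by decide +kernel
theorem cvr_9_7 : cvr (6, 8) (5, 7) = true := by decide +kernel
theorem cvr_9_8 : cvr (6, 8) (5, 9) = true := by decide +kernel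
theorem cvr_9_9 : cvr (6, 8) (7, 9) = true := by decide +kernel

theorem cvr_r0 : ∀ q ∈ odp, cvr (0, 2) q = true :=
  List.forall_mem_cons.2 ⟨cvr_0_0,
  List.forall_mem_cons.2 ⟨cvr_0_1,
  List.forall_mem_cons.2 ⟨cvr_0_2,
  List.forall_mem_cons.2 ⟨cvr_0_3,
  List.forall_mem_cons.2 ⟨cvr_0_4,
  List.forall_mem_cons.2 ⟨cvr_0_5,
  List.forall_mem_cons.2 ⟨cvr_0_6,
  List.forall_mem_cons.2 ⟨cvr_0_7,
  List.forall_mem_cons.2 ⟨cvr_0_8,
  List.forall_mem_cons.2 ⟨cvr_0_9,
  List.forall_mem_nil _⟩⟩⟩⟩⟩⟩⟩⟩⟩⟩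

theorem cvr_r1 : ∀ q ∈ odp, cvr (0, 4) q = true :=
  List.forall_mem_cons.2 ⟨cvr_1_0,
  List.forall_mem_cons.2 ⟨cvr_1_1,
  List.forall_mem_cons.2 ⟨cvr_1_2,
  List.forall_mem_cons.2 ⟨cvr_1_3,
  List.forall_mem_cons.2 ⟨cvr_1_4,
  List.forall_mem_cons.2 ⟨cvr_1_5,
  List.forall_mem_cons.2 ⟨cvr_1_6,
  List.forall_mem_cons.2 ⟨cvr_1_7,
  List.forall_mem_cons.2 ⟨cvr_1_8,
  List.forall_mem_cons.2 ⟨cvr_1_9,
  List.forall_mem_nil _⟩⟩⟩⟩⟩⟩⟩⟩⟩⟩

theorem cvr_r2 : ∀ q ∈ odp, cvr (0, 6) q = true :=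
  List.forall_mem_cons.2 ⟨cvr_2_0,
  List.forall_mem_cons.2 ⟨cvr_2_1,
  List.forall_mem_cons.2 ⟨cvr_2_2,
  List.forall_mem_cons.2 ⟨cvr_2_3,
  List.forall_mem_cons.2 ⟨cvr_2_4,
  List.forall_mem_cons.2 ⟨cvr_2_5,
  List.forall_mem_cons.2 ⟨cvr_2_6,
  List.forall_mem_cons.2 ⟨cvr_2_7,
  List.forall_mem_cons.2 ⟨cvr_2_8,
  List.forall_mem_cons.2 ⟨cvr_2_9,
  List.forall_mem_nil _⟩⟩⟩⟩⟩⟩⟩⟩⟩⟩

theorem cvr_r3 : ∀ q ∈ odp, cvr (0, 8) q = true :=
  List.forall_mem_cons.2 ⟨cvr_3_0,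
  List.forall_mem_cons.2 ⟨cvr_3_1,
  List.forall_mem_cons.2 ⟨cvr_3_2,
  List.forall_mem_cons.2 ⟨cvr_3_3,
  List.forall_mem_cons.2 ⟨cvr_3_4,
  List.forall_mem_cons.2 ⟨cvr_3_5,
  List.forall_mem_cons.2 ⟨cvr_3_6,
  List.forall_mem_cons.2 ⟨cvr_3_7,
  List.forall_mem_cons.2 ⟨cvr_3_8,
  List.forall_mem_cons.2 ⟨cvr_3_9,
  List.forall_mem_nil _⟩⟩⟩⟩⟩⟩⟩⟩⟩⟩

theorem cvr_r4 : ∀ q ∈ odp, cvr (2, 4) q = true :=
  List.forall_mem_cons.2 ⟨cvr_4_0,
  List.forall_mem_cons.2 ⟨cvr_4_1,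
  List.forall_mem_cons.2 ⟨cvr_4_2,
  List.forall_mem_cons.2 ⟨cvr_4_3,
  List.forall_mem_cons.2 ⟨cvr_4_4,
  List.forall_mem_cons.2 ⟨cvr_4_5,
  List.forall_mem_cons.2 ⟨cvr_4_6,
  List.forall_mem_cons.2 ⟨cvr_4_7,
  List.forall_mem_cons.2 ⟨cvr_4_8,
  List.forall_mem_cons.2 ⟨cvr_4_9,
  List.forall_mem_nil _⟩⟩⟩⟩⟩⟩⟩⟩⟩⟩

theorem cvr_r5 : ∀ q ∈ odp, cvr (2, 6) q = true :=
  List.forall_mem_cons.2 ⟨cvr_5_0,
  List.forall_mem_cons.2 ⟨cvr_5_1,
  List.forall_mem_cons.2 ⟨cvr_5_2,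
  List.forall_mem_cons.2 ⟨cvr_5_3,
  List.forall_mem_cons.2 ⟨cvr_5_4,
  List.forall_mem_cons.2 ⟨cvr_5_5,
  List.forall_mem_cons.2 ⟨cvr_5_6,
  List.forall_mem_cons.2 ⟨cvr_5_7,
  List.forall_mem_cons.2 ⟨cvr_5_8,
  List.forall_mem_cons.2 ⟨cvr_5_9,
  List.forall_mem_nil _⟩⟩⟩⟩⟩⟩⟩⟩⟩⟩

theorem cvr_r6 : ∀ q ∈ odp, cvr (2, 8) q = true :=
  List.forall_mem_cons.2 ⟨cvr_6_0,
  List.forall_mem_cons.2 ⟨cvr_6_1,
  List.forall_mem_cons.2 ⟨cvr_6_2,
  List.forall_mem_cons.2 ⟨cvr_6_3,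
  List.forall_mem_cons.2 ⟨cvr_6_4,
  List.forall_mem_cons.2 ⟨cvr_6_5,
  List.forall_mem_cons.2 ⟨cvr_6_6,
  List.forall_mem_cons.2 ⟨cvr_6_7,
  List.forall_mem_cons.2 ⟨cvr_6_8,
  List.forall_mem_cons.2 ⟨cvr_6_9,
  List.forall_mem_nil _⟩⟩⟩⟩⟩⟩⟩⟩⟩⟩

theorem cvr_r7 : ∀ q ∈ odp, cvr (4, 6) q = true :=
  List.forall_mem_cons.2 ⟨cvr_7_0,
  List.forall_mem_cons.2 ⟨cvr_7_1,
  List.forall_mem_cons.2 ⟨cvr_7_2,
  List.forall_mem_cons.2 ⟨cvr_7_3,
  List.forall_mem_cons.2 ⟨cvr_7_4,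
  List.forall_mem_cons.2 ⟨cvr_7_5,
  List.forall_mem_cons.2 ⟨cvr_7_6,
  List.forall_mem_cons.2 ⟨cvr_7_7,
  List.forall_mem_cons.2 ⟨cvr_7_8,
  List.forall_mem_cons.2 ⟨cvr_7_9,
  List.forall_mem_nil _⟩⟩⟩⟩⟩⟩⟩⟩⟩⟩

theorem cvr_r8 : ∀ q ∈ odp, cvr (4, 8) q = true :=
  List.forall_mem_cons.2 ⟨cvr_8_0,
  List.forall_mem_cons.2 ⟨cvr_8_1,
  List.forall_mem_cons.2 ⟨cvr_8_2,
  List.forall_mem_cons.2 ⟨cvr_8_3,
  List.forall_mem_cons.2 ⟨cvr_8_4,
  List.forall_mem_cons.2 ⟨cvr_8_5,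
  List.forall_mem_cons.2 ⟨cvr_8_6,
  List.forall_mem_cons.2 ⟨cvr_8_7,
  List.forall_mem_cons.2 ⟨cvr_8_8,
  List.forall_mem_cons.2 ⟨cvr_8_9,
  List.forall_mem_nil _⟩⟩⟩⟩⟩⟩⟩⟩⟩⟩

theorem cvr_r9 : ∀ q ∈ odp, cvr (6, 8) q = true :=
  List.forall_mem_cons.2 ⟨cvr_9_0,
  List.forall_mem_cons.2 ⟨cvr_9_1,
  List.forall_mem_cons.2 ⟨cvr_9_2,
  List.forall_mem_cons.2 ⟨cvr_9_3,
  List.forall_mem_cons.2 ⟨cvr_9_4,
  List.forall_mem_cons.2 ⟨cvr_9_5,
  List.forall_mem_cons.2 ⟨cvr_9_6,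
  List.forall_mem_cons.2 ⟨cvr_9_7,
  List.forall_mem_cons.2 ⟨cvr_9_8,
  List.forall_mem_cons.2 ⟨cvr_9_9,
  List.forall_mem_nil _⟩⟩⟩⟩⟩⟩⟩⟩⟩⟩

theorem cvr_rr : ∀ p ∈ evp, ∀ q ∈ odp, cvr p q = true :=
  List.forall_mem_cons.2 ⟨cvr_r0,
  List.forall_mem_cons.2 ⟨cvr_r1,
  List.forall_mem_cons.2 ⟨cvr_r2,
  List.forall_mem_cons.2 ⟨cvr_r3,
  List.forall_mem_cons.2 ⟨cvr_r4,
  List.forall_mem_cons.2 ⟨cvr_r5,
  List.forall_mem_cons.2 ⟨cvr_r6,
  List.forall_mem_cons.2 ⟨cvr_r7,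
  List.forall_mem_cons.2 ⟨cvr_r8,
  List.forall_mem_cons.2 ⟨cvr_r9,
  List.forall_mem_nil _⟩⟩⟩⟩⟩⟩⟩⟩⟩⟩

theorem cover : (evp.all fun p3 => odp.all fun p14 => odp.all fun p15 => odp.all fun p25 =>
    sols.any fun s => hit p3 p14 p15 p25 s) = true := by
  rw [List.all_eq_true]
  intro p h0
  rw [List.all_eq_true]
  intro q h1
  exact cvr_rr p h0 q h1

theorem valid_all : (sols.all val) = true := by decide +kernel

/-- one block of `coverB` -/
def cvb (p3 : ℕ × ℕ) : Bool := ods.all fun b14 => odp.all fun p15 => ods.all fun b25 =>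
    solsB.any fun s => hit p3 (b14, b14) p15 (b25, b25) s

theorem cvb_0 : cvb (0, 2) = true := by decide +kernel
theorem cvb_1 : cvb (0, 4) = true := by decide +kernel
theorem cvb_2 : cvb (0, 6) = true := by decide +kernel
theorem cvb_3 : cvb (0, 8) = true := by decide +kernel
theorem cvb_4 : cvb (2, 4) = true := by decide +kernel
theorem cvb_5 : cvb (2, 6) = true := by decide +kernel
theorem cvb_6 : cvb (2, 8) = true := by decide +kernel
theorem cvb_7 : cvb (4, 6) = true := by decide +kernel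
theorem cvb_8 : cvb (4, 8) = true := by decide +kernel
theorem cvb_9 : cvb (6, 8) = true := by decide +kernel

theorem cvb_all : ∀ p ∈ evp, cvb p = true :=
  List.forall_mem_cons.2 ⟨cvb_0,
  List.forall_mem_cons.2 ⟨cvb_1,
  List.forall_mem_cons.2 ⟨cvb_2,
  List.forall_mem_cons.2 ⟨cvb_3,
  List.forall_mem_cons.2 ⟨cvb_4,
  List.forall_mem_cons.2 ⟨cvb_5,
  List.forall_mem_cons.2 ⟨cvb_6,
  List.forall_mem_cons.2 ⟨cvb_7,
  List.forall_mem_cons.2 ⟨cvb_8,
  List.forall_mem_cons.2 ⟨cvb_9,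
  List.forall_mem_nil _⟩⟩⟩⟩⟩⟩⟩⟩⟩⟩

theorem coverB : (evp.all fun p3 => ods.all fun b14 => odp.all fun p15 => ods.all fun b25 =>
    solsB.any fun s => hit p3 (b14, b14) p15 (b25, b25) s) = true := by
  rw [List.all_eq_true]
  intro p h0
  exact cvb_all p h0

def valB (s : List ℕ) : Bool :=
  match s with
  | [v1, v2, v3, v4, v5, y14, y15, y25] => decide (Valid v1 v2 v3 v4 v5 y14 y15 y25 ∧ y14 ≠ y25)
  | _ => false

theorem valid_allB : (solsB.all valB) = true := by decide +kernel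

theorem beq_false {a b : ℕ} (h : Nat.beq a b = false) : a ≠ b := by
  intro he
  rw [he] at h
  simp at h

/-- **Finite lemma.** -/
theorem fin (a3 b3 a14 b14 a15 b15 a25 b25 : ℕ) : ∃ v1 v2 v3 v4 v5 y14 y15 y25 : ℕ,
    Valid v1 v2 v3 v4 v5 y14 y15 y25 ∧ (v3 ≠ a3 ∧ v3 ≠ b3) ∧ (y14 ≠ a14 ∧ y14 ≠ b14) ∧
    (y15 ≠ a15 ∧ y15 ≠ b15) ∧ (y25 ≠ a25 ∧ y25 ≠ b25) := by
  obtain ⟨p3, hp3, h3⟩ := red_ev a3 b3
  obtain ⟨p14, hp14, h14⟩ := red_od a14 b14
  obtain ⟨p15, hp15, h15⟩ := red_od a15 b15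
  obtain ⟨p25, hp25, h25⟩ := red_od a25 b25
  have h := cover
  rw [List.all_eq_true] at h
  have k1 := h p3 hp3
  rw [List.all_eq_true] at k1
  have k2 := k1 p14 hp14
  rw [List.all_eq_true] at k2
  have k3 := k2 p15 hp15
  rw [List.all_eq_true] at k3
  have k4 := k3 p25 hp25
  rw [List.any_eq_true] at k4
  obtain ⟨s, hs, hhit⟩ := k4
  have hv := valid_all
  rw [List.all_eq_true] at hv
  have hv' := hv s hs
  unfold hit at hhit
  split at hhit
  · rename_i v1 v2 v3 v4 v5 y14 y15 y25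
    unfold val at hv'
    rw [decide_eq_true_eq] at hv'
    simp only [Bool.and_eq_true, Bool.not_eq_true'] at hhit
    obtain ⟨⟨⟨⟨⟨⟨⟨c1, c2⟩, c3⟩, c4⟩, c5⟩, c6⟩, c7⟩, c8⟩ := hhit
    refine ⟨v1, v2, v3, v4, v5, y14, y15, y25, hv', ?_, ?_, ?_, ?_⟩
    · exact h3 v3 hv'.1.2.2.1 (beq_false c1) (beq_false c2)
    · exact h14 y14 hv'.2.1.1 (beq_false c3) (beq_false c4)
    · exact h15 y15 hv'.2.1.2.1 (beq_false c5) (beq_false c6)
    · exact h25 y25 hv'.2.1.2.2 (beq_false c7) (beq_false c8)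
  · cases hhit

/-- **Finite lemma**, with `y14 ≠ y25`. -/
theorem finB (a3 b3 a14 a15 b15 a25 : ℕ) : ∃ v1 v2 v3 v4 v5 y14 y15 y25 : ℕ,
    (Valid v1 v2 v3 v4 v5 y14 y15 y25 ∧ y14 ≠ y25) ∧ (v3 ≠ a3 ∧ v3 ≠ b3) ∧ y14 ≠ a14 ∧
    (y15 ≠ a15 ∧ y15 ≠ b15) ∧ y25 ≠ a25 := by
  obtain ⟨p3, hp3, h3⟩ := red_ev a3 b3
  obtain ⟨p14, hp14, h14⟩ := block_one ods 1 (by decide) a14
  obtain ⟨p15, hp15, h15⟩ := red_od a15 b15
  obtain ⟨p25, hp25, h25⟩ := block_one ods 1 (by decide) a25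
  have h := coverB
  rw [List.all_eq_true] at h
  have k1 := h p3 hp3
  rw [List.all_eq_true] at k1
  have k2 := k1 p14 hp14
  rw [List.all_eq_true] at k2
  have k3 := k2 p15 hp15
  rw [List.all_eq_true] at k3
  have k4 := k3 p25 hp25
  rw [List.any_eq_true] at k4
  obtain ⟨s, hs, hhit⟩ := k4
  have hv := valid_allB
  rw [List.all_eq_true] at hv
  have hv' := hv s hs
  unfold hit at hhit
  split at hhit
  · rename_i v1 v2 v3 v4 v5 y14 y15 y25
    unfold valB at hv'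
    rw [decide_eq_true_eq] at hv'
    simp only [Bool.and_eq_true, Bool.not_eq_true'] at hhit
    obtain ⟨⟨⟨⟨⟨⟨⟨c1, c2⟩, c3⟩, c4⟩, c5⟩, c6⟩, c7⟩, c8⟩ := hhit
    refine ⟨v1, v2, v3, v4, v5, y14, y15, y25, hv', ?_, ?_, ?_, ?_⟩
    · exact h3 v3 hv'.1.1.2.2.1 (beq_false c1) (beq_false c2)
    · exact h14 y14 hv'.1.2.1.1 (beq_false c3)
    · exact h15 y15 hv'.1.2.1.2.1 (beq_false c5) (beq_false c6)
    · exact h25 y25 hv'.1.2.1.2.2 (beq_false c7)
  · cases hhit

end K5P5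

theorem ev_of_mem {a : ℕ} (h : a ∈ evs) : a ≤ 9 ∧ Even a := by
  simp only [evs, List.mem_cons, List.not_mem_nil, or_false] at h
  rcases h with rfl | rfl | rfl | rfl | rfl <;> exact ⟨by norm_num, by decide⟩

theorem od_of_mem {a : ℕ} (h : a ∈ ods) : a ≤ 9 ∧ ¬ Even a := by
  simp only [ods, List.mem_cons, List.not_mem_nil, or_false] at h
  rcases h with rfl | rfl | rfl | rfl | rfl <;> exact ⟨by norm_num, by decide⟩

variable {V : Type*}

/-- the configuration, with `v1 ... v5` on the side `X` -/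
structure IsK5P5 (G : SimpleGraph V) (X : V → Prop) (v1 v2 v3 v4 v5 y14 y15 y25 : V) : Prop where
  inj : Function.Injective ![v1, v2, v3, v4, v5, y14, y15, y25]
  x1 : X v1
  x2 : X v2
  x3 : X v3
  x4 : X v4
  x5 : X v5
  x14 : ¬ X y14
  x15 : ¬ X y15
  x25 : ¬ X y25
  a12 : G.Adj v1 v2
  a23 : G.Adj v2 v3
  a34 : G.Adj v3 v4
  a45 : G.Adj v4 v5
  b1 : G.Adj v1 y14
  b4 : G.Adj v4 y14
  c1 : G.Adj v1 y15
  c5 : G.Adj v5 y15
  d2 : G.Adj v2 y25
  d5 : G.Adj v5 y25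
  /-- the outer neighbour of `v3` is on the other side and has no further neighbour in `X` -/
  n3 : ∀ w, G.Adj v3 w → w = v2 ∨ w = v4 ∨ (¬ X w ∧ ∀ u, G.Adj w u → u ≠ v3 → ¬ X u)
  /-- the outer neighbours of the `y` are on their side -/
  n14 : ∀ w, G.Adj y14 w → w = v1 ∨ w = v4 ∨ ¬ X w
  n15 : ∀ w, G.Adj y15 w → w = v1 ∨ w = v5 ∨ ¬ X w
  n25 : ∀ w, G.Adj y25 w → w = v2 ∨ w = v5 ∨ ¬ X w
  /-- no outer neighbour of a `y` has three neighbours outside `X` -/
  m : ∀ y w, y = y14 ∨ y = y15 ∨ y = y25 → G.Adj y w → ¬ X w → ∀ u u', G.Adj w u →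
    G.Adj w u' → ¬ X u → ¬ X u' → u ≠ y → u' ≠ y → u = u'

variable [Fintype V] {G : SimpleGraph V} {X : V → Prop}

/-- third neighbour: if `a, b` are two different neighbours of `v`, any two other neighbours
are equal -/
theorem third_unique (hdeg : ∀ v, (univ.filter fun b => G.Adj v b).card ≤ 3) {v a b w w' : V}
    (ha : G.Adj v a) (hb : G.Adj v b) (hab : a ≠ b) (hw : G.Adj v w) (hw' : G.Adj v w')
    (h1 : w ≠ a) (h2 : w ≠ b) (h3 : w' ≠ a) (h4 : w' ≠ b) : w = w' := by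
  by_contra hne
  exact Helper42.L9.no_four hdeg ha hb hw hw' hab h1.symm h3.symm h2.symm h4.symm hne

/-- if `a, b, c` are three different neighbours of `v`, there is no other neighbour -/
theorem three_all (hdeg : ∀ v, (univ.filter fun b => G.Adj v b).card ≤ 3) {v a b c w : V}
    (ha : G.Adj v a) (hb : G.Adj v b) (hc : G.Adj v c) (hab : a ≠ b) (hac : a ≠ c) (hbc : b ≠ c)
    (hw : G.Adj v w) : w = a ∨ w = b ∨ w = c := by
  by_contra hne
  rw [not_or, not_or] at hne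
  exact Helper42.L9.no_four hdeg ha hb hc hw hab hac (Ne.symm hne.1) hbc (Ne.symm hne.2.1)
    (Ne.symm hne.2.2)

theorem IsK5P5.ext {ι : Type*} {S : ι → V → Prop} {R : ι → V → V → Prop}
    (hS : Setting G X S R) {i : ι} {v1 v2 v3 v4 v5 y14 y15 y25 : V}
    (h : IsK5P5 G X v1 v2 v3 v4 v5 y14 y15 y25)
    (hs : ∀ v, S i v ↔ ∃ k, ![v1, v2, v3, v4, v5, y14, y15, y25] k = v) :
    Ext G.Adj (Q G X) X S R i := by
  have hdeg := hS.deg
  have hinj := h.inj
  -- distinctness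
  have ne : ∀ k l : Fin 8, k ≠ l → (![v1, v2, v3, v4, v5, y14, y15, y25] k) ≠
      (![v1, v2, v3, v4, v5, y14, y15, y25] l) := fun k l hkl he => hkl (hinj he)
  have s1 : S i v1 := (hs _).mpr ⟨0, rfl⟩
  have s2 : S i v2 := (hs _).mpr ⟨1, rfl⟩
  have s3 : S i v3 := (hs _).mpr ⟨2, rfl⟩
  have s4 : S i v4 := (hs _).mpr ⟨3, rfl⟩
  have s5 : S i v5 := (hs _).mpr ⟨4, rfl⟩
  have s14 : S i y14 := (hs _).mpr ⟨5, rfl⟩
  have s15 : S i y15 := (hs _).mpr ⟨6, rfl⟩
  have s25 : S i y25 := (hs _).mpr ⟨7, rfl⟩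
  -- neighbourhoods
  have N1 : ∀ w, G.Adj v1 w → w = v2 ∨ w = y14 ∨ w = y15 := fun w hw =>
    three_all hdeg h.a12 h.b1 h.c1 (ne 1 5 (by decide)) (ne 1 6 (by decide)) (ne 5 6 (by decide)) hw
  have N2 : ∀ w, G.Adj v2 w → w = v1 ∨ w = v3 ∨ w = y25 := fun w hw =>
    three_all hdeg h.a12.symm h.a23 h.d2 (ne 0 2 (by decide)) (ne 0 7 (by decide))
      (ne 2 7 (by decide)) hw
  have N4 : ∀ w, G.Adj v4 w → w = v3 ∨ w = v5 ∨ w = y14 := fun w hw =>
    three_all hdeg h.a34.symm h.a45 h.b4 (ne 2 4 (by decide)) (ne 2 5 (by decide))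
      (ne 4 5 (by decide)) hw
  have N5 : ∀ w, G.Adj v5 w → w = v4 ∨ w = y15 ∨ w = y25 := fun w hw =>
    three_all hdeg h.a45.symm h.c5 h.d5 (ne 3 6 (by decide)) (ne 3 7 (by decide))
      (ne 6 7 (by decide)) hw
  refine ext_inst hS i _ hinj hs ?_
  intro T f hO
  -- the free vertices
  have F1 : ∀ g, Free G X S R i T f v1 g := by
    refine fun g => free_inner hS ?_ ?_ g
    · intro w hw
      rcases N1 w hw with rfl | rfl | rfl <;> assumption
    · intro w hw u hu hX hne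
      have hXu : X u := hX.mpr h.x1
      rcases N1 w hw with rfl | rfl | rfl
      · rcases N2 u hu with rfl | rfl | rfl <;> assumption
      · rcases h.n14 u hu with rfl | rfl | hn
        · assumption
        · assumption
        · exact absurd hXu hn
      · rcases h.n15 u hu with rfl | rfl | hn
        · assumption
        · assumption
        · exact absurd hXu hn
  have F2 : ∀ g, Free G X S R i T f v2 g := by
    refine fun g => free_inner hS ?_ ?_ g
    · intro w hw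
      rcases N2 w hw with rfl | rfl | rfl <;> assumption
    · intro w hw u hu hX hne
      have hXu : X u := hX.mpr h.x2
      rcases N2 w hw with rfl | rfl | rfl
      · rcases N1 u hu with rfl | rfl | rfl <;> assumption
      · rcases h.n3 u hu with rfl | rfl | hn
        · assumption
        · assumption
        · exact absurd hXu hn.1
      · rcases h.n25 u hu with rfl | rfl | hn
        · assumption
        · assumption
        · exact absurd hXu hn
  have F4 : ∀ g, Free G X S R i T f v4 g := by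
    refine fun g => free_inner hS ?_ ?_ g
    · intro w hw
      rcases N4 w hw with rfl | rfl | rfl <;> assumption
    · intro w hw u hu hX hne
      have hXu : X u := hX.mpr h.x4
      rcases N4 w hw with rfl | rfl | rfl
      · rcases h.n3 u hu with rfl | rfl | hn
        · assumption
        · assumption
        · exact absurd hXu hn.1
      · rcases N5 u hu with rfl | rfl | rfl <;> assumption
      · rcases h.n14 u hu with rfl | rfl | hn
        · assumption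
        · assumption
        · exact absurd hXu hn
  have F5 : ∀ g, Free G X S R i T f v5 g := by
    refine fun g => free_inner hS ?_ ?_ g
    · intro w hw
      rcases N5 w hw with rfl | rfl | rfl <;> assumption
    · intro w hw u hu hX hne
      have hXu : X u := hX.mpr h.x5
      rcases N5 w hw with rfl | rfl | rfl
      · rcases N4 u hu with rfl | rfl | rfl <;> assumption
      · rcases h.n15 u hu with rfl | rfl | hn
        · assumption
        · assumption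
        · exact absurd hXu hn
      · rcases h.n25 u hu with rfl | rfl | hn
        · assumption
        · assumption
        · exact absurd hXu hn
  have F3 : ∃ a b : ℕ, ∀ g, g ≤ 9 → g ≠ a → g ≠ b → Free G X S R i T f v3 g := by
    refine free_cross hS hO ?_ ?_ ?_
    · intro w w' hw hw' hs1 hs2
      exact third_unique hdeg h.a23.symm h.a34 (ne 1 3 (by decide)) hw hw'
        (by rintro rfl; exact hs1 s2) (by rintro rfl; exact hs1 s4)
        (by rintro rfl; exact hs2 s2) (by rintro rfl; exact hs2 s4)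
    · intro w hw hs1 hX
      rcases h.n3 w hw with rfl | rfl | hn
      · exact hs1 s2
      · exact hs1 s4
      · exact hn.1 (hX.mpr h.x3)
    · intro w hw u hu hX hne
      have hXu : X u := hX.mpr h.x3
      rcases h.n3 w hw with rfl | rfl | hn
      · rcases N2 u hu with rfl | rfl | rfl <;> assumption
      · rcases N4 u hu with rfl | rfl | rfl <;> assumption
      · exact absurd hXu (hn.2 u hu hne)
  -- the `y`
  have hall : ∀ w, S i w → ¬ X w → ∃ a b, G.Adj w a ∧ G.Adj w b ∧ a ≠ b ∧ X a ∧ X b := by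
    intro w hw hXw
    obtain ⟨k, hk⟩ := (hs w).mp hw
    have := h.x1
    have := h.x2
    have := h.x3
    have := h.x4
    have := h.x5
    fin_cases k
    · exact absurd h.x1 (by rw [show v1 = w from hk]; exact hXw)
    · exact absurd h.x2 (by rw [show v2 = w from hk]; exact hXw)
    · exact absurd h.x3 (by rw [show v3 = w from hk]; exact hXw)
    · exact absurd h.x4 (by rw [show v4 = w from hk]; exact hXw)
    · exact absurd h.x5 (by rw [show v5 = w from hk]; exact hXw)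
    · have hk' : y14 = w := hk
      subst hk'
      exact ⟨v1, v4, h.b1.symm, h.b4.symm, ne 0 3 (by decide), h.x1, h.x4⟩
    · have hk' : y15 = w := hk
      subst hk'
      exact ⟨v1, v5, h.c1.symm, h.c5.symm, ne 0 4 (by decide), h.x1, h.x5⟩
    · have hk' : y25 = w := hk
      subst hk'
      exact ⟨v2, v5, h.d2.symm, h.d5.symm, ne 1 4 (by decide), h.x2, h.x5⟩
  have FY : ∀ y p q, S i p → S i q → G.Adj y p → G.Adj y q → p ≠ q → X p → X q → ¬ X y →
      (∀ w, G.Adj y w → w = p ∨ w = q ∨ ¬ X w) →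
      (∀ w, G.Adj y w → ¬ X w → ∀ u u', G.Adj w u → G.Adj w u' → ¬ X u → ¬ X u' → u ≠ y →
        u' ≠ y → u = u') →
      (∀ w u, w = p ∨ w = q → G.Adj w u → S i u) →
      ∃ a b : ℕ, (∀ g, g ≤ 9 → g ≠ a → g ≠ b → Free G X S R i T f y g) ∧
      ((∀ w, G.Adj y w → S i w) → a = b) ∧
      ((∃ w z, ¬ S i w ∧ G.Adj y w ∧ G.Adj w z ∧ S i z ∧ z ≠ y ∧ (X z ↔ X y)) → a = b) ∧
      ((∃ j ∈ T, j ≠ i ∧ ∃ z, S i z ∧ R j y z) → a = b) := by
    intro y p q hp hq yp yq hpq hXp hXq hXy hn hm hin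
    refine free_own' hS hO ?_ ?_ ?_ ?_
    · intro w w' hw hw' hs1 hs2
      exact third_unique hdeg yp yq hpq hw hw'
        (by rintro rfl; exact hs1 hp) (by rintro rfl; exact hs1 hq)
        (by rintro rfl; exact hs2 hp) (by rintro rfl; exact hs2 hq)
    · intro w hw hs1
      rcases hn w hw with rfl | rfl | hn
      · exact absurd hp hs1
      · exact absurd hq hs1
      · tauto
    · intro w hw hsw u hu hX hne
      by_cases hwp : w = p ∨ w = q
      · exact hin w u hwp hu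
      · exfalso
        have hXw : ¬ X w := by
          rcases hn w hw with h1 | h1 | h1
          · exact absurd (Or.inl h1) hwp
          · exact absurd (Or.inr h1) hwp
          · exact h1
        obtain ⟨a, b, e1, e2, e3, e4, e5⟩ := hall w hsw hXw
        have hXu : ¬ X u := by tauto
        exact hne (third_unique hdeg e1 e2 e3 hu hw.symm
          (by rintro rfl; exact hXu e4) (by rintro rfl; exact hXu e5)
          (by rintro rfl; exact hXy e4) (by rintro rfl; exact hXy e5))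
    · intro w hw hs1 u u' hu hu' hX hX' hne hne'
      have hXw : ¬ X w := by
        rcases hn w hw with rfl | rfl | h1
        · exact absurd hp hs1
        · exact absurd hq hs1
        · exact h1
      exact hm w hw hXw u u' hu hu' (by tauto) (by tauto) hne hne'
  obtain ⟨a14, b14, F14, G14a, G14b, G14c⟩ := FY y14 v1 v4 s1 s4 h.b1.symm h.b4.symm
    (ne 0 3 (by decide)) h.x1 h.x4 h.x14 h.n14 (fun w => h.m y14 w (Or.inl rfl)) (by
      rintro w u (rfl | rfl) hu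
      · rcases N1 u hu with rfl | rfl | rfl <;> assumption
      · rcases N4 u hu with rfl | rfl | rfl <;> assumption)
  obtain ⟨a15, b15, F15, -, -, -⟩ := FY y15 v1 v5 s1 s5 h.c1.symm h.c5.symm
    (ne 0 4 (by decide)) h.x1 h.x5 h.x15 h.n15 (fun w => h.m y15 w (Or.inr (Or.inl rfl))) (by
      rintro w u (rfl | rfl) hu
      · rcases N1 u hu with rfl | rfl | rfl <;> assumption
      · rcases N5 u hu with rfl | rfl | rfl <;> assumption)
  obtain ⟨a25, b25, F25, G25a, G25b, G25c⟩ := FY y25 v2 v5 s2 s5 h.d2.symm h.d5.symm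
    (ne 1 4 (by decide)) h.x2 h.x5 h.x25 h.n25 (fun w => h.m y25 w (Or.inr (Or.inr rfl))) (by
      rintro w u (rfl | rfl) hu
      · rcases N2 u hu with rfl | rfl | rfl <;> assumption
      · rcases N5 u hu with rfl | rfl | rfl <;> assumption)
  obtain ⟨a3, b3, F3⟩ := F3
  -- non-adjacent pairs
  have n1_25 : ¬ G.Adj v1 y25 := fun hh => by
    rcases N1 _ hh with e | e | e
    · exact ne 7 1 (by decide) e
    · exact ne 7 5 (by decide) e
    · exact ne 7 6 (by decide) e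
  have n2_14 : ¬ G.Adj v2 y14 := fun hh => by
    rcases N2 _ hh with e | e | e
    · exact ne 5 0 (by decide) e
    · exact ne 5 2 (by decide) e
    · exact ne 5 7 (by decide) e
  have n2_15 : ¬ G.Adj v2 y15 := fun hh => by
    rcases N2 _ hh with e | e | e
    · exact ne 6 0 (by decide) e
    · exact ne 6 2 (by decide) e
    · exact ne 6 7 (by decide) e
  have n4_15 : ¬ G.Adj v4 y15 := fun hh => by
    rcases N4 _ hh with e | e | e
    · exact ne 6 2 (by decide) e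
    · exact ne 6 4 (by decide) e
    · exact ne 6 5 (by decide) e
  have n4_25 : ¬ G.Adj v4 y25 := fun hh => by
    rcases N4 _ hh with e | e | e
    · exact ne 7 2 (by decide) e
    · exact ne 7 4 (by decide) e
    · exact ne 7 5 (by decide) e
  have n5_14 : ¬ G.Adj v5 y14 := fun hh => by
    rcases N5 _ hh with e | e | e
    · exact ne 5 3 (by decide) e
    · exact ne 5 6 (by decide) e
    · exact ne 5 7 (by decide) e
  have n3 : ∀ y p, G.Adj v3 y → G.Adj p y → p ≠ v3 → X p → y ≠ v2 → y ≠ v4 → False := by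
    intro y p h1 h2 h3 h4 h5 h6
    rcases h.n3 y h1 with e | e | e
    · exact h5 e
    · exact h6 e
    · exact e.2 p h2.symm h3 h4
  have n3_14 : ¬ G.Adj v3 y14 := fun hh =>
    n3 y14 v1 hh h.b1 (ne 0 2 (by decide)) h.x1 (ne 5 1 (by decide)) (ne 5 3 (by decide))
  have n3_15 : ¬ G.Adj v3 y15 := fun hh =>
    n3 y15 v1 hh h.c1 (ne 0 2 (by decide)) h.x1 (ne 6 1 (by decide)) (ne 6 3 (by decide))
  have n3_25 : ¬ G.Adj v3 y25 := fun hh =>
    n3 y25 v2 hh h.d2 (ne 1 2 (by decide)) h.x2 (ne 7 1 (by decide)) (ne 7 3 (by decide))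
  -- the pair `y14, y25`
  have hpair : ∃ g1 g2 g3 g4 g5 g14 g15 g25 : ℕ, K5P5.Valid g1 g2 g3 g4 g5 g14 g15 g25 ∧
      ((Q G X y14 y25 ∨ ∃ j ∈ T, j ≠ i ∧ R j y14 y25) → g14 ≠ g25) ∧
      Free G X S R i T f v3 g3 ∧ Free G X S R i T f y14 g14 ∧ Free G X S R i T f y15 g15 ∧
      Free G X S R i T f y25 g25 := by
    by_cases hcase : Q G X y14 y25 ∨ ∃ j ∈ T, j ≠ i ∧ R j y14 y25
    · have e14 : a14 = b14 ∧ a25 = b25 := by
        rcases hcase with ⟨hne, hX, hadj | ⟨w, w1, w2⟩⟩ | ⟨j, hj, hji, hr⟩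
        · constructor
          · apply G14a
            intro w hw
            rcases three_all hdeg h.b1.symm h.b4.symm hadj (ne 0 3 (by decide))
              (ne 0 7 (by decide)) (ne 3 7 (by decide)) hw with rfl | rfl | rfl <;> assumption
          · apply G25a
            intro w hw
            rcases three_all hdeg h.d2.symm h.d5.symm hadj.symm (ne 1 4 (by decide))
              (ne 1 5 (by decide)) (ne 4 5 (by decide)) hw with rfl | rfl | rfl <;> assumption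
        · -- common neighbour `w`
          have hwv1 : w ≠ v1 := by
            rintro rfl
            exact n1_25 w2
          have hwv4 : w ≠ v4 := by
            rintro rfl
            exact n4_25 w2
          have hwv2 : w ≠ v2 := by
            rintro rfl
            exact n2_14 w1.symm
          have hwv5 : w ≠ v5 := by
            rintro rfl
            exact n5_14 w1.symm
          by_cases hsw : S i w
          · constructor
            · apply G14a
              intro w' hw'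
              by_cases e1 : w' = v1
              · rw [e1]; exact s1
              by_cases e2 : w' = v4
              · rw [e2]; exact s4
              rw [third_unique hdeg h.b1.symm h.b4.symm (ne 0 3 (by decide)) hw' w1 e1 e2 hwv1 hwv4]
              exact hsw
            · apply G25a
              intro w' hw'
              by_cases e1 : w' = v2
              · rw [e1]; exact s2
              by_cases e2 : w' = v5
              · rw [e2]; exact s5
              rw [third_unique hdeg h.d2.symm h.d5.symm (ne 1 4 (by decide)) hw' w2.symm e1 e2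
                hwv2 hwv5]
              exact hsw
          · constructor
            · exact G14b ⟨w, y25, hsw, w1, w2, s25, ne 7 5 (by decide), hX.symm⟩
            · exact G25b ⟨w, y14, hsw, w2.symm, w1.symm, s14, ne 5 7 (by decide), hX⟩
        · exact ⟨G14c ⟨j, hj, hji, y25, s25, hr⟩,
            G25c ⟨j, hj, hji, y14, s14, hS.rsymm _ _ _ hr⟩⟩
      obtain ⟨g1, g2, g3, g4, g5, g14, g15, g25, ⟨hv, hne⟩, hh3, hh14, hh15, hh25⟩ :=
        K5P5.finB a3 b3 a14 a15 b15 a25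
      refine ⟨g1, g2, g3, g4, g5, g14, g15, g25, hv, fun _ => hne, ?_, ?_, ?_, ?_⟩
      · exact F3 g3 (ev_of_mem hv.1.2.2.1).1 hh3.1 hh3.2
      · exact F14 g14 (od_of_mem hv.2.1.1).1 hh14 (by rw [← e14.1]; exact hh14)
      · exact F15 g15 (od_of_mem hv.2.1.2.1).1 hh15.1 hh15.2
      · exact F25 g25 (od_of_mem hv.2.1.2.2).1 hh25 (by rw [← e14.2]; exact hh25)
    · obtain ⟨g1, g2, g3, g4, g5, g14, g15, g25, hv, hh3, hh14, hh15, hh25⟩ :=
        K5P5.fin a3 b3 a14 b14 a15 b15 a25 b25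
      refine ⟨g1, g2, g3, g4, g5, g14, g15, g25, hv, fun h => absurd h hcase, ?_, ?_, ?_, ?_⟩
      · exact F3 g3 (ev_of_mem hv.1.2.2.1).1 hh3.1 hh3.2
      · exact F14 g14 (od_of_mem hv.2.1.1).1 hh14.1 hh14.2
      · exact F15 g15 (od_of_mem hv.2.1.2.1).1 hh15.1 hh15.2
      · exact F25 g25 (od_of_mem hv.2.1.2.2).1 hh25.1 hh25.2
  obtain ⟨g1, g2, g3, g4, g5, g14, g15, g25, ⟨⟨m1, m2, m3, m4, m5⟩, ⟨m14, m15, m25⟩,
    ⟨d12, d13, d14, d15, d23, d24, d25, d34, d35, d45⟩, ⟨q1, q2⟩,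
    ⟨⟨c1, c1'⟩, ⟨c2, c2'⟩, ⟨c3, c3'⟩, ⟨c4, c4'⟩, ⟨c5, c5'⟩, ⟨c6, c6'⟩⟩⟩, hq, k3, k14, k15,
    k25⟩ := hpair
  have hdist : ∀ k l : Fin 8, k ≠ l → (X (![v1, v2, v3, v4, v5, y14, y15, y25] k) ↔
      X (![v1, v2, v3, v4, v5, y14, y15, y25] l)) →
      ((Q G X y14 y25 ∨ ∃ j ∈ T, j ≠ i ∧ R j y14 y25) ∨
        ¬ ((k = 5 ∧ l = 7) ∨ (k = 7 ∧ l = 5))) →
      ![g1, g2, g3, g4, g5, g14, g15, g25] k ≠ ![g1, g2, g3, g4, g5, g14, g15, g25] l := by
    intro k l hkl hX hc
    have x1 := h.x1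
    have x2 := h.x2
    have x3 := h.x3
    have x4 := h.x4
    have x5 := h.x5
    have x14 := h.x14
    have x15 := h.x15
    have x25 := h.x25
    fin_cases k <;> fin_cases l <;> first
      | exact absurd rfl hkl
      | exact d12
      | exact d12.symm
      | exact d13
      | exact d13.symm
      | exact d14
      | exact d14.symm
      | exact d15
      | exact d15.symm
      | exact d23
      | exact d23.symm
      | exact d24
      | exact d24.symm
      | exact d25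
      | exact d25.symm
      | exact d34
      | exact d34.symm
      | exact d35
      | exact d35.symm
      | exact d45
      | exact d45.symm
      | exact q1
      | exact q1.symm
      | exact q2
      | exact q2.symm
      | exact hq (hc.resolve_right (fun hn => hn (by decide)))
      | exact (hq (hc.resolve_right (fun hn => hn (by decide)))).symm
      | exact absurd (hX.mp x1) x14
      | exact absurd (hX.mp x1) x15
      | exact absurd (hX.mp x1) x25
      | exact absurd (hX.mp x2) x14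
      | exact absurd (hX.mp x2) x15
      | exact absurd (hX.mp x2) x25
      | exact absurd (hX.mp x3) x14
      | exact absurd (hX.mp x3) x15
      | exact absurd (hX.mp x3) x25
      | exact absurd (hX.mp x4) x14
      | exact absurd (hX.mp x4) x15
      | exact absurd (hX.mp x4) x25
      | exact absurd (hX.mp x5) x14
      | exact absurd (hX.mp x5) x15
      | exact absurd (hX.mp x5) x25
      | exact absurd (hX.mpr x1) x14
      | exact absurd (hX.mpr x1) x15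
      | exact absurd (hX.mpr x1) x25
      | exact absurd (hX.mpr x2) x14
      | exact absurd (hX.mpr x2) x15
      | exact absurd (hX.mpr x2) x25
      | exact absurd (hX.mpr x3) x14
      | exact absurd (hX.mpr x3) x15
      | exact absurd (hX.mpr x3) x25
      | exact absurd (hX.mpr x4) x14
      | exact absurd (hX.mpr x4) x15
      | exact absurd (hX.mpr x4) x25
      | exact absurd (hX.mpr x5) x14
      | exact absurd (hX.mpr x5) x15
      | exact absurd (hX.mpr x5) x25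
  refine ⟨![g1, g2, g3, g4, g5, g14, g15, g25], ?_, ?_, ?_, ?_, ?_, ?_⟩
  · intro k
    fin_cases k
    · exact (ev_of_mem m1).1
    · exact (ev_of_mem m2).1
    · exact (ev_of_mem m3).1
    · exact (ev_of_mem m4).1
    · exact (ev_of_mem m5).1
    · exact (od_of_mem m14).1
    · exact (od_of_mem m15).1
    · exact (od_of_mem m25).1
  · intro k
    fin_cases k
    · exact iff_of_true h.x1 (ev_of_mem m1).2
    · exact iff_of_true h.x2 (ev_of_mem m2).2
    · exact iff_of_true h.x3 (ev_of_mem m3).2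
    · exact iff_of_true h.x4 (ev_of_mem m4).2
    · exact iff_of_true h.x5 (ev_of_mem m5).2
    · exact iff_of_false h.x14 (od_of_mem m14).2
    · exact iff_of_false h.x15 (od_of_mem m15).2
    · exact iff_of_false h.x25 (od_of_mem m25).2
  · intro k
    fin_cases k
    · exact F1 _
    · exact F2 _
    · exact k3
    · exact F4 _
    · exact F5 _
    · exact k14
    · exact k15
    · exact k25
  · intro k l hqq
    have hkl : k ≠ l := by
      rintro rfl
      exact hqq.1 rfl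
    refine hdist k l hkl hqq.2.1 ?_
    by_cases hc : (k = 5 ∧ l = 7) ∨ (k = 7 ∧ l = 5)
    · left
      left
      rcases hc with ⟨rfl, rfl⟩ | ⟨rfl, rfl⟩
      · exact hqq
      · exact Pool.Agent.helper58.L9.Q_symm hqq
    · exact Or.inr hc
  · intro j hj hji k l hr
    have hkl : k ≠ l := by
      rintro rfl
      exact hS.rne _ _ hr
    refine hdist k l hkl (hS.rside _ _ _ hr) ?_
    by_cases hc : (k = 5 ∧ l = 7) ∨ (k = 7 ∧ l = 5)
    · left
      right
      rcases hc with ⟨rfl, rfl⟩ | ⟨rfl, rfl⟩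
      · exact ⟨j, hj, hji, hr⟩
      · exact ⟨j, hj, hji, hS.rsymm _ _ _ hr⟩
    · exact Or.inr hc
  · intro k l ha hX
    have x1 := h.x1
    have x2 := h.x2
    have x3 := h.x3
    have x4 := h.x4
    have x5 := h.x5
    have x14 := h.x14
    have x15 := h.x15
    have x25 := h.x25
    fin_cases k <;> fin_cases l <;> first
      | exact absurd Iff.rfl hX
      | exact absurd (iff_of_true (by assumption) (by assumption)) hX
      | exact absurd (iff_of_false (by assumption) (by assumption)) hX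
      | exact c1
      | exact c1'
      | exact c2
      | exact c2'
      | exact c3
      | exact c3'
      | exact c4
      | exact c4'
      | exact c5
      | exact c5'
      | exact c6
      | exact c6'
      | exact absurd ha n1_25
      | exact absurd ha n2_14
      | exact absurd ha n2_15
      | exact absurd ha n3_14
      | exact absurd ha n3_15
      | exact absurd ha n3_25
      | exact absurd ha n4_15
      | exact absurd ha n4_25
      | exact absurd ha n5_14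
      | exact absurd ha.symm n1_25
      | exact absurd ha.symm n2_14
      | exact absurd ha.symm n2_15
      | exact absurd ha.symm n3_14
      | exact absurd ha.symm n3_15
      | exact absurd ha.symm n3_25
      | exact absurd ha.symm n4_15
      | exact absurd ha.symm n4_25
      | exact absurd ha.symm n5_14

end Pool.Agent.helper40.L9
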