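import Mathlib.Data.Nat.Basic
import Mathlib.Algebra.Group.Nat.Even
import Mathlib.Algebra.Ring.Parity
import Mathlib.Algebra.Order.Ring.Int
import Mathlib.Data.Fin.Basic
import Mathlib.Tactic.Linarith
import Mathlib.Tactic.Push
import Mathlib.Tactic.FinCases
import Mathlib.Tactic.IntervalCases
import Mathlib.Data.List.Basic
import Mathlib.Data.Fin.VecNotation
import Mathlib.Data.Fintype.Basic

/-!
# A five-cycle labelled last

A 5-cycle `v_0 ... v_4` whose outer neighbours `u_i` carry odd labels `l i ≤ 9`, the two other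
neighbours of `u_i` carry odd labels `p i`, `q i`; an absent or unlabelled outer neighbour is
encoded by `l i = 21`.  Then the cycle can be labelled with labels `0..9`; moreover the label of
`v_i` is even whenever `u_i`, `u_(i+1)` or `u_(i-1)` is absent or unlabelled.
-/

set_option autoImplicit false

namespace Pool.Agent.helper40.L9

/-- distance at least two -/
def far (a b : ℕ) : Bool := Nat.ble (a + 2) b || Nat.ble (b + 2) a

theorem far_iff {a b : ℕ} : far a b = true ↔ a + 2 ≤ b ∨ b + 2 ≤ a := by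
  unfold far
  rw [Bool.or_eq_true, Nat.ble_eq, Nat.ble_eq]

/-- even labels first -/
def labs : List ℕ := [0, 2, 4, 6, 8, 1, 3, 5, 7, 9]

/-- parity as a Boolean, by a table -/
def evb (n : ℕ) : Bool := Nat.beq (n % 2) 0

theorem evb_iff {n : ℕ} : evb n = true ↔ Even n := by
  unfold evb
  rw [Nat.beq_eq, Nat.even_iff]

/-- the list of a vertex: `e` = must be even, `l` the outer label, `lm`, `lp` the outer labels of
the neighbours on the cycle, `B` blocked labels -/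
def lst (e : Bool) (l lm lp : ℕ) (B : List ℕ) : List ℕ :=
  labs.filter fun g => far g l && !(Nat.beq g lm) && !(Nat.beq g lp) && (!e || evb g) &&
    !(B.any fun b => Nat.beq g b)

theorem mem_lst {e : Bool} {l lm lp : ℕ} {B : List ℕ} {g : ℕ} (h : g ∈ lst e l lm lp B) :
    g ≤ 9 ∧ far g l = true ∧ g ≠ lm ∧ g ≠ lp ∧ (e = true → Even g) ∧ g ∉ B := by
  unfold lst at h
  rw [List.mem_filter] at h
  obtain ⟨h1, h2⟩ := h
  simp only [Bool.and_eq_true, Bool.not_eq_true', Bool.or_eq_true, evb_iff] at h2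
  obtain ⟨⟨⟨⟨h3, h4⟩, h5⟩, h6⟩, h7⟩ := h2
  refine ⟨?_, h3, ?_, ?_, ?_, ?_⟩
  · unfold labs at h1
    simp only [List.mem_cons, List.not_mem_nil, or_false] at h1
    omega
  · intro h; rw [h] at h4; simp at h4
  · intro h; rw [h] at h5; simp at h5
  · intro he; rcases h6 with h | h
    · rw [he] at h; cases h
    · exact h
  · intro hB
    rw [List.any_eq_false] at h7
    have := h7 g hB
    simp at this

/-- backtracking search -/
def findG (L0 L1 L2 L3 L4 : List ℕ) : Option (ℕ × ℕ × ℕ × ℕ × ℕ) :=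
  L0.findSome? fun a => L1.findSome? fun b =>
    if far a b then
      L2.findSome? fun c =>
        if far b c && !(Nat.beq a c) then
          L3.findSome? fun d =>
            if far c d && !(Nat.beq b d) && !(Nat.beq a d) then
              L4.findSome? fun e =>
                if far d e && far e a && !(Nat.beq c e) && !(Nat.beq b e) then
                  some (a, b, c, d, e)
                else none
            else none
        else none
    else none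

theorem findG_spec {L0 L1 L2 L3 L4 : List ℕ} {g0 g1 g2 g3 g4 : ℕ}
    (h : findG L0 L1 L2 L3 L4 = some (g0, g1, g2, g3, g4)) :
    g0 ∈ L0 ∧ g1 ∈ L1 ∧ g2 ∈ L2 ∧ g3 ∈ L3 ∧ g4 ∈ L4 ∧
    far g0 g1 = true ∧ far g1 g2 = true ∧ far g2 g3 = true ∧ far g3 g4 = true ∧
    far g4 g0 = true ∧ g0 ≠ g2 ∧ g1 ≠ g3 ∧ g2 ≠ g4 ∧ g3 ≠ g0 ∧ g4 ≠ g1 := by
  unfold findG at h
  obtain ⟨a, ha, h⟩ := List.exists_of_findSome?_eq_some h
  obtain ⟨b, hb, h⟩ := List.exists_of_findSome?_eq_some h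
  split_ifs at h with h1
  obtain ⟨c, hc, h⟩ := List.exists_of_findSome?_eq_some h
  split_ifs at h with h2
  obtain ⟨d, hd, h⟩ := List.exists_of_findSome?_eq_some h
  split_ifs at h with h3
  obtain ⟨e, he, h⟩ := List.exists_of_findSome?_eq_some h
  split_ifs at h with h4
  simp only [Option.some.injEq, Prod.mk.injEq] at h
  obtain ⟨rfl, rfl, rfl, rfl, rfl⟩ := h
  simp only [Bool.and_eq_true, Bool.not_eq_true'] at h2 h3 h4
  have key : ∀ x y : ℕ, Nat.beq x y = false → x ≠ y := by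
    intro x y hxy he
    rw [he] at hxy
    simp at hxy
  exact ⟨ha, hb, hc, hd, he, h1, h2.1, h3.1.1, h4.1.1.1, h4.1.1.2, key _ _ h2.2, key _ _ h3.1.2,
    key _ _ h4.1.2, (key _ _ h3.2).symm, (key _ _ h4.2).symm⟩

/-- two blocked labels known -/
def full (B : List ℕ) : Bool := match B with
  | [] => false
  | [_] => false
  | _ => true

/-- the adversary game: `true` if, whatever further labels are blocked (at most two odd labels per
position), there is a labelling -/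
def adv (e0 e1 e2 e3 e4 : Bool) (l0 l1 l2 l3 l4 : ℕ) :
    ℕ → List ℕ → List ℕ → List ℕ → List ℕ → List ℕ → Bool
  | 0, _, _, _, _, _ => false
  | n + 1, B0, B1, B2, B3, B4 =>
    match findG (lst e0 l0 l4 l1 B0) (lst e1 l1 l0 l2 B1) (lst e2 l2 l1 l3 B2)
      (lst e3 l3 l2 l4 B3) (lst e4 l4 l3 l0 B4) with
    | none => false
    | some (g0, g1, g2, g3, g4) =>
      (evb g0 || full B0 || adv e0 e1 e2 e3 e4 l0 l1 l2 l3 l4 n (g0 :: B0) B1 B2 B3 B4) &&
      (evb g1 || full B1 || adv e0 e1 e2 e3 e4 l0 l1 l2 l3 l4 n B0 (g1 :: B1) B2 B3 B4) &&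
      (evb g2 || full B2 || adv e0 e1 e2 e3 e4 l0 l1 l2 l3 l4 n B0 B1 (g2 :: B2) B3 B4) &&
      (evb g3 || full B3 || adv e0 e1 e2 e3 e4 l0 l1 l2 l3 l4 n B0 B1 B2 (g3 :: B3) B4) &&
      (evb g4 || full B4 || adv e0 e1 e2 e3 e4 l0 l1 l2 l3 l4 n B0 B1 B2 B3 (g4 :: B4))

/-- `B` consists of distinct labels among `p, q` -/
def Bl (p q : ℕ) (B : List ℕ) : Prop := B.Nodup ∧ ∀ x ∈ B, x = p ∨ x = q

theorem Bl_cons {p q g : ℕ} {B : List ℕ} (h : Bl p q B) (hg : g = p ∨ g = q) (hn : g ∉ B) :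
    Bl p q (g :: B) := by
  refine ⟨List.nodup_cons.mpr ⟨hn, h.1⟩, ?_⟩
  intro x hx
  rcases List.mem_cons.mp hx with rfl | hx
  · exact hg
  · exact h.2 x hx

theorem Bl_full {p q g : ℕ} {B : List ℕ} (h : Bl p q B) (hf : full B = true) (hn : g ∉ B) :
    g ≠ p ∧ g ≠ q := by
  match B, h, hf, hn with
  | [], _, hf, _ => cases hf
  | [_], _, hf, _ => cases hf
  | x :: y :: B', h, _, hn =>
    have h1 := h.2 x (by simp)
    have h2 := h.2 y (by simp)
    have h3 : x ≠ y := by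
      have := h.1
      rw [List.nodup_cons] at this
      intro he
      exact this.1 (by rw [he]; simp)
    have h4 : g ≠ x := fun he => hn (by rw [he]; simp)
    have h5 : g ≠ y := fun he => hn (by rw [he]; simp)
    omega

/-- the statement for a labelling -/
def Good (e0 e1 e2 e3 e4 : Bool) (l0 l1 l2 l3 l4 p0 p1 p2 p3 p4 q0 q1 q2 q3 q4 : ℕ)
    (g0 g1 g2 g3 g4 : ℕ) : Prop :=
  (g0 ≤ 9 ∧ g1 ≤ 9 ∧ g2 ≤ 9 ∧ g3 ≤ 9 ∧ g4 ≤ 9) ∧
  (far g0 g1 = true ∧ far g1 g2 = true ∧ far g2 g3 = true ∧ far g3 g4 = true ∧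
    far g4 g0 = true) ∧
  (g0 ≠ g2 ∧ g1 ≠ g3 ∧ g2 ≠ g4 ∧ g3 ≠ g0 ∧ g4 ≠ g1) ∧
  (far g0 l0 = true ∧ far g1 l1 = true ∧ far g2 l2 = true ∧ far g3 l3 = true ∧
    far g4 l4 = true) ∧
  (g0 ≠ l4 ∧ g1 ≠ l0 ∧ g2 ≠ l1 ∧ g3 ≠ l2 ∧ g4 ≠ l3) ∧
  (g0 ≠ l1 ∧ g1 ≠ l2 ∧ g2 ≠ l3 ∧ g3 ≠ l4 ∧ g4 ≠ l0) ∧
  ((g0 ≠ p0 ∧ g0 ≠ q0) ∧ (g1 ≠ p1 ∧ g1 ≠ q1) ∧ (g2 ≠ p2 ∧ g2 ≠ q2) ∧ (g3 ≠ p3 ∧ g3 ≠ q3) ∧
    (g4 ≠ p4 ∧ g4 ≠ q4)) ∧
  ((e0 = true → Even g0) ∧ (e1 = true → Even g1) ∧ (e2 = true → Even g2) ∧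
    (e3 = true → Even g3) ∧ (e4 = true → Even g4))

theorem adv_sound (e0 e1 e2 e3 e4 : Bool) (l0 l1 l2 l3 l4 p0 p1 p2 p3 p4 q0 q1 q2 q3 q4 : ℕ)
    (hp0 : Odd p0) (hp1 : Odd p1) (hp2 : Odd p2) (hp3 : Odd p3) (hp4 : Odd p4)
    (hq0 : Odd q0) (hq1 : Odd q1) (hq2 : Odd q2) (hq3 : Odd q3) (hq4 : Odd q4) (n : ℕ) :
    ∀ B0 B1 B2 B3 B4 : List ℕ, Bl p0 q0 B0 → Bl p1 q1 B1 → Bl p2 q2 B2 → Bl p3 q3 B3 →
      Bl p4 q4 B4 → adv e0 e1 e2 e3 e4 l0 l1 l2 l3 l4 n B0 B1 B2 B3 B4 = true →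
      ∃ g0 g1 g2 g3 g4, Good e0 e1 e2 e3 e4 l0 l1 l2 l3 l4 p0 p1 p2 p3 p4 q0 q1 q2 q3 q4
        g0 g1 g2 g3 g4 := by
  induction n with
  | zero =>
    intro B0 B1 B2 B3 B4 _ _ _ _ _ h
    cases h
  | succ n ih =>
    intro B0 B1 B2 B3 B4 b0 b1 b2 b3 b4 h
    rw [adv] at h
    split at h
    · cases h
    · rename_i g0 g1 g2 g3 g4 hfind
      obtain ⟨m0, m1, m2, m3, m4, f0, f1, f2, f3, f4, d0, d1, d2, d3, d4⟩ := findG_spec hfind
      obtain ⟨a0, a1, a2, a3, a4, a5⟩ := mem_lst m0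
      obtain ⟨c0, c1, c2, c3, c4, c5⟩ := mem_lst m1
      obtain ⟨j0, j1, j2, j3, j4, j5⟩ := mem_lst m2
      obtain ⟨k0, k1, k2, k3, k4, k5⟩ := mem_lst m3
      obtain ⟨t0, t1, t2, t3, t4, t5⟩ := mem_lst m4
      simp only [Bool.and_eq_true, Bool.or_eq_true, evb_iff] at h
      obtain ⟨⟨⟨⟨h0, h1⟩, h2⟩, h3⟩, h4⟩ := h
      have ne : ∀ {a b : ℕ}, Even a → Odd b → a ≠ b := by
        rintro a b ha hb rfl
        exact (Nat.not_odd_iff_even.mpr ha) hb
      by_cases w0 : g0 = p0 ∨ g0 = q0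
      · rcases h0 with (h0 | h0) | h0
        · rcases w0 with w | w
          · exact absurd w (ne h0 hp0)
          · exact absurd w (ne h0 hq0)
        · have := Bl_full b0 h0 a5
          omega
        · exact ih _ _ _ _ _ (Bl_cons b0 w0 a5) b1 b2 b3 b4 h0
      by_cases w1 : g1 = p1 ∨ g1 = q1
      · rcases h1 with (h1 | h1) | h1
        · rcases w1 with w | w
          · exact absurd w (ne h1 hp1)
          · exact absurd w (ne h1 hq1)
        · have := Bl_full b1 h1 c5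
          omega
        · exact ih _ _ _ _ _ b0 (Bl_cons b1 w1 c5) b2 b3 b4 h1
      by_cases w2 : g2 = p2 ∨ g2 = q2
      · rcases h2 with (h2 | h2) | h2
        · rcases w2 with w | w
          · exact absurd w (ne h2 hp2)
          · exact absurd w (ne h2 hq2)
        · have := Bl_full b2 h2 j5
          omega
        · exact ih _ _ _ _ _ b0 b1 (Bl_cons b2 w2 j5) b3 b4 h2
      by_cases w3 : g3 = p3 ∨ g3 = q3
      · rcases h3 with (h3 | h3) | h3
        · rcases w3 with w | w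
          · exact absurd w (ne h3 hp3)
          · exact absurd w (ne h3 hq3)
        · have := Bl_full b3 h3 k5
          omega
        · exact ih _ _ _ _ _ b0 b1 b2 (Bl_cons b3 w3 k5) b4 h3
      by_cases w4 : g4 = p4 ∨ g4 = q4
      · rcases h4 with (h4 | h4) | h4
        · rcases w4 with w | w
          · exact absurd w (ne h4 hp4)
          · exact absurd w (ne h4 hq4)
        · have := Bl_full b4 h4 t5
          omega
        · exact ih _ _ _ _ _ b0 b1 b2 b3 (Bl_cons b4 w4 t5) h4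
      rw [not_or] at w0 w1 w2 w3 w4
      exact ⟨g0, g1, g2, g3, g4, ⟨a0, c0, j0, k0, t0⟩, ⟨f0, f1, f2, f3, f4⟩,
        ⟨d0, d1, d2, d3, d4⟩, ⟨a1, c1, j1, k1, t1⟩, ⟨a2, c2, j2, k2, t2⟩,
        ⟨a3, c3, j3, k3, t3⟩, ⟨w0, w1, w2, w3, w4⟩, ⟨a4, c4, j4, k4, t4⟩⟩

/-- absent -/
def ab (l : ℕ) : Bool := Nat.beq l 21

/-- the outer labels -/
def outs : List ℕ := [1, 3, 5, 7, 9, 21]

/-- the check for given `l0`, `l1` -/
def chk (l0 l1 : ℕ) : Bool :=
  outs.all fun l2 => outs.all fun l3 => outs.all fun l4 =>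
    adv (ab l0 || ab l1 || ab l4) (ab l1 || ab l2 || ab l0) (ab l2 || ab l3 || ab l1)
      (ab l3 || ab l4 || ab l2) (ab l4 || ab l0 || ab l3) l0 l1 l2 l3 l4 11 [] [] [] [] []

theorem chk_1_1 : chk 1 1 = true := by decide +kernel
theorem chk_1_3 : chk 1 3 = true := by decide +kernel
theorem chk_1_5 : chk 1 5 = true := by decide +kernel
theorem chk_1_7 : chk 1 7 = true := by decide +kernel
theorem chk_1_9 : chk 1 9 = true := by decide +kernel
theorem chk_1_21 : chk 1 21 = true := by decide +kernel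
theorem chk_3_1 : chk 3 1 = true := by decide +kernel
theorem chk_3_3 : chk 3 3 = true := by decide +kernel
theorem chk_3_5 : chk 3 5 = true := by decide +kernel
theorem chk_3_7 : chk 3 7 = true := by decide +kernel
theorem chk_3_9 : chk 3 9 = true := by decide +kernel
theorem chk_3_21 : chk 3 21 = true := by decide +kernel
theorem chk_5_1 : chk 5 1 = true := by decide +kernel
theorem chk_5_3 : chk 5 3 = true := by decide +kernel
theorem chk_5_5 : chk 5 5 = true := by decide +kernel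
theorem chk_5_7 : chk 5 7 = true := by decide +kernel
theorem chk_5_9 : chk 5 9 = true := by decide +kernel
theorem chk_5_21 : chk 5 21 = true := by decide +kernel
theorem chk_7_1 : chk 7 1 = true := by decide +kernel
theorem chk_7_3 : chk 7 3 = true := by decide +kernel
theorem chk_7_5 : chk 7 5 = true := by decide +kernel
theorem chk_7_7 : chk 7 7 = true := by decide +kernel
theorem chk_7_9 : chk 7 9 = true := by decide +kernel
theorem chk_7_21 : chk 7 21 = true := by decide +kernel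
theorem chk_9_1 : chk 9 1 = true := by decide +kernel
theorem chk_9_3 : chk 9 3 = true := by decide +kernel
theorem chk_9_5 : chk 9 5 = true := by decide +kernel
theorem chk_9_7 : chk 9 7 = true := by decide +kernel
theorem chk_9_9 : chk 9 9 = true := by decide +kernel
theorem chk_9_21 : chk 9 21 = true := by decide +kernel
theorem chk_21_1 : chk 21 1 = true := by decide +kernel
theorem chk_21_3 : chk 21 3 = true := by decide +kernel
theorem chk_21_5 : chk 21 5 = true := by decide +kernel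
theorem chk_21_7 : chk 21 7 = true := by decide +kernel
theorem chk_21_9 : chk 21 9 = true := by decide +kernel
theorem chk_21_21 : chk 21 21 = true := by decide +kernel

theorem chk_r1 : ∀ l1 ∈ outs, chk 1 l1 = true :=
  List.forall_mem_cons.2 ⟨chk_1_1,
  List.forall_mem_cons.2 ⟨chk_1_3,
  List.forall_mem_cons.2 ⟨chk_1_5,
  List.forall_mem_cons.2 ⟨chk_1_7,
  List.forall_mem_cons.2 ⟨chk_1_9,
  List.forall_mem_cons.2 ⟨chk_1_21,
  List.forall_mem_nil _⟩⟩⟩⟩⟩⟩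

theorem chk_r3 : ∀ l1 ∈ outs, chk 3 l1 = true :=
  List.forall_mem_cons.2 ⟨chk_3_1,
  List.forall_mem_cons.2 ⟨chk_3_3,
  List.forall_mem_cons.2 ⟨chk_3_5,
  List.forall_mem_cons.2 ⟨chk_3_7,
  List.forall_mem_cons.2 ⟨chk_3_9,
  List.forall_mem_cons.2 ⟨chk_3_21,
  List.forall_mem_nil _⟩⟩⟩⟩⟩⟩

theorem chk_r5 : ∀ l1 ∈ outs, chk 5 l1 = true :=
  List.forall_mem_cons.2 ⟨chk_5_1,
  List.forall_mem_cons.2 ⟨chk_5_3,
  List.forall_mem_cons.2 ⟨chk_5_5,
  List.forall_mem_cons.2 ⟨chk_5_7,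
  List.forall_mem_cons.2 ⟨chk_5_9,
  List.forall_mem_cons.2 ⟨chk_5_21,
  List.forall_mem_nil _⟩⟩⟩⟩⟩⟩

theorem chk_r7 : ∀ l1 ∈ outs, chk 7 l1 = true :=
  List.forall_mem_cons.2 ⟨chk_7_1,
  List.forall_mem_cons.2 ⟨chk_7_3,
  List.forall_mem_cons.2 ⟨chk_7_5,
  List.forall_mem_cons.2 ⟨chk_7_7,
  List.forall_mem_cons.2 ⟨chk_7_9,
  List.forall_mem_cons.2 ⟨chk_7_21,
  List.forall_mem_nil _⟩⟩⟩⟩⟩⟩

theorem chk_r9 : ∀ l1 ∈ outs, chk 9 l1 = true :=
  List.forall_mem_cons.2 ⟨chk_9_1,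
  List.forall_mem_cons.2 ⟨chk_9_3,
  List.forall_mem_cons.2 ⟨chk_9_5,
  List.forall_mem_cons.2 ⟨chk_9_7,
  List.forall_mem_cons.2 ⟨chk_9_9,
  List.forall_mem_cons.2 ⟨chk_9_21,
  List.forall_mem_nil _⟩⟩⟩⟩⟩⟩

theorem chk_r21 : ∀ l1 ∈ outs, chk 21 l1 = true :=
  List.forall_mem_cons.2 ⟨chk_21_1,
  List.forall_mem_cons.2 ⟨chk_21_3,
  List.forall_mem_cons.2 ⟨chk_21_5,
  List.forall_mem_cons.2 ⟨chk_21_7,
  List.forall_mem_cons.2 ⟨chk_21_9,
  List.forall_mem_cons.2 ⟨chk_21_21,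
  List.forall_mem_nil _⟩⟩⟩⟩⟩⟩

theorem chk_rr : ∀ l0 ∈ outs, ∀ l1 ∈ outs, chk l0 l1 = true :=
  List.forall_mem_cons.2 ⟨chk_r1,
  List.forall_mem_cons.2 ⟨chk_r3,
  List.forall_mem_cons.2 ⟨chk_r5,
  List.forall_mem_cons.2 ⟨chk_r7,
  List.forall_mem_cons.2 ⟨chk_r9,
  List.forall_mem_cons.2 ⟨chk_r21,
  List.forall_mem_nil _⟩⟩⟩⟩⟩⟩

theorem chk_all : (outs.all fun l0 => outs.all fun l1 => chk l0 l1) = true := by
  rw [List.all_eq_true]
  intro l0 h0
  rw [List.all_eq_true]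
  intro l1 h1
  exact chk_rr l0 h0 l1 h1

theorem mem_outs {l : ℕ} (h : Odd l) (h9 : l ≤ 9 ∨ l = 21) : l ∈ outs := by
  unfold outs
  rcases h9 with h9 | h9
  · obtain ⟨k, rfl⟩ := h
    have : k ≤ 4 := by omega
    interval_cases k <;> simp
  · simp [h9]

/-- **The five-cycle labelled last.**  `l i` is the (odd) label of the outer neighbour `u_i`
(`21` if `u_i` is absent or unlabelled), `p i`, `q i` are the (odd) labels of the other two
neighbours of `u_i`. -/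
theorem c5_last (l p q : Fin 5 → ℕ) (hl : ∀ i, Odd (l i)) (hl9 : ∀ i, l i ≤ 9 ∨ l i = 21)
    (hp : ∀ i, Odd (p i)) (hq : ∀ i, Odd (q i)) :
    ∃ g : Fin 5 → ℕ, (∀ i, g i ≤ 9) ∧ (∀ i, g i + 2 ≤ g (i + 1) ∨ g (i + 1) + 2 ≤ g i) ∧
      (∀ i, g i ≠ g (i + 2)) ∧ (∀ i, g i + 2 ≤ l i ∨ l i + 2 ≤ g i) ∧
      (∀ i, g (i + 1) ≠ l i) ∧ (∀ i, g i ≠ l (i + 1)) ∧ (∀ i, g i ≠ p i ∧ g i ≠ q i) ∧
      (∀ i, l i = 21 → Even (g i) ∧ Even (g (i + 1)) ∧ Even (g (i + 4))) := by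
  have h := chk_all
  rw [List.all_eq_true] at h
  have h1 := h _ (mem_outs (hl 0) (hl9 0))
  rw [List.all_eq_true] at h1
  have h2 := h1 _ (mem_outs (hl 1) (hl9 1))
  unfold chk at h2
  rw [List.all_eq_true] at h2
  have h3 := h2 _ (mem_outs (hl 2) (hl9 2))
  rw [List.all_eq_true] at h3
  have h4 := h3 _ (mem_outs (hl 3) (hl9 3))
  rw [List.all_eq_true] at h4
  have h5 := h4 _ (mem_outs (hl 4) (hl9 4))
  have hnil : ∀ a b : ℕ, Bl a b [] := fun a b => ⟨List.nodup_nil, by simp⟩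
  obtain ⟨g0, g1, g2, g3, g4, ⟨k0, k1, k2, k3, k4⟩, ⟨f0, f1, f2, f3, f4⟩, ⟨d0, d1, d2, d3, d4⟩,
    ⟨a0, a1, a2, a3, a4⟩, ⟨b0, b1, b2, b3, b4⟩, ⟨c0, c1, c2, c3, c4⟩, ⟨w0, w1, w2, w3, w4⟩,
    ⟨e0, e1, e2, e3, e4⟩⟩ := adv_sound _ _ _ _ _ _ _ _ _ _ (p 0) (p 1) (p 2) (p 3) (p 4)
      (q 0) (q 1) (q 2) (q 3) (q 4) (hp 0) (hp 1) (hp 2) (hp 3) (hp 4) (hq 0) (hq 1) (hq 2)
      (hq 3) (hq 4) 11 [] [] [] [] [] (hnil _ _) (hnil _ _) (hnil _ _) (hnil _ _) (hnil _ _) h5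
  rw [far_iff] at f0 f1 f2 f3 f4 a0 a1 a2 a3 a4
  have hab : ∀ {x : ℕ}, x = 21 → ab x = true := by
    rintro x rfl
    rfl
  refine ⟨![g0, g1, g2, g3, g4], ?_, ?_, ?_, ?_, ?_, ?_, ?_, ?_⟩
  · intro i
    fin_cases i
    exacts [k0, k1, k2, k3, k4]
  · intro i
    fin_cases i
    exacts [f0, f1, f2, f3, f4]
  · intro i
    fin_cases i
    exacts [d0, d1, d2, d3, d4]
  · intro i
    fin_cases i
    exacts [a0, a1, a2, a3, a4]
  · intro i
    fin_cases i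
    exacts [b1, b2, b3, b4, b0]
  · intro i
    fin_cases i
    exacts [c0, c1, c2, c3, c4]
  · intro i
    fin_cases i
    exacts [w0, w1, w2, w3, w4]
  · intro i hi
    fin_cases i
    · have hi' : ab (l 0) = true := hab hi
      exact ⟨e0 (by simp [hi']), e1 (by simp [hi']), e4 (by simp [hi'])⟩
    · have hi' : ab (l 1) = true := hab hi
      exact ⟨e1 (by simp [hi']), e2 (by simp [hi']), e0 (by simp [hi'])⟩
    · have hi' : ab (l 2) = true := hab hi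
      exact ⟨e2 (by simp [hi']), e3 (by simp [hi']), e1 (by simp [hi'])⟩
    · have hi' : ab (l 3) = true := hab hi
      exact ⟨e3 (by simp [hi']), e4 (by simp [hi']), e2 (by simp [hi'])⟩
    · have hi' : ab (l 4) = true := hab hi
      exact ⟨e4 (by simp [hi']), e0 (by simp [hi']), e3 (by simp [hi'])⟩

end Pool.Agent.helper40.L9
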