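import Pool.Agent.helper40.L9.ParLast
import Pool.Agent.helper42.L9.World
import Pool.Agent.helper58.L9.Engine

/-!
# Tools for instances of the parity-last framework

`Setting G X S R`: maximal degree three, the sets `S i` are pairwise disjoint, the artificial pairs
`R i` are a symmetric matching inside the sides, outside `S i`, and each vertex of an `R i`-pair
has a neighbour in `S i`.

`Free G X S R i T f v g`: the label `g` of `v ∈ S i` is compatible with the outer labels `f`.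
Slot lemmas: an outer neighbour `w` of `v` on the side of `v` blocks (itself or by an artificial
pair) at most one label, an outer neighbour on the other side at most two labels.
-/

set_option autoImplicit false

namespace Pool.Agent.helper40.L9

open Finset
open scoped Classical
open Pool.Agent.helper58.L9 (Q)

variable {V : Type*}

structure Setting {ι : Type*} [Fintype V] (G : SimpleGraph V) (X : V → Prop)
    (S : ι → V → Prop) (R : ι → V → V → Prop) : Prop where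
  deg : ∀ v, (univ.filter fun b => G.Adj v b).card ≤ 3
  disj : ∀ i j, i ≠ j → ∀ v, S i v → ¬ S j v
  rsymm : ∀ i u v, R i u v → R i v u
  rne : ∀ i v, ¬ R i v v
  rside : ∀ i u v, R i u v → (X u ↔ X v)
  rout : ∀ i u v, R i u v → ¬ S i u
  rnbr : ∀ i u v, R i u v → ∃ w, G.Adj u w ∧ S i w
  runiq : ∀ i u v v', R i u v → R i u v' → v = v'

variable {ι : Type*} [Fintype V] {G : SimpleGraph V} {X : V → Prop} {S : ι → V → Prop}
  {R : ι → V → V → Prop}

/-- reflection of the sides -/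
theorem Setting.refl (h : Setting G X S R) : Setting G (fun v => ¬ X v) S R := by
  refine ⟨h.deg, h.disj, h.rsymm, h.rne, ?_, h.rout, h.rnbr, h.runiq⟩
  intro i u v huv
  have := h.rside i u v huv
  tauto

omit [Fintype V] in
theorem Q_refl {u v : V} : Q G (fun v => ¬ X v) u v ↔ Q G X u v := by
  unfold Q
  constructor
  · rintro ⟨h1, h2, h3⟩
    exact ⟨h1, by tauto, h3⟩
  · rintro ⟨h1, h2, h3⟩
    exact ⟨h1, by tauto, h3⟩

omit [Fintype V] in
theorem Q_refl' : Q G (fun v => ¬ X v) = Q G X := by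
  funext u v
  exact propext Q_refl

/-- the outer labelling seen from `S i` -/
structure Outer (G : SimpleGraph V) (X : V → Prop) (S : ι → V → Prop) (R : ι → V → V → Prop)
    (i : ι) (T : Finset ι) (f : V → ℕ) : Prop where
  mem : i ∈ T
  lab : ∀ u, ¬ S i u → (f u ≤ 9 ∧ (X u ↔ Even (f u))) ∨ 100 ≤ f u
  un : ∀ j ∈ T, j ≠ i → ∀ v, S j v → 100 ≤ f v
  q : ∀ u v, ¬ S i u → ¬ S i v → Q G X u v → f u ≠ f v
  r : ∀ j ∈ T, ∀ u v, ¬ S i u → ¬ S i v → R j u v → f u ≠ f v
  cross : ∀ u v, ¬ S i u → ¬ S i v → G.Adj u v → ¬ (X u ↔ X v) → f u + 1 ≠ f v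

/-- the label `g` of `v` is compatible with the outside -/
structure Free (G : SimpleGraph V) (X : V → Prop) (S : ι → V → Prop) (R : ι → V → V → Prop)
    (i : ι) (T : Finset ι) (f : V → ℕ) (v : V) (g : ℕ) : Prop where
  q : ∀ u, ¬ S i u → Q G X v u → g ≠ f u
  r : ∀ j ∈ T, j ≠ i → ∀ u, ¬ S i u → R j v u → g ≠ f u
  cross : ∀ w, ¬ S i w → G.Adj v w → ¬ (X v ↔ X w) → g + 1 ≠ f w ∧ f w + 1 ≠ g

/-- **Instance form.** -/
theorem ext_inst (hS : Setting G X S R) (i : ι) {m : ℕ} (s : Fin m → V)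
    (hinj : Function.Injective s) (hs : ∀ v, S i v ↔ ∃ k, s k = v)
    (H : ∀ (T : Finset ι) (f : V → ℕ), Outer G X S R i T f →
      ∃ g : Fin m → ℕ, (∀ k, g k ≤ 9) ∧ (∀ k, X (s k) ↔ Even (g k)) ∧
        (∀ k, Free G X S R i T f (s k) (g k)) ∧
        (∀ k l, Q G X (s k) (s l) → g k ≠ g l) ∧
        (∀ j ∈ T, j ≠ i → ∀ k l, R j (s k) (s l) → g k ≠ g l) ∧
        (∀ k l, G.Adj (s k) (s l) → ¬ (X (s k) ↔ X (s l)) → g k + 1 ≠ g l)) :
    Ext G.Adj (Q G X) X S R i := by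
  refine ext_list (fun _ _ h => h.symm) (fun _ _ h => Pool.Agent.helper58.L9.Q_symm h)
    (fun v h => h.1 rfl) hS.rsymm hS.rne i (fun j hj v h1 => hS.disj i j (Ne.symm hj) v h1) s hinj
    hs ?_
  intro T f h1 h2 h3 h4 h5 h6
  obtain ⟨g, g1, g2, g3, g4, g5, g6⟩ := H T f ⟨h1, h2, h3, h4, h5, h6⟩
  exact ⟨g, g1, g2, fun k u hu hq => (g3 k).q u hu hq,
    fun j hj hji k u hu hr => (g3 k).r j hj hji u hu hr,
    fun k w hw ha hX => (g3 k).cross w hw ha hX, g4, g5, g6⟩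

/-- an outer neighbour `w` on the own side: it blocks one label, itself or by the artificial
pair of its set -/
theorem slot_own (hS : Setting G X S R) {i : ι} {T : Finset ι} {f : V → ℕ}
    (hO : Outer G X S R i T f) (v w : V) :
    ∃ a : ℕ, ∀ g, g ≤ 9 → g ≠ a → g ≠ f w ∧
      ∀ j ∈ T, j ≠ i → S j w → ∀ u, R j v u → g ≠ f u := by
  by_cases h : ∃ j ∈ T, j ≠ i ∧ S j w
  · obtain ⟨j, hj, hji, hw⟩ := h
    have h100 := hO.un j hj hji w hw
    by_cases hu : ∃ u, R j v u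
    · obtain ⟨u, hu⟩ := hu
      refine ⟨f u, fun g hg hga => ⟨by omega, ?_⟩⟩
      intro j' hj' _ hw' u' hu'
      have : j' = j := by
        by_contra hne
        exact hS.disj j' j hne w hw' hw
      subst this
      rw [hS.runiq j' v u' u hu' hu]
      exact hga
    · refine ⟨0, fun g hg _ => ⟨by omega, ?_⟩⟩
      intro j' hj' _ hw' u' hu'
      have : j' = j := by
        by_contra hne
        exact hS.disj j' j hne w hw' hw
      subst this
      exact absurd ⟨u', hu'⟩ hu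
  · refine ⟨f w, fun g _ hga => ⟨hga, ?_⟩⟩
    intro j hj hji hw u _
    exact absurd ⟨j, hj, hji, hw⟩ h

/-- an outer neighbour `w` on the other side blocks two labels -/
theorem slot_cross (hS : Setting G X S R) {i : ι} {T : Finset ι} {f : V → ℕ}
    (hO : Outer G X S R i T f) (v w : V) :
    ∃ a b : ℕ, ∀ g, g ≤ 9 → g ≠ a → g ≠ b → (g + 1 ≠ f w ∧ f w + 1 ≠ g) ∧
      ∀ j ∈ T, j ≠ i → S j w → ∀ u, R j v u → g ≠ f u := by
  by_cases h : ∃ j ∈ T, j ≠ i ∧ S j w
  · obtain ⟨j, hj, hji, hw⟩ := h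
    have h100 := hO.un j hj hji w hw
    by_cases hu : ∃ u, R j v u
    · obtain ⟨u, hu⟩ := hu
      refine ⟨f u, f u, fun g hg hga _ => ⟨by omega, ?_⟩⟩
      intro j' hj' _ hw' u' hu'
      have : j' = j := by
        by_contra hne
        exact hS.disj j' j hne w hw' hw
      subst this
      rw [hS.runiq j' v u' u hu' hu]
      exact hga
    · refine ⟨0, 0, fun g hg _ _ => ⟨by omega, ?_⟩⟩
      intro j' hj' _ hw' u' hu'
      have : j' = j := by
        by_contra hne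
        exact hS.disj j' j hne w hw' hw
      subst this
      exact absurd ⟨u', hu'⟩ hu
  · refine ⟨f w + 1, f w - 1, fun g _ hga hgb => ⟨⟨by omega, by omega⟩, ?_⟩⟩
    intro j hj hji hw u _
    exact absurd ⟨j, hj, hji, hw⟩ h

/-- the artificial pairs at `v` come from outer neighbours -/
theorem r_nbr (hS : Setting G X S R) {i j : ι} (hji : j ≠ i) {v u : V} (h : R j v u) :
    ∃ w, G.Adj v w ∧ ¬ S i w ∧ S j w := by
  obtain ⟨w, h1, h2⟩ := hS.rnbr j v u h
  exact ⟨w, h1, hS.disj j i hji w h2, h2⟩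

/-- a vertex which sees nothing outside: all neighbours are in `S i`, and so are their further
neighbours on the side of `v` -/
theorem free_inner (hS : Setting G X S R) {i : ι} {T : Finset ι} {f : V → ℕ}
    {v : V} (h1 : ∀ w, G.Adj v w → S i w)
    (h2 : ∀ w, G.Adj v w → ∀ u, G.Adj w u → (X u ↔ X v) → u ≠ v → S i u) (g : ℕ) :
    Free G X S R i T f v g := by
  refine ⟨?_, ?_, ?_⟩
  · rintro u hu ⟨hne, hX, ha | ⟨w, ha, hb⟩⟩
    · exact absurd (h1 u ha) hu
    · exact absurd (h2 w ha u hb hX.symm hne.symm) hu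
  · intro j _ hji u _ hr
    obtain ⟨w, k1, k2, _⟩ := r_nbr hS hji hr
    exact absurd (h1 w k1) k2
  · intro w hw ha _
    exact absurd (h1 w ha) hw

/-- a vertex `v` with one outer neighbour, on the own side, which has at most one further
neighbour on this side -/
theorem free_own (hS : Setting G X S R) {i : ι} {T : Finset ι} {f : V → ℕ}
    (hO : Outer G X S R i T f) {v : V}
    (h1 : ∀ w w', G.Adj v w → G.Adj v w' → ¬ S i w → ¬ S i w' → w = w')
    (h1' : ∀ w, G.Adj v w → ¬ S i w → (X w ↔ X v))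
    (h2 : ∀ w, G.Adj v w → S i w → ∀ u, G.Adj w u → (X u ↔ X v) → u ≠ v → S i u)
    (h3 : ∀ w, G.Adj v w → ¬ S i w → ∀ u u', G.Adj w u → G.Adj w u' → (X u ↔ X v) →
      (X u' ↔ X v) → u ≠ v → u' ≠ v → u = u') :
    ∃ a b : ℕ, ∀ g, g ≤ 9 → g ≠ a → g ≠ b → Free G X S R i T f v g := by
  by_cases hw : ∃ w, G.Adj v w ∧ ¬ S i w
  · obtain ⟨w, w1, w2⟩ := hw
    obtain ⟨a, ha⟩ := slot_own hS hO v w
    have hc : ∃ b : ℕ, ∀ u, G.Adj w u → (X u ↔ X v) → u ≠ v → f u = b := by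
      by_cases hu : ∃ u, G.Adj w u ∧ (X u ↔ X v) ∧ u ≠ v
      · obtain ⟨u, u1, u2, u3⟩ := hu
        refine ⟨f u, fun u' u1' u2' u3' => ?_⟩
        rw [h3 w w1 w2 u u' u1 u1' u2 u2' u3 u3']
      · refine ⟨0, fun u' u1' u2' u3' => ?_⟩
        exact absurd ⟨u', u1', u2', u3'⟩ hu
    obtain ⟨b, hb⟩ := hc
    refine ⟨a, b, fun g hg hga hgb => ⟨?_, ?_, ?_⟩⟩
    · rintro u hu ⟨hne, hX, k1 | ⟨w', k1, k2⟩⟩
      · rw [h1 u w k1 w1 hu w2]
        exact (ha g hg hga).1
      · by_cases hw' : S i w'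
        · exact absurd (h2 w' k1 hw' u k2 hX.symm hne.symm) hu
        · have := h1 w' w k1 w1 hw' w2
          subst this
          rw [hb u k2 hX.symm hne.symm]
          exact hgb
    · intro j hj hji u hu hr
      obtain ⟨w', k1, k2, k3⟩ := r_nbr hS hji hr
      have := h1 w' w k1 w1 k2 w2
      subst this
      exact (ha g hg hga).2 j hj hji k3 u hr
    · intro w' hw' k1 k2
      exact absurd (h1' w' k1 hw').symm k2
  · refine ⟨0, 0, fun g _ _ _ => free_inner hS ?_ ?_ g⟩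
    · intro w hw1
      by_contra hw2
      exact hw ⟨w, hw1, hw2⟩
    · intro w hw1 u hu hX hne
      by_cases hw2 : S i w
      · exact h2 w hw1 hw2 u hu hX hne
      · exact absurd ⟨w, hw1, hw2⟩ hw

/-- like `free_own`; moreover only one label is blocked if there is no outer neighbour, or if the
outer neighbour has a further neighbour in `S i` on the side of `v`, or if `v` has an artificial
partner in `S i` -/
theorem free_own' (hS : Setting G X S R) {i : ι} {T : Finset ι} {f : V → ℕ}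
    (hO : Outer G X S R i T f) {v : V}
    (h1 : ∀ w w', G.Adj v w → G.Adj v w' → ¬ S i w → ¬ S i w' → w = w')
    (h1' : ∀ w, G.Adj v w → ¬ S i w → (X w ↔ X v))
    (h2 : ∀ w, G.Adj v w → S i w → ∀ u, G.Adj w u → (X u ↔ X v) → u ≠ v → S i u)
    (h3 : ∀ w, G.Adj v w → ¬ S i w → ∀ u u', G.Adj w u → G.Adj w u' → (X u ↔ X v) →
      (X u' ↔ X v) → u ≠ v → u' ≠ v → u = u') :
    ∃ a b : ℕ, (∀ g, g ≤ 9 → g ≠ a → g ≠ b → Free G X S R i T f v g) ∧
      ((∀ w, G.Adj v w → S i w) → a = b) ∧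
      ((∃ w y, ¬ S i w ∧ G.Adj v w ∧ G.Adj w y ∧ S i y ∧ y ≠ v ∧ (X y ↔ X v)) → a = b) ∧
      ((∃ j ∈ T, j ≠ i ∧ ∃ y, S i y ∧ R j v y) → a = b) := by
  by_cases hw : ∃ w, G.Adj v w ∧ ¬ S i w
  · obtain ⟨w, w1, w2⟩ := hw
    -- the slot of `w`
    have hslot : ∃ a : ℕ, ∀ g, g ≤ 9 → (g ≠ a ∨ ∃ j ∈ T, j ≠ i ∧ ∃ y, S i y ∧ R j v y) →
        g ≠ f w ∧ ∀ j ∈ T, j ≠ i → S j w → ∀ u, ¬ S i u → R j v u → g ≠ f u := by
      by_cases hd : ∃ j ∈ T, j ≠ i ∧ ∃ y, S i y ∧ R j v y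
      · obtain ⟨j, hj, hji, y, hy, hry⟩ := hd
        refine ⟨0, fun g hg _ => ?_⟩
        obtain ⟨w', k1, k2, k3⟩ := r_nbr hS hji hry
        have := h1 w' w k1 w1 k2 w2
        subst this
        have h100 := hO.un j hj hji w' k3
        refine ⟨by omega, ?_⟩
        intro j' hj' hji' hw' u hu hru
        have : j' = j := by
          by_contra hne
          exact hS.disj j' j hne w' hw' k3
        subst this
        rw [hS.runiq j' v u y hru hry] at hu
        exact absurd hy hu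
      · obtain ⟨a, ha⟩ := slot_own hS hO v w
        refine ⟨a, fun g hg h => ?_⟩
        rcases h with h | h
        · exact ⟨(ha g hg h).1, fun j hj hji hw u _ hr => (ha g hg h).2 j hj hji hw u hr⟩
        · exact absurd h hd
    obtain ⟨a, ha⟩ := hslot
    -- the further neighbour
    have hc : (∃ b : ℕ, ∀ u, G.Adj w u → ¬ S i u → (X u ↔ X v) → u ≠ v → f u = b) := by
      by_cases hu : ∃ u, G.Adj w u ∧ ¬ S i u ∧ (X u ↔ X v) ∧ u ≠ v
      · obtain ⟨u, u1, u0, u2, u3⟩ := hu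
        refine ⟨f u, fun u' u1' _ u2' u3' => ?_⟩
        rw [h3 w w1 w2 u u' u1 u1' u2 u2' u3 u3']
      · refine ⟨0, fun u' u1' u0' u2' u3' => ?_⟩
        exact absurd ⟨u', u1', u0', u2', u3'⟩ hu
    obtain ⟨b, hb⟩ := hc
    have main : ∀ g, g ≤ 9 → (g ≠ a ∨ ∃ j ∈ T, j ≠ i ∧ ∃ y, S i y ∧ R j v y) →
        (g ≠ b ∨ ∀ u, G.Adj w u → ¬ S i u → (X u ↔ X v) → u ≠ v → False) →
        Free G X S R i T f v g := by
      intro g hg hga hgb
      refine ⟨?_, ?_, ?_⟩
      · rintro u hu ⟨hne, hX, k1 | ⟨w', k1, k2⟩⟩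
        · rw [h1 u w k1 w1 hu w2]
          exact (ha g hg hga).1
        · by_cases hw' : S i w'
          · exact absurd (h2 w' k1 hw' u k2 hX.symm hne.symm) hu
          · have := h1 w' w k1 w1 hw' w2
            subst this
            rcases hgb with hgb | hgb
            · rw [hb u k2 hu hX.symm hne.symm]
              exact hgb
            · exact (hgb u k2 hu hX.symm hne.symm).elim
      · intro j hj hji u hu hr
        obtain ⟨w', k1, k2, k3⟩ := r_nbr hS hji hr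
        have := h1 w' w k1 w1 k2 w2
        subst this
        exact (ha g hg hga).2 j hj hji k3 u hu hr
      · intro w' hw' k1 k2
        exact absurd (h1' w' k1 hw').symm k2
    by_cases d1 : ∃ j ∈ T, j ≠ i ∧ ∃ y, S i y ∧ R j v y
    · exact ⟨b, b, fun g hg _ hgb => main g hg (Or.inr d1) (Or.inl hgb), fun _ => rfl,
        fun _ => rfl, fun _ => rfl⟩
    · by_cases d2 : ∃ w y, ¬ S i w ∧ G.Adj v w ∧ G.Adj w y ∧ S i y ∧ y ≠ v ∧ (X y ↔ X v)
      · refine ⟨a, a, fun g hg hga _ => main g hg (Or.inl hga) (Or.inr ?_), fun _ => rfl,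
          fun _ => rfl, fun _ => rfl⟩
        obtain ⟨w', y, e1, e2, e3, e4, e5, e6⟩ := d2
        have := h1 w' w e2 w1 e1 w2
        subst this
        intro u u1 u2 u3 u4
        rw [h3 w' w1 w2 u y u1 e3 u3 e6 u4 e5] at u2
        exact u2 e4
      · exact ⟨a, b, fun g hg hga hgb => main g hg (Or.inl hga) (Or.inl hgb),
          fun h => absurd (h w w1) w2, fun h => absurd h d2, fun h => absurd h d1⟩
  · refine ⟨0, 0, fun g _ _ _ => free_inner hS ?_ ?_ g, fun _ => rfl, fun _ => rfl, fun _ => rfl⟩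
    · intro w hw1
      by_contra hw2
      exact hw ⟨w, hw1, hw2⟩
    · intro w hw1 u hu hX hne
      by_cases hw2 : S i w
      · exact h2 w hw1 hw2 u hu hX hne
      · exact absurd ⟨w, hw1, hw2⟩ hw

/-- a vertex `v` with one outer neighbour, on the other side, which has no further neighbour on
the side of `v` -/
theorem free_cross (hS : Setting G X S R) {i : ι} {T : Finset ι} {f : V → ℕ}
    (hO : Outer G X S R i T f) {v : V}
    (h1 : ∀ w w', G.Adj v w → G.Adj v w' → ¬ S i w → ¬ S i w' → w = w')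
    (h1' : ∀ w, G.Adj v w → ¬ S i w → ¬ (X w ↔ X v))
    (h2 : ∀ w, G.Adj v w → ∀ u, G.Adj w u → (X u ↔ X v) → u ≠ v → S i u) :
    ∃ a b : ℕ, ∀ g, g ≤ 9 → g ≠ a → g ≠ b → Free G X S R i T f v g := by
  by_cases hw : ∃ w, G.Adj v w ∧ ¬ S i w
  · obtain ⟨w, w1, w2⟩ := hw
    obtain ⟨a, b, hab⟩ := slot_cross hS hO v w
    refine ⟨a, b, fun g hg hga hgb => ⟨?_, ?_, ?_⟩⟩
    · rintro u hu ⟨hne, hX, k1 | ⟨w', k1, k2⟩⟩
      · exact absurd hX.symm (h1' u k1 hu)
      · exact absurd (h2 w' k1 u k2 hX.symm hne.symm) hu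
    · intro j hj hji u hu hr
      obtain ⟨w', k1, k2, k3⟩ := r_nbr hS hji hr
      have := h1 w' w k1 w1 k2 w2
      subst this
      exact (hab g hg hga hgb).2 j hj hji k3 u hr
    · intro w' hw' k1 k2
      rw [h1 w' w k1 w1 hw' w2]
      exact (hab g hg hga hgb).1
  · refine ⟨0, 0, fun g _ _ _ => free_inner hS ?_ h2 g⟩
    intro w hw1
    by_contra hw2
    exact hw ⟨w, hw1, hw2⟩

/-! ### reduction of blocked pairs -/

def evs : List ℕ := [0, 2, 4, 6, 8]
def ods : List ℕ := [1, 3, 5, 7, 9]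
def evp : List (ℕ × ℕ) :=
  [(0, 2), (0, 4), (0, 6), (0, 8), (2, 4), (2, 6), (2, 8), (4, 6), (4, 8), (6, 8)]
def odp : List (ℕ × ℕ) :=
  [(1, 3), (1, 5), (1, 7), (1, 9), (3, 5), (3, 7), (3, 9), (5, 7), (5, 9), (7, 9)]

theorem evp_all : ∀ a ∈ evs, ∀ b ∈ evs, ∃ p ∈ evp, (a = p.1 ∨ a = p.2) ∧ (b = p.1 ∨ b = p.2) := by
  decide

theorem odp_all : ∀ a ∈ ods, ∀ b ∈ ods, ∃ p ∈ odp, (a = p.1 ∨ a = p.2) ∧ (b = p.1 ∨ b = p.2) := by
  decide

theorem red_ev (a b : ℕ) : ∃ p ∈ evp, ∀ g ∈ evs, g ≠ p.1 → g ≠ p.2 → g ≠ a ∧ g ≠ b := by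
  obtain ⟨a', ha', ha⟩ := block_one evs 0 (by decide) a
  obtain ⟨b', hb', hb⟩ := block_one evs 0 (by decide) b
  obtain ⟨p, hp, h⟩ := evp_all a' ha' b' hb'
  exact ⟨p, hp, fun g hg h1 h2 => ⟨ha g hg (by rcases h.1 with h | h <;> rw [h] <;> assumption),
    hb g hg (by rcases h.2 with h | h <;> rw [h] <;> assumption)⟩⟩

theorem red_od (a b : ℕ) : ∃ p ∈ odp, ∀ g ∈ ods, g ≠ p.1 → g ≠ p.2 → g ≠ a ∧ g ≠ b := by
  obtain ⟨a', ha', ha⟩ := block_one ods 1 (by decide) a
  obtain ⟨b', hb', hb⟩ := block_one ods 1 (by decide) b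
  obtain ⟨p, hp, h⟩ := odp_all a' ha' b' hb'
  exact ⟨p, hp, fun g hg h1 h2 => ⟨ha g hg (by rcases h.1 with h | h <;> rw [h] <;> assumption),
    hb g hg (by rcases h.2 with h | h <;> rw [h] <;> assumption)⟩⟩

end Pool.Agent.helper40.L9
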